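import Pool.Agent.P.MP_97b9bc_mp.S.IfaceA
import Pool.Agent.P.MP_97b9bc_mp.T.TPQ

/-! Steps CVX TOUCH SLIDE ZS UPG DNG RATIO DECAY PQP. -/

set_option autoImplicit false

namespace Pool.Agent.P.MP_97b9bc_mp.S

open Set Filter Topology Pool.Agent.P.MP_97b9bc_mp.T

theorem p_CVX :
    S_CVX := by
  intro e e1 e2 a ha j
  have mono : ∀ x y, a ≤ x → x ≤ y → (∀ r, x ≤ r → r ≤ y → 0 ≤ e2 r) → e1 x ≤ e1 y :=
    fun x y hx hxy h => neg_le_neg_iff.1 (anti' (f := fun r => -e1 r) hxy
      (fun r h1 _ => (j r (ha.trans_le (hx.trans h1))).2.fun_neg)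
      fun r h1 h2 => neg_nonpos.2 (h r h1 h2))
  refine ⟨fun c h lim => ?_, fun b hab h h0 h1 => ?_⟩
  · have h0 : ∀ x, a ≤ x → e1 x ≤ 0 := fun x hx => by
      by_contra hc
      push Not at hc
      refine not_tendsto_atTop_of_tendsto_nhds lim (tendsto_atTop_mono' _ ?_
        (tendsto_atTop_add_const_right _ (e x - e1 x * x) (tendsto_id.const_mul_atTop hc)))
      filter_upwards [eventually_ge_atTop x] with r hr
      have h4 := anti' (f := fun s => e1 x * s - e s) hr
        (fun s h1 _ => ((hasDerivAt_id' s).const_mul _).fun_sub (j s (ha.trans_le (hx.trans h1))).1)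
        (fun s h1 _ => by
          have := mono x s hx h1 fun r h2 _ => h r (hx.trans h2)
          linarith)
      simp only [id]
      linarith
    refine fun r hr => ⟨le_of_tendsto lim ?_, h0 r hr⟩
    filter_upwards [eventually_ge_atTop r] with s hs
    exact anti' hs (fun x h1 _ => (j x (ha.trans_le (hr.trans h1))).1)
      fun x h1 _ => h0 x (hr.trans h1)
  · have k : ∀ x, a ≤ x → x ≤ b → e1 x ≤ 0 := fun x h2 h3 =>
      (mono x b h2 h3 fun r h4 h5 => h r (h2.trans h4) h5).trans h1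
    exact ⟨h0.trans (anti' hab (fun x h2 _ => (j x (ha.trans_le h2)).1) k), k a le_rfl hab⟩

end Pool.Agent.P.MP_97b9bc_mp.S

namespace Pool.Agent.P.MP_97b9bc_mp.S

open Set Filter Topology Pool.Agent.P.MP_97b9bc_mp.T

theorem p_TOUCH :
    S_TOUCH := by
  intro z Q X h M M1 M2 r j hr e
  have hm := h.mpos hr
  have hn : ∀ᶠ s in 𝓝 r, 0 < s := Ioi_mem_nhds hr
  have key : M1 r = 2 * X.L r * X.m r → hb (M r) (M1 r) (M2 r) - hh X r =
      (M2 r - 2 * (hh X r + X.L r ^ 2) * X.m r) / (2 * X.m r) := fun e1 => by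
    rw [hb, e, e1]
    field_simp
    ring
  refine ⟨fun H => ?_, fun H => ?_⟩
  · have j' := (j2_m h).sub j
    obtain ⟨h1, h2⟩ := max2 (f := fun s => X.m s - M s) (H.mono fun s hs => by
      simp only [e]; linarith) (hn.mono fun s hs => (j' s hs).1) (j' r hr).2
    rw [← sub_nonneg, key (by linarith)]
    exact div_nonneg (by linarith) (by positivity)
  · have j' := j.sub (j2_m h)
    obtain ⟨h1, h2⟩ := max2 (f := fun s => M s - X.m s) (H.mono fun s hs => by
      simp only [e]; linarith) (hn.mono fun s hs => (j' s hs).1) (j' r hr).2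
    rw [← sub_nonpos, key (by linarith)]
    exact div_nonpos_of_nonpos_of_nonneg h2 (by positivity)

end Pool.Agent.P.MP_97b9bc_mp.S

namespace Pool.Agent.P.MP_97b9bc_mp.S

open Set Filter Topology Pool.Agent.P.MP_97b9bc_mp.T

theorem p_SLIDE (hTOUCH : S_TOUCH) :
    S_SLIDE := by
  intro z Q X h a B B1 B2 D D1 D2 ha jB jD D0 hBa far
  refine or_iff_not_imp_left.2 fun hn => ?_
  push Not at hn
  obtain ⟨x, hx, hBx⟩ := hn
  obtain ⟨R, hR⟩ := eventually_atTop.1 far
  obtain ⟨r, hr, hm⟩ := (isCompact_Icc (a := a) (b := max R x)).exists_isMaxOn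
    (f := fun s => (X.m s - B s) / D s) ⟨x, hx, le_max_right _ _⟩ fun s hs =>
      ((((j2_m h).cont (ha.trans_le hs.1)).sub (jB.cont (ha.trans_le hs.1))).div
        (jD.cont (ha.trans_le hs.1)) (D0 s hs.1).ne').continuousWithinAt
  set τ := (X.m r - B r) / D r with hτ
  have τ0 : 0 < τ := (div_pos (sub_pos.2 hBx) (D0 x hx)).trans_le (hm ⟨hx, le_max_right _ _⟩)
  have e : X.m r = B r + τ * D r := by
    rw [hτ, div_mul_cancel₀ _ (D0 r hr.1).ne', add_sub_cancel]
  have har : a < r := lt_of_le_of_ne hr.1 (by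
    rintro rfl
    linarith [mul_pos τ0 (D0 a le_rfl)])
  have all : ∀ s, a ≤ s → X.m s ≤ B s + τ * D s := fun s hs => by
    rcases le_total s (max R x) with h1 | h1
    · have := (div_le_iff₀ (D0 s hs)).1 (hm ⟨hs, h1⟩)
      linarith
    · linarith [hR s ((le_max_left _ _).trans h1), mul_pos τ0 (D0 s hs)]
  exact ⟨r, τ, har, τ0, e, all, (hTOUCH z Q X h _ _ _ r (jB.add (jD.smul τ)) (ha.trans har)
    e.symm).1 ((lt_mem_nhds har).mono fun s hs => all s hs.le)⟩

end Pool.Agent.P.MP_97b9bc_mp.S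

namespace Pool.Agent.P.MP_97b9bc_mp.S

open Set Filter Topology Pool.Agent.P.MP_97b9bc_mp.T

theorem p_ZS (hSLIDE : S_SLIDE) (hCVX : S_CVX) :
    S_ZS := by
  intro z Q a X Ma a1 a2 Na Mb b1 b2 Nb h hQ ha ga gb lt seg hMa hMb far
  refine (hSLIDE z Q X h a _ _ _ _ _ _ ha gb.j2 (ga.j2.sub gb.j2)
    (fun r hr => sub_pos.2 (lt r (ha.trans_le hr))) hMb far).resolve_right ?_
  rintro ⟨r, τ, har, τ0, e, all, hbd⟩
  have hr := ha.trans har
  have τ1 : τ ≤ 1 := by
    have := hMa r har.le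
    have := sub_pos.2 (lt r hr)
    nlinarith
  obtain ⟨A1, A2, jA, hA⟩ := ga.cap
  obtain ⟨B1, B2, jB, hB⟩ := gb.cap
  have cap := ((hCVX _ _ _ a ha (((jA.smul τ).add (jB.smul (1 - τ))).sub (j2_n h Q))).1 0
    (fun s hs => by
      have hs' := ha.trans_le hs
      have k1 := mul_le_mul_of_nonneg_left (hA s hs') τ0.le
      have k2 := mul_le_mul_of_nonneg_left (hB s hs') (sub_nonneg.2 τ1)
      have k3 := div_le_div_of_nonneg_right (all s hs) hs'.le
      have e : (Mb s + τ * (Ma s - Mb s)) / s = τ * (Ma s / s) + (1 - τ) * (Mb s / s) := by ring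
      linarith)
    (by simpa using ((ga.lim.const_mul τ).add (gb.lim.const_mul (1 - τ))).sub (n_lim h))
    r har.le).1
  have pa := ga.pos r hr
  have pb := gb.pos r hr
  have pm := h.mpos hr
  have e1 : 1 - τ * Ma r / X.m r = (1 - τ) * Mb r / X.m r := by
    field_simp
    linarith
  have e2 : τ * Ma r / X.m r * (Mb r / Ma r) + (1 - τ) * Mb r / X.m r = Mb r / X.m r := by
    field_simp
    ring
  have k := seg r (τ * Ma r / X.m r) (X.t r) hr (by positivity)
    (by rw [← sub_nonneg, e1]; exact div_nonneg (mul_nonneg (sub_nonneg.2 τ1) pb.le) pm.le)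
    (h.pos r hr) (by rw [e1, e2]; exact mul_div_cancel₀ _ pm.ne')
  rw [e1, e2] at k
  have e3 : r * (τ * Ma r / X.m r * (Mb r / Ma r) * Na r + (1 - τ) * Mb r / X.m r * Nb r) /
      (Mb r / X.m r) = r * (τ * Na r + (1 - τ) * Nb r) := by field_simp
  have e4 : r ^ 2 * hb (X.m r) (b1 r * Mb r / r + τ * (a1 r * Ma r / r - b1 r * Mb r / r))
      (b2 r * Mb r / r ^ 2 + τ * (a2 r * Ma r / r ^ 2 - b2 r * Mb r / r ^ 2)) =
      (τ * Ma r / X.m r * a2 r + (1 - τ) * Mb r / X.m r * b2 r) / 2 -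
        (τ * Ma r / X.m r * a1 r + (1 - τ) * Mb r / X.m r * b1 r) ^ 2 / 4 := by
    unfold hb
    field_simp
    ring
  have e5 : r ^ 2 * hh X r = r ^ 2 * X.t r ^ 2 - r * X.w r := by unfold hh; field_simp
  rw [← e] at hbd
  have k1 := mul_le_mul_of_nonneg_left hbd (sq_nonneg r)
  have k2 := mul_le_mul_of_nonneg_left cap hr.le
  have k3 := mul_le_mul_of_nonneg_left hQ hr.le
  rw [e3] at k
  rw [e4, e5] at k1
  linarith

end Pool.Agent.P.MP_97b9bc_mp.S

namespace Pool.Agent.P.MP_97b9bc_mp.S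

open Set Filter Topology Pool.Agent.P.MP_97b9bc_mp.T

theorem p_UPG (hSLIDE : S_SLIDE) (hCVX : S_CVX) (hRATIO : S_RATIO) :
    S_UPG := by
  intro z Q z' Q' a X U c c1 c2 p p1 p2 h hU hQ ha jc jp hc hp hma
  refine (hSLIDE z Q X h a _ _ _ _ _ _ ha (j2_m hU) ((j2_m hU).mul jc)
    (fun r hr => mul_pos (hU.mpos (ha.trans_le hr)) (hc r hr).1) hma
    (by simpa using hRATIO z Q z' Q' X U h hU hQ 1 one_pos)).imp_right ?_
  rintro ⟨r, τ, har, τ0, e, all, hbd⟩
  have hr := ha.trans har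
  have tU := hU.pos r hr
  have tX := h.pos r hr
  have pm := hU.mpos hr
  have c0 := mul_pos τ0 (hc r har.le).1
  have e1 : (X.t r / U.t r) ^ 3 = 1 + τ * c r := by
    rw [div_pow, div_eq_iff (by positivity)]
    refine mul_left_cancel₀ (pow_pos hr 2).ne' ?_
    unfold Q4.m at e
    linarith
  have lim : Tendsto (fun s => p s * (U.w s + Q')) atTop (𝓝 0) := by
    refine squeeze_zero_norm' ?_ (by simpa using (n_lim hU).abs.const_mul 10)
    filter_upwards [eventually_ge_atTop a] with s hs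
    rw [Real.norm_eq_abs, abs_mul]
    exact mul_le_mul_of_nonneg_right (hc s hs).2 (abs_nonneg _)
  have cap := ((hCVX _ _ _ a ha (((j2_n hU Q').add ((jp.mul (j2_n hU Q')).smul τ)).sub
    (j2_n h Q))).1 0 (fun s hs => by
      have k1 := mul_le_mul_of_nonneg_left (hp s hs) τ0.le
      have k3 := div_le_div_of_nonneg_right (all s hs) (ha.trans_le hs).le
      have e : (U.m s + τ * (U.m s * c s)) / s = U.m s / s + τ * (c s * U.m s / s) := by ring
      rw [mul_div_assoc (p s)] at k1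
      linarith)
    (by simpa using ((n_lim hU).add (lim.const_mul τ)).sub (n_lim h)) r har.le).1
  refine ⟨r, τ, X.t r / U.t r, har, τ0, lt_of_pow_lt_pow_left₀ 3 (by positivity) (by linarith), e1,
    (div_mul_cancel₀ _ tU.ne').symm, by linarith, ?_⟩
  have k := hb_mul (m := U.m r) (h := hh U r) (L := U.L r) (E := 1 + τ * c r) (E1 := τ * c1 r)
    (E2 := τ * c2 r) pm.ne' (by linarith)
  have k2 : hh X r ≤ hh U r + kin (U.L r) (1 + τ * c r) (τ * c1 r) (τ * c2 r) := by
    rw [← k]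
    refine hbd.trans_eq ?_
    congr 1 <;> ring
  rw [e1, sub_mul, ← mul_pow, div_mul_cancel₀ _ tU.ne', sub_div]
  unfold hh at k2
  linarith

end Pool.Agent.P.MP_97b9bc_mp.S

namespace Pool.Agent.P.MP_97b9bc_mp.S

open Set Filter Topology Pool.Agent.P.MP_97b9bc_mp.T

theorem p_DNG (hSLIDE : S_SLIDE) (hCVX : S_CVX) (hRATIO : S_RATIO) :
    S_DNG := by
  intro z Q z' Q' a X U c c1 c2 p p1 p2 h hU hQ ha jc jp hc hp hle hma H
  have jB := (j2_m hU).sub ((j2_m hU).mul jc)
  suffices k : ∀ r, a ≤ r → X.m r ≤ U.m r - U.m r * c r from fun r hr => by linarith [k r hr]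
  refine (hSLIDE z Q X h a _ _ _ _ _ _ ha jB ((j2_m hU).mul jc)
    (fun r hr => mul_pos (hU.mpos (ha.trans_le hr)) (hc r hr).1) (by linarith) ?_).resolve_right ?_
  · filter_upwards [hRATIO z Q z' Q' X U h hU hQ (7 / 100) (by norm_num), eventually_ge_atTop a]
      with r h1 hr
    have := mul_le_mul_of_nonneg_left (hc r hr).2.1 (hU.mpos (ha.trans_le hr)).le
    linarith
  rintro ⟨r, τ, har, τ0, e, all, hbd⟩
  have hr := ha.trans har
  have tU := hU.pos r hr
  have tX := h.pos r hr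
  have pm := hU.mpos hr
  have τ1 : 0 ≤ 1 - τ := by
    have := hle r har.le
    have := mul_pos pm (hc r har.le).1
    nlinarith
  have e1 : (X.t r / U.t r) ^ 3 = 1 - (1 - τ) * c r := by
    rw [div_pow, div_eq_iff (by positivity)]
    refine mul_left_cancel₀ (pow_pos hr 2).ne' ?_
    unfold Q4.m at e
    linarith
  have lim : Tendsto (fun s => p s * (U.w s + Q')) atTop (𝓝 0) := by
    refine squeeze_zero_norm' ?_ (by simpa using (n_lim hU).abs.const_mul 10)
    filter_upwards [eventually_ge_atTop a] with s hs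
    rw [Real.norm_eq_abs, abs_mul]
    exact mul_le_mul_of_nonneg_right (hc s hs).2.2 (abs_nonneg _)
  have cap := ((hCVX _ _ _ a ha (((j2_n hU Q').sub ((jp.mul (j2_n hU Q')).smul (1 - τ))).sub
    (j2_n h Q))).1 0 (fun s hs => by
      have k1 := mul_le_mul_of_nonneg_left (hp s hs) τ1
      have k3 := div_le_div_of_nonneg_right (all s hs) (ha.trans_le hs).le
      have e : (U.m s - U.m s * c s + τ * (U.m s * c s)) / s =
        U.m s / s - (1 - τ) * (c s * U.m s / s) := by ring
      rw [mul_div_assoc (p s)] at k1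
      linarith)
    (by simpa using ((n_lim hU).sub (lim.const_mul (1 - τ))).sub (n_lim h)) r har.le).1
  have θ0 : 0 < X.t r / U.t r := by positivity
  have k := hb_mul (m := U.m r) (h := hh U r) (L := U.L r) (E := (X.t r / U.t r) ^ 3)
    (E1 := -((1 - τ) * c1 r)) (E2 := -((1 - τ) * c2 r)) pm.ne' (by positivity)
  have k2 : hh X r ≤ hh U r +
      kin (U.L r) ((X.t r / U.t r) ^ 3) (-((1 - τ) * c1 r)) (-((1 - τ) * c2 r)) := by
    rw [← k, e1]
    refine hbd.trans_eq ?_
    congr 1 <;> ring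
  have k3 : (1 - (X.t r / U.t r) ^ 2) * U.t r ^ 2 +
      kin (U.L r) ((X.t r / U.t r) ^ 3) (-((1 - τ) * c1 r)) (-((1 - τ) * c2 r)) ≤
      (1 - τ) * p r * (U.w r + Q') / r := by
    rcases τ1.eq_or_lt with h0 | h0
    · rw [← h0, zero_mul, sub_zero] at e1
      rw [← h0, (pow_eq_one_iff_of_nonneg θ0.le three_ne_zero).1 e1]
      simp [kin]
    · exact H r _ _ har h0 (by linarith) θ0 e1
  rw [sub_mul, ← mul_pow, div_mul_cancel₀ _ tU.ne'] at k3
  have k4 : (1 - τ) * p r * (U.w r + Q') / r < (U.w r - X.w r) / r :=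
    div_lt_div_of_pos_right (by linarith) hr
  rw [sub_div] at k4
  unfold hh at k2
  linarith

end Pool.Agent.P.MP_97b9bc_mp.S

namespace Pool.Agent.P.MP_97b9bc_mp.S

open Set Filter Topology Pool.Agent.P.MP_97b9bc_mp.T

theorem p_RATIO (hEND : S_END) :
    S_RATIO := by
  intro z Q z' Q' X U h hU hQ ε hε
  obtain ⟨mX, -, K, hK⟩ := hEND z Q X h
  obtain ⟨mU, -, K', hK'⟩ := hEND z' Q' U hU
  have K0 : 0 ≤ K + K' := add_nonneg ((abs_nonneg _).trans (hK 1 le_rfl).1)
    ((abs_nonneg _).trans (hK' 1 le_rfl).1)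
  set d := Q - Q' with hd
  have d0 : 0 < d := sub_pos.2 hQ
  set η := d / 4 / (K + K' + 1) with hη
  have η0 : 0 < η := by positivity
  have hη' : η * (K + K' + 1) = d / 4 := div_mul_cancel₀ _ (by positivity)
  have l1 := (mU.pow 2).div_atTop tendsto_id
  obtain ⟨R, hR⟩ := eventually_atTop.1 (((l1.eventually (gt_mem_nhds
    (show 0 < (d / 4) ^ 3 by positivity))).and ((h.winf.sub hU.winf).eventually
      (gt_mem_nhds (show -Q - -Q' < -(d / 2) by linarith)))).and (eventually_ge_atTop 1))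
  have R1 := (hR R le_rfl).2
  have pos : ∀ r, R ≤ r → 0 < r := fun r hr => by linarith
  set P : ℝ → ℝ := fun r => √(X.m r * U.m r) with hP
  have P0 : ∀ r, 0 < r → 0 < P r := fun r hr => Real.sqrt_pos.2 (mul_pos (h.mpos hr) (hU.mpos hr))
  have dP : ∀ r, 0 < r → HasDerivAt P ((X.L r + U.L r) * P r) r := fun r hr => by
    have hm := mul_pos (h.mpos hr) (hU.mpos hr)
    refine (((h.dm hr).fun_mul (hU.dm hr)).sqrt hm.ne').congr_deriv ?_
    have e := Real.sq_sqrt hm.le
    rw [div_eq_iff (mul_pos two_pos (P0 r hr)).ne']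
    simp only [hP]
    linear_combination (-2 * (X.L r + U.L r)) * e
  have lim : Tendsto (fun r => -(P r * (X.L r - U.L r + η * r⁻¹))) atTop (𝓝 0) := by
    have := ((mX.mul mU).sqrt).mul_const (K + K' + η)
    rw [zero_mul, Real.sqrt_zero, zero_mul] at this
    refine squeeze_zero_norm' ?_ this
    filter_upwards [eventually_ge_atTop 1] with r hr
    rw [Real.norm_eq_abs, abs_neg, abs_mul, abs_of_pos (P0 r (by linarith))]
    refine mul_le_mul_of_nonneg_left ?_ (P0 r (by linarith)).le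
    have a1 := abs_le.1 (hK r hr).1
    have a2 := abs_le.1 (hK' r hr).1
    have a3 : η * r⁻¹ ≤ η := mul_le_of_le_one_right η0.le (inv_le_one_of_one_le₀ hr)
    have a4 : 0 ≤ η * r⁻¹ := by positivity
    exact abs_le.2 ⟨by linarith [a1.1, a2.2], by linarith [a1.2, a2.1]⟩
  have key : ∀ r, R ≤ r → X.L r - U.L r + η * r⁻¹ ≤ 0 := fun r hr => by
    have : 0 ≤ -(P r * (X.L r - U.L r + η * r⁻¹)) := by
      refine le_of_tendsto lim ?_
      filter_upwards [eventually_ge_atTop r] with s hs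
      refine anti' (f := fun r => -(P r * (X.L r - U.L r + η * r⁻¹))) hs
        (fun x h1 _ => ((dP x (pos x (hr.trans h1))).fun_mul
          (((h.dL x (pos x (hr.trans h1))).fun_sub (hU.dL x (pos x (hr.trans h1)))).fun_add
            ((hasDerivAt_inv (pos x (hr.trans h1)).ne').const_mul η))).fun_neg) fun x h1 _ => ?_
      obtain ⟨⟨a1, a2⟩, a3⟩ := hR x (hr.trans h1)
      have hx : 0 < x := by linarith
      have a4 : x * U.t x ^ 2 < d / 4 := lt_of_pow_lt_pow_left₀ 3 (by positivity) (by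
        refine lt_of_eq_of_lt ?_ a1
        unfold Q4.m
        simp only [id]
        field_simp)
      have a5 := abs_le.1 (hK x a3).1
      have a6 := abs_le.1 (hK' x a3).1
      have a7 : η * x⁻¹ ≤ η := mul_le_of_le_one_right η0.le (inv_le_one_of_one_le₀ a3)
      have a8 := mul_le_mul_of_nonneg_left (show -(K + K') ≤ X.L x + U.L x by
        linarith [a5.1, a6.1]) η0.le
      have a9 : 0 ≤ x * X.t x ^ 2 := by positivity
      have b : 0 ≤ P x / x * (η * (X.L x + U.L x) - η * x⁻¹ + x * X.t x ^ 2 - x * U.t x ^ 2 -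
        (X.w x - U.w x)) := mul_nonneg (div_pos (P0 x hx) hx).le (by linarith)
      rw [neg_nonpos]
      refine b.trans_eq ?_
      field_simp
      ring
    exact nonpos_of_mul_nonpos_right (neg_nonneg.1 this) (P0 r (pos r hr)) 
  have l2 := tendsto_atBot_add_const_left _ (Real.log (X.m R) - Real.log (U.m R) + 2 * η * Real.log R)
    (tendsto_neg_atTop_atBot.comp (Real.tendsto_log_atTop.const_mul_atTop (mul_pos two_pos η0)))
  filter_upwards [l2.eventually_le_atBot (Real.log ε), eventually_ge_atTop R] with r h1 hr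
  have := anti' (f := fun r => Real.log (X.m r) - Real.log (U.m r) + 2 * η * Real.log r) hr
    (fun x h1 _ => (((h.dm (pos x h1)).log (h.mpos (pos x h1)).ne').fun_sub
      ((hU.dm (pos x h1)).log (hU.mpos (pos x h1)).ne')).fun_add
        ((Real.hasDerivAt_log (pos x h1).ne').const_mul (2 * η))) fun x h1 _ => by
      rw [mul_div_cancel_right₀ _ (h.mpos (pos x h1)).ne',
        mul_div_cancel_right₀ _ (hU.mpos (pos x h1)).ne']
      linarith [key x h1]
  rw [← Real.log_le_log_iff (h.mpos (pos r hr)) (mul_pos hε (hU.mpos (pos r hr))),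
    Real.log_mul hε.ne' (hU.mpos (pos r hr)).ne']
  simp only [Function.comp] at h1
  linarith

end Pool.Agent.P.MP_97b9bc_mp.S

namespace Pool.Agent.P.MP_97b9bc_mp.S

open Set Filter Topology Pool.Agent.P.MP_97b9bc_mp.T

theorem p_DECAY (hTAIL : S_TAIL) :
    S_DECAY := by
  intro z Q X h hQ
  obtain ⟨R, ⟨h1, h2⟩, h3⟩ := (((h.winf.eventually (gt_mem_nhds (show -Q < -(Q / 2) by linarith))).and
    (eventually_ge_atTop (132 / Q))).and (eventually_ge_atTop 1)).exists
  have R0 : 0 < R := by linarith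
  have k := (hTAIL z Q X h).1 R (Q / 2) 11 R0 (by norm_num) h1.le (by
    rw [div_le_iff₀ hQ] at h2
    push_cast
    linarith)
  filter_upwards [eventually_ge_atTop R, eventually_ge_atTop (X.m R * R ^ 11 * 2 ^ 10)] with r a b
  have r0 : 0 < r := by linarith
  refine (k r a).trans ?_
  have c : (1 + r) ^ 10 ≤ (2 * r) ^ 10 := pow_le_pow_left₀ (by positivity) (by linarith) 10
  have m0 := h.mpos R0
  rw [div_pow, ← mul_div_assoc, div_le_div_iff₀ (by positivity) (by positivity)]
  calc X.m R * R ^ 11 * (1 + r) ^ 10 ≤ X.m R * R ^ 11 * (2 * r) ^ 10 := by gcongr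
    _ = X.m R * R ^ 11 * 2 ^ 10 * r ^ 10 := by ring
    _ ≤ r * r ^ 10 := by gcongr
    _ = _ := by ring

end Pool.Agent.P.MP_97b9bc_mp.S

namespace Pool.Agent.P.MP_97b9bc_mp.S

open Set Filter Topology Pool.Agent.P.MP_97b9bc_mp.T

theorem p_PQP (hEND : S_END) :
    S_PQP := by
  intro z Q X h r hr
  set P : ℝ → ℝ := fun r => √(X.m r + X.w r ^ 2) with hP
  set n : ℝ → ℝ := fun r => X.L r * X.m r + X.w r * X.v r with hn
  have hp : ∀ r, 0 < r → 0 < X.m r + X.w r ^ 2 := fun r hr => by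
    have := h.mpos hr
    positivity
  have hP0 : ∀ r, 0 < r → 0 < P r := fun r hr => Real.sqrt_pos.2 (hp r hr)
  have dP : ∀ r, 0 < r → HasDerivAt P (n r / P r) r := fun r hr => by
    refine (((h.dm hr).fun_add ((h.dw r hr).fun_pow 2)).sqrt (hp r hr).ne').congr_deriv ?_
    have := (hP0 r hr).ne'
    simp only [hP, hn] at this ⊢
    push_cast
    field_simp
  have dn : ∀ r, 0 < r →
      HasDerivAt n ((X.t r ^ 2 + X.L r ^ 2) * X.m r + X.v r ^ 2) r := fun r hr => by
    refine (((h.dL r hr).fun_mul (h.dm hr)).fun_add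
      ((h.dw r hr).fun_mul (h.dv r hr))).congr_deriv ?_
    have := hr.ne'
    unfold Q4.m
    field_simp
    ring
  have hG : ∀ a b, 0 < a → a ≤ b → n a / P a ≤ n b / P b := fun a b ha hab => by
    have := anti' (f := fun r => -(n r / P r)) hab
      (fun r h1 _ => ((dn r (ha.trans_le h1)).fun_div (dP r (ha.trans_le h1))
        (hP0 r (ha.trans_le h1)).ne').fun_neg)
      (fun r h1 _ => by
        have hr := ha.trans_le h1
        have := pq_alg (L := X.L r) (v := X.v r) (t2 := X.t r ^ 2) (h.mpos hr)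
          (by positivity) (hP0 r hr) (Real.sq_sqrt (hp r hr).le)
        rw [neg_nonpos]
        exact div_nonneg this (sq_nonneg _))
    linarith
  have lim : Tendsto P atTop (𝓝 √(0 + (-Q) ^ 2)) := ((hEND z Q X h).1.add (h.winf.pow 2)).sqrt
  have hG0 : ∀ a, 0 < a → n a / P a ≤ 0 := fun a ha => by
    by_contra hc
    push Not at hc
    refine not_tendsto_atTop_of_tendsto_nhds lim (tendsto_atTop_mono' _ ?_
      (tendsto_atTop_add_const_right _ (P a - n a / P a * a) (tendsto_id.const_mul_atTop hc)))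
    filter_upwards [eventually_ge_atTop a] with r har
    have h4 := anti' (f := fun s => n a / P a * s - P s) har
      (fun s h1 _ => ((hasDerivAt_id' s).const_mul _).fun_sub (dP s (ha.trans_le h1)))
      (fun s h1 _ => by have := hG a s ha h1; linarith)
    simp only [id]
    linarith
  have : √(0 + (-Q) ^ 2) ≤ P r := by
    refine le_of_tendsto lim ?_
    filter_upwards [eventually_ge_atTop r] with s hs
    exact anti' hs (fun x h1 _ => dP x (hr.trans_le h1)) (fun x h1 _ => hG0 x (hr.trans_le h1))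
  have := (Real.sqrt_le_sqrt_iff (hp r hr).le).1 this
  linarith

end Pool.Agent.P.MP_97b9bc_mp.S
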