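import Pool.Agent.P.MP_97b9bc_mp.S.IfaceA
import Pool.Agent.P.MP_3d36e1_mp.Lc.Far

/-! Steps LOGC WB1 WBG FINAL. -/

set_option autoImplicit false

namespace Pool.Agent.P.MP_97b9bc_mp.S

open Set Filter Topology Pool.Agent.P.MP_97b9bc_mp.T

namespace LOGCx

open MP_3d36e1_mp.Lc (Rad ant mono)

variable {z Q : ℝ} {X : Q4}

/-- the wave function in reduced units -/
noncomputable def ps (X : Q4) (r : ℝ) : ℝ := X.t r * √(X.t r)

lemma ps_pos (h : Sol z 0 Q X) {r : ℝ} (hr : 0 < r) : 0 < ps X r :=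
  mul_pos (h.pos r hr) (Real.sqrt_pos.2 (h.pos r hr))

lemma ps_sq (h : Sol z 0 Q X) {r : ℝ} (hr : 0 < r) : ps X r ^ 2 = X.t r ^ 3 := by
  rw [ps, mul_pow, Real.sq_sqrt (h.pos r hr).le]; ring

lemma ps_pow (h : Sol z 0 Q X) {r : ℝ} (hr : 0 < r) : ps X r ^ (4 / 3 : ℝ) = X.t r ^ 2 := by
  have ht := h.pos r hr
  have e : ps X r = √(X.t r) ^ 3 := by
    rw [ps, pow_succ, Real.sq_sqrt ht.le]
  rw [e, ← Real.rpow_natCast, ← Real.rpow_mul (Real.sqrt_nonneg _),
    show ((3 : ℕ) : ℝ) * (4 / 3) = ((4 : ℕ) : ℝ) by norm_num, Real.rpow_natCast,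
    show 4 = 2 * 2 from rfl, pow_mul, Real.sq_sqrt ht.le]

lemma dps (h : Sol z 0 Q X) (r : ℝ) (hr : 0 < r) :
    HasDerivAt (ps X) (-((1 / r - X.L r) * ps X r)) r := by
  have ht := h.pos r hr
  have hs := Real.sqrt_pos.2 ht
  refine ((h.dt r hr).fun_mul ((h.dt r hr).sqrt ht.ne')).congr_deriv ?_
  have e := Real.sq_sqrt ht.le
  unfold ps
  generalize √(X.t r) = s at hs e
  rw [← e]
  field_simp
  ring

lemma dg (h : Sol z 0 Q X) (r : ℝ) (hr : 0 < r) : HasDerivAt (fun s => 1 / s - X.L s)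
    (-(hh X r + 2 * (1 / r - X.L r) / r - (1 / r - X.L r) ^ 2)) r := by
  refine (((hasDerivAt_const r (1 : ℝ)).fun_div (hasDerivAt_id' r) hr.ne').fun_sub
    (h.dL r hr)).congr_deriv ?_
  unfold hh
  field_simp
  ring

lemma m0 (h : Sol z 0 Q X) : Tendsto X.m (𝓝[>] 0) (𝓝 0) := by
  have h1 : Tendsto (fun r : ℝ => √(r * (r * X.t r ^ 2) ^ 3)) (𝓝[>] 0) (𝓝 √(0 * 0 ^ 3)) :=
    ((tendsto_id.mono_left nhdsWithin_le_nhds).mul (h.t0.pow 3)).sqrt
  rw [zero_mul, Real.sqrt_zero] at h1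
  refine h1.congr' ?_
  filter_upwards [self_mem_nhdsWithin] with r hr
  rw [show r * (r * X.t r ^ 2) ^ 3 = X.m r ^ 2 by unfold Q4.m; ring,
    Real.sqrt_sq (h.mpos hr).le]

lemma u0 (h : Sol z 0 Q X) : Tendsto (fun r => r * ps X r) (𝓝[>] 0) (𝓝 0) := by
  have h1 := (m0 h).sqrt
  rw [Real.sqrt_zero] at h1
  refine h1.congr' ?_
  filter_upwards [self_mem_nhdsWithin] with r hr
  have hr' : 0 < r := hr
  rw [show X.m r = (r * ps X r) ^ 2 by rw [mul_pow, ps_sq h hr]; rfl,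
    Real.sqrt_sq (mul_pos hr' (ps_pos h hr)).le]

lemma dn (h : Sol z 0 Q X) (r : ℝ) (hr : 0 < r) :
    HasDerivAt (fun s => s ^ 2 * ((1 / s - X.L s) * ps X s))
      ((X.w r - r * X.t r ^ 2) * (r * ps X r)) r := by
  refine (((hasDerivAt_id' r).fun_pow 2).fun_mul ((dg h r hr).fun_mul (dps h r hr))).congr_deriv ?_
  unfold hh
  push_cast
  field_simp
  ring

/-- one half of the boundary condition -/
lemma half {ψ n n' : ℝ → ℝ} {b : ℝ} (d1 : ∀ r, 0 < r → HasDerivAt ψ (-(n r / r ^ 2)) r)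
    (d2 : ∀ r, 0 < r → HasDerivAt n (n' r) r) (hb : ∀ r, 0 < r → r < b → n' r ≤ 1)
    (h0 : Tendsto (fun r => r * ψ r) (𝓝[>] 0) (𝓝 0)) {r : ℝ} (hr : 0 < r) (hrb : r < b) :
    n r ≤ r := by
  by_contra hn
  push Not at hn
  have k : ∀ s, 0 < s → s ≤ r → n r - r ≤ n s := fun s hs hsr => by
    have := ant (f := fun x => n x - x) hs hsr (fun x hx => (d2 x hx).fun_sub (hasDerivAt_id' x))
      fun x h1 h2 => sub_nonpos.2 (hb x (hs.trans_le h1) (h2.trans hrb))
    linarith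
  have k2 : ∀ s, 0 < s → s ≤ r → s * (ψ r - (n r - r) * r⁻¹) ≤ s * ψ s - (n r - r) :=
    fun s hs hsr => by
    have := ant (f := fun x => ψ x - (n r - r) * x⁻¹) hs hsr
      (fun x hx => (d1 x hx).fun_sub ((hasDerivAt_inv hx.ne').const_mul (n r - r)))
      fun x h1 h2 => by
        have hx := hs.trans_le h1
        have := div_le_div_of_nonneg_right (k x hx h2.le) (sq_nonneg x)
        rw [div_eq_mul_inv] at this
        linarith
    have := mul_le_mul_of_nonneg_left this hs.le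
    rwa [mul_sub s (ψ s), mul_comm (n r - r) s⁻¹, mul_inv_cancel_left₀ hs.ne'] at this
  have l1 : Tendsto (fun s => s * (ψ r - (n r - r) * r⁻¹)) (𝓝[>] 0)
      (𝓝 (0 * (ψ r - (n r - r) * r⁻¹))) :=
    (tendsto_id.mono_left nhdsWithin_le_nhds).mul_const _
  have := le_of_tendsto_of_tendsto l1 (h0.sub_const (n r - r))
    (by filter_upwards [Ioc_mem_nhdsGT hr] with s hs using k2 s hs.1 hs.2)
  linarith

lemma n0 (h : Sol z 0 Q X) :
    Tendsto (fun s => s ^ 2 * ((1 / s - X.L s) * ps X s)) (𝓝[>] 0) (𝓝 0) := by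
  have l := ((h.w0.sub h.t0).mul (u0 h)).abs
  rw [mul_zero, abs_zero] at l
  obtain ⟨b, hb, hb'⟩ := (nhdsGT_basis (0 : ℝ)).eventually_iff.1 (l.eventually (gt_mem_nhds one_pos))
  have d1 : ∀ r, 0 < r → HasDerivAt (ps X) (-(r ^ 2 * ((1 / r - X.L r) * ps X r) / r ^ 2)) r :=
    fun r hr => (dps h r hr).congr_deriv (by rw [mul_div_cancel_left₀ _ (pow_pos hr 2).ne'])
  refine squeeze_zero_norm' ?_ (tendsto_id.mono_left nhdsWithin_le_nhds)
  filter_upwards [Ioo_mem_nhdsGT hb] with r hr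
  refine abs_le.2 ⟨neg_le.1 ?_, half d1 (dn h) (fun s h1 h2 => (abs_lt.1 (hb' ⟨h1, h2⟩)).2.le)
    (u0 h) hr.1 hr.2⟩
  refine half (ψ := fun s => -ps X s) (n := fun s => -(s ^ 2 * ((1 / s - X.L s) * ps X s)))
    (fun s hs => (d1 s hs).fun_neg.congr_deriv (by rw [neg_div])) (fun s hs => (dn h s hs).fun_neg)
    (fun s h1 h2 => neg_le.1 (abs_lt.1 (hb' ⟨h1, h2⟩)).1.le) ?_ hr.1 hr.2
  simpa using (u0 h).neg

lemma c0 : 0 < √(4 * Real.pi) := Real.sqrt_pos.2 (by positivity)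

lemma ye (h : Sol z 0 Q X) {r : ℝ} (hr : 0 < r) :
    √(4 * Real.pi) ^ (4 / 3 : ℝ) * (ps X r / √(4 * Real.pi)) ^ (4 / 3 : ℝ) = X.t r ^ 2 := by
  rw [← Real.mul_rpow c0.le (div_pos (ps_pos h hr) c0).le, mul_div_cancel₀ _ c0.ne', ps_pow h hr]

/-- the solution in the units of the library -/
noncomputable def rad (h : Sol z 0 Q X) : Rad where
  A := 1
  γ := √(4 * Real.pi) ^ (4 / 3 : ℝ)
  q := 4 / 3
  μ := 0
  z := z
  L := -Q
  ψ r := ps X r / √(4 * Real.pi)
  g r := 1 / r - X.L r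
  w := X.w
  v := X.v
  hA := one_pos
  hγ := Real.rpow_pos_of_pos c0 _
  hq := by norm_num
  hμ := le_rfl
  hz := h.zpos
  pos r hr := div_pos (ps_pos h hr) c0
  dψ r hr := ((dps h r hr).div_const _).congr_deriv (by ring)
  dg r hr := (dg h r hr).congr_deriv (by rw [ye h hr, add_zero, div_one, hh])
  dw := h.dw
  dv r hr := (h.dv r hr).congr_deriv (by
    rw [div_pow, ps_sq h hr, Real.sq_sqrt (by positivity)]
    field_simp)
  rv := h.rv
  winf := h.winf
  wle r hr := h.w_le hr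
  n0 := by
    have := (n0 h).div_const √(4 * Real.pi)
    rw [zero_div] at this
    exact this.congr fun r => by ring

end LOGCx

theorem p_LOGC :
    S_LOGC := by
  intro z Q X h
  refine ⟨fun r hr => ⟨?_, ?_⟩, fun ε hε => ?_⟩
  · have : 0 ≤ 1 / r - X.L r := (LOGCx.rad h).g_nonneg hr
    rwa [sub_nonneg, le_div_iff₀' hr] at this
  · have : 0 ≤ (√(4 * Real.pi) ^ (4 / 3 : ℝ) * (LOGCx.ps X r / √(4 * Real.pi)) ^ (4 / 3 : ℝ) -
        X.w r / r + 0) / 1 + 2 * (1 / r - X.L r) / r - (1 / r - X.L r) ^ 2 :=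
      ((LOGCx.rad h).criterion le_rfl).2 (Or.inl rfl) r hr
    rw [LOGCx.ye h hr, add_zero, div_one] at this
    have e : 2 * (1 / r - X.L r) / r - (1 / r - X.L r) ^ 2 = 1 / r ^ 2 - X.L r ^ 2 := by
      field_simp; ring
    unfold hh
    nlinarith [sq_nonneg (X.L r)]
  · obtain ⟨δ, C, hδ, hn⟩ := (LOGCx.rad h).near
    have hp := (LOGCx.rad h).pos δ hδ
    have l : Tendsto (fun r => C * √r / (LOGCx.rad h).ψ δ) (𝓝[>] 0)
        (𝓝 (C * √0 / (LOGCx.rad h).ψ δ)) :=
      (((tendsto_id.mono_left nhdsWithin_le_nhds).sqrt).const_mul C).div_const _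
    rw [Real.sqrt_zero, mul_zero, zero_div] at l
    obtain ⟨b, hb, hb'⟩ := (nhdsGT_basis (0 : ℝ)).eventually_iff.1
      (((l.eventually (gt_mem_nhds hε)).and ((LOGCx.m0 h).eventually (gt_mem_nhds hε))).and
        (Ioc_mem_nhdsGT hδ))
    refine ⟨b / 2, half_pos hb, fun r hr hrb => ?_⟩
    obtain ⟨⟨h1, h2⟩, h3⟩ := hb' (show r ∈ Ioo 0 b from ⟨hr, by linarith⟩)
    refine ⟨?_, h2.le⟩
    have h4 := (hn r hr h3.2).2
    have h5 := (LOGCx.rad h).ψ_anti hr h3.2
    have h6 := (LOGCx.rad h).g_nonneg hr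
    have h7 : r * (r * (LOGCx.rad h).g r * (LOGCx.rad h).ψ δ) ≤ r * (C * √r) := by
      have := mul_le_mul_of_nonneg_left (mul_le_mul_of_nonneg_left h5 h6) (sq_nonneg r)
      linarith
    have h8 := ((le_div_iff₀ hp).2 (le_of_mul_le_mul_left h7 hr)).trans h1.le
    have e : r * (LOGCx.rad h).g r = 1 - r * X.L r := by
      change r * (1 / r - X.L r) = _
      field_simp
    linarith

end Pool.Agent.P.MP_97b9bc_mp.S

namespace Pool.Agent.P.MP_97b9bc_mp.S

open Set Filter Topology Pool.Agent.P.MP_97b9bc_mp.T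

lemma j2_wb1 : J2 (fun r => 144 / r ^ 3 + 9 / (8 * r)) (fun r => -(432 / r ^ 4) - 9 / (8 * r ^ 2))
    (fun r => 1728 / r ^ 5 + 9 / (4 * r ^ 3)) := fun r hr => by
  have d : ∀ (c : ℝ) (n : ℕ), HasDerivAt (fun s : ℝ => c / s ^ (n + 1))
      (-(c * (n + 1) / r ^ (n + 2))) r := fun c n =>
    ((hasDerivAt_const r c).fun_div (hasDerivAt_pow (n + 1) r) (pow_pos hr _).ne').congr_deriv
      (by push_cast; field_simp; ring)
  refine ⟨(((d 144 2).fun_add (d (9 / 8) 0)).congr_deriv ?_).congr_of_eventuallyEq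
    (Eventually.of_forall fun s => ?_), (((d 432 3).fun_neg.fun_sub
      (d (9 / 8) 1)).congr_deriv ?_).congr_of_eventuallyEq (Eventually.of_forall fun s => ?_)⟩ <;>
    push_cast <;> ring

theorem p_WB1 (hLOGC : S_LOGC) :
    S_WB1 := by
  intro z Q X h hQ r hr
  by_contra hn
  push Not at hn
  set η := (X.w r - (144 / r ^ 3 + 9 / (8 * r))) / 2 with hη
  have η0 : 0 < η := by linarith
  have hz := h.zpos
  obtain ⟨b, hb1, hb2⟩ := ((h.winf.eventually (gt_mem_nhds (show -Q < η by linarith))).and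
    (eventually_ge_atTop r)).exists
  set a := min r (1 / z) with ha
  have a0 : 0 < a := lt_min hr (by positivity)
  have a1 : z ≤ 9 / (8 * a) := by
    have := (le_div_iff₀ hz).1 (min_le_right r (1 / z))
    rw [le_div_iff₀ (by positivity)]
    linarith
  have a2 : 0 ≤ 144 / a ^ 3 := by positivity
  have b0 := hr.trans_le hb2
  have b1 : 0 ≤ 144 / b ^ 3 + 9 / (8 * b) := by positivity
  have j := (j2_n h (-η)).sub j2_wb1
  obtain ⟨s, h1, h2, h3, -, h5⟩ := maxp (⟨min_le_left _ _, hb2⟩ : r ∈ Icc a b)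
    (fun s hs _ => (j s (a0.trans_le hs)).1) (fun s hs _ => (j s (a0.trans_le hs)).2)
    (by linarith [h.w_le a0]) (by linarith) (by linarith)
  have hs := a0.trans h1
  have k1 := ((hLOGC z Q X h).1 s hs).2
  have k2 : 144 / s ^ 3 + 9 / (8 * s) < X.w s := by linarith
  have k3 := mul_lt_mul_of_pos_left k2 (pow_pos hs 3)
  have k4 := mul_le_mul_of_nonneg_left k1 (pow_pos hs 4).le
  have k5 := mul_le_mul_of_nonneg_left (sub_nonpos.1 h5) (pow_pos hs 5).le
  have e1 : s ^ 3 * (144 / s ^ 3 + 9 / (8 * s)) = 144 + 9 / 8 * s ^ 2 := by field_simp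
  have e2 : s ^ 4 * -(1 / s ^ 2) = -s ^ 2 := by field_simp
  have e3 : s ^ 4 * hh X s = (s ^ 2 * X.t s) ^ 2 - s ^ 3 * X.w s := by unfold hh; field_simp
  have e4 : s ^ 5 * (X.m s / s) = (s ^ 2 * X.t s) ^ 3 := by unfold Q4.m; field_simp
  have e5 : s ^ 5 * (1728 / s ^ 5 + 9 / (4 * s ^ 3)) = 1728 + 9 / 4 * s ^ 2 := by field_simp
  have T0 : 0 < s ^ 2 * X.t s := mul_pos (pow_pos hs 2) (h.pos s hs)
  rw [e1] at k3
  rw [e2, e3] at k4
  rw [e4, e5] at k5
  generalize s ^ 2 * X.t s = T at k4 k5 T0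
  have := mul_nonneg (sq_nonneg (T - 12)) (show 0 ≤ T + 6 by linarith)
  linarith

end Pool.Agent.P.MP_97b9bc_mp.S

namespace Pool.Agent.P.MP_97b9bc_mp.S

open Set Filter Topology Pool.Agent.P.MP_97b9bc_mp.T

theorem p_WBG (hLOGC : S_LOGC) (hPQP : S_PQP) :
    S_WBG := by
  intro z Q Q' a X N N1 N2 h h0 hQ ha hN N0 hNa H r hr
  by_contra hn
  push Not at hn
  obtain ⟨b, hb1, hb2⟩ := ((h.winf.eventually (gt_mem_nhds (show -Q < -Q' by linarith))).and
    (eventually_ge_atTop r)).exists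
  have j := (j2_n h Q').sub hN
  obtain ⟨s, h1, h2, h3, -, h5⟩ := maxp (⟨hr, hb2⟩ : r ∈ Icc a b)
    (fun s hs _ => (j s (ha.trans_le hs)).1) (fun s hs _ => (j s (ha.trans_le hs)).2)
    (by linarith) (by linarith [N0 b (hr.trans hb2)]) (by linarith)
  have hs := ha.trans h1
  have k1 := ((hLOGC z Q X h).1 s hs).2
  have k2 := hPQP z Q X h s hs
  have k3 := H s (X.w s + Q') (X.t s) h1.le (by linarith) (h.pos s hs)
    (by unfold hh at k1; rw [add_sub_cancel_right]; linarith)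
    (by unfold Q4.m at k2; nlinarith)
  have e : X.m s / s = s * X.t s ^ 3 := by unfold Q4.m; field_simp
  linarith

end Pool.Agent.P.MP_97b9bc_mp.S

namespace Pool.Agent.P.MP_97b9bc_mp.S

open Set Filter Topology Pool.Agent.P.MP_97b9bc_mp.T

namespace FINALx

variable {z Q : ℝ} {X : Q4}

lemma j2_u (h : Sol z 0 Q X) : J2 (fun r => √(X.m r)) (fun r => X.L r * √(X.m r))
    (fun r => hh X r * √(X.m r)) := fun r hr => by
  have hm := h.mpos hr
  have d : HasDerivAt (fun r => √(X.m r)) (X.L r * √(X.m r)) r := by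
    refine ((h.dm hr).sqrt hm.ne').congr_deriv ?_
    have hs := Real.sqrt_pos.2 hm
    have e := Real.sq_sqrt hm.le
    generalize √(X.m r) = s at hs e
    rw [← e]
    field_simp
  exact ⟨d, ((h.dL r hr).fun_mul d).congr_deriv (by unfold hh; ring)⟩

lemma dlog {r : ℝ} (hr : 0 < r) : HasDerivAt (fun s => Real.log (s + 1)) (r + 1)⁻¹ r :=
  (((hasDerivAt_id' r).add_const 1).log (by linarith)).congr_deriv (one_div _)

lemma j2_l : J2 (fun r => Real.log (r + 1) - Real.log r) (fun r => (r + 1)⁻¹ - r⁻¹)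
    (fun r => (2 * r + 1) / (r * (r + 1) ^ 2) / r) := fun r hr =>
  ⟨(dlog hr).fun_sub (Real.hasDerivAt_log hr.ne'),
    ((((hasDerivAt_id' r).add_const 1).fun_inv (by linarith)).fun_sub
      (hasDerivAt_inv hr.ne')).congr_deriv (by field_simp; ring)⟩

lemma l_lim : Tendsto (fun r : ℝ => Real.log (r + 1) - Real.log r) atTop (𝓝 0) := by
  have := (tendsto_inv_atTop_zero.const_add (1 : ℝ)).log (by norm_num)
  rw [add_zero, Real.log_one] at this
  refine this.congr' ?_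
  filter_upwards [eventually_gt_atTop 0] with r hr
  rw [← Real.log_div (by linarith) hr.ne']
  congr 1
  field_simp

lemma l_le {r : ℝ} (hr : 1 ≤ r) : Real.log (r + 1) - Real.log r ≤ Real.log 2 := by
  rw [sub_le_iff_le_add, ← Real.log_mul (by norm_num) (by linarith)]
  exact Real.log_le_log (by linarith) (by linarith)

lemma le_l {r : ℝ} (h0 : 0 < r) (hr : r ≤ 1) : Real.log 2 ≤ Real.log (r + 1) - Real.log r := by
  rw [le_sub_iff_add_le, ← Real.log_mul (by norm_num) (by linarith)]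
  exact Real.log_le_log (by linarith) (by linarith)

end FINALx

theorem p_FINAL (hLOGC : S_LOGC) (hCVX : S_CVX) (hEND : S_END) :
    S_FINAL := by
  intro z Q a X h hQ ha ha1 hL hM
  have l2 := Real.log_two_lt_d9
  have cap : ∀ r, a ≤ r → X.w r ≤ 13 / 10 * (Real.log (r + 1) - Real.log r - Real.log 2) :=
    fun r hr => by
    have := ((hCVX _ _ _ a ha ((FINALx.j2_l.smul (13 / 10)).sub (j2_n h Q))).1 0 (fun s hs => by
      have := div_le_div_of_nonneg_right (hM s hs) (ha.trans_le hs).le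
      rw [mul_div_assoc, mul_div_assoc] at this
      linarith) (by simpa using (FINALx.l_lim.const_mul (13 / 10)).sub (n_lim h)) r hr).1
    linarith
  have ju := FINALx.j2_u h
  have up : ∀ r, 0 < r → 0 < √(X.m r) := fun r hr => Real.sqrt_pos.2 (h.mpos hr)
  have far := ((hCVX _ _ _ 1 one_pos ju).1 0 (fun s hs => by
    have h1 := cap s (ha1.trans hs)
    have h2 := FINALx.l_le hs
    have h3 : X.w s / s ≤ 0 := div_nonpos_of_nonpos_of_nonneg (by linarith) (by linarith)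
    refine mul_nonneg ?_ (Real.sqrt_nonneg _)
    unfold hh
    linarith [sq_nonneg (X.t s)]) (by simpa using (hEND z Q X h).1.sqrt) 1 le_rfl).2
  have dec : ∀ r, a ≤ r → √(X.m r) / r ≤ √(X.m a) / a := fun r hr =>
    anti' (f := fun s => √(X.m s) / s) hr
      (fun s h1 _ => (ju s (ha.trans_le h1)).1.fun_div (hasDerivAt_id' s) (ha.trans_le h1).ne')
      fun s h1 _ => by
        have hs := ha.trans_le h1
        have := mul_le_mul_of_nonneg_right ((hLOGC z Q X h).1 s hs).1 (up s hs).le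
        exact div_nonpos_of_nonpos_of_nonneg (by linarith) (sq_nonneg s)
  set c := √(X.m a) / a with hc
  have c0 : 0 < c := div_pos (up a ha) ha
  have key := anti' (f := fun s => -(X.L s * √(X.m s)) - 13 / 10 * c *
      ((s + 1) * Real.log (s + 1) - s * Real.log s - s * Real.log 2)) ha1
    (fun s h1 _ => (ju s (ha.trans_le h1)).2.fun_neg.fun_sub
      ((((((hasDerivAt_id' s).add_const 1).fun_mul (FINALx.dlog (ha.trans_le h1))).fun_sub
        ((hasDerivAt_id' s).fun_mul (Real.hasDerivAt_log (ha.trans_le h1).ne'))).fun_sub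
        ((hasDerivAt_id' s).mul_const (Real.log 2))).const_mul (13 / 10 * c)))
    fun s h1 h2 => by
      have hs := ha.trans_le h1
      have g0 := sub_nonneg.2 (FINALx.le_l hs h2)
      have a1 := mul_le_mul_of_nonneg_left (dec s h1) g0
      have a2 := mul_le_mul_of_nonneg_right (cap s h1) (div_pos (up s hs) hs).le
      have a3 : 0 ≤ X.t s ^ 2 * √(X.m s) := by positivity
      have e : hh X s * √(X.m s) = X.t s ^ 2 * √(X.m s) - X.w s * (√(X.m s) / s) := by
        unfold hh; ring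
      rw [mul_inv_cancel₀ hs.ne', mul_inv_cancel₀ (show s + 1 ≠ 0 by linarith)]
      linarith
  have g1 : a ≤ (a + 1) * Real.log (a + 1) := by
    have := mul_le_mul_of_nonneg_left (Real.one_sub_inv_le_log_of_pos (show 0 < a + 1 by linarith))
      (show 0 ≤ a + 1 by linarith)
    rw [mul_sub, mul_inv_cancel₀ (show a + 1 ≠ 0 by linarith)] at this
    linarith
  have g2 : a * Real.log a ≤ 0 := mul_nonpos_of_nonneg_of_nonpos ha.le (Real.log_nonpos ha.le ha1)
  have g3 : a * Real.log 2 ≤ a := mul_le_of_le_one_right ha.le (by linarith)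
  have g4 := mul_le_mul_of_nonneg_left
    (show 0 ≤ (a + 1) * Real.log (a + 1) - a * Real.log a - a * Real.log 2 by linarith) c0.le
  have g5 : X.L a * √(X.m a) = a * X.L a * c := by rw [hc]; field_simp
  have g6 := mul_le_mul_of_nonneg_right hL c0.le
  have g7 := mul_lt_mul_of_pos_left l2 c0
  simp only [Real.log_one, one_add_one_eq_two] at key
  linarith

end Pool.Agent.P.MP_97b9bc_mp.S
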