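import Pool.Agent.P.MP_97b9bc_mp.S.IfaceA
import Pool.Agent.P.MP_3d36e1_mp.Lc.Ode
import Pool.Agent.P.MP_97b9bc_mp.T.TPIECE
import Pool.Agent.P.MP_97b9bc_mp.T.TINNER

/-! Steps GSIGN FARG PIECE2 INNER2. -/

set_option autoImplicit false

namespace Pool.Agent.P.MP_97b9bc_mp.S

open Set Filter Topology Pool.Agent.P.MP_97b9bc_mp.T

lemma zero_gsign {f : ℝ → ℝ} {f' s : ℝ} (hd : HasDerivWithinAt f f' (Ici s) s)
    (h : ∀ x, s ≤ x → f x = 0) : f' = 0 :=
  (uniqueDiffWithinAt_Ici s).eq_deriv _ hd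
    ((hasDerivWithinAt_const s (Ici s) 0).congr (fun x hx => h x hx) (h s le_rfl))

open MP_3d36e1_mp.Lc (mono stay) in
theorem p_GSIGN (hGD : S_GD) (hOUTB : S_OUTB) (hEND : S_END) :
    S_GSIGN := by
  intro z Q z' Q' X U h hU r hr ht hL
  have G0 : ∀ s, 0 < s → 0 ≤ GG X U s := fun s hs => by
    simpa using (hOUTB 0 _ X U h.app hU.app (src_zero _) (hEND z Q X h) (hEND z' Q' U hU) s hs).1
  obtain ⟨Gc, -, Gd⟩ := hGD _ X U h.app hU.app
  have fe : ∀ s, formAt 0 0 (fun _ => 0) X U s = (X.m s + U.m s) * (X.L s - U.L s) ^ 2 +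
      mu X U s * (X.t s ^ 2 - U.t s ^ 2) ^ 2 + (X.v s - U.v s) ^ 2 := fun s => by
    unfold formAt form; ring
  have mp : ∀ s, 0 < s → 0 < X.m s + U.m s ∧ 0 < mu X U s := fun s hs => by
    have := h.pos s hs
    have := hU.pos s hs
    exact ⟨add_pos (h.mpos hs) (hU.mpos hs), by unfold mu; positivity⟩
  have Z : ∀ s, 0 < s → GG X U s ≤ 0 → X.v s - U.v s = 0 ∧ X.w s - U.w s = 0 := fun s hs h0 => by
    have k : ∀ x, s ≤ x → GG X U x = 0 := fun x hx => le_antisymm ((anti hx
      (Gc.mono fun y hy => hs.trans_le hy.1) (fun y h1 _ => (Gd y (hs.trans_le h1)).1)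
      fun y h1 _ => by
        obtain ⟨a, b⟩ := mp y (hs.trans_le h1)
        rw [fe, neg_nonpos]
        positivity).trans h0) (G0 x (hs.trans_le hx))
    have k2 : ∀ x, s ≤ x → X.L x - U.L x = 0 ∧ X.t x ^ 2 - U.t x ^ 2 = 0 ∧ X.v x - U.v x = 0 :=
      fun x hx => by
      have e := zero_gsign (Gd x (hs.trans_le hx)).1 fun y hy => k y (hx.trans hy)
      obtain ⟨a, b⟩ := mp x (hs.trans_le hx)
      rw [fe, neg_eq_zero] at e
      have a1 := mul_nonneg a.le (sq_nonneg (X.L x - U.L x))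
      have a2 := mul_nonneg b.le (sq_nonneg (X.t x ^ 2 - U.t x ^ 2))
      have a3 := sq_nonneg (X.v x - U.v x)
      exact ⟨pow_eq_zero_iff two_ne_zero |>.1 ((mul_eq_zero.1 (show (X.m x + U.m x) * _ = 0 by
        linarith)).resolve_left a.ne'), pow_eq_zero_iff two_ne_zero |>.1
        ((mul_eq_zero.1 (show mu X U x * _ = 0 by linarith)).resolve_left b.ne'),
        pow_eq_zero_iff two_ne_zero |>.1 (by linarith)⟩
    refine ⟨(k2 s le_rfl).2.2, ?_⟩
    have e := zero_gsign ((h.dL s hs).fun_sub (hU.dL s hs)).hasDerivWithinAt fun x hx => (k2 x hx).1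
    rw [sub_eq_zero.1 (k2 s le_rfl).1, sub_eq_zero.1 (k2 s le_rfl).2.1] at e
    have : (X.w s - U.w s) / s = 0 := by rw [sub_div]; linarith
    exact (div_eq_zero_iff.1 this).resolve_right hs.ne'
  have m0 : X.m r = U.m r := by unfold Q4.m; rw [ht]
  have hv : X.v r ≤ U.v r := by
    by_contra hn
    push Not at hn
    set P : ℝ → ℝ := fun r => √(X.m r * U.m r) with hP
    have P0 : ∀ r, 0 < r → 0 < P r := fun r hr => Real.sqrt_pos.2 (mul_pos (h.mpos hr) (hU.mpos hr))
    have dP : ∀ r, 0 < r → HasDerivAt P ((X.L r + U.L r) * P r) r := fun r hr => by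
      have hm := mul_pos (h.mpos hr) (hU.mpos hr)
      refine (((h.dm hr).fun_mul (hU.dm hr)).sqrt hm.ne').congr_deriv ?_
      have e := Real.sq_sqrt hm.le
      rw [div_eq_iff (mul_pos two_pos (P0 r hr)).ne']
      simp only [hP]
      linear_combination (-2 * (X.L r + U.L r)) * e
    have dW : ∀ s, 0 < s → HasDerivAt (fun s => P s * (X.L s - U.L s))
        (P s * (hh X s - hh U s)) s := fun s hs =>
      ((dP s hs).fun_mul ((h.dL s hs).fun_sub (hU.dL s hs))).congr_deriv (by unfold hh; ring)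
    have step : ∀ t, r ≤ t → (∀ s, r ≤ s → s < t → 0 < hh X s - hh U s) →
        0 ≤ X.L t - U.L t ∧ U.t t ≤ X.t t ∧ X.v r - U.v r ≤ X.v t - U.v t := fun t h1 H => by
      have a1 : ∀ x, r ≤ x → x ≤ t → 0 ≤ X.L x - U.L x := fun x h2 h3 =>
        (mul_nonneg_iff_of_pos_left (P0 x (hr.trans_le h2))).1
          ((mul_nonneg (P0 r hr).le (sub_nonneg.2 hL)).trans
          (mono hr h2 dW fun s h4 h5 => (mul_pos (P0 s (hr.trans_le h4))
            (H s h4 (h5.trans_le h3))).le))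
      have a2 : ∀ x, r ≤ x → x ≤ t → U.t x ≤ X.t x := fun x h2 h3 => by
        have := mono (f := fun s => Real.log (X.t s) - Real.log (U.t s)) hr h2
          (fun s hs => ((h.dt s hs).log (h.pos s hs).ne').fun_sub
            ((hU.dt s hs).log (hU.pos s hs).ne')) fun s h4 h5 => by
            have p1 := (h.pos s (hr.trans_le h4)).ne'
            have p2 := (hU.pos s (hr.trans_le h4)).ne'
            rw [mul_right_comm _ (X.t s), mul_right_comm _ (U.t s), mul_div_cancel_right₀ _ p1,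
              mul_div_cancel_right₀ _ p2]
            linarith [a1 s h4 (h5.le.trans h3)]
        rw [ht, sub_self, sub_nonneg] at this
        exact (Real.log_le_log_iff (hU.pos x (hr.trans_le h2)) (h.pos x (hr.trans_le h2))).1 this
      refine ⟨a1 t h1 le_rfl, a2 t h1 le_rfl, mono (f := fun s => X.v s - U.v s) hr h1
        (fun s hs => (h.dv s hs).fun_sub (hU.dv s hs)) fun s h4 h5 => sub_nonneg.2 ?_⟩
      exact mul_le_mul_of_nonneg_left (pow_le_pow_left₀ (hU.pos s (hr.trans_le h4)).le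
        (a2 s h4 h5.le) 3) (hr.trans_le h4).le
    have all := stay (f := fun s => hh X s - hh U s) hr (fun s hs =>
      (((h.dt s hs).continuousAt.pow 2).sub ((h.dw s hs).continuousAt.div continuousAt_id
        hs.ne')).sub (((hU.dt s hs).continuousAt.pow 2).sub
          ((hU.dw s hs).continuousAt.div continuousAt_id hs.ne'))) fun t h1 H => by
      obtain ⟨a1, a2, a3⟩ := step t h1 H
      have t0 := hr.trans_le h1
      have b1 : 0 ≤ (X.m t - U.m t) * (X.L t - U.L t) := mul_nonneg (sub_nonneg.2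
        (mul_le_mul_of_nonneg_left (pow_le_pow_left₀ (hU.pos t t0).le a2 3) (sq_nonneg t))) a1
      have b2 : X.w t - U.w t < 0 := by
        by_contra hc
        have := mul_nonneg (not_lt.1 hc) (show 0 ≤ X.v t - U.v t by linarith)
        linarith [(Z t t0 (by unfold GG; linarith)).1]
      have b3 := div_neg_of_neg_of_pos b2 t0
      have b4 := pow_le_pow_left₀ (hU.pos t t0).le a2 2
      rw [sub_div] at b3
      unfold hh
      linarith
    have := ge_of_tendsto ((hEND z Q X h).2.1.sub (hEND z' Q' U hU).2.1)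
      ((eventually_ge_atTop r).mono fun t h1 => (step t h1 fun s h2 _ => all s h2).2.2)
    linarith
  refine ⟨not_lt.1 fun hn => ?_, hv⟩
  have := mul_nonneg_of_nonpos_of_nonpos (sub_neg.2 hn).le (sub_nonpos.2 hv)
  linarith [(Z r hr (by unfold GG; rw [m0]; linarith)).2]

end Pool.Agent.P.MP_97b9bc_mp.S

namespace Pool.Agent.P.MP_97b9bc_mp.S

open Set Filter Topology Pool.Agent.P.MP_97b9bc_mp.T

lemma down_farg {f f' : ℝ → ℝ} {a : ℝ} (hd : ∀ r, a ≤ r → HasDerivAt f (f' r) r)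
    (h0 : ∀ r, a ≤ r → f' r ≤ 0) (lim : Tendsto f atTop (𝓝 0)) {r : ℝ} (hr : a ≤ r) : 0 ≤ f r :=
  le_of_tendsto lim ((eventually_ge_atTop r).mono fun _ hs =>
    anti' hs (fun x h1 _ => hd x (hr.trans h1)) fun x h1 _ => h0 x (hr.trans h1))

lemma sq_farg {r : ℝ} (hr : 12 ≤ r) : 33 / 10 ≤ √(91 / 100 * r) ∧
    √(91 / 100 * r) ^ 2 = 91 / 100 * r :=
  ⟨Real.le_sqrt_of_sq_le (by linarith), Real.sq_sqrt (by linarith)⟩

theorem p_FARG (hEND : S_END) (hCVX : S_CVX) :
    S_FARG := by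
  intro z Q U h hw
  obtain ⟨m0, v0, K, hK⟩ := hEND z Q U h
  have pos : ∀ r : ℝ, 12 ≤ r → 0 < r := fun r hr => by linarith
  have hr1 : ∀ r, 12 ≤ r → 91 / 100 ≤ r * hh U r := fun r hr => by
    have e : r * hh U r = r * U.t r ^ 2 - U.w r := by
      have := (pos r hr).ne'
      unfold hh; field_simp
    have := mul_nonneg (pos r hr).le (sq_nonneg (U.t r))
    linarith [h.w_anti (pos 12 le_rfl) hr]
  have p1 : ∀ r, 12 ≤ r → √(91 / 100 * r) - 1 / 4 ≤ -(r * U.L r) := fun r hr => by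
    have := down_farg (f := fun s => -(((√(91 / 100 * s) - 1 / 4) / s + U.L s) * U.m s))
      (fun s hs => (((((((hasDerivAt_id' s).const_mul (91 / 100)).sqrt
        (by linarith)).sub_const (1 / 4)).fun_div (hasDerivAt_id' s) (pos s hs).ne').fun_add
        (h.dL s (pos s hs))).fun_mul (h.dm (pos s hs))).fun_neg) (fun s hs => by
        obtain ⟨a, b⟩ := sq_farg hs
        have s0 := pos s hs
        have c : 0 ≤ U.m s / s ^ 2 * (s * (s * hh U s - 91 / 100) + 3 / 16 +
            (√(91 / 100 * s) - 1 / 4 + s * U.L s) ^ 2) :=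
          mul_nonneg (div_nonneg (h.mpos s0).le (sq_nonneg s)) (add_nonneg (add_nonneg
            (mul_nonneg s0.le (sub_nonneg.2 (hr1 s hs))) (by norm_num)) (sq_nonneg _))
        have e : 91 / 100 * 1 / (2 * √(91 / 100 * s)) * s = √(91 / 100 * s) / 2 := by
          rw [div_mul_eq_mul_div, div_eq_div_iff (by linarith) two_ne_zero]
          linarith
        rw [neg_nonpos, e]
        refine c.trans_eq ?_
        generalize √(91 / 100 * s) = q at b
        have b' : (91 / 100 : ℝ) = q ^ 2 / s := by rw [b]; field_simp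
        rw [b']
        unfold hh
        field_simp
        ring) (by
        have := m0.const_mul (1 + K)
        rw [mul_zero] at this
        refine squeeze_zero_norm' ?_ this
        filter_upwards [eventually_ge_atTop 12] with s hs
        obtain ⟨a, b⟩ := sq_farg hs
        have s0 := pos s hs
        rw [Real.norm_eq_abs, abs_neg, abs_mul, abs_of_pos (h.mpos s0)]
        refine mul_le_mul_of_nonneg_right ((abs_add_le _ _).trans (add_le_add ?_
          (hK s (by linarith)).1)) (h.mpos s0).le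
        rw [abs_of_nonneg (div_nonneg (by linarith) s0.le), div_le_one s0]
        nlinarith) hr
    have := (div_le_iff₀ (pos r hr)).1 (le_neg_iff_add_nonpos_right.2
      (nonpos_of_mul_nonpos_left (neg_nonneg.1 this) (h.mpos (pos r hr))))
    linarith
  have p2 : ∀ r, 12 ≤ r → 47 / 10 - 99 / 5 / r ≤ -(r * U.L r) := fun r hr => by
    obtain ⟨a, b⟩ := sq_farg hr
    refine le_trans ?_ (p1 r hr)
    have : 99 / 20 - √(91 / 100 * r) ≤ 99 / 5 / r := by
      rw [le_div_iff₀ (pos r hr)]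
      generalize √(91 / 100 * r) = q at a b
      have e : r = 100 / 91 * q ^ 2 := by linarith
      have := mul_nonneg (sq_nonneg (q - 33 / 10)) (show 0 ≤ q + 33 / 20 by linarith)
      rw [e]
      linarith
    linarith
  have G3 : ∀ r : ℝ, 12 ≤ r → 3 ≤ 47 / 10 - 99 / 5 / r := fun r hr => by
    have : 99 / 5 / r ≤ 17 / 10 := by rw [div_le_iff₀ (pos r hr)]; linarith
    linarith
  intro r hr
  refine ⟨p1 r hr, p2 r hr, ?_, ?_, ?_⟩
  · have := ((hCVX _ _ _ 12 (by norm_num) (((j2_m h).smul (593 / 2000)).sub (j2_n h Q))).1 0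
      (fun s hs => by
        obtain ⟨a, b⟩ := sq_farg hs
        have s0 := pos s hs
        have c1 : 61 / 66 * √(91 / 100 * s) ≤ -(s * U.L s) := by linarith [p1 s hs]
        have c2 := pow_le_pow_left₀ (by linarith) c1 2
        rw [mul_pow, b, neg_sq] at c2
        have c3 := mul_le_mul_of_nonneg_left (hr1 s hs) s0.le
        have c : 0 ≤ U.m s / s ^ 2 * (593 / 1000 * (s * (s * hh U s) + (s * U.L s) ^ 2) - s) :=
          mul_nonneg (div_nonneg (h.mpos s0).le (sq_nonneg s)) (by linarith)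
        refine c.trans_eq ?_
        field_simp
        ring) (by simpa using (m0.const_mul (593 / 2000)).sub (n_lim h)) r hr).1
    linarith
  · have := down_farg (f := fun s => U.m s / (2 * (47 / 10 - 99 / 5 / s)) + U.v s)
      (fun s hs => ((h.dm (pos s hs)).fun_div ((((hasDerivAt_const s (99 / 5 : ℝ)).fun_div
        (hasDerivAt_id' s) (pos s hs).ne').const_sub (47 / 10)).const_mul 2)
        (by linarith [G3 s hs])).fun_add (h.dv s (pos s hs))) (fun s hs => by
        have s0 := pos s hs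
        have a := G3 s hs
        have b := p2 s hs
        generalize 47 / 10 - 99 / 5 / s = G at a b
        have c : 0 ≤ U.m s / (s * G) * ((-(s * U.L s) - G) + 99 / 10 / (s * G)) :=
          mul_nonneg (div_nonneg (h.mpos s0).le (by positivity))
            (add_nonneg (sub_nonneg.2 b) (by positivity))
        rw [← neg_nonneg]
        refine c.trans_eq ?_
        have : G ≠ 0 := by linarith
        unfold Q4.m
        field_simp
        ring) (by
        have := (m0.div ((tendsto_const_nhds (x := (47 / 10 : ℝ)).sub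
          ((tendsto_const_nhds (x := (99 / 5 : ℝ))).div_atTop tendsto_id)).const_mul 2)
          (by norm_num)).add v0
        rw [zero_div, zero_add] at this
        exact this) hr
    rw [← le_div_iff₀ (by linarith [G3 r hr])]
    linarith
  · refine anti' (f := fun s => s ^ 2 * U.t s) hr (fun s h1 _ =>
      ((hasDerivAt_id' s).fun_pow 2).fun_mul (h.dt s (pos s h1))) fun s h1 _ => ?_
    have s0 := pos s h1
    have c : 0 ≤ 2 / 3 * (s * U.t s) * (-(s * U.L s) - 2) :=
      mul_nonneg (by have := h.pos s s0; positivity) (by linarith [G3 s h1, p2 s h1])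
    rw [← neg_nonneg]
    refine c.trans_eq ?_
    push_cast
    field_simp
    ring

end Pool.Agent.P.MP_97b9bc_mp.S

namespace Pool.Agent.P.MP_97b9bc_mp.S

open Set Filter Topology Pool.Agent.P.MP_97b9bc_mp.T

theorem p_PIECE2 (hGLUE : S_GLUE) :
    S_PIECE2 := by
  intro Ep a b E tm tM c s T T1 T2 W V ha hab htm hE hE3 hc h hF
  have hE2 : E ≤ 1 / 2 := hE3.trans (by norm_num)
  obtain ⟨X2, e2, P2, p2, hG2, hm2, hv2, ⟨K2, hK2⟩, hB2, hB3, ht, hL, hw, hv⟩ := hF
  have hpos : ∀ r, a ≤ r → r ≤ b → 0 < T r := fun r h1 h2 =>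
    htm.trans_le (h r h1 h2).2.2.2.2.1
  have htM : 0 < tM := (hpos a le_rfl hab.le).trans_le (h a le_rfl hab.le).2.2.2.2.2.1
  have hc0 : 0 ≤ c := le_trans (by positivity) hc
  let e1 : ℝ → ℝ := fun r =>
    (3 / 2 * r * T r * T2 r + 3 / 4 * r * T1 r ^ 2 + 3 * T r * T1 r - r * T r ^ 4 +
      W r * T r ^ 2) / (r * T r ^ 2)
  have he1 : ∀ r, a ≤ r → r ≤ b → |e1 r| ≤ E := by
    intro r h1 h2
    have hr : 0 < r := ha.trans_le h1
    have hT := hpos r h1 h2
    have hd : 0 < r * T r ^ 2 := by positivity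
    have h3 : a * tm ^ 2 ≤ r * T r ^ 2 :=
      mul_le_mul h1 (pow_le_pow_left₀ htm.le (h r h1 h2).2.2.2.2.1 2) (by positivity) hr.le
    show |_ / _| ≤ E
    rw [abs_div, abs_of_pos hd, div_le_iff₀ hd]
    exact (h r h1 h2).2.2.2.2.2.2.1.trans (mul_le_mul_of_nonneg_left h3 hE)
  let X1 : Q4 := ⟨T, fun x => 3 / 2 * T1 x / T x + 1 / x, W, V⟩
  have hdL : ∀ r, a ≤ r → r ≤ b →
      HasDerivAt X1.L (X1.t r ^ 2 - X1.w r / r - X1.L r ^ 2 + e1 r) r := fun r h1 h2 =>
    piece_dL T T1 (T2 r) (W r) r (ha.trans_le h1) (hpos r h1 h2) (h r h1 h2).1 (h r h1 h2).2.1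
  have hdP : ∀ r, HasDerivAt (fun x => P2 b + c * (b - x)) (-c) r := by
    intro r
    have := (((hasDerivAt_id r).const_sub b).const_mul c).const_add (P2 b)
    simpa using this
  have hcL : ContinuousOn X1.L (Icc a b) := fun r hr =>
    (hdL r hr.1 hr.2).continuousAt.continuousWithinAt
  have hcw : ContinuousOn X1.w (Icc a b) := fun r hr =>
    (h r hr.1 hr.2).2.2.1.continuousAt.continuousWithinAt
  have hG1 : GoodOn (Icc a b) X1 e1 (fun x => P2 b + c * (b - x)) (fun _ => c) := by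
    refine ⟨fun r hr => hpos r hr.1 hr.2,
      fun r hr => (h r hr.1 hr.2).1.continuousAt.continuousWithinAt, hcL, hcw,
      fun r hr => (h r hr.1 hr.2).2.2.2.1.continuousAt.continuousWithinAt,
      fun r _ => (hdP r).continuousAt.continuousWithinAt, ?_,
      fun r hr => (hdL r hr.1 hr.2).hasDerivWithinAt,
      fun r hr => (h r hr.1 hr.2).2.2.1.hasDerivWithinAt,
      fun r hr => (h r hr.1 hr.2).2.2.2.1.hasDerivWithinAt,
      fun r _ => (hdP r).hasDerivWithinAt, ?_⟩
    · intro r hr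
      have h0 := (hpos r hr.1 hr.2).ne'
      refine ((h r hr.1 hr.2).1.congr_deriv ?_).hasDerivWithinAt
      show T1 r = 2 / 3 * T r * (3 / 2 * T1 r / T r + 1 / r - 1 / r)
      rw [add_sub_cancel_right]
      field_simp
    · intro r hr
      left
      have h1 := he1 r hr.1 hr.2
      refine ⟨h1.trans hE2, le_trans ?_ hc⟩
      have hr0 : 0 < r := ha.trans_le hr.1
      have h2 : e1 r ^ 2 ≤ E ^ 2 := by
        rw [← sq_abs]
        exact pow_le_pow_left₀ (abs_nonneg _) h1 2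
      have h3 : r ^ 2 ≤ b ^ 2 := pow_le_pow_left₀ hr0.le hr.2 2
      have h4 : T r ≤ tM := (h r hr.1 hr.2).2.2.2.2.2.1
      have h5 := hpos r hr.1 hr.2
      show r ^ 2 * (2 * T r + 1) * e1 r ^ 2 / 2 ≤ _
      gcongr
  obtain ⟨X, e, P, p, hG, hl, hle, hr⟩ := hGLUE (Icc a b) b X1 X2 e1 _ _ e2 P2 p2
    (fun r hr => hr.2) ⟨hab.le, le_rfl⟩ hG1 hG2 ht.symm hL.symm hw.symm hv.symm (by simp)
  rw [Icc_union_Ici_eq_Ici hab.le] at hG
  obtain ⟨K1, hK1⟩ := isCompact_Icc.exists_bound_of_continuousOn hcL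
  obtain ⟨K3, hK3⟩ := isCompact_Icc.exists_bound_of_continuousOn hcw
  have hcab : 0 ≤ c * (b - a) := mul_nonneg hc0 (by linarith)
  refine ⟨X, e, P, p, hG, hm2.congr' ?_, hv2.congr' ?_, ⟨max K2 (max K1 K3), ?_⟩, ?_, ?_,
    (hl a hab.le).1, (hl a hab.le).2.1, (hl a hab.le).2.2.1, (hl a hab.le).2.2.2.1⟩
  · filter_upwards [eventually_ge_atTop b] with r h1
    unfold Q4.m
    rw [(hr r h1).1]
  · filter_upwards [eventually_ge_atTop b] with r h1
    rw [(hr r h1).2.2.2.1]
  · intro r h1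
    rcases le_total r b with h2 | h2
    · rw [(hl r h2).2.1, (hl r h2).2.2.1]
      exact ⟨(hK1 r ⟨h1, h2⟩).trans ((le_max_left _ _).trans (le_max_right _ _)),
        (hK3 r ⟨h1, h2⟩).trans ((le_max_right _ _).trans (le_max_right _ _))⟩
    · rw [(hr r h2).2.1, (hr r h2).2.2.1]
      exact ⟨(hK2 r h2).1.trans (le_max_left _ _), (hK2 r h2).2.trans (le_max_left _ _)⟩
  · intro r h1
    rcases lt_or_ge r b with h2 | h2
    · have h3 := hl r h2.le
      have h4 := hB2 b le_rfl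
      have h5 : 0 ≤ c * (b - r) := mul_nonneg hc0 (by linarith)
      have h6 : c * (b - r) ≤ c * (b - a) := mul_le_mul_of_nonneg_left (by linarith) hc0
      refine ⟨?_, ?_, ?_, ?_⟩
      · intro h31
        rw [h3.1, h3.2.2.1]
        exact (h r h1 h2.le).2.2.2.2.2.2.2.1 h31 h2
      · rw [h3.2.2.2.2]
        linarith [h4.2.1]
      · rw [h3.2.2.2.2]
        linarith [h4.2.2.1]
      · rw [hle r h2]
        linarith [he1 r h1 h2.le]
    · have h3 := hr r h2
      have h4 := hB2 r h2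
      refine ⟨?_, ?_, ?_, ?_⟩
      · intro h31
        rw [h3.1, h3.2.2.1]
        exact h4.1 h31
      · rw [h3.2.2.2.2.1]
        exact h4.2.1
      · rw [h3.2.2.2.2.1]
        linarith [h4.2.2.1]
      · rw [h3.2.2.2.2.2]
        exact h4.2.2.2
  · intro r h1 h13
    rcases lt_or_ge r b with h2 | h2
    · obtain ⟨c1, c2, c3, c4, -⟩ := hl r h2.le
      rw [c1, c2, c3, c4, hle r h2]
      exact ⟨(h r h1 h2.le).2.2.2.2.2.2.2.2 h13, (he1 r h1 h2.le).trans hE3⟩
    · obtain ⟨c1, c2, c3, c4, -, c5⟩ := hr r h2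
      rw [c1, c2, c3, c4, c5]
      exact hB3 r h2 h13

end Pool.Agent.P.MP_97b9bc_mp.S

namespace Pool.Agent.P.MP_97b9bc_mp.S

open Set Filter Topology Pool.Agent.P.MP_97b9bc_mp.T

theorem p_INNER2 (hGLUE : S_GLUE) :
    S_INNER2 := by
  intro Ep E s P P1 P2 W W1 V V1 hE0 hE3 h hF
  have hE : E ≤ 1 / 2 := hE3.trans (by norm_num)
  obtain ⟨X2, e2, c2, p2, hG2, hm, hv, ⟨K, hK⟩, hr2, hr3, a1, a2, a3, a4⟩ := hF
  have hP : ∀ r, 0 < r → r ≤ 1 / 2 → 12 - r ≤ P r ∧ P r ≤ 12 + r := by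
    intro r h0 h1
    have := abs_le.1 (h r h0 h1).2.2.2.2.2.2.1
    constructor <;> linarith [this.1, this.2]
  have hP0 : ∀ r, 0 < r → r ≤ 1 / 2 → 0 < P r := fun r h0 h1 => by linarith [(hP r h0 h1).1]
  have he : ∀ r, 0 < r → r ≤ 1 / 2 → |innerE P P1 P2 W r| ≤ E := by
    intro r h0 h1
    have h2 := hP0 r h0 h1
    have h3 : 132 ≤ P r ^ 2 := by nlinarith [(hP r h0 h1).1]
    rw [innerE, abs_div, abs_of_pos (by positivity : 0 < r ^ 4 * P r ^ 2),
      div_le_iff₀ (by positivity)]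
    refine (h r h0 h1).2.2.2.2.2.2.2.2.2.2.1.trans ?_
    rw [mul_comm (r ^ 4)]
    gcongr
  have dt : ∀ r, 0 < r → r ≤ 1 / 2 → HasDerivAt (innerX P P1 W V).t
      (2 / 3 * (innerX P P1 W V).t r * ((innerX P P1 W V).L r - 1 / r)) r := by
    intro r h0 h1
    have h2 := (hP0 r h0 h1).ne'
    have h3 := h0.ne'
    refine ((h r h0 h1).1.fun_div (inner_pow 1 r) (by positivity)).congr_deriv ?_
    simp only [innerX]
    push_cast
    field_simp
    ring
  have dL : ∀ r, 0 < r → r ≤ 1 / 2 → HasDerivAt (innerX P P1 W V).L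
      ((innerX P P1 W V).t r ^ 2 - (innerX P P1 W V).w r / r - (innerX P P1 W V).L r ^ 2 +
        innerE P P1 P2 W r) r := by
    intro r h0 h1
    have h2 := (hP0 r h0 h1).ne'
    have h3 := h0.ne'
    refine (((((h r h0 h1).2.1.const_mul (3 / 2)).fun_div (h r h0 h1).1 h2)).fun_sub
      ((hasDerivAt_const r (2 : ℝ)).fun_div (hasDerivAt_id' r) h3)).congr_deriv ?_
    simp only [innerX, innerE]
    field_simp
    ring
  have dw : ∀ r, 0 < r → r ≤ 1 / 2 →
      HasDerivAt (innerX P P1 W V).w ((innerX P P1 W V).v r) r := by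
    intro r h0 h1
    have h3 := h0.ne'
    refine ((h r h0 h1).2.2.1.fun_div (inner_pow 2 r) (by positivity)).congr_deriv ?_
    simp only [innerX]
    rw [(h r h0 h1).2.2.2.2.1]
    push_cast
    field_simp
    ring
  have dv : ∀ r, 0 < r → r ≤ 1 / 2 →
      HasDerivAt (innerX P P1 W V).v (r * (innerX P P1 W V).t r ^ 3) r := by
    intro r h0 h1
    have h3 := h0.ne'
    refine ((h r h0 h1).2.2.2.1.fun_div (inner_pow 3 r) (by positivity)).congr_deriv ?_
    simp only [innerX]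
    rw [div_pow, ← (h r h0 h1).2.2.2.2.2.1]
    push_cast
    field_simp
    ring
  have dP : ∀ r : ℝ, HasDerivAt (fun x : ℝ => c2 (1 / 2) + 13 * E ^ 2 * (1 / 2 - x))
      (-(13 * E ^ 2)) r := by
    intro r
    refine ((((hasDerivAt_id' r).const_sub (1 / 2)).const_mul (13 * E ^ 2)).const_add
      (c2 (1 / 2))).congr_deriv ?_
    ring
  have hG1 : GoodOn (Ioc 0 (1 / 2)) (innerX P P1 W V) (innerE P P1 P2 W)
      (fun x : ℝ => c2 (1 / 2) + 13 * E ^ 2 * (1 / 2 - x)) (fun _ => 13 * E ^ 2) :=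
    { pos := fun r hr => div_pos (hP0 r hr.1 hr.2) (pow_pos hr.1 2)
      ct := fun r hr => (dt r hr.1 hr.2).continuousAt.continuousWithinAt
      cL := fun r hr => (dL r hr.1 hr.2).continuousAt.continuousWithinAt
      cw := fun r hr => (dw r hr.1 hr.2).continuousAt.continuousWithinAt
      cv := fun r hr => (dv r hr.1 hr.2).continuousAt.continuousWithinAt
      cP := fun r _ => (dP r).continuousAt.continuousWithinAt
      dt := fun r hr => (dt r hr.1 hr.2).hasDerivWithinAt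
      dL := fun r hr => (dL r hr.1 hr.2).hasDerivWithinAt
      dw := fun r hr => (dw r hr.1 hr.2).hasDerivWithinAt
      dv := fun r hr => (dv r hr.1 hr.2).hasDerivWithinAt
      dP := fun r _ => (dP r).hasDerivWithinAt
      src := fun r hr => Or.inl ⟨(he r hr.1 hr.2).trans hE, by
        have h1 : innerE P P1 P2 W r ^ 2 ≤ E ^ 2 := sq_le_sq' (abs_le.1 (he r hr.1 hr.2)).1
          (abs_le.1 (he r hr.1 hr.2)).2
        have h2 : r ^ 2 * (2 * (innerX P P1 W V).t r + 1) = 2 * P r + r ^ 2 := by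
          have := hr.1.ne'
          simp only [innerX]
          field_simp
        have h3 : 2 * P r + r ^ 2 ≤ 26 := by nlinarith [(hP r hr.1 hr.2).2, hr.1, hr.2]
        have h4 : (2 * P r + r ^ 2) * innerE P P1 P2 W r ^ 2 ≤ 26 * E ^ 2 := by gcongr
        rw [h2]
        linarith⟩ }
  obtain ⟨X, e, c, p, hG, b1, b2, b3⟩ := hGLUE (Ioc 0 (1 / 2)) (1 / 2) _ X2 _ _ _ e2 c2 p2
    Ioc_subset_Iic_self ⟨by norm_num, le_rfl⟩ hG1 hG2
    (by rw [a1]; simp only [innerX]; ring) (by rw [a2]; simp only [innerX]; norm_num)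
    (by rw [a3]; simp only [innerX]; ring) (by rw [a4]; simp only [innerX]; ring) (by simp)
  rw [Ioc_union_Ici_eq_Ioi (by norm_num)] at hG
  have hE2 : 0 ≤ E ^ 2 := sq_nonneg E
  refine ⟨e, X, ⟨hG.pos, hG.ct, hG.cL, hG.cw, hG.cv, hG.dt, hG.dL, hG.dw, hG.dv⟩, ?_,
    ⟨hm.congr' ?_, hv.congr' ?_, K, fun r hr => ?_⟩,
    ⟨fun r => s + 13 / 2 * E ^ 2 - c r, p, continuousOn_const.sub hG.cP, fun r hr =>
      ⟨?_, ?_, ?_, hG.src r hr⟩⟩, fun r h0 h1 => ?_, fun r hr => ?_, fun r h0 h13 => ?_⟩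
  · intro r h0 _ h1
    obtain ⟨c1, c2, c3, c4, -⟩ := b1 r h1
    obtain ⟨-, -, -, -, -, -, -, d1, d2, d3, -⟩ := h r h0 h1
    have h2 := hP r h0 h1
    have h3 := hP0 r h0 h1
    rw [c1, c2, c3, c4]
    simp only [innerX]
    refine ⟨?_, by gcongr; linarith [h2.2], ?_, ?_, ?_⟩
    · have h4 : r ≤ √r := Real.le_sqrt_of_sq_le (by nlinarith)
      rw [zero_div, Real.sqrt_zero, add_zero, div_mul_eq_mul_div]
      gcongr
      linarith [h2.1]
    · have h4 : |3 / 2 * P1 r / P r| ≤ 1 := by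
        rw [abs_div, abs_mul, abs_of_pos h3, div_le_one h3, abs_of_pos (by norm_num)]
        linarith [h2.1]
      have h5 : 2 ≤ 1 / r := by rw [le_div_iff₀ h0]; linarith
      have h6 : 2 / r = 2 * (1 / r) := by ring
      have h7 : 1000 / r = 1000 * (1 / r) := by ring
      rw [abs_le] at h4 ⊢
      constructor <;> linarith [h4.1, h4.2]
    · rw [abs_div, abs_of_pos (pow_pos h0 3)]
      gcongr
    · rw [abs_div, abs_of_pos (pow_pos h0 4)]
      gcongr
  · filter_upwards [eventually_ge_atTop (1 / 2)] with r hr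
    simp only [Q4.m, (b3 r hr).1]
  · filter_upwards [eventually_ge_atTop (1 / 2)] with r hr
    exact (b3 r hr).2.2.2.1.symm
  · rw [(b3 r (by linarith)).2.1, (b3 r (by linarith)).2.2.1]
    exact hK r (by linarith)
  · simpa using (hG.dP r hr).const_sub (s + 13 / 2 * E ^ 2)
  · beta_reduce
    rcases le_total r (1 / 2) with h1 | h1
    · rw [(b1 r h1).2.2.2.2]
      have := (hr2 (1 / 2) le_rfl).2.2.1
      nlinarith
    · rw [(b3 r h1).2.2.2.2.1]
      have := (hr2 r h1).2.2.1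
      linarith
  · beta_reduce
    rcases le_total r (1 / 2) with h1 | h1
    · rw [(b1 r h1).2.2.2.2]
      have := (hr2 (1 / 2) le_rfl).2.1
      nlinarith
    · rw [(b3 r h1).2.2.2.2.1]
      have := (hr2 r h1).2.1
      linarith
  · rcases h1.eq_or_lt with h2 | h2
    · rw [(b3 r h2.ge).2.2.2.2.2]
      exact (hr2 r h2.ge).2.2.2
    · rw [b2 r h2]
      linarith [he r h0 h1]
  · have h1 : 1 / 2 ≤ r := by linarith
    rw [(b3 r h1).1, (b3 r h1).2.2.1]
    exact (hr2 r h1).1 hr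
  · rcases lt_or_ge r (1 / 2) with h2 | h2
    · obtain ⟨c1, c2, c3, c4, -⟩ := b1 r h2.le
      rw [c1, c2, c3, c4, b2 r h2]
      exact ⟨(h r h0 h2.le).2.2.2.2.2.2.2.2.2.2.2, (he r h0 h2.le).trans hE3⟩
    · obtain ⟨c1, c2, c3, c4, -, c5⟩ := b3 r h2
      rw [c1, c2, c3, c4, c5]
      exact hr3 r h2 h13

end Pool.Agent.P.MP_97b9bc_mp.S
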