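import Pool.Agent.P.MP_97b9bc_mp.S.Base
import Pool.Agent.P.MP_97b9bc_mp.T.NPoly

/-! The explicit functions. -/

set_option autoImplicit false

namespace Pool.Agent.P.MP_97b9bc_mp.S

open Set Filter Topology Pool.Agent.P.MP_97b9bc_mp.T

def pT : List ℚ := [1, 0, 479 / 2000, 8091 / 100000, 4627 / 20000, -28087 / 100000, 451 / 5000]

def pG : List ℚ := [2, 0, 26927 / 50000, 269 / 160, -195439 / 100000, 30037 / 50000]

def pA : List ℚ := [12, 0, 86231 / 2000, -294389 / 10000, 28979 / 2500, -2693 / 1250]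

def pB : List ℚ := [4, 0, 282977 / 100000, 360421 / 100000, -919431 / 100000, 327437 / 50000, -161173 / 100000]

def cZ : List ℚ := [13979 / 50000, -5427 / 100000, 82577 / 100000, -21119 / 20000, 18047 / 20000]

def cO : List ℚ := [50213 / 50000, -3901 / 100000, -48079 / 100000, 6701 / 100000]

def cA1 : List ℚ := [11447 / 1000000, -4731 / 200000, 669227 / 500000, -3497613 / 1000000, 3940899 / 1000000, -420139 / 250000]

def cA2 : List ℚ := [11173 / 1000000, -3993 / 500000, 1096481 / 1000000, -2855919 / 1000000, 3032251 / 1000000, -1232681 / 1000000]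

def cA3 : List ℚ := [2329 / 200000, -959 / 40000, 4892 / 3125, -2918807 / 1000000, 1300499 / 500000, -1168897 / 1000000]

noncomputable def PT (r : ℝ) : ℝ := ev pT (r / 10)
noncomputable def PG (r : ℝ) : ℝ := ev pG (r / 10)
noncomputable def PA (r : ℝ) : ℝ := ev pA (r / 10)
noncomputable def PB (r : ℝ) : ℝ := ev pB (r / 10)
noncomputable def tLo (r : ℝ) : ℝ := 11997 / 1000 / PT r
noncomputable def tHi (r : ℝ) : ℝ := 12003 / 1000 / PT r
noncomputable def gLo (r : ℝ) : ℝ := PG r - 3 / 1000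
noncomputable def gHi (r : ℝ) : ℝ := PG r + 3 / 1000
noncomputable def aLo (r : ℝ) : ℝ := 9991 / 10000 / PA r - (r * PT r) ^ 3 / 25000000
noncomputable def aHi (r : ℝ) : ℝ := 10009 / 10000 / PA r + (r * PT r) ^ 3 / 25000000
noncomputable def bHi (r : ℝ) : ℝ := 5003 / 5000 / PB r + r * (r * PT r) ^ 3 / 500000000

/-- the envelope of the reference solution at radius `r` -/
structure EnvAt (Q : ℝ) (U : Q4) (r : ℝ) : Prop where
  tlo : tLo r ≤ r ^ 2 * U.t r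
  thi : r ^ 2 * U.t r ≤ tHi r
  glo : gLo r ≤ -(r * U.L r)
  ghi : -(r * U.L r) ≤ gHi r
  alo : aLo r * (r * U.m r) ≤ U.w r + Q
  ahi : U.w r + Q ≤ aHi r * (r * U.m r)
  bhi : -U.v r ≤ bHi r * U.m r

/-- the envelope of the reference solution -/
def Env (a Q : ℝ) (U : Q4) : Prop :=
  9173 / 10000 ≤ Q ∧ Q ≤ 9175 / 10000 ∧ ∀ r, a ≤ r → r ≤ 12 → EnvAt Q U r

/-- the envelope of the approximate solution -/
def EY (r t L w v : ℝ) : Prop :=
  |r ^ 2 * t * PT r - 12| ≤ 24 / 10 ^ 4 ∧ |r * L + PG r| ≤ 17 / 10 ^ 4 ∧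
    |(w + 917437 / 10 ^ 6) * PA r - r ^ 3 * t ^ 3| ≤ 75 / 10 ^ 5 * (r ^ 3 * t ^ 3) ∧
    -v * PB r ≤ (1 + 3 / 10 ^ 4) * (r ^ 2 * t ^ 3) ∧ v ≤ 0

/-- a polynomial in `c / (r + d)`, and its derivatives -/
noncomputable def E0 (p : List ℚ) (c d r : ℝ) : ℝ := ev p (c / (r + d))
noncomputable def E1 (p : List ℚ) (c d r : ℝ) : ℝ := -ev (derA 0 p) (c / (r + d)) / (r + d)
noncomputable def E2 (p : List ℚ) (c d r : ℝ) : ℝ :=
  ev (derA 1 (derA 0 p)) (c / (r + d)) / (r + d) ^ 2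

noncomputable def chi (r : ℝ) : ℝ := 7 / 25 + 13 / 20 * (4 / (r + 4)) ^ 2
noncomputable def chi1 (r : ℝ) : ℝ := -(13 / 10 * (4 / (r + 4)) ^ 2) / (r + 4)
noncomputable def chi2 (r : ℝ) : ℝ := 39 / 10 * (4 / (r + 4)) ^ 2 / (r + 4) ^ 2
noncomputable def chO (r : ℝ) : ℝ := 1 - (31 / 10 / r) ^ 2
noncomputable def chO1 (r : ℝ) : ℝ := 2 * (31 / 10 / r) ^ 2 / r
noncomputable def chO2 (r : ℝ) : ℝ := -(6 * (31 / 10 / r) ^ 2) / r ^ 2

noncomputable def jW (r : ℝ) : ℝ := 1 / (1 + (5 / 47 * r) ^ 4)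
noncomputable def nW (r : ℝ) : ℝ := 144 / r ^ 3 + 131 / 100 * jW r
noncomputable def nW2 (r : ℝ) : ℝ :=
  1728 / r ^ 5 + 131 / 100 * (jW r * (1 - jW r) * (20 - 32 * jW r)) / r ^ 2

noncomputable def ph (r : ℝ) : ℝ := (1 - (4 / 13 * r) ^ 8) / r
noncomputable def ph1 (r : ℝ) : ℝ := -(1 + 7 * (4 / 13 * r) ^ 8) / r ^ 2
noncomputable def ph2 (r : ℝ) : ℝ := (2 - 42 * (4 / 13 * r) ^ 8) / r ^ 3
noncomputable def dI1 (x : ℝ) : ℝ := 1 / 20 - x ^ 8 / 12 + 8 / 15 * x ^ 5 - 1 / 2 * x ^ 4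
noncomputable def dI2 (x : ℝ) : ℝ :=
  1 / 30 - x ^ 8 / 3 + x ^ 16 / 110 + 16 / 15 * x ^ 6 - 128 / 165 * x ^ 5
noncomputable def dI3 (x : ℝ) : ℝ :=
  1 / 42 - 3 / 2 * x ^ 8 + x ^ 16 / 30 - x ^ 24 / 306 + 1024 / 357 * x ^ 7 - 64 / 45 * x ^ 6
/-- second derivative `1730 (1 - (1 - τ ph) ^ 3) / r ^ 5`, double zero at `13 / 4` -/
noncomputable def Dbar (τ r : ℝ) : ℝ :=
  1730 * (3 * τ * dI1 (4 / 13 * r) / r ^ 4 - 3 * τ ^ 2 * dI2 (4 / 13 * r) / r ^ 5 +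
    τ ^ 3 * dI3 (4 / 13 * r) / r ^ 6)

noncomputable def Pd (r : ℝ) : ℝ := 1 + r ^ 3 / 100
noncomputable def Pn (r : ℝ) : ℝ := 1 + 23 / 10 ^ 4 * r ^ 2 + r ^ 3 / 100 + 363 / 10 ^ 7 * r ^ 5
noncomputable def Tt (r : ℝ) : ℝ := 6003 / 500 * (Pd r / Pn r)
noncomputable def ld (r : ℝ) : ℝ := 3 * (r ^ 3 / 100) / Pd r
noncomputable def ln (r : ℝ) : ℝ :=
  (2 * (23 / 10 ^ 4 * r ^ 2) + 3 * (r ^ 3 / 100) + 5 * (363 / 10 ^ 7 * r ^ 5)) / Pn r
/-- `r Tt' / Tt` -/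
noncomputable def lp (r : ℝ) : ℝ := ld r - ln r
/-- `r lp'` -/
noncomputable def mp (r : ℝ) : ℝ :=
  (3 * ld r - ld r ^ 2) -
    ((4 * (23 / 10 ^ 4 * r ^ 2) + 9 * (r ^ 3 / 100) + 25 * (363 / 10 ^ 7 * r ^ 5)) / Pn r -
      ln r ^ 2)
noncomputable def le (r : ℝ) : ℝ := -(r * chi1 r) / (1 - chi r)

noncomputable def M1 (r : ℝ) : ℝ := Tt r ^ 3 / r ^ 4 * (1 - chi r)
noncomputable def M2 (r : ℝ) : ℝ := Tt r ^ 3 / r ^ 4 * (4 / 5 * (r / (r + 2))) ^ 3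
noncomputable def M3 (r : ℝ) : ℝ := Tt r ^ 3 / r ^ 4 * (18 / 25 * (r / (r + 8))) ^ 3
noncomputable def l11 (r : ℝ) : ℝ := 3 * lp r - 4 + le r
noncomputable def l12 (r : ℝ) : ℝ :=
  l11 r ^ 2 - l11 r + 3 * mp r - le r * (2 - 3 * (4 / (r + 4))) - le r ^ 2
noncomputable def l21 (r : ℝ) : ℝ := 3 * lp r - 4 + 3 * (2 / (r + 2))
noncomputable def l22 (r : ℝ) : ℝ :=
  l21 r ^ 2 - l21 r + 3 * mp r - 3 * (r / (r + 2) * (2 / (r + 2)))
noncomputable def l31 (r : ℝ) : ℝ := 3 * lp r - 4 + 3 * (8 / (r + 8))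
noncomputable def l32 (r : ℝ) : ℝ :=
  l31 r ^ 2 - l31 r + 3 * mp r - 3 * (8 / (r + 8) * (1 - 8 / (r + 8)))
noncomputable def N1 (r : ℝ) : ℝ := r * M1 r * E0 cA1 2 2 r
noncomputable def N2 (r : ℝ) : ℝ := r * M2 r * ((1 + 2 / r) * E0 cA2 2 2 r)
noncomputable def N3 (r : ℝ) : ℝ := r * M3 r * ((1 + 2 / r) * E0 cA3 2 2 r)

lemma ev_derA_zero (p : List ℚ) (x : ℝ) : ev (derA 0 p) x = x * ev (pder p) x := by
  have h1 := ev_derA 0 p x
  rw [zero_add, ev_derA_one] at h1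
  linarith

lemma d_E0 (p : List ℚ) (c : ℝ) {d r : ℝ} (h : 0 < r + d) :
    HasDerivAt (fun s => ev p (c / (s + d))) (-ev (derA 0 p) (c / (r + d)) / (r + d)) r := by
  have h1 : HasDerivAt (fun s => c / (s + d)) (-(c / (r + d)) / (r + d)) r :=
    ((hasDerivAt_const r c).fun_div ((hasDerivAt_id' r).add_const d) h.ne').congr_deriv
      (by field_simp; ring)
  refine ((hasDerivAt_ev p _).comp r h1).congr_deriv ?_
  rw [ev_derA_zero]
  ring

lemma j2_E (p : List ℚ) (c : ℝ) {d : ℝ} (hd : 0 ≤ d) : J2 (E0 p c d) (E1 p c d) (E2 p c d) := by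
  intro r hr
  have h : 0 < r + d := by linarith
  refine ⟨d_E0 p c h, ?_⟩
  refine ((d_E0 (derA 0 p) c h).fun_neg.fun_div ((hasDerivAt_id' r).add_const d)
    h.ne').congr_deriv ?_
  have h1 := ev_derA 0 (derA 0 p) (c / (r + d))
  rw [zero_add] at h1
  unfold E2
  rw [h1]
  field_simp
  ring

lemma j2_chi : J2 chi chi1 chi2 :=
  (j2_E [7 / 25, 0, 13 / 20] 4 (d := 4) (by norm_num)).congr
    (fun r _ => by simp only [chi, E0, ev]; push_cast; ring)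
    (fun r _ => by simp only [chi1, E1, ev, derA]; push_cast; ring)
    (fun r _ => by simp only [chi2, E2, ev, derA]; push_cast; ring)

lemma j2_chO : J2 chO chO1 chO2 :=
  (j2_E [1, 0, -1] (31 / 10) (d := 0) le_rfl).congr
    (fun r _ => by simp only [chO, E0, ev, add_zero]; push_cast; ring)
    (fun r _ => by simp only [chO1, E1, ev, derA, add_zero]; push_cast; ring)
    (fun r _ => by simp only [chO2, E2, ev, derA, add_zero]; push_cast; ring)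

lemma j2_ph : J2 ph ph1 ph2 := by
  intro r hr
  have h8 : HasDerivAt (fun s : ℝ => (4 / 13 * s) ^ 8) (8 * (4 / 13 * r) ^ 8 / r) r :=
    (((hasDerivAt_id' r).const_mul (4 / 13)).fun_pow 8).congr_deriv
      (by have := hr.ne'; push_cast; field_simp)
  have := hr.ne'
  constructor
  · refine ((h8.const_sub 1).fun_div (hasDerivAt_id' r) hr.ne').congr_deriv ?_
    unfold ph1
    field_simp
    ring
  · refine (((h8.const_mul 7).const_add 1).fun_neg.fun_div ((hasDerivAt_id' r).fun_pow 2)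
      (by positivity)).congr_deriv ?_
    unfold ph2
    push_cast
    field_simp
    ring

/-- a positive function with `l = r f' / f` and `m = r l'` -/
def LJ (f l m : ℝ → ℝ) : Prop :=
  ∀ r, 0 < r → 0 < f r ∧ HasDerivAt f (l r * f r / r) r ∧ HasDerivAt l (m r / r) r

namespace LJ

variable {f l m g k n : ℝ → ℝ}

lemma mul (hf : LJ f l m) (hg : LJ g k n) :
    LJ (fun r => f r * g r) (fun r => l r + k r) (fun r => m r + n r) := fun r hr =>
  ⟨mul_pos (hf r hr).1 (hg r hr).1, ((hf r hr).2.1.fun_mul (hg r hr).2.1).congr_deriv (by ring),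
    ((hf r hr).2.2.fun_add (hg r hr).2.2).congr_deriv (by ring)⟩

lemma div (hf : LJ f l m) (hg : LJ g k n) :
    LJ (fun r => f r / g r) (fun r => l r - k r) (fun r => m r - n r) := fun r hr =>
  ⟨div_pos (hf r hr).1 (hg r hr).1,
    ((hf r hr).2.1.fun_div (hg r hr).2.1 (hg r hr).1.ne').congr_deriv
      (by have := (hg r hr).1.ne'; field_simp),
    ((hf r hr).2.2.fun_sub (hg r hr).2.2).congr_deriv (by ring)⟩

lemma pow (hf : LJ f l m) (j : ℕ) :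
    LJ (fun r => f r ^ (j + 1)) (fun r => (j + 1) * l r) (fun r => (j + 1) * m r) := fun r hr =>
  ⟨pow_pos (hf r hr).1 _, ((hf r hr).2.1.fun_pow (j + 1)).congr_deriv
      (by simp only [Nat.add_sub_cancel]; push_cast; ring),
    ((hf r hr).2.2.const_mul _).congr_deriv (by ring)⟩

lemma const {c : ℝ} (hc : 0 < c) : LJ (fun _ => c) (fun _ => 0) (fun _ => 0) := fun r _ =>
  ⟨hc, (hasDerivAt_const r c).congr_deriv (by ring), (hasDerivAt_const r 0).congr_deriv (by ring)⟩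

lemma id' : LJ (fun r => r) (fun _ => 1) (fun _ => 0) := fun r hr =>
  ⟨hr, (hasDerivAt_id' r).congr_deriv (by have := hr.ne'; field_simp),
    (hasDerivAt_const r 1).congr_deriv (by ring)⟩

lemma congr (hf : LJ f l m) (h0 : ∀ r, 0 < r → g r = f r) (h1 : ∀ r, 0 < r → k r = l r)
    (h2 : ∀ r, 0 < r → n r = m r) : LJ g k n := fun r hr => by
  have hn : ∀ᶠ s in 𝓝 r, 0 < s := Ioi_mem_nhds hr
  rw [h0 r hr, h1 r hr, h2 r hr]
  exact ⟨(hf r hr).1, (hf r hr).2.1.congr_of_eventuallyEq (hn.mono h0),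
    (hf r hr).2.2.congr_of_eventuallyEq (hn.mono h1)⟩

lemma of_j2 {f1 f2 : ℝ → ℝ} (hf : J2 f f1 f2) (hp : ∀ r, 0 < r → 0 < f r) :
    LJ f (fun r => r * f1 r / f r)
      (fun r => (r * f1 r + r ^ 2 * f2 r) / f r - (r * f1 r / f r) ^ 2) := fun r hr => by
  have h1 := (hp r hr).ne'
  have h2 := hr.ne'
  exact ⟨hp r hr, (hf r hr).1.congr_deriv (by field_simp),
    (((hasDerivAt_id' r).fun_mul (hf r hr).2).fun_div (hf r hr).1 h1).congr_deriv
      (by field_simp)⟩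

lemma j2 (hf : LJ f l m) :
    J2 f (fun r => l r * f r / r) (fun r => (l r ^ 2 - l r + m r) * f r / r ^ 2) := fun r hr => by
  have h2 := hr.ne'
  exact ⟨(hf r hr).2.1, (((hf r hr).2.2.fun_mul (hf r hr).2.1).fun_div (hasDerivAt_id' r)
    h2).congr_deriv (by field_simp; ring)⟩

/-- the fraction `r / (r + d)` -/
lemma frac {d : ℝ} (hd : 0 ≤ d) :
    LJ (fun r => r / (r + d)) (fun r => d / (r + d))
      (fun r => -(d / (r + d) * (1 - d / (r + d)))) := fun r hr => by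
  have h1 : 0 < r + d := by linarith
  have h2 := hr.ne'
  have h3 := h1.ne'
  exact ⟨div_pos hr h1, ((hasDerivAt_id' r).fun_div ((hasDerivAt_id' r).add_const d)
      h3).congr_deriv (by field_simp; ring),
    ((hasDerivAt_const r d).fun_div ((hasDerivAt_id' r).add_const d) h3).congr_deriv
      (by field_simp; ring)⟩

end LJ

lemma Pd_pos {r : ℝ} (hr : 0 ≤ r) : 0 < Pd r := by unfold Pd; positivity

lemma Pn_pos {r : ℝ} (hr : 0 ≤ r) : 0 < Pn r := by unfold Pn; positivity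

lemma lj_Tt : LJ Tt lp mp := by
  have i := J2.id'
  have i2 := i.mul i
  have i3 := i2.mul i
  have i5 := i3.mul i2
  have hd : J2 Pd (fun r => 3 * r ^ 2 / 100) (fun r => 6 * r / 100) :=
    ((J2.const 1).add (i3.smul (1 / 100))).congr (fun r _ => by unfold Pd; ring)
      (fun r _ => by ring) (fun r _ => by ring)
  have hn : J2 Pn (fun r => 23 / 10 ^ 4 * (2 * r) + 3 * r ^ 2 / 100 + 363 / 10 ^ 7 * (5 * r ^ 4))
      (fun r => 23 / 10 ^ 4 * 2 + 6 * r / 100 + 363 / 10 ^ 7 * (20 * r ^ 3)) :=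
    ((((J2.const 1).add (i2.smul (23 / 10 ^ 4))).add (i3.smul (1 / 100))).add
      (i5.smul (363 / 10 ^ 7))).congr (fun r _ => by unfold Pn; ring)
      (fun r _ => by ring) (fun r _ => by ring)
  exact ((LJ.const (c := 6003 / 500) (by norm_num)).mul
    ((LJ.of_j2 hd fun r hr => Pd_pos hr.le).div (LJ.of_j2 hn fun r hr => Pn_pos hr.le))).congr
    (fun r _ => rfl) (fun r _ => by unfold lp ld ln; ring) (fun r _ => by unfold mp ld ln; ring)

/-- a cap of the form `r M a` -/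
lemma good_of {M l m l2 a a1 a2 : ℝ → ℝ} (hM : LJ M l m) (ha : J2 a a1 a2)
    (h2 : ∀ r, 0 < r → l2 r = l r ^ 2 - l r + m r)
    (hc : ∀ r, 0 < r → 1 ≤ a r * (l2 r + 2 * l r) + 2 * (1 + l r) * (r * a1 r) + r ^ 2 * a2 r)
    (hl : Tendsto (fun r => r * M r * a r) atTop (𝓝 0)) : Good M l l2 (fun r => r * M r * a r) where
  pos r hr := (hM r hr).1
  j2 := hM.j2.congr (fun _ _ => rfl) (fun _ _ => rfl) (fun r hr => by rw [h2 r hr])
  cap := ⟨_, _, (J2.id'.mul hM.j2).mul ha, fun r hr => by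
    have h1 := mul_le_mul_of_nonneg_left (hc r hr) (div_pos (hM r hr).1 hr).le
    rw [h2 r hr] at h1
    have := hr.ne'
    refine le_of_eq_of_le (mul_one _).symm (h1.trans_eq ?_)
    field_simp
    ring⟩
  lim := hl

/-- the functions of `Tt` in the chart `x = r / (r + 2)` -/
lemma chart {r x e : ℝ} (hr : 0 < r) (hx : x = r / (r + 2)) (he : e = 1 - x) :
    0 < x ∧ 0 < e ∧ e = 2 / (r + 2) ∧ r * e = 2 * x ∧
    Pd r * e ^ 3 = e ^ 3 + 2 / 25 * x ^ 3 ∧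
    Pn r * e ^ 5 = e ^ 5 + 23 / 2500 * (x ^ 2 * e ^ 3) + 2 / 25 * (x ^ 3 * e ^ 2) +
      363 / 312500 * x ^ 5 ∧
    ld r = 6 / 25 * (x ^ 3 * (e ^ 3 + 2 / 25 * x ^ 3)⁻¹) ∧
    (∀ a b c : ℝ, (a * (23 / 10 ^ 4 * r ^ 2) + b * (r ^ 3 / 100) + c * (363 / 10 ^ 7 * r ^ 5)) / Pn r =
      (a * (23 / 2500 * (x ^ 2 * e ^ 3)) + b * (2 / 25 * (x ^ 3 * e ^ 2)) +
        c * (363 / 312500 * x ^ 5)) * (e ^ 5 + 23 / 2500 * (x ^ 2 * e ^ 3) +
          2 / 25 * (x ^ 3 * e ^ 2) + 363 / 312500 * x ^ 5)⁻¹) ∧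
    Tt r = 6003 / 500 * ((e ^ 3 + 2 / 25 * x ^ 3) * e ^ 2 * (e ^ 5 + 23 / 2500 * (x ^ 2 * e ^ 3) +
      2 / 25 * (x ^ 3 * e ^ 2) + 363 / 312500 * x ^ 5)⁻¹) := by
  have h2 : 0 < r + 2 := by linarith
  have e1 : e = 2 / (r + 2) := by rw [he, hx]; field_simp; ring
  have e0 : 0 < e := by rw [e1]; positivity
  have e2 : x = r * e / 2 := by rw [e1, hx]; field_simp
  have e3 : Pd r * e ^ 3 = e ^ 3 + 2 / 25 * x ^ 3 := by rw [e2]; unfold Pd; ring
  have e4 : Pn r * e ^ 5 = e ^ 5 + 23 / 2500 * (x ^ 2 * e ^ 3) + 2 / 25 * (x ^ 3 * e ^ 2) +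
      363 / 312500 * x ^ 5 := by rw [e2]; unfold Pn; ring
  have p1 := (Pd_pos hr.le).ne'
  have p2 := (Pn_pos hr.le).ne'
  have p3 := e0.ne'
  refine ⟨by rw [hx]; positivity, e0, e1, by linarith, e3, e4, ?_, fun a b c => ?_, ?_⟩
  · rw [← e3, e2, ld]; field_simp; ring
  · rw [← e4, e2]; field_simp; ring
  · rw [← e3, ← e4, Tt]; field_simp

end Pool.Agent.P.MP_97b9bc_mp.S
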