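import Pool.Agent.P.MP_97b9bc_mp.S.IfaceA
import Pool.Agent.P.MP_97b9bc_mp.S.Data

/-! Statements that use the explicit functions. -/

set_option autoImplicit false

namespace Pool.Agent.P.MP_97b9bc_mp.S

open Set Filter Topology Pool.Agent.P.MP_97b9bc_mp.T

-- deps:
-- imports: Pool.Agent.P.MP_97b9bc_mp.S.KA
def S_NB : Prop :=
  (∀ r : ℝ, 0 ≤ r → r ≤ 13 → 9999 / 10000 < PT r ∧ PT r < 41 / 25 ∧ 119 / 10 < PA r ∧ PA r < 46 ∧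
    39 / 10 < PB r ∧ PB r < 71 / 10 ∧ 199 / 100 < PG r ∧ PG r < 163 / 50 ∧
    PG r < 201 / 100 + r / 8 ∧ 0 < aLo r) ∧
  (∀ e : ℝ, 0 ≤ e → e ≤ 1 → 0 < ev cZ e ∧ ev cZ e < 1 ∧ 0 < ev cO e ∧ ev cO e < 201 / 200) ∧
  tHi 12 ≤ 783 / 100 ∧ aHi 12 ≤ 1 / 40

-- deps:
-- imports: Pool.Agent.P.MP_97b9bc_mp.S.KA
def S_NZ1 : Prop :=
  ∀ r a b : ℝ, 0 < r → 0 ≤ b →
    ((r ≤ 12 ∧ aLo r ≤ a ∧ a ≤ aHi r ∧ b ≤ bHi r) ∨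
      (12 ≤ r ∧ 0 ≤ a ∧ a * r ≤ 593 / 2000 ∧ b * (2 * (47 / 10 - 99 / 5 / r)) ≤ 1)) →
    r ^ 2 * E2 cZ 4 4 r * a - 2 * (r * E1 cZ 4 4 r * b) + E0 cZ 4 4 r ≤ chi r

-- deps:
-- imports: Pool.Agent.P.MP_97b9bc_mp.S.KA
def S_NO1 : Prop :=
  ∀ r a b : ℝ, 16 / 5 ≤ r → 0 ≤ b →
    ((r ≤ 12 ∧ aLo r ≤ a ∧ a ≤ aHi r ∧ b ≤ bHi r) ∨
      (12 ≤ r ∧ 0 ≤ a ∧ a * r ≤ 593 / 2000 ∧ b * (2 * (47 / 10 - 99 / 5 / r)) ≤ 1)) →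
    chO r ≤ r ^ 2 * E2 cO (31 / 10) 0 r * a - 2 * (r * E1 cO (31 / 10) 0 r * b) +
      E0 cO (31 / 10) 0 r

-- deps: NB
-- imports: Pool.Agent.P.MP_97b9bc_mp.S.KA
def S_NZ2 : Prop :=
  ∀ r T G a s θ : ℝ, 0 < r → r ≤ 12 → tLo r ≤ T → T ≤ tHi r → gLo r ≤ G → G ≤ gHi r →
    aLo r ≤ a → a ≤ aHi r → 0 < s → s ≤ 1 → 0 < θ → θ ^ 3 = 1 - s * chi r →
    (1 - θ ^ 2) * (T / r ^ 2) ^ 2 + kin (-G / r) (θ ^ 3) (-(s * chi1 r)) (-(s * chi2 r)) ≤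
      s * E0 cZ 4 4 r * (a * T ^ 3 / r ^ 4)

-- deps:
def S_NZ3 : Prop :=
  ∀ r T G s θ : ℝ, 12 ≤ r → 0 < T → T ≤ 783 / 100 → 61 / 20 ≤ G → 0 < s → s ≤ 1 → 0 < θ →
    θ ^ 3 = 1 - s * chi r →
    (1 - θ ^ 2) * (T / r ^ 2) ^ 2 + kin (-G / r) (θ ^ 3) (-(s * chi1 r)) (-(s * chi2 r)) ≤ 0

-- deps: NB
-- imports: Pool.Agent.P.MP_97b9bc_mp.S.KA
def S_NO2 : Prop :=
  ∀ r T G a τ θ : ℝ, 16 / 5 ≤ r → r ≤ 12 → tLo r ≤ T → T ≤ tHi r → gLo r ≤ G → G ≤ gHi r →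
    aLo r ≤ a → a ≤ aHi r → 0 < τ → 1 < θ → θ ^ 3 = 1 + τ * chO r →
    τ * E0 cO (31 / 10) 0 r * (a * T ^ 3 / r ^ 4) ≤
        (θ ^ 2 - 1) * (T / r ^ 2) ^ 2 - kin (-G / r) (θ ^ 3) (τ * chO1 r) (τ * chO2 r) ∨
      nW r / r - a * T ^ 3 / r ^ 4 <
        (θ ^ 2 - 1) * (T / r ^ 2) ^ 2 - kin (-G / r) (θ ^ 3) (τ * chO1 r) (τ * chO2 r)

-- deps: NB
def S_NO3 : Prop :=
  ∀ r T G a τ θ : ℝ, 12 ≤ r → 0 < T → T ≤ 783 / 100 → 0 ≤ G → 0 ≤ a → a * r ≤ 593 / 2000 →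
    0 < τ → 1 < θ → θ ^ 3 = 1 + τ * chO r →
    τ * E0 cO (31 / 10) 0 r * (a * T ^ 3 / r ^ 4) ≤
        (θ ^ 2 - 1) * (T / r ^ 2) ^ 2 - kin (-G / r) (θ ^ 3) (τ * chO1 r) (τ * chO2 r) ∨
      nW r / r - a * T ^ 3 / r ^ 4 <
        (θ ^ 2 - 1) * (T / r ^ 2) ^ 2 - kin (-G / r) (θ ^ 3) (τ * chO1 r) (τ * chO2 r)

-- deps:
-- imports: Pool.Agent.P.MP_97b9bc_mp.S.KB
def S_NW : Prop :=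
  ∀ Q r n t : ℝ, 9173 / 10000 ≤ Q → Q ≤ 9175 / 10000 → 16 / 5 ≤ r → nW r < n → 0 < t →
    (n - Q) / r - 1 / r ^ 2 ≤ t ^ 2 → n * (2 * Q - n) ≤ r ^ 2 * t ^ 3 → nW2 r < r * t ^ 3

-- deps: NB
-- imports: Pool.Agent.P.MP_97b9bc_mp.S.KB
def S_NI : Prop :=
  ∀ r T G τ θ : ℝ, 0 < r → r ≤ 16 / 5 → tLo r ≤ T → T ≤ tHi r → gLo r ≤ G → G ≤ gHi r →
    0 < τ → θ = 1 - τ * ph r → 0 < θ → 3 / 2 * (r * -(τ * ph1 r) / θ) ≤ 1 + G →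
    τ < 7 / 10 * r ∧
      Dbar τ r / r < (1 - θ ^ 2) * (T / r ^ 2) ^ 2 + kin (-G / r) (θ ^ 3)
        (3 * θ ^ 2 * -(τ * ph1 r)) (6 * θ * (τ * ph1 r) ^ 2 - 3 * θ ^ 2 * (τ * ph2 r))

-- deps: NB
-- imports: Pool.Agent.P.MP_97b9bc_mp.S.KB
def S_NL : Prop :=
  (∀ r : ℝ, 0 ≤ r → r ≤ 12 → tHi r ≤ Tt r) ∧
    ∀ r : ℝ, 12 ≤ r → 2 - 3 / 2 * lp r ≤ √(91 / 100 * r) - 1 / 4

-- deps: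
def S_ORD : Prop :=
  ∀ r : ℝ, 0 < r → M2 r < M1 r ∧ M3 r < M2 r ∧ 1 / (1 + r) ^ 10 ≤ M3 r ∧
    M3 r ≤ 13 / 10 * (2 * r + 1) / (r * (r + 1) ^ 2) ∧ 0 < Tt r ∧ Tt r ≤ 6003 / 500 ∧
    0 < chi r ∧ chi r ≤ 93 / 100

-- deps: ORD
-- imports: Pool.Agent.P.MP_97b9bc_mp.S.KB
def S_V1 : Prop := Good M1 l11 l12 N1

-- deps: ORD
-- imports: Pool.Agent.P.MP_97b9bc_mp.S.KB
def S_V2 : Prop := Good M2 l21 l22 N2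

-- deps: ORD
-- imports: Pool.Agent.P.MP_97b9bc_mp.S.KB
def S_V3 : Prop := Good M3 l31 l32 N3

-- deps: ORD
-- imports: Pool.Agent.P.MP_97b9bc_mp.S.KB Pool.Agent.P.MP_97b9bc_mp.S.KC
def S_E12 : Prop := Seg M1 l11 l12 N1 M2 l21 l22 N2

-- deps: ORD
-- imports: Pool.Agent.P.MP_97b9bc_mp.S.KD
def S_E23 : Prop := Seg M2 l21 l22 N2 M3 l31 l32 N3

-- deps: FARG NB
def S_FAR : Prop :=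
  ∀ (z Q a : ℝ) (U : Q4), Sol z 0 Q U → a ≤ 12 → Env a Q U → ∀ r, 12 ≤ r →
    √(91 / 100 * r) - 1 / 4 ≤ -(r * U.L r) ∧ 61 / 20 ≤ -(r * U.L r) ∧
      U.w r + Q ≤ 593 / 2000 * U.m r ∧ -U.v r * (2 * (47 / 10 - 99 / 5 / r)) ≤ U.m r ∧
      r ^ 2 * U.t r ≤ 783 / 100

-- deps: CVX
def S_ICAP : Prop :=
  ∀ (z Q z' Q' τ b c : ℝ) (X U : Q4), Sol z 0 Q X → Sol z' 0 Q' U → 0 ≤ τ → 0 < b → b ≤ c →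
    c ≤ 13 / 4 → (∀ r, b ≤ r → r ≤ c → (1 - τ * ph r) * U.t r ≤ X.t r ∧
      (r ^ 2 * U.t r) ^ 3 ≤ 1730) → U.w c ≤ X.w c → X.v c ≤ U.v c →
    U.w b - X.w b ≤ Dbar τ b

-- deps: LOGC TOUCH GSIGN ICAP NI NB
-- imports: Pool.Agent.P.MP_3d36e1_mp.Lc.Ode
def S_ISTEP : Prop :=
  ∀ (z Q z' Q' a : ℝ) (X U : Q4), Sol z 0 Q X → Sol z' 0 Q' U → 0 < a → a ≤ 1 → Env a Q' U →
    X.t a ≤ 3 / 10 * U.t a → ∀ r, a ≤ r → r ≤ 16 / 5 → X.t r < U.t r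

-- deps: WB1 WBG NW
def S_WB2 : Prop :=
  ∀ (z Q Q' : ℝ) (X : Q4), Sol z 0 Q X → 9173 / 10000 ≤ Q' → Q' ≤ 9175 / 10000 → Q' < Q →
    ∀ r, 16 / 5 ≤ r → X.w r + Q' ≤ nW r

-- deps: UPG WB2 FAR NB NO1 NO2 NO3
def S_OSTEP : Prop :=
  ∀ (z Q z' Q' a : ℝ) (X U : Q4), Sol z 0 Q X → Sol z' 0 Q' U → Q' < Q → a ≤ 1 → Env a Q' U →
    X.m (16 / 5) ≤ U.m (16 / 5) → ∀ r, 16 / 5 ≤ r → X.m r ≤ U.m r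

-- deps: DNG FAR NB ORD NZ1 NZ2 NZ3
def S_ZSTEP : Prop :=
  ∀ (z Q z' Q' a : ℝ) (X U : Q4), Sol z 0 Q X → Sol z' 0 Q' U → Q' < Q → 0 < a → a ≤ 1 →
    Env a Q' U → (∀ r, a ≤ r → X.m r ≤ U.m r) → X.m a ≤ (1 - chi a) * U.m a →
    ∀ r, a ≤ r → X.m r ≤ (1 - chi r) * U.m r

-- deps: FAR NL
def S_LINK : Prop :=
  ∀ (z Q a : ℝ) (U : Q4), Sol z 0 Q U → 0 < a → a ≤ 1 → Env a Q U →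
    ∀ r, a ≤ r → r ^ 2 * U.t r ≤ Tt r

-- deps: LOGC DECAY ZS FINAL NB ORD V1 V2 V3 E12 E23 ISTEP OSTEP ZSTEP LINK
def S_CMP : Prop :=
  ∀ (z Q : ℝ) (X : Q4), Sol z 0 Q X → ∃ a : ℝ, 0 < a ∧
    ∀ (z' Q' : ℝ) (U : Q4), Sol z' 0 Q' U → Env a Q' U → Q ≤ Q'

-- deps: NB
def S_ENVA : Prop :=
  ∀ (Q r : ℝ) (U Y : Q4), 0 < r → r ≤ 12 → 917382 / 10 ^ 6 ≤ Q → Q ≤ 917492 / 10 ^ 6 →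
    0 < U.t r → 0 < Y.t r → EY r (Y.t r) (Y.L r) (Y.w r) (Y.v r) →
    |U.t r - Y.t r| ≤ 33 / 10 ^ 6 * Y.t r → |r * U.L r - r * Y.L r| ≤ 13 / 10 ^ 4 →
    |U.w r - Y.w r| ≤ 13 / 10 ^ 6 → -U.v r ≤ (1 + 1 / 10 ^ 4) * -Y.v r + 34 / 10 ^ 7 →
    EnvAt Q U r

-- deps: TLN PIECE2 INNER2
-- imports: Pool.Agent.P.MP_97b9bc_mp.T.NSound
def S_NUMY : Prop := NumC2 EY (1 / 10 ^ 11)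

-- deps: VAL NUMY ENCA ENCW ENCT ENCL ENCV ENVA NB
def S_ENC : Prop :=
  ∀ a : ℝ, 0 < a → ∃ z0 : ℝ, ∀ (z Q : ℝ) (U : Q4), z0 ≤ z → Sol z 0 Q U → Env a Q U

end Pool.Agent.P.MP_97b9bc_mp.S
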