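import Pool.Agent.P.MP_97b9bc_mp.S.IfaceA
import Pool.Agent.P.MP_97b9bc_mp.T.TOUTA
import Pool.Agent.P.MP_97b9bc_mp.T.TOUTB
import Pool.Agent.P.MP_97b9bc_mp.T.TVAL
import Pool.Agent.P.MP_97b9bc_mp.S.IfaceB

/-! Steps ENCA ENCW ENCT ENCL ENCV ENC ENVA. -/

set_option autoImplicit false

namespace Pool.Agent.P.MP_97b9bc_mp.S

open Set Filter Topology Pool.Agent.P.MP_97b9bc_mp.T

lemma dis_enca (hGD : S_GD) {S r0 D : ℝ} {e : ℝ → ℝ} {X Y : Q4} (hX : App (fun _ => 0) X)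
    (hY : App e Y) (hS : Src S e Y.t) (fX : Far X) (fY : Far Y) (hr0 : 0 < r0)
    (hD : GG X Y r0 + S ≤ D) : Dis r0 D X Y := by
  obtain ⟨P, p, hP, hp⟩ := hS
  obtain ⟨hc, -, hd⟩ := hGD e X Y hX hY
  have h0 : ∀ r, 0 < r → -formAt 0 0 e X Y r - p r ≤
      -((X.m r + Y.m r) * (X.L r - Y.L r) ^ 2) - (X.v r - Y.v r) ^ 2 -
        mu X Y r * (X.t r ^ 2 - Y.t r ^ 2) ^ 2 / 2 := fun r hr => by
    have ha := hX.pos r hr
    have hb := hY.pos r hr
    have key := outa_key hr ha hb (by unfold mu; positivity) (mu_le ha hb) (mu_mul ha hb)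
      (hp r hr).2.2.2
    simp only [formAt, form]
    linarith
  have hanti : ∀ a b, 0 < a → a ≤ b → GG X Y b - P b ≤ GG X Y a - P a := fun a b ha hab =>
    anti (f := fun r => GG X Y r - P r) hab ((hc.sub hP).mono fun r hr => ha.trans_le hr.1)
      (fun r h1 _ => (hd r (ha.trans_le h1)).1.sub (hp r (ha.trans_le h1)).1) fun r h1 _ => by
        have hr := ha.trans_le h1
        have h2 := hX.pos r hr
        have h3 := hY.pos r hr
        refine (h0 r hr).trans ?_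
        have : 0 ≤ (X.m r + Y.m r) * (X.L r - Y.L r) ^ 2 := by unfold Q4.m; positivity
        have : 0 ≤ mu X Y r * (X.t r ^ 2 - Y.t r ^ 2) ^ 2 / 2 := by unfold mu; positivity
        linarith [sq_nonneg (X.v r - Y.v r)]
  refine ⟨fun r => GG X Y r - P r, fun r => -formAt 0 0 e X Y r - p r, hc.sub hP,
    fun r hr => ⟨(hd r hr).1.sub (hp r hr).1, h0 r hr⟩, fun a b ha hab => ?_⟩
  have hb := (hr0.trans_le ha).trans_le hab
  have h1 : 0 - S ≤ GG X Y b - P b := by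
    refine le_of_tendsto ((outb_far fX fY).sub_const S) ?_
    filter_upwards [eventually_ge_atTop b] with R hR
    linarith [hanti b R hb hR, (hp R (hb.trans_le hR)).2.2.1]
  linarith [hanti r0 a hr0 ha, (hp r0 hr0).2.1]

theorem p_ENCA (hGD : S_GD) (hWINE : S_WINE) (hEND : S_END) (hWIN : S_WIN) (hOUTB : S_OUTB) :
    S_ENCA := by
  intro S e Y hY hWY hFY hS he ρ η hρ hη
  obtain ⟨K1, hK1, hW⟩ := hWINE
  have hS0 := val_S hS
  obtain ⟨C, rb, hC, hrb, -, hw⟩ := hWIN (max 1000 K1) (hK1.trans (le_max_right _ _))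
  obtain ⟨r0, hr0, hr1, -, hr3⟩ := val_r0 hC
    (show 0 < min rb (min ρ (η ^ 2 / (68 * (η + S)))) by positivity) (half_pos hη)
  rw [le_min_iff, le_min_iff, le_div_iff₀ (by positivity)] at hr1
  obtain ⟨C', ρ0, hC', hρ0, hw⟩ := hw r0 hr0 hr1.1
  have hκ : (0 : ℝ) < √73 - 7 := by
    have : (7 : ℝ) < √73 := Real.lt_sqrt_of_sq_lt (by norm_num)
    linarith
  obtain ⟨σ, hσ, hσ1, hσ2⟩ := val_sigma hC' hρ0 (half_pos hη) hκ
  refine ⟨r0, 144 / σ ^ 6, hr0, hr1.2.1, fun z Q X hz hX => ?_⟩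
  rw [div_le_iff₀ (by positivity)] at hz
  have hWX := (hW z Q σ X hX hσ hz).mono (by linarith) (le_max_right 1000 K1) le_rfl
  have hWY' := hWY.mono (by norm_num) (le_max_left 1000 K1) (sq_nonneg σ)
  obtain ⟨w1, w2⟩ := hw (σ ^ 2) 1 S e X Y (by positivity) hσ1 hX.app hY hWX hWY' he
    (hOUTB S e X Y hX.app hY hS (hEND z Q X hX) hFY r0 hr0).1
  rw [one_pow, mul_one] at w1 w2
  refine ⟨dis_enca hGD hX.app hY hS (hEND z Q X hX) hFY hr0 (by linarith),
    abs_le_of_sq_le_sq (w2.trans ?_) hη.le⟩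
  refine (mul_le_mul_of_nonneg_left (show _ ≤ η + S by linarith) (by positivity)).trans ?_
  linarith [hr1.2.2]

end Pool.Agent.P.MP_97b9bc_mp.S

namespace Pool.Agent.P.MP_97b9bc_mp.S

open Set Filter Topology Pool.Agent.P.MP_97b9bc_mp.T

lemma sub_encw {a b : ℝ} (ha : 0 < a) : Icc a b ⊆ Ioi 0 := fun _ hr => ha.trans_le hr.1

/-- a quantity whose growth is paid by the dissipation grows by at most `D` -/
lemma drop_encw {r0 D a b : ℝ} {X Y : Q4} (h : Dis r0 D X Y) (hr0 : 0 < r0) (ha : r0 ≤ a)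
    (hab : a ≤ b) {G G' : ℝ → ℝ} (hc : ContinuousOn G (Ioi 0))
    (hd : ∀ r, 0 < r → HasDerivWithinAt G (G' r) (Ici r) r)
    (h0 : ∀ r, a ≤ r → r < b → G' r ≤ (X.m r + Y.m r) * (X.L r - Y.L r) ^ 2 +
      (X.v r - Y.v r) ^ 2 + mu X Y r * (X.t r ^ 2 - Y.t r ^ 2) ^ 2 / 2) : G b - G a ≤ D := by
  obtain ⟨F, F', hF, hF', hD⟩ := h
  have ha0 := hr0.trans_le ha
  have := anti (f := fun r => F r + G r) hab ((hF.add hc).mono (sub_encw ha0))
    (fun r h1 _ => (hF' r (ha0.trans_le h1)).1.fun_add (hd r (ha0.trans_le h1)))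
    fun r h1 h2 => by linarith [(hF' r (ha0.trans_le h1)).2, h0 r h1 h2]
  linarith [hD a b ha hab]

lemma nn_encw {e e' : ℝ → ℝ} {X Y : Q4} (hX : App e X) (hY : App e' Y) {r : ℝ} (hr : 0 < r) :
    0 ≤ (X.m r + Y.m r) * (X.L r - Y.L r) ^ 2 ∧
      0 ≤ mu X Y r * (X.t r ^ 2 - Y.t r ^ 2) ^ 2 / 2 := by
  have h1 := hX.pos r hr
  have h2 := hY.pos r hr
  unfold Q4.m mu
  constructor <;> positivity

lemma m_encw {e : ℝ → ℝ} {X Y : Q4} (hX : App e X) {r : ℝ} (hr : 0 < r)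
    (h : 73 / 10 ≤ r ^ 2 * Y.t r) (u : ℝ) : 389 * u ^ 2 ≤ (X.m r + Y.m r) * (r ^ 2 * u) ^ 2 := by
  have h1 := hX.pos r hr
  have h2 : (73 / 10) ^ 3 ≤ (r ^ 2 * Y.t r) ^ 3 := pow_le_pow_left₀ (by norm_num) h 3
  have h3 : 0 ≤ r ^ 2 * X.t r ^ 3 * r ^ 4 := by positivity
  have h4 : 389 ≤ (X.m r + Y.m r) * r ^ 4 := by unfold Q4.m; nlinarith
  nlinarith [mul_le_mul_of_nonneg_right h4 (sq_nonneg u)]

theorem p_ENCW :
    S_ENCW := by
  intro r0 D e X Y hX hY hr0 hD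
  refine ⟨fun R hR => ?_, fun a h ha hh => ?_⟩
  · have hR0 : 0 < R := hr0.trans_le hR
    have key := sq_le_of_lin (b := (X.w R - Y.w R) - (X.w r0 - Y.w r0)) (D := D) (c := R / 4)
      (by positivity) (fun t => by
        have h1 := drop_encw hD hr0 le_rfl hR (G := fun r => t * (X.w r - Y.w r) - t ^ 2 / 4 * r)
          (G' := fun r => t * (X.v r - Y.v r) - t ^ 2 / 4 * 1)
          ((continuousOn_const.mul (hX.cw.sub hY.cw)).sub (continuousOn_const.mul continuousOn_id))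
          (fun r h0 => (((hX.dw r h0).fun_sub (hY.dw r h0)).const_mul t).fun_sub
            ((hasDerivWithinAt_id r _).const_mul _))
          (fun r h1 _ => by
            have h3 := nn_encw hX hY (hr0.trans_le h1)
            nlinarith [sq_nonneg (X.v r - Y.v r - t / 2), h3.1, h3.2])
        have h3 : 0 ≤ t ^ 2 / 4 * r0 := by positivity
        linarith)
    linarith
  · have ha0 : 0 < a := hr0.trans_le ha
    have hcg : ContinuousOn (fun r => (X.m r + Y.m r) * (X.L r - Y.L r) ^ 2 + (X.v r - Y.v r) ^ 2 +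
        mu X Y r * (X.t r ^ 2 - Y.t r ^ 2) ^ 2 / 2) (Ioi 0) := by
      refine (((hX.cm.add hY.cm).mul ((hX.cL.sub hY.cL).pow 2)).add ((hX.cv.sub hY.cv).pow 2)).add
        (ContinuousOn.div_const (ContinuousOn.mul ?_ (((hX.ct.pow 2).sub (hY.ct.pow 2)).pow 2)) 2)
      exact ((continuousOn_id.pow 2).mul (((hX.ct.pow 2).add (hX.ct.mul hY.ct)).add
        (hY.ct.pow 2))).div (hX.ct.add hY.ct)
        (fun r hr => (add_pos (hX.pos r hr) (hY.pos r hr)).ne')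
    obtain ⟨r, hr, hm⟩ := isCompact_Icc.exists_isMinOn (s := Icc a (a + h))
      ⟨a, left_mem_Icc.2 (by linarith)⟩ (hcg.mono (sub_encw ha0))
    refine ⟨r, hr.1, hr.2, ?_⟩
    have h1 := drop_encw hD hr0 ha (show a ≤ a + h by linarith) (G := fun ρ => _ * ρ)
      (continuousOn_const.mul continuousOn_id)
      (fun ρ _ => (hasDerivWithinAt_id ρ _).const_mul _) fun ρ h1 h2 =>
        (mul_one _).trans_le (hm ⟨h1, h2.le⟩)
    rw [le_div_iff₀ hh]
    linarith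

end Pool.Agent.P.MP_97b9bc_mp.S

namespace Pool.Agent.P.MP_97b9bc_mp.S

open Set Filter Topology Pool.Agent.P.MP_97b9bc_mp.T

lemma lg_enct {x y : ℝ} (hx : 0 < x) (hy : 0 < y) : (Real.log x - Real.log y) * y ≤ x - y := by
  have := Real.log_le_sub_one_of_pos (div_pos hx hy)
  rwa [Real.log_div hx.ne' hy.ne', div_sub_one hy.ne', le_div_iff₀ hy] at this

theorem p_ENCT (hENCW : S_ENCW) :
    S_ENCT := by
  intro r0 e X Y hX hY hr0 hr1 hD hT r h1 h2
  let f : ℝ → ℝ := fun s => Real.log (X.t s) - Real.log (Y.t s)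
  have cf : ContinuousOn f (Ioi 0) :=
    (hX.ct.log fun s hs => (hX.pos s hs).ne').sub (hY.ct.log fun s hs => (hY.pos s hs).ne')
  have df : ∀ s, 0 < s → HasDerivWithinAt f (2 / 3 * (X.L s - Y.L s)) (Ici s) s := fun s hs => by
    have a := (hX.pos s hs).ne'
    have b := (hY.pos s hs).ne'
    refine (((hX.dt s hs).log a).fun_sub ((hY.dt s hs).log b)).congr_deriv ?_
    field_simp
    ring
  have key : ∀ a b, r0 ≤ a → a ≤ b → b ≤ 13 → |f b - f a| ≤ 306 / 10 ^ 7 := fun a b ha hab hb => by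
    refine abs_le_of_sq_le_sq ((sq_le_of_lin (D := 11 / 10 ^ 12) (c := 13 ^ 5 / 17505)
      (by norm_num) fun t => ?_).trans (by norm_num)) (by norm_num)
    have h3 := drop_encw hD hr0 ha hab (G := fun s => t * f s - t ^ 2 / 17505 * s ^ 5)
      (G' := fun s => t * (2 / 3 * (X.L s - Y.L s)) - t ^ 2 / 17505 * (5 * s ^ 4))
      ((continuousOn_const.mul cf).sub (by fun_prop))
      (fun s hs => ((df s hs).const_mul t).fun_sub
        (((hasDerivAt_pow 5 s).const_mul _).hasDerivWithinAt.congr_deriv (by norm_num)))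
      fun s h4 h5 => by
        have hs := (hr0.trans_le ha).trans_le h4
        obtain ⟨u, hu⟩ : ∃ u, X.L s - Y.L s = s ^ 2 * u := ⟨_, (mul_div_cancel₀ _ (by positivity)).symm⟩
        have h6 := m_encw hX hs (hT s (ha.trans h4) (h5.le.trans hb)) u
        rw [hu]
        nlinarith [(nn_encw hX hY hs).2, sq_nonneg (X.v s - Y.v s), sq_nonneg (u - t * s ^ 2 / 1167)]
    have ha0 := hr0.trans_le ha
    have h4 : t ^ 2 / 17505 * b ^ 5 ≤ t ^ 2 / 17505 * 13 ^ 5 := by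
      have := ha0.trans_le hab
      gcongr
    have h5 : 0 ≤ t ^ 2 / 17505 * a ^ 5 := by positivity
    linarith
  obtain ⟨c, c1, c2, c3⟩ := (hENCW r0 _ e X Y hX hY hr0 hD).2 (1 / 2) (1 / 2) hr1 (by norm_num)
  have hc : 0 < c := by linarith
  have fc : |f c| ≤ 1 / 10 ^ 6 := by
    have x0 := hX.pos c hc
    have y0 := hY.pos c hc
    have a1 := hT c (hr1.trans c1) (by linarith)
    have a2 : 7 ≤ Y.t c := by nlinarith [mul_nonneg (show 0 ≤ 1 - c ^ 2 by nlinarith) y0.le]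
    have a3 : 5 ≤ mu X Y c := by nlinarith [le_mu x0 y0, mul_pos (pow_pos hc 2) x0]
    have a4 : 49 * (X.t c - Y.t c) ^ 2 ≤ (X.t c ^ 2 - Y.t c ^ 2) ^ 2 := by
      rw [sq_sub_sq, mul_pow]
      exact mul_le_mul_of_nonneg_right (by nlinarith) (sq_nonneg _)
    have a5 := mul_le_mul a3 a4 (by positivity) (by linarith)
    have a6 := abs_le_of_sq_le_sq' (a := X.t c - Y.t c) (b := 1 / 10 ^ 6)
      (by linarith [(nn_encw hX hY hc).1, sq_nonneg (X.v c - Y.v c)]) (by norm_num)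
    have a7 := lg_enct x0 y0
    have a8 := lg_enct y0 x0
    rw [abs_le]
    constructor
    · by_contra h
      nlinarith [a6.1, mul_pos (sub_pos.2 (not_le.1 h)) (show 0 < X.t c - 1 by linarith [a6.1])]
    · by_contra h
      nlinarith [a6.2, mul_pos (sub_pos.2 (not_le.1 h)) (show 0 < Y.t c - 1 by linarith)]
  have fr : |f r - f c| ≤ 306 / 10 ^ 7 := by
    rcases le_total c r with h | h
    · exact key c r (hr1.trans c1) h h2
    · rw [abs_sub_comm]; exact key r c h1 h (by linarith)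
  have hr := hr0.trans_le h1
  have x0 := hX.pos r hr
  have y0 := hY.pos r hr
  have a7 := lg_enct x0 y0
  have a8 := lg_enct y0 x0
  rw [abs_le] at fc fr ⊢
  have b1 : 0 ≤ (f r + 316 / 10 ^ 7) * Y.t r := mul_nonneg (by linarith [fc.1, fr.1]) y0.le
  have b2 : 0 ≤ (316 / 10 ^ 7 - f r) * X.t r := mul_nonneg (by linarith [fc.2, fr.2]) x0.le
  simp only [f] at b1 b2
  constructor <;> linarith

end Pool.Agent.P.MP_97b9bc_mp.S

namespace Pool.Agent.P.MP_97b9bc_mp.S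

open Set Filter Topology Pool.Agent.P.MP_97b9bc_mp.T

theorem p_ENCL (hENCW : S_ENCW) :
    S_ENCL := by
  intro r0 e X Y hX hY hr0 hr1 hD hT r h1 h2
  obtain ⟨b, b1, b2, b3⟩ := (hENCW r0 _ e X Y hX hY hr0 hD).2 12 1 (by linarith) one_pos
  have hr := hr0.trans_le h1
  have hb : 0 < b := by linarith
  have hb' : b ≤ 13 := by linarith
  have lb : |X.L b - Y.L b| ≤ 285 / 10 ^ 7 := by
    obtain ⟨u, hu⟩ : ∃ u, X.L b - Y.L b = b ^ 2 * u := ⟨_, (mul_div_cancel₀ _ (by positivity)).symm⟩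
    have a1 := m_encw hX hb (hT b (by linarith) hb').1 u
    have a2 : b ^ 4 * u ^ 2 ≤ 13 ^ 4 * u ^ 2 := by gcongr
    rw [hu] at b3 ⊢
    refine abs_le_of_sq_le_sq ?_ (by norm_num)
    linarith [(nn_encw hX hY hb).2, sq_nonneg (X.v b - Y.v b)]
  have key : ∀ τ : ℝ, |τ| = 5 / 10 ^ 7 → τ * ((X.L b - Y.L b) - (X.L r - Y.L r)) ≤
      5 / 10 ^ 7 * (577 / 10 ^ 7 + 169 / 10 ^ 6 / r) := fun τ hτ => by
    have t2 : τ ^ 2 = 25 / 10 ^ 14 := by rw [← sq_abs, hτ]; norm_num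
    have h3 := drop_encw hD hr0 h1 (h2.trans b1)
      (G := fun s => τ * (X.L s - Y.L s) - (5 / 10 ^ 15 * s ^ 3 +
        (525 / 10 ^ 15 + 65 / 10 ^ 13 / r) * s))
      (continuousOn_const.mul (hX.cL.sub hY.cL) |>.sub (by fun_prop))
      (fun s hs => (((hX.dL s hs).fun_sub (hY.dL s hs)).const_mul τ).fun_sub
        (((hasDerivAt_pow 3 s).const_mul _).fun_add
          ((hasDerivAt_id' s).const_mul _)).hasDerivWithinAt)
      fun s h4 h5 => by
        have hs := hr.trans_le h4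
        obtain ⟨c1, c2, c3, c4⟩ := hT s (h1.trans h4) (h5.le.trans hb')
        obtain ⟨u, hu⟩ : ∃ u, X.L s = Y.L s + s ^ 2 * u :=
          ⟨(X.L s - Y.L s) / s ^ 2, by field_simp; ring⟩
        have x0 := hX.pos s hs
        have d1 := m_encw hX hs c1 u
        have d2 : 5 ≤ mu X Y s := by nlinarith [le_mu x0 (hY.pos s hs), mul_pos (pow_pos hs 2) x0]
        have d3 := mul_le_mul_of_nonneg_right d2 (sq_nonneg (X.t s ^ 2 - Y.t s ^ 2))
        have d4 : |τ * e s| ≤ 5 / 10 ^ 13 := by rw [abs_mul, hτ]; linarith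
        have d5 : |τ * (X.w s / s - Y.w s / s)| ≤ 65 / 10 ^ 13 / r := by
          rw [← sub_div, abs_mul, hτ, abs_div, abs_of_pos hs, ← mul_div_assoc]
          exact div_le_div₀ (by norm_num) (by linarith) hr h4
        have d6 : (s * Y.L s) ^ 2 * s ^ 2 ≤ (33 / 10) ^ 2 * s ^ 2 := by
          rw [← sq_abs (s * Y.L s)]; gcongr
        have d7 : s ^ 4 * u ^ 2 ≤ 13 ^ 4 * u ^ 2 := by
          have := h5.le.trans hb'
          gcongr
        have d8 : 0 ≤ (τ + 5 / 10 ^ 7) * (s ^ 4 * u ^ 2) :=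
          mul_nonneg (by linarith [neg_abs_le τ]) (by positivity)
        have d9 := sq_nonneg (300 * u + τ * (s * Y.L s * s))
        have d10 := sq_nonneg (5 * (X.t s ^ 2 - Y.t s ^ 2) - τ)
        rw [add_sq, mul_pow τ, mul_pow _ s, t2] at d9
        rw [sub_sq, t2] at d10
        rw [hu, add_sub_cancel_left]
        push_cast
        linarith [(abs_le.1 d4).1, (abs_le.1 d5).1, sq_nonneg (X.v s - Y.v s), sq_nonneg u,
          sq_nonneg s]
    have h4 : b ^ 3 ≤ 13 ^ 3 := by gcongr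
    have h5 : (525 / 10 ^ 15 + 65 / 10 ^ 13 / r) * b ≤ (525 / 10 ^ 15 + 65 / 10 ^ 13 / r) * 13 := by
      gcongr
    have h6 : 0 ≤ 5 / 10 ^ 15 * r ^ 3 + (525 / 10 ^ 15 + 65 / 10 ^ 13 / r) * r := by positivity
    simp only [div_eq_mul_inv _ r] at h3 h5 h6 ⊢
    linarith
  have k1 := key (5 / 10 ^ 7) (abs_of_pos (by norm_num))
  have k2 := key (-(5 / 10 ^ 7)) (by rw [abs_neg]; exact abs_of_pos (by norm_num))
  have k3 : |X.L r - Y.L r| ≤ 862 / 10 ^ 7 + 169 / 10 ^ 6 / r := by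
    rw [abs_le] at lb ⊢
    constructor <;> linarith [lb.1, lb.2]
  rw [← mul_sub, abs_mul, abs_of_pos hr]
  refine (mul_le_mul_of_nonneg_left k3 hr.le).trans ?_
  rw [mul_add, mul_div_cancel₀ _ hr.ne']
  linarith

end Pool.Agent.P.MP_97b9bc_mp.S

namespace Pool.Agent.P.MP_97b9bc_mp.S

open Set Filter Topology Pool.Agent.P.MP_97b9bc_mp.T

theorem p_ENCV (hENCW : S_ENCW) :
    S_ENCV := by
  intro r0 e X Y hX hY hr0 hr1 hD hT r h1 h2
  obtain ⟨b, b1, b2, b3⟩ := (hENCW r0 _ e X Y hX hY hr0 hD).2 12 1 (by linarith) one_pos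
  have hr := hr0.trans_le h1
  have hb := nn_encw hX hY (show 0 < b by linarith)
  have a1 := abs_le_of_sq_le_sq' (a := X.v b - Y.v b) (b := 34 / 10 ^ 7)
    (by linarith [hb.1, hb.2]) (by norm_num)
  have a2 := anti (f := fun s => X.v s - (1 + 1 / 10 ^ 4) * Y.v s) (h2.trans b1)
    ((hX.cv.sub (continuousOn_const.mul hY.cv)).mono (sub_encw hr))
    (fun s h3 _ => (hX.dv s (hr.trans_le h3)).fun_sub ((hY.dv s (hr.trans_le h3)).const_mul _))
    fun s h3 h4 => by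
      have hs := hr.trans_le h3
      have h5 : X.t s ≤ (1 + 33 / 10 ^ 6) * Y.t s := by
        linarith [(abs_le.1 (hT s (h1.trans h3) (by linarith)).1).2]
      have h6 := mul_le_mul_of_nonneg_left (pow_le_pow_left₀ (hX.pos s hs).le h5 3) hs.le
      have h7 := mul_pos hs (pow_pos (hY.pos s hs) 3)
      rw [mul_pow] at h6
      linarith
  linarith [a1.1, (hT b (by linarith) (by linarith)).2]

end Pool.Agent.P.MP_97b9bc_mp.S

namespace Pool.Agent.P.MP_97b9bc_mp.S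

open Set Filter Topology Pool.Agent.P.MP_97b9bc_mp.T

theorem p_ENC (hVAL : S_VAL) (hNUMY : S_NUMY) (hENCA : S_ENCA) (hENCW : S_ENCW) (hENCT : S_ENCT) (hENCL : S_ENCL) (hENCV : S_ENCV) (hENVA : S_ENVA) (hNB : S_NB) :
    S_ENC := by
  intro a ha
  obtain ⟨e, Y, h1, h2, h3, h4, h5, h6, h7⟩ := hNUMY
  have h31 := h6 31 le_rfl
  have h64 := h6 64 (by norm_num)
  obtain ⟨z1, hz1⟩ := hVAL (1 / 10 ^ 11) 1000 lo hi (44 / 1000000) e Y h1 (by norm_num) h2 h3 h4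
    h5 h64.2.1 h64.2.2 (by have := h31.2.1; unfold lo at this; linarith)
    (fun r hr _ => (h6 r hr).1) (by norm_num) (by norm_num) (by norm_num)
  obtain ⟨r0, z0, hr0, hρ, hz0⟩ := hENCA _ e Y h1 h2 h3 h4 h5 (min a (1 / 2)) (1 / 10 ^ 12)
    (lt_min ha (by norm_num)) (by norm_num)
  have hY : ∀ r, r0 ≤ r → r ≤ 13 → 73 / 10 ≤ r ^ 2 * Y.t r ∧ |r * Y.L r| ≤ 33 / 10 := by
    intro r b1 b2
    have hr := hr0.trans_le b1
    obtain ⟨⟨e1, e2, -⟩, -⟩ := h7 r hr b2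
    obtain ⟨n1, n2, -, -, -, -, n3, n4, -⟩ := hNB.1 r hr.le b2
    have : 0 < r ^ 2 * Y.t r := by have := h1.pos r hr; positivity
    rw [abs_le] at e1 e2
    exact ⟨by nlinarith, abs_le.2 ⟨by linarith, by linarith⟩⟩
  refine ⟨max z0 z1, fun z Q U hz hU => ?_⟩
  obtain ⟨q1, q2, -⟩ := hz1 z Q U ((le_max_right _ _).trans hz) hU
  obtain ⟨hD, hw0⟩ := hz0 z Q U ((le_max_left _ _).trans hz) hU
  rw [show (1 / 10 ^ 11 + 1 / 10 ^ 12 : ℝ) = 11 / 10 ^ 12 by norm_num] at hD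
  unfold lo at q1
  unfold hi at q2
  have hh : r0 ≤ 1 / 2 := hρ.trans (min_le_right _ _)
  have hw : ∀ r, r0 ≤ r → r ≤ 13 → |U.w r - Y.w r| ≤ 13 / 10 ^ 6 := fun r b1 b2 => by
    have := (hENCW r0 _ e U Y hU.app h1 hr0 hD).1 r b1
    have := abs_le_of_sq_le_sq' (b := 12 / 10 ^ 6) (this.trans (by linarith)) (by norm_num)
    rw [abs_le] at hw0 ⊢
    constructor <;> linarith [this.1, this.2]
  have hT := hENCT r0 e U Y hU.app h1 hr0 hh hD fun r b1 b2 => (hY r b1 b2).1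
  have hL := hENCL r0 e U Y hU.app h1 hr0 hh hD fun r b1 b2 =>
    ⟨(hY r b1 b2).1, (hY r b1 b2).2, (h7 r (hr0.trans_le b1) b2).2, hw r b1 b2⟩
  have hV := hENCV r0 e U Y hU.app h1 hr0 hh hD fun r b1 b2 =>
    ⟨hT r b1 b2, (h7 r (hr0.trans_le b1) b2).1.2.2.2.2⟩
  refine ⟨by linarith, by linarith, fun r b1 b2 => ?_⟩
  have b0 : r0 ≤ r := (hρ.trans (min_le_left _ _)).trans b1
  have b3 : r ≤ 13 := by linarith
  have hr := hr0.trans_le b0
  exact hENVA Q r U Y hr b2 (by linarith) (by linarith) (hU.pos r hr) (h1.pos r hr) (h7 r hr b3).1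
    (hT r b0 b3) (hL r b0 b2) (hw r b0 b3) (hV r b0 b2)

end Pool.Agent.P.MP_97b9bc_mp.S

namespace Pool.Agent.P.MP_97b9bc_mp.S

open Set Filter Topology Pool.Agent.P.MP_97b9bc_mp.T

theorem p_ENVA (hNB : S_NB) :
    S_ENVA := by
  intro Q r U Y hr hr12 hQ1 hQ2 ht hs ⟨e1, e2, e3, e4, _⟩ h1 h2 h3 h4
  obtain ⟨n1, -, n2, -, n3, -⟩ := hNB.1 r hr.le (by linarith)
  have hP : 0 < PT r := by linarith
  have hA : 0 < PA r := by linarith
  have hB : 0 < PB r := by linarith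
  rw [abs_le] at e1 e2 e3 h1 h2 h3
  have k : 0 < r ^ 2 * PT r := by positivity
  have y1 : 11997 / 1000 ≤ r ^ 2 * U.t r * PT r := by
    nlinarith [mul_le_mul_of_nonneg_left h1.1 k.le]
  have y2 : r ^ 2 * U.t r * PT r ≤ 12003 / 1000 := by
    nlinarith [mul_le_mul_of_nonneg_left h1.2 k.le]
  have y3 : 1726 ≤ (r ^ 2 * U.t r * PT r) ^ 3 :=
    le_trans (by norm_num) (pow_le_pow_left₀ (by norm_num) y1 3)
  have s3 : 0 < Y.t r ^ 3 := by positivity
  have c1 : U.t r ^ 3 ≤ 10001 / 10000 * Y.t r ^ 3 := by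
    have := pow_le_pow_left₀ ht.le (show U.t r ≤ (1 + 33 / 10 ^ 6) * Y.t r by linarith) 3
    rw [mul_pow] at this
    norm_num at this
    linarith
  have c2 : 9999 / 10000 * Y.t r ^ 3 ≤ U.t r ^ 3 := by
    have := pow_le_pow_left₀ (by positivity) (show (1 - 33 / 10 ^ 6) * Y.t r ≤ U.t r by linarith) 3
    rw [mul_pow] at this
    norm_num at this
    linarith
  have d1 := mul_le_mul_of_nonneg_left c1 (pow_pos hr 3).le
  have d2 := mul_le_mul_of_nonneg_left c2 (pow_pos hr 3).le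
  have d3 := mul_le_mul_of_nonneg_left c2 (pow_pos hr 2).le
  have p3 : 0 < r ^ 3 * Y.t r ^ 3 := by positivity
  have p2 : 0 < r ^ 2 * Y.t r ^ 3 := by positivity
  refine ⟨(div_le_iff₀ hP).2 y1, (le_div_iff₀ hP).2 y2, by unfold gLo; linarith,
    by unfold gHi; linarith, ?_, ?_, ?_⟩
  · have : 9991 / 10000 * (r ^ 3 * U.t r ^ 3) / PA r ≤ Y.w r + 917437 / 10 ^ 6 :=
      (div_le_iff₀ hA).2 (by linarith)
    have e : aLo r * (r * U.m r) = 9991 / 10000 * (r ^ 3 * U.t r ^ 3) / PA r -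
        (r ^ 2 * U.t r * PT r) ^ 3 / 25000000 := by unfold aLo Q4.m; ring
    linarith
  · have : Y.w r + 917437 / 10 ^ 6 ≤ 10009 / 10000 * (r ^ 3 * U.t r ^ 3) / PA r :=
      (le_div_iff₀ hA).2 (by linarith)
    have e : aHi r * (r * U.m r) = 10009 / 10000 * (r ^ 3 * U.t r ^ 3) / PA r +
        (r ^ 2 * U.t r * PT r) ^ 3 / 25000000 := by unfold aHi Q4.m; ring
    linarith
  · have : (1 + 1 / 10 ^ 4) * -Y.v r ≤ 5003 / 5000 * (r ^ 2 * U.t r ^ 3) / PB r :=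
      (le_div_iff₀ hB).2 (by linarith)
    have e : bHi r * U.m r = 5003 / 5000 * (r ^ 2 * U.t r ^ 3) / PB r +
        (r ^ 2 * U.t r * PT r) ^ 3 / 500000000 := by unfold bHi Q4.m; ring
    linarith

end Pool.Agent.P.MP_97b9bc_mp.S
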