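import Pool.Agent.P.MP_97b9bc_mp.S.Base

/-! Statements that do not depend on the numerical data. -/

set_option autoImplicit false

namespace Pool.Agent.P.MP_97b9bc_mp.S

open Set Filter Topology Pool.Agent.P.MP_97b9bc_mp.T

-- deps:
-- imports: Pool.Agent.P.MP_3d36e1_mp.Lc.Far
def S_LOGC : Prop :=
  ∀ (z Q : ℝ) (X : Q4), Sol z 0 Q X →
    (∀ r, 0 < r → r * X.L r ≤ 1 ∧ -(1 / r ^ 2) ≤ hh X r) ∧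
    ∀ ε : ℝ, 0 < ε → ∃ δ : ℝ, 0 < δ ∧ ∀ r, 0 < r → r ≤ δ → 1 - ε ≤ r * X.L r ∧ X.m r ≤ ε

-- deps: END
-- imports: Pool.Agent.P.MP_97b9bc_mp.T.TPQ
def S_PQP : Prop :=
  ∀ (z Q : ℝ) (X : Q4), Sol z 0 Q X → ∀ r, 0 < r → Q ^ 2 ≤ X.m r + X.w r ^ 2

-- deps:
def S_CVX : Prop :=
  ∀ (e e1 e2 : ℝ → ℝ) (a : ℝ), 0 < a → J2 e e1 e2 →
    (∀ c : ℝ, (∀ r, a ≤ r → 0 ≤ e2 r) → Tendsto e atTop (𝓝 c) →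
      ∀ r, a ≤ r → c ≤ e r ∧ e1 r ≤ 0) ∧
    ∀ b, a ≤ b → (∀ r, a ≤ r → r ≤ b → 0 ≤ e2 r) → 0 ≤ e b → e1 b ≤ 0 → 0 ≤ e a ∧ e1 a ≤ 0

-- deps:
def S_TOUCH : Prop :=
  ∀ (z Q : ℝ) (X : Q4), Sol z 0 Q X → ∀ (M M1 M2 : ℝ → ℝ) (r : ℝ), J2 M M1 M2 → 0 < r →
    M r = X.m r →
    ((∀ᶠ s in 𝓝 r, X.m s ≤ M s) → hh X r ≤ hb (M r) (M1 r) (M2 r)) ∧
    ((∀ᶠ s in 𝓝 r, M s ≤ X.m s) → hb (M r) (M1 r) (M2 r) ≤ hh X r)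

-- deps: TOUCH
def S_SLIDE : Prop :=
  ∀ (z Q : ℝ) (X : Q4), Sol z 0 Q X → ∀ (a : ℝ) (B B1 B2 D D1 D2 : ℝ → ℝ), 0 < a →
    J2 B B1 B2 → J2 D D1 D2 → (∀ r, a ≤ r → 0 < D r) → X.m a ≤ B a →
    (∀ᶠ r in atTop, X.m r ≤ B r) →
    (∀ r, a ≤ r → X.m r ≤ B r) ∨
      ∃ r τ : ℝ, a < r ∧ 0 < τ ∧ X.m r = B r + τ * D r ∧ (∀ s, a ≤ s → X.m s ≤ B s + τ * D s) ∧
        hh X r ≤ hb (B r + τ * D r) (B1 r + τ * D1 r) (B2 r + τ * D2 r)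

-- deps: END
def S_RATIO : Prop :=
  ∀ (z Q z' Q' : ℝ) (X U : Q4), Sol z 0 Q X → Sol z' 0 Q' U → Q' < Q →
    ∀ ε : ℝ, 0 < ε → ∀ᶠ r in atTop, X.m r ≤ ε * U.m r

-- deps: TAIL
def S_DECAY : Prop :=
  ∀ (z Q : ℝ) (X : Q4), Sol z 0 Q X → 0 < Q → ∀ᶠ r in atTop, X.m r ≤ 1 / (1 + r) ^ 10

-- deps: GD OUTB END
-- imports: Pool.Agent.P.MP_3d36e1_mp.Lc.Ode
def S_GSIGN : Prop :=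
  ∀ (z Q z' Q' : ℝ) (X U : Q4), Sol z 0 Q X → Sol z' 0 Q' U → ∀ r, 0 < r →
    X.t r = U.t r → U.L r ≤ X.L r → U.w r ≤ X.w r ∧ X.v r ≤ U.v r

-- deps: LOGC
def S_WB1 : Prop :=
  ∀ (z Q : ℝ) (X : Q4), Sol z 0 Q X → 0 ≤ Q → ∀ r, 0 < r → X.w r ≤ 144 / r ^ 3 + 9 / (8 * r)

-- deps: LOGC PQP
def S_WBG : Prop :=
  ∀ (z Q Q' a : ℝ) (X : Q4) (N N1 N2 : ℝ → ℝ), Sol z 0 Q X → 0 ≤ Q' → Q' < Q → 0 < a →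
    J2 N N1 N2 → (∀ r, a ≤ r → 0 ≤ N r) → X.w a + Q' ≤ N a →
    (∀ r n t : ℝ, a ≤ r → N r < n → 0 < t → (n - Q') / r - 1 / r ^ 2 ≤ t ^ 2 →
      n * (2 * Q' - n) ≤ r ^ 2 * t ^ 3 → N2 r < r * t ^ 3) →
    ∀ r, a ≤ r → X.w r + Q' ≤ N r

-- deps: END CVX
def S_FARG : Prop :=
  ∀ (z Q : ℝ) (U : Q4), Sol z 0 Q U → U.w 12 ≤ -(91 / 100) → ∀ r, 12 ≤ r →
    √(91 / 100 * r) - 1 / 4 ≤ -(r * U.L r) ∧ 47 / 10 - 99 / 5 / r ≤ -(r * U.L r) ∧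
      U.w r + Q ≤ 593 / 2000 * U.m r ∧ -U.v r * (2 * (47 / 10 - 99 / 5 / r)) ≤ U.m r ∧
      r ^ 2 * U.t r ≤ 12 ^ 2 * U.t 12

-- deps: SLIDE CVX
def S_ZS : Prop :=
  ∀ (z Q a : ℝ) (X : Q4) (Ma a1 a2 Na Mb b1 b2 Nb : ℝ → ℝ), Sol z 0 Q X → 9173 / 10000 ≤ Q →
    0 < a → Good Ma a1 a2 Na → Good Mb b1 b2 Nb → (∀ r, 0 < r → Mb r < Ma r) →
    Seg Ma a1 a2 Na Mb b1 b2 Nb → (∀ r, a ≤ r → X.m r ≤ Ma r) → X.m a ≤ Mb a →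
    (∀ᶠ r in atTop, X.m r ≤ Mb r) → ∀ r, a ≤ r → X.m r ≤ Mb r

-- deps: LOGC CVX END
def S_FINAL : Prop :=
  ∀ (z Q a : ℝ) (X : Q4), Sol z 0 Q X → 9173 / 10000 ≤ Q → 0 < a → a ≤ 1 →
    19 / 20 ≤ a * X.L a → (∀ r, a ≤ r → X.m r ≤ 13 / 10 * (2 * r + 1) / (r * (r + 1) ^ 2)) → False

-- deps: SLIDE CVX RATIO
def S_UPG : Prop :=
  ∀ (z Q z' Q' a : ℝ) (X U : Q4) (c c1 c2 p p1 p2 : ℝ → ℝ), Sol z 0 Q X → Sol z' 0 Q' U →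
    Q' < Q → 0 < a → J2 c c1 c2 → J2 p p1 p2 → (∀ r, a ≤ r → 0 < c r ∧ |p r| ≤ 10) →
    (∀ r, a ≤ r → c r * U.m r / r ≤ p2 r * (U.w r + Q') + 2 * (p1 r * U.v r) + p r * U.m r / r) →
    X.m a ≤ U.m a →
    (∀ r, a ≤ r → X.m r ≤ U.m r) ∨
      ∃ r τ θ : ℝ, a < r ∧ 0 < τ ∧ 1 < θ ∧ θ ^ 3 = 1 + τ * c r ∧ X.t r = θ * U.t r ∧
        X.w r + Q ≤ (1 + τ * p r) * (U.w r + Q') ∧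
        (θ ^ 2 - 1) * U.t r ^ 2 - kin (U.L r) (θ ^ 3) (τ * c1 r) (τ * c2 r) ≤
          (X.w r - U.w r) / r

-- deps: SLIDE CVX RATIO
def S_DNG : Prop :=
  ∀ (z Q z' Q' a : ℝ) (X U : Q4) (c c1 c2 p p1 p2 : ℝ → ℝ), Sol z 0 Q X → Sol z' 0 Q' U →
    Q' < Q → 0 < a → J2 c c1 c2 → J2 p p1 p2 →
    (∀ r, a ≤ r → 0 < c r ∧ c r ≤ 93 / 100 ∧ |p r| ≤ 10) →
    (∀ r, a ≤ r → p2 r * (U.w r + Q') + 2 * (p1 r * U.v r) + p r * U.m r / r ≤ c r * U.m r / r) →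
    (∀ r, a ≤ r → X.m r ≤ U.m r) → X.m a ≤ (1 - c a) * U.m a →
    (∀ r s θ : ℝ, a < r → 0 < s → s ≤ 1 → 0 < θ → θ ^ 3 = 1 - s * c r →
      (1 - θ ^ 2) * U.t r ^ 2 + kin (U.L r) (θ ^ 3) (-(s * c1 r)) (-(s * c2 r)) ≤
        s * p r * (U.w r + Q') / r) →
    ∀ r, a ≤ r → X.m r ≤ (1 - c r) * U.m r

-- deps: GD WINE END WIN OUTB
-- imports: Pool.Agent.P.MP_97b9bc_mp.T.TOUTA Pool.Agent.P.MP_97b9bc_mp.T.TOUTB Pool.Agent.P.MP_97b9bc_mp.T.TVAL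
def S_ENCA : Prop :=
  ∀ (S : ℝ) (e : ℝ → ℝ) (Y : Q4), App e Y → Win 1000 0 Y → Far Y → Src S e Y.t →
    (∀ r, 0 < r → r ≤ 1 / 2 → |e r| ≤ 1) → ∀ ρ η : ℝ, 0 < ρ → 0 < η →
    ∃ r0 z0 : ℝ, 0 < r0 ∧ r0 ≤ ρ ∧ ∀ (z Q : ℝ) (X : Q4), z0 ≤ z → Sol z 0 Q X →
      Dis r0 (S + η) X Y ∧ |X.w r0 - Y.w r0| ≤ η

-- deps:
def S_ENCW : Prop :=
  ∀ (r0 D : ℝ) (e : ℝ → ℝ) (X Y : Q4), App (fun _ => 0) X → App e Y → 0 < r0 → Dis r0 D X Y →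
    (∀ r, r0 ≤ r → ((X.w r - Y.w r) - (X.w r0 - Y.w r0)) ^ 2 ≤ r * D) ∧
    ∀ a h : ℝ, r0 ≤ a → 0 < h → ∃ r, a ≤ r ∧ r ≤ a + h ∧
      (X.m r + Y.m r) * (X.L r - Y.L r) ^ 2 + (X.v r - Y.v r) ^ 2 +
        mu X Y r * (X.t r ^ 2 - Y.t r ^ 2) ^ 2 / 2 ≤ D / h

-- deps: ENCW
def S_ENCT : Prop :=
  ∀ (r0 : ℝ) (e : ℝ → ℝ) (X Y : Q4), App (fun _ => 0) X → App e Y → 0 < r0 → r0 ≤ 1 / 2 →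
    Dis r0 (11 / 10 ^ 12) X Y → (∀ r, r0 ≤ r → r ≤ 13 → 73 / 10 ≤ r ^ 2 * Y.t r) →
    ∀ r, r0 ≤ r → r ≤ 13 → |X.t r - Y.t r| ≤ 33 / 10 ^ 6 * Y.t r

-- deps: ENCW
def S_ENCL : Prop :=
  ∀ (r0 : ℝ) (e : ℝ → ℝ) (X Y : Q4), App (fun _ => 0) X → App e Y → 0 < r0 → r0 ≤ 1 / 2 →
    Dis r0 (11 / 10 ^ 12) X Y →
    (∀ r, r0 ≤ r → r ≤ 13 → 73 / 10 ≤ r ^ 2 * Y.t r ∧ |r * Y.L r| ≤ 33 / 10 ∧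
      |e r| ≤ 1 / 10 ^ 6 ∧ |X.w r - Y.w r| ≤ 13 / 10 ^ 6) →
    ∀ r, r0 ≤ r → r ≤ 12 → |r * X.L r - r * Y.L r| ≤ 13 / 10 ^ 4

-- deps: ENCW
def S_ENCV : Prop :=
  ∀ (r0 : ℝ) (e : ℝ → ℝ) (X Y : Q4), App (fun _ => 0) X → App e Y → 0 < r0 → r0 ≤ 1 / 2 →
    Dis r0 (11 / 10 ^ 12) X Y →
    (∀ r, r0 ≤ r → r ≤ 13 → |X.t r - Y.t r| ≤ 33 / 10 ^ 6 * Y.t r ∧ Y.v r ≤ 0) →
    ∀ r, r0 ≤ r → r ≤ 12 → -X.v r ≤ (1 + 1 / 10 ^ 4) * -Y.v r + 34 / 10 ^ 7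

-- deps: GLUE
def S_PIECE2 : Prop :=
  ∀ (Ep : ℝ → ℝ → ℝ → ℝ → ℝ → Prop) (a b E tm tM c s : ℝ) (T T1 T2 W V : ℝ → ℝ), 0 < a → a < b →
    0 < tm → 0 ≤ E → E ≤ 1 / 10 ^ 6 → b ^ 2 * (2 * tM + 1) * E ^ 2 / 2 ≤ c →
    (∀ r, a ≤ r → r ≤ b → HasDerivAt T (T1 r) r ∧ HasDerivAt T1 (T2 r) r ∧
      HasDerivAt W (V r) r ∧ HasDerivAt V (r * T r ^ 3) r ∧ tm ≤ T r ∧ T r ≤ tM ∧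
      |3 / 2 * r * T r * T2 r + 3 / 4 * r * T1 r ^ 2 + 3 * T r * T1 r - r * T r ^ 4 +
        W r * T r ^ 2| ≤ E * (a * tm ^ 2) ∧
      (31 ≤ r → r < b → T r ≤ 1 / 400 ∧ lo ≤ -W r ∧ -W r ≤ hi) ∧
      (r ≤ 13 → Ep r (T r) (3 / 2 * T1 r / T r + 1 / r) (W r) (V r))) →
    From2 Ep b (T b) (3 / 2 * T1 b / T b + 1 / b) (W b) (V b) s →
    From2 Ep a (T a) (3 / 2 * T1 a / T a + 1 / a) (W a) (V a) (s + c * (b - a))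

-- deps: GLUE
-- imports: Pool.Agent.P.MP_97b9bc_mp.T.TINNER
def S_INNER2 : Prop :=
  ∀ (Ep : ℝ → ℝ → ℝ → ℝ → ℝ → Prop) (E s : ℝ) (P P1 P2 W W1 V V1 : ℝ → ℝ), 0 ≤ E →
    E ≤ 1 / 10 ^ 6 →
    (∀ r, 0 < r → r ≤ 1 / 2 → HasDerivAt P (P1 r) r ∧ HasDerivAt P1 (P2 r) r ∧
      HasDerivAt W (W1 r) r ∧ HasDerivAt V (V1 r) r ∧ V r = r * W1 r - 3 * W r ∧
      r * V1 r - 4 * V r = P r ^ 3 ∧ |P r - 12| ≤ r ∧ |P1 r| ≤ 1 ∧ |W r| ≤ 1000 ∧ |V r| ≤ 1000 ∧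
      |3 / 2 * r ^ 4 * P r * P2 r + 3 / 4 * r ^ 4 * P1 r ^ 2 - 6 * r ^ 3 * P r * P1 r +
        6 * r ^ 2 * P r ^ 2 - P r ^ 4 + W r * P r ^ 2| ≤ E * (132 * r ^ 4) ∧
      Ep r (P r / r ^ 2) (3 / 2 * P1 r / P r - 2 / r) (W r / r ^ 3) (V r / r ^ 4)) →
    From2 Ep (1 / 2) (4 * P (1 / 2)) (3 / 2 * P1 (1 / 2) / P (1 / 2) - 4) (8 * W (1 / 2))
      (16 * V (1 / 2)) s →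
    NumC2 Ep (s + 13 / 2 * E ^ 2)

end Pool.Agent.P.MP_97b9bc_mp.S
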