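import Pool.Agent.P.MP_97b9bc_mp.S.IAS

/-! Kernel checks. -/

set_option autoImplicit false

namespace Pool.Agent.P.MP_97b9bc_mp.S

def gB : Gl :=
  (.lt (.sm 1 10 (.v 0))
    (.lt (.add (.c 1 1) (.mul (.v 0) (.mul (.v 0) (.add (.c 479 2000) (.mul (.v 0) (.add (.c 8091 100000) (.mul (.v 0) (.add (.c 4627 20000) (.mul (.v 0) (.add (.c (-28087) 100000) (.mul (.v 0) (.c 451 5000))))))))))))
    (.lt (.add (.c 2 1) (.mul (.v 1) (.mul (.v 1) (.add (.c 26927 50000) (.mul (.v 1) (.add (.c 269 160) (.mul (.v 1) (.add (.c (-195439) 100000) (.mul (.v 1) (.c 30037 50000))))))))))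
    (.lt (.add (.c 12 1) (.mul (.v 2) (.mul (.v 2) (.add (.c 86231 2000) (.mul (.v 2) (.add (.c (-294389) 10000) (.mul (.v 2) (.add (.c 28979 2500) (.mul (.v 2) (.c (-2693) 1250))))))))))
    (.lt (.add (.c 4 1) (.mul (.v 3) (.mul (.v 3) (.add (.c 282977 100000) (.mul (.v 3) (.add (.c 360421 100000) (.mul (.v 3) (.add (.c (-919431) 100000) (.mul (.v 3) (.add (.c 327437 50000) (.mul (.v 3) (.c (-161173) 100000))))))))))))
    (.and (.neg (.sub (.c 9999 10000) (.v 3)))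
    (.and (.neg (.sub (.v 3) (.c 41 25)))
    (.and (.neg (.sub (.c 119 10) (.v 1)))
    (.and (.neg (.sub (.v 1) (.c 46 1)))
    (.and (.neg (.sub (.c 39 10) (.v 0)))
    (.and (.neg (.sub (.v 0) (.c 71 10)))
    (.and (.neg (.sub (.c 199 100) (.v 2)))
    (.and (.neg (.sub (.v 2) (.c 163 50)))
    (.neg (.sub (.sub (.v 2) (.c 201 100)) (.sm 1 8 (.v 5)))))))))))))))))

def cB : List (ℕ × ℕ) :=
  [(9, 0), (9, 0), (10, 0), (11, 0), (12, 0), (13, 0),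
   (13, 0), (12, 0), (11, 0), (11, 0)]

theorem kB : top 0 13 1 gB cB 0 = true := by
  decide +kernel

theorem rB (r : ℝ) (h1 : (0 : ℝ) ≤ r) (h2 : r ≤ (13 : ℝ)) :
    ∀ s : ℝ, s = (((1 : ℝ) / 10) * r) →
    ∀ PT : ℝ, PT = ((1 : ℝ) + (s * (s * (((479 : ℝ) / 2000) + (s * (((8091 : ℝ) / 100000) + (s * (((4627 : ℝ) / 20000) + (s * (((-28087 : ℝ) / 100000) + (s * ((451 : ℝ) / 5000)))))))))))) →
    ∀ PG : ℝ, PG = ((2 : ℝ) + (s * (s * (((26927 : ℝ) / 50000) + (s * (((269 : ℝ) / 160) + (s * (((-195439 : ℝ) / 100000) + (s * ((30037 : ℝ) / 50000)))))))))) →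
    ∀ P1 : ℝ, P1 = ((12 : ℝ) + (s * (s * (((86231 : ℝ) / 2000) + (s * (((-294389 : ℝ) / 10000) + (s * (((28979 : ℝ) / 2500) + (s * ((-2693 : ℝ) / 1250)))))))))) →
    ∀ P2 : ℝ, P2 = ((4 : ℝ) + (s * (s * (((282977 : ℝ) / 100000) + (s * (((360421 : ℝ) / 100000) + (s * (((-919431 : ℝ) / 100000) + (s * (((327437 : ℝ) / 50000) + (s * ((-161173 : ℝ) / 100000)))))))))))) →
    (((((9999 : ℝ) / 10000) - PT) < 0) ∧
    ((((PT - ((41 : ℝ) / 25)) < 0) ∧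
    ((((((119 : ℝ) / 10) - P1) < 0) ∧
    ((((P1 - (46 : ℝ)) < 0) ∧
    ((((((39 : ℝ) / 10) - P2) < 0) ∧
    ((((P2 - ((71 : ℝ) / 10)) < 0) ∧
    ((((((199 : ℝ) / 100) - PG) < 0) ∧
    ((((PG - ((163 : ℝ) / 50)) < 0) ∧
    (((PG - ((201 : ℝ) / 100)) - (((1 : ℝ) / 8) * r)) < 0)))))))))))))))) := by
  have h := top_ok kB r (le_trans (by norm_num) h1) (le_trans h2 (by norm_num))
  simp only [gB, Gl.holds, Tm.ev, List.getD_cons_zero, List.getD_cons_succ, Int.cast_ofNat,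
    Nat.cast_ofNat, Int.cast_one, Nat.cast_one, div_one, Int.cast_neg, Int.cast_zero] at h
  exact h

def gZ1 : Gl :=
  (.lt (.sm 1 10 (.v 0))
    (.lt (.add (.c 1 1) (.mul (.v 0) (.mul (.v 0) (.add (.c 479 2000) (.mul (.v 0) (.add (.c 8091 100000) (.mul (.v 0) (.add (.c 4627 20000) (.mul (.v 0) (.add (.c (-28087) 100000) (.mul (.v 0) (.c 451 5000))))))))))))
    (.lt (.mul (.sq (.mul (.v 2) (.v 0))) (.mul (.v 2) (.v 0)))
    (.lt (.add (.c 12 1) (.mul (.v 2) (.mul (.v 2) (.add (.c 86231 2000) (.mul (.v 2) (.add (.c (-294389) 10000) (.mul (.v 2) (.add (.c 28979 2500) (.mul (.v 2) (.c (-2693) 1250))))))))))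
    (.btw (.sub (.sm 9991 10000 (.inv (.v 0))) (.sm 1 25000000 (.v 1))) (.add (.sm 10009 10000 (.inv (.v 0))) (.sm 1 25000000 (.v 1)))
    (.lt (.add (.c 4 1) (.mul (.v 4) (.mul (.v 4) (.add (.c 282977 100000) (.mul (.v 4) (.add (.c 360421 100000) (.mul (.v 4) (.add (.c (-919431) 100000) (.mul (.v 4) (.add (.c 327437 50000) (.mul (.v 4) (.c (-161173) 100000))))))))))))
    (.btw (.c 0 1) (.add (.sm 5003 5000 (.inv (.v 0))) (.sm 1 500000000 (.mul (.v 6) (.v 3))))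
    (.lt (.sm 4 1 (.inv (.add (.v 7) (.c 4 1))))
    (.lt (.sub (.c 1 1) (.v 0))
    (.neg (.sub (.add (.add (.add (.c 13979 50000) (.mul (.v 1) (.add (.c (-5427) 100000) (.mul (.v 1) (.add (.c 82577 100000) (.mul (.v 1) (.add (.c (-21119) 20000) (.mul (.v 1) (.c 18047 20000))))))))) (.sm 2 1 (.mul (.mul (.v 0) (.mul (.v 1) (.add (.c (-5427) 100000) (.mul (.v 1) (.add (.c 82577 50000) (.mul (.v 1) (.add (.c (-63357) 20000) (.mul (.v 1) (.c 18047 5000))))))))) (.v 2)))) (.mul (.mul (.sq (.v 0)) (.mul (.v 1) (.add (.c (-5427) 50000) (.mul (.v 1) (.add (.c 247731 50000) (.mul (.v 1) (.add (.c (-63357) 5000) (.mul (.v 1) (.c 18047 1000))))))))) (.v 4))) (.add (.c 7 25) (.sm 13 20 (.sq (.v 1)))))))))))))))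

def cZ1 : List (ℕ × ℕ) :=
  [(9, 0), (9, 0), (9, 0), (9, 0), (9, 0), (9, 0),
   (8, 0), (8, 0), (8, 0), (8, 0), (8, 0), (7, 0),
   (7, 0), (7, 0), (7, 0), (7, 0), (7, 0), (7, 0),
   (7, 0), (7, 0), (7, 0), (7, 0), (7, 0), (7, 0),
   (7, 0), (7, 0), (7, 0), (7, 0), (7, 0), (7, 0),
   (7, 0), (7, 0), (7, 0), (8, 0), (8, 0), (8, 0),
   (8, 0), (8, 0), (8, 0), (8, 0), (8, 0), (8, 0),
   (8, 0), (8, 0), (8, 0), (8, 0), (8, 0), (8, 0),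
   (8, 0), (8, 0), (8, 0), (8, 0), (8, 0), (8, 0),
   (8, 0), (8, 0), (8, 0), (8, 0), (8, 0), (8, 0),
   (8, 0), (8, 0), (8, 0), (8, 0), (8, 0), (8, 0),
   (8, 0), (8, 0), (8, 0), (8, 0), (8, 0), (8, 0),
   (8, 0), (8, 0), (8, 0), (8, 0), (8, 0), (8, 0),
   (8, 0), (9, 0), (9, 0), (9, 0), (9, 0), (9, 0),
   (9, 0), (9, 0), (9, 0), (10, 0), (10, 0), (10, 0),
   (10, 0), (11, 0), (11, 0), (10, 0), (9, 0)]

theorem kZ1 : top 0 12 1 gZ1 cZ1 0 = true := by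
  decide +kernel

theorem rZ1 (r : ℝ) (h1 : (0 : ℝ) ≤ r) (h2 : r ≤ (12 : ℝ)) :
    ∀ s : ℝ, s = (((1 : ℝ) / 10) * r) →
    ∀ PT : ℝ, PT = ((1 : ℝ) + (s * (s * (((479 : ℝ) / 2000) + (s * (((8091 : ℝ) / 100000) + (s * (((4627 : ℝ) / 20000) + (s * (((-28087 : ℝ) / 100000) + (s * ((451 : ℝ) / 5000)))))))))))) →
    ∀ u : ℝ, u = (((r * PT) ^ 2) * (r * PT)) →
    ∀ P1 : ℝ, P1 = ((12 : ℝ) + (s * (s * (((86231 : ℝ) / 2000) + (s * (((-294389 : ℝ) / 10000) + (s * (((28979 : ℝ) / 2500) + (s * ((-2693 : ℝ) / 1250)))))))))) →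
    ∀ a : ℝ, ((((9991 : ℝ) / 10000) * (P1)⁻¹) - (((1 : ℝ) / 25000000) * u)) ≤ a → a ≤ ((((10009 : ℝ) / 10000) * (P1)⁻¹) + (((1 : ℝ) / 25000000) * u)) →
    ∀ P2 : ℝ, P2 = ((4 : ℝ) + (s * (s * (((282977 : ℝ) / 100000) + (s * (((360421 : ℝ) / 100000) + (s * (((-919431 : ℝ) / 100000) + (s * (((327437 : ℝ) / 50000) + (s * ((-161173 : ℝ) / 100000)))))))))))) →
    ∀ b : ℝ, (0 : ℝ) ≤ b → b ≤ ((((5003 : ℝ) / 5000) * (P2)⁻¹) + (((1 : ℝ) / 500000000) * (r * u))) →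
    ∀ e : ℝ, e = ((4 : ℝ) * ((r + (4 : ℝ)))⁻¹) →
    ∀ g : ℝ, g = ((1 : ℝ) - e) →
    ((((((13979 : ℝ) / 50000) + (e * (((-5427 : ℝ) / 100000) + (e * (((82577 : ℝ) / 100000) + (e * (((-21119 : ℝ) / 20000) + (e * ((18047 : ℝ) / 20000))))))))) + ((2 : ℝ) * ((g * (e * (((-5427 : ℝ) / 100000) + (e * (((82577 : ℝ) / 50000) + (e * (((-63357 : ℝ) / 20000) + (e * ((18047 : ℝ) / 5000))))))))) * b))) + (((g ^ 2) * (e * (((-5427 : ℝ) / 50000) + (e * (((247731 : ℝ) / 50000) + (e * (((-63357 : ℝ) / 5000) + (e * ((18047 : ℝ) / 1000))))))))) * a)) - (((7 : ℝ) / 25) + (((13 : ℝ) / 20) * (e ^ 2)))) < 0 := by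
  have h := top_ok kZ1 r (le_trans (by norm_num) h1) (le_trans h2 (by norm_num))
  simp only [gZ1, Gl.holds, Tm.ev, List.getD_cons_zero, List.getD_cons_succ, Int.cast_ofNat,
    Nat.cast_ofNat, Int.cast_one, Nat.cast_one, div_one, Int.cast_neg, Int.cast_zero] at h
  exact h

def gZ1F : Gl :=
  (.btw (.c 0 1) (.sm 593 24000 (.v 0))
    (.btw (.c 0 1) (.inv (.sub (.c 47 5) (.sm 33 10 (.v 1))))
    (.lt (.mul (.v 2) (.inv (.add (.v 2) (.c 3 1))))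
    (.lt (.sub (.c 1 1) (.v 0))
    (.neg (.sub (.add (.add (.add (.c 13979 50000) (.mul (.v 1) (.add (.c (-5427) 100000) (.mul (.v 1) (.add (.c 82577 100000) (.mul (.v 1) (.add (.c (-21119) 20000) (.mul (.v 1) (.c 18047 20000))))))))) (.sm 2 1 (.mul (.mul (.v 0) (.mul (.v 1) (.add (.c (-5427) 100000) (.mul (.v 1) (.add (.c 82577 50000) (.mul (.v 1) (.add (.c (-63357) 20000) (.mul (.v 1) (.c 18047 5000))))))))) (.v 2)))) (.mul (.mul (.sq (.v 0)) (.mul (.v 1) (.add (.c (-5427) 50000) (.mul (.v 1) (.add (.c 247731 50000) (.mul (.v 1) (.add (.c (-63357) 5000) (.mul (.v 1) (.c 18047 1000))))))))) (.v 3))) (.add (.c 7 25) (.sm 13 20 (.sq (.v 1))))))))))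

def cZ1F : List (ℕ × ℕ) :=
  [(11, 0), (12, 0), (12, 0), (12, 0), (12, 0), (12, 0),
   (11, 0), (11, 0), (11, 0), (11, 0), (10, 0), (10, 0)]

theorem kZ1F : top 0 1 1 gZ1F cZ1F 0 = true := by
  decide +kernel

theorem rZ1F (x : ℝ) (h1 : (0 : ℝ) ≤ x) (h2 : x ≤ (1 : ℝ)) :
    ∀ a : ℝ, (0 : ℝ) ≤ a → a ≤ (((593 : ℝ) / 24000) * x) →
    ∀ b : ℝ, (0 : ℝ) ≤ b → b ≤ ((((47 : ℝ) / 5) - (((33 : ℝ) / 10) * x)))⁻¹ →
    ∀ e : ℝ, e = (x * ((x + (3 : ℝ)))⁻¹) →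
    ∀ g : ℝ, g = ((1 : ℝ) - e) →
    ((((((13979 : ℝ) / 50000) + (e * (((-5427 : ℝ) / 100000) + (e * (((82577 : ℝ) / 100000) + (e * (((-21119 : ℝ) / 20000) + (e * ((18047 : ℝ) / 20000))))))))) + ((2 : ℝ) * ((g * (e * (((-5427 : ℝ) / 100000) + (e * (((82577 : ℝ) / 50000) + (e * (((-63357 : ℝ) / 20000) + (e * ((18047 : ℝ) / 5000))))))))) * b))) + (((g ^ 2) * (e * (((-5427 : ℝ) / 50000) + (e * (((247731 : ℝ) / 50000) + (e * (((-63357 : ℝ) / 5000) + (e * ((18047 : ℝ) / 1000))))))))) * a)) - (((7 : ℝ) / 25) + (((13 : ℝ) / 20) * (e ^ 2)))) < 0 := by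
  have h := top_ok kZ1F x (le_trans (by norm_num) h1) (le_trans h2 (by norm_num))
  simp only [gZ1F, Gl.holds, Tm.ev, List.getD_cons_zero, List.getD_cons_succ, Int.cast_ofNat,
    Nat.cast_ofNat, Int.cast_one, Nat.cast_one, div_one, Int.cast_neg, Int.cast_zero] at h
  exact h

def gZ0 : Gl :=
  (.and (.neg (.sm (-1) 1 (.add (.c 13979 50000) (.mul (.v 0) (.add (.c (-5427) 100000) (.mul (.v 0) (.add (.c 82577 100000) (.mul (.v 0) (.add (.c (-21119) 20000) (.mul (.v 0) (.c 18047 20000)))))))))))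
    (.and (.neg (.sub (.add (.c 13979 50000) (.mul (.v 0) (.add (.c (-5427) 100000) (.mul (.v 0) (.add (.c 82577 100000) (.mul (.v 0) (.add (.c (-21119) 20000) (.mul (.v 0) (.c 18047 20000))))))))) (.c 1 1)))
    (.and (.neg (.sm (-1) 1 (.add (.c 50213 50000) (.mul (.v 0) (.add (.c (-3901) 100000) (.mul (.v 0) (.add (.c (-48079) 100000) (.mul (.v 0) (.c 6701 100000)))))))))
    (.neg (.sub (.add (.c 50213 50000) (.mul (.v 0) (.add (.c (-3901) 100000) (.mul (.v 0) (.add (.c (-48079) 100000) (.mul (.v 0) (.c 6701 100000))))))) (.c 201 200))))))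

def cZ0 : List (ℕ × ℕ) :=
  [(10, 0), (11, 0), (12, 0), (13, 0), (14, 0), (10, 0)]

theorem kZ0 : top 0 1 1 gZ0 cZ0 0 = true := by
  decide +kernel

theorem rZ0 (e : ℝ) (h1 : (0 : ℝ) ≤ e) (h2 : e ≤ (1 : ℝ)) :
    ((((-1 : ℝ) * (((13979 : ℝ) / 50000) + (e * (((-5427 : ℝ) / 100000) + (e * (((82577 : ℝ) / 100000) + (e * (((-21119 : ℝ) / 20000) + (e * ((18047 : ℝ) / 20000)))))))))) < 0) ∧
    (((((((13979 : ℝ) / 50000) + (e * (((-5427 : ℝ) / 100000) + (e * (((82577 : ℝ) / 100000) + (e * (((-21119 : ℝ) / 20000) + (e * ((18047 : ℝ) / 20000))))))))) - (1 : ℝ)) < 0) ∧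
    (((((-1 : ℝ) * (((50213 : ℝ) / 50000) + (e * (((-3901 : ℝ) / 100000) + (e * (((-48079 : ℝ) / 100000) + (e * ((6701 : ℝ) / 100000)))))))) < 0) ∧
    (((((50213 : ℝ) / 50000) + (e * (((-3901 : ℝ) / 100000) + (e * (((-48079 : ℝ) / 100000) + (e * ((6701 : ℝ) / 100000))))))) - ((201 : ℝ) / 200)) < 0)))))) := by
  have h := top_ok kZ0 e (le_trans (by norm_num) h1) (le_trans h2 (by norm_num))
  simp only [gZ0, Gl.holds, Tm.ev, List.getD_cons_zero, List.getD_cons_succ, Int.cast_ofNat,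
    Nat.cast_ofNat, Int.cast_one, Nat.cast_one, div_one, Int.cast_neg, Int.cast_zero] at h
  exact h

def gZ2 : Gl :=
  (.lt (.sm 1 10 (.v 0))
    (.lt (.add (.c 1 1) (.mul (.v 0) (.mul (.v 0) (.add (.c 479 2000) (.mul (.v 0) (.add (.c 8091 100000) (.mul (.v 0) (.add (.c 4627 20000) (.mul (.v 0) (.add (.c (-28087) 100000) (.mul (.v 0) (.c 451 5000))))))))))))
    (.lt (.add (.c 2 1) (.mul (.v 1) (.mul (.v 1) (.add (.c 26927 50000) (.mul (.v 1) (.add (.c 269 160) (.mul (.v 1) (.add (.c (-195439) 100000) (.mul (.v 1) (.c 30037 50000))))))))))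
    (.lt (.mul (.sq (.mul (.v 3) (.v 1))) (.mul (.v 3) (.v 1)))
    (.lt (.add (.c 12 1) (.mul (.v 3) (.mul (.v 3) (.add (.c 86231 2000) (.mul (.v 3) (.add (.c (-294389) 10000) (.mul (.v 3) (.add (.c 28979 2500) (.mul (.v 3) (.c (-2693) 1250))))))))))
    (.btw (.sub (.sm 9991 10000 (.inv (.v 0))) (.sm 1 25000000 (.v 1))) (.add (.sm 10009 10000 (.inv (.v 0))) (.sm 1 25000000 (.v 1)))
    (.btw (.sm 11997 1000 (.inv (.v 4))) (.sm 12003 1000 (.inv (.v 4)))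
    (.btw (.sub (.v 4) (.c 3 1000)) (.add (.v 4) (.c 3 1000))
    (.lt (.sm 4 1 (.inv (.add (.v 8) (.c 4 1))))
    (.lt (.sub (.c 1 1) (.v 0))
    (.lt (.add (.c 7 25) (.sm 13 20 (.sq (.v 1))))
    (.lt (.mul (.sm 13 10 (.mul (.sq (.v 2)) (.v 1))) (.inv (.v 0)))
    (.lt (.mul (.sm 39 10 (.sq (.mul (.v 3) (.v 2)))) (.inv (.v 1)))
    (.lt (.sq (.mul (.v 13) (.inv (.v 6))))
    (.lt (.mul (.mul (.add (.c 13979 50000) (.mul (.v 5) (.add (.c (-5427) 100000) (.mul (.v 5) (.add (.c 82577 100000) (.mul (.v 5) (.add (.c (-21119) 20000) (.mul (.v 5) (.c 18047 20000))))))))) (.inv (.v 3))) (.mul (.v 8) (.v 7)))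
    (.lt (.mul (.add (.mul (.v 7) (.v 3)) (.sm 1 2 (.v 2))) (.v 1))
    (.lt (.sm 1 4 (.mul (.sq (.v 4)) (.v 2)))
    (.sy (.c 41 100) (.c 1 1)
    (.lt (.mul (.sq (.v 0)) (.v 0))
    (.or (.neg (.sub (.add (.v 0) (.v 8)) (.c 1 1)))
    (.lt (.inv (.v 0))
    (.neg (.sub (.sub (.mul (.add (.c 1 1) (.v 2)) (.inv (.add (.add (.c 1 1) (.v 2)) (.sq (.v 2))))) (.v 5)) (.mul (.v 0) (.add (.v 4) (.mul (.sub (.v 0) (.c 1 1)) (.v 3)))))))))))))))))))))))))))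

def cZ2 : List (ℕ × ℕ) :=
  [(9, 3565), (10, 3453794988), (10, 12442813), (10, 908493), (11, 3703216270), (11, 12373182),
   (11, 56526), (11, 838862), (11, 838862), (12, 7383801782649732046), (12, 52446), (12, 52446),
   (12, 3550), (11, 3550), (9, 238)]

theorem kZ2 : top 0 12 1 gZ2 cZ2 0 = true := by
  decide +kernel

theorem rZ2 (r : ℝ) (h1 : (0 : ℝ) ≤ r) (h2 : r ≤ (12 : ℝ)) :
    ∀ s : ℝ, s = (((1 : ℝ) / 10) * r) →
    ∀ PT : ℝ, PT = ((1 : ℝ) + (s * (s * (((479 : ℝ) / 2000) + (s * (((8091 : ℝ) / 100000) + (s * (((4627 : ℝ) / 20000) + (s * (((-28087 : ℝ) / 100000) + (s * ((451 : ℝ) / 5000)))))))))))) →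
    ∀ PG : ℝ, PG = ((2 : ℝ) + (s * (s * (((26927 : ℝ) / 50000) + (s * (((269 : ℝ) / 160) + (s * (((-195439 : ℝ) / 100000) + (s * ((30037 : ℝ) / 50000)))))))))) →
    ∀ u : ℝ, u = (((r * PT) ^ 2) * (r * PT)) →
    ∀ P1 : ℝ, P1 = ((12 : ℝ) + (s * (s * (((86231 : ℝ) / 2000) + (s * (((-294389 : ℝ) / 10000) + (s * (((28979 : ℝ) / 2500) + (s * ((-2693 : ℝ) / 1250)))))))))) →
    ∀ a : ℝ, ((((9991 : ℝ) / 10000) * (P1)⁻¹) - (((1 : ℝ) / 25000000) * u)) ≤ a → a ≤ ((((10009 : ℝ) / 10000) * (P1)⁻¹) + (((1 : ℝ) / 25000000) * u)) →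
    ∀ T : ℝ, (((11997 : ℝ) / 1000) * (PT)⁻¹) ≤ T → T ≤ (((12003 : ℝ) / 1000) * (PT)⁻¹) →
    ∀ G : ℝ, (PG - ((3 : ℝ) / 1000)) ≤ G → G ≤ (PG + ((3 : ℝ) / 1000)) →
    ∀ e : ℝ, e = ((4 : ℝ) * ((r + (4 : ℝ)))⁻¹) →
    ∀ g : ℝ, g = ((1 : ℝ) - e) →
    ∀ c : ℝ, c = (((7 : ℝ) / 25) + (((13 : ℝ) / 20) * (e ^ 2))) →
    ∀ k1 : ℝ, k1 = ((((13 : ℝ) / 10) * ((e ^ 2) * g)) * (c)⁻¹) →
    ∀ k2 : ℝ, k2 = ((((39 : ℝ) / 10) * ((e * g) ^ 2)) * (c)⁻¹) →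
    ∀ z : ℝ, z = ((r * (T)⁻¹) ^ 2) →
    ∀ A : ℝ, A = (((((13979 : ℝ) / 50000) + (e * (((-5427 : ℝ) / 100000) + (e * (((82577 : ℝ) / 100000) + (e * (((-21119 : ℝ) / 20000) + (e * ((18047 : ℝ) / 20000))))))))) * (c)⁻¹) * (a * T)) →
    ∀ k3 : ℝ, k3 = (((G * k1) + (((1 : ℝ) / 2) * k2)) * z) →
    ∀ k4 : ℝ, k4 = (((1 : ℝ) / 4) * ((k1 ^ 2) * z)) →
    ∀ th : ℝ, ((41 : ℝ) / 100) ≤ th → th ≤ (1 : ℝ) →
    ∀ w : ℝ, w = ((th ^ 2) * th) →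
    ((((w + c) - (1 : ℝ)) < 0) ∨
    (∀ i3 : ℝ, i3 = (w)⁻¹ →
    (((((1 : ℝ) + th) * ((((1 : ℝ) + th) + (th ^ 2)))⁻¹) - A) - (i3 * (k3 + ((i3 - (1 : ℝ)) * k4)))) < 0)) := by
  have h := top_ok kZ2 r (le_trans (by norm_num) h1) (le_trans h2 (by norm_num))
  simp only [gZ2, Gl.holds, Tm.ev, List.getD_cons_zero, List.getD_cons_succ, Int.cast_ofNat,
    Nat.cast_ofNat, Int.cast_one, Nat.cast_one, div_one, Int.cast_neg, Int.cast_zero] at h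
  exact h

def gO1 : Gl :=
  (.lt (.sm 1 10 (.v 0))
    (.lt (.add (.c 1 1) (.mul (.v 0) (.mul (.v 0) (.add (.c 479 2000) (.mul (.v 0) (.add (.c 8091 100000) (.mul (.v 0) (.add (.c 4627 20000) (.mul (.v 0) (.add (.c (-28087) 100000) (.mul (.v 0) (.c 451 5000))))))))))))
    (.lt (.mul (.sq (.mul (.v 2) (.v 0))) (.mul (.v 2) (.v 0)))
    (.lt (.add (.c 12 1) (.mul (.v 2) (.mul (.v 2) (.add (.c 86231 2000) (.mul (.v 2) (.add (.c (-294389) 10000) (.mul (.v 2) (.add (.c 28979 2500) (.mul (.v 2) (.c (-2693) 1250))))))))))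
    (.btw (.sub (.sm 9991 10000 (.inv (.v 0))) (.sm 1 25000000 (.v 1))) (.add (.sm 10009 10000 (.inv (.v 0))) (.sm 1 25000000 (.v 1)))
    (.lt (.add (.c 4 1) (.mul (.v 4) (.mul (.v 4) (.add (.c 282977 100000) (.mul (.v 4) (.add (.c 360421 100000) (.mul (.v 4) (.add (.c (-919431) 100000) (.mul (.v 4) (.add (.c 327437 50000) (.mul (.v 4) (.c (-161173) 100000))))))))))))
    (.btw (.c 0 1) (.add (.sm 5003 5000 (.inv (.v 0))) (.sm 1 500000000 (.mul (.v 6) (.v 3))))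
    (.lt (.sm 31 10 (.inv (.v 7)))
    (.neg (.sub (.sub (.c 1 1) (.sq (.v 0))) (.add (.add (.add (.c 50213 50000) (.mul (.v 0) (.add (.c (-3901) 100000) (.mul (.v 0) (.add (.c (-48079) 100000) (.mul (.v 0) (.c 6701 100000))))))) (.sm 2 1 (.mul (.mul (.v 0) (.add (.c (-3901) 100000) (.mul (.v 0) (.add (.c (-48079) 50000) (.mul (.v 0) (.c 20103 100000)))))) (.v 1)))) (.mul (.mul (.v 0) (.add (.c (-3901) 50000) (.mul (.v 0) (.add (.c (-144237) 50000) (.mul (.v 0) (.c 20103 25000)))))) (.v 3)))))))))))))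

def cO1 : List (ℕ × ℕ) :=
  [(9, 0), (9, 0), (9, 0), (8, 0), (8, 0), (8, 0),
   (8, 0), (8, 0), (8, 0), (8, 0), (8, 0), (8, 0),
   (7, 0), (7, 0), (7, 0), (7, 0), (7, 0), (7, 0),
   (7, 0), (7, 0), (7, 0), (7, 0), (7, 0), (7, 0),
   (7, 0), (7, 0), (7, 0), (7, 0), (7, 0), (7, 0),
   (7, 0), (7, 0), (7, 0), (7, 0), (7, 0), (7, 0),
   (7, 0), (7, 0), (7, 0), (7, 0), (7, 0), (7, 0),
   (7, 0), (7, 0), (7, 0), (7, 0), (7, 0), (7, 0),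
   (7, 0), (7, 0), (7, 0), (7, 0), (7, 0), (7, 0),
   (7, 0), (8, 0), (8, 0), (8, 0), (8, 0), (8, 0),
   (8, 0), (8, 0), (8, 0), (8, 0), (8, 0), (9, 0),
   (9, 0), (9, 0), (9, 0), (9, 0), (9, 0), (10, 0),
   (10, 0), (10, 0), (10, 0), (10, 0), (11, 0), (11, 0),
   (11, 0), (11, 0), (12, 0), (8, 0), (7, 0)]

theorem kO1 : top 80 220 25 gO1 cO1 0 = true := by
  decide +kernel

theorem rO1 (r : ℝ) (h1 : (16 : ℝ) / 5 ≤ r) (h2 : r ≤ (12 : ℝ)) :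
    ∀ s : ℝ, s = (((1 : ℝ) / 10) * r) →
    ∀ PT : ℝ, PT = ((1 : ℝ) + (s * (s * (((479 : ℝ) / 2000) + (s * (((8091 : ℝ) / 100000) + (s * (((4627 : ℝ) / 20000) + (s * (((-28087 : ℝ) / 100000) + (s * ((451 : ℝ) / 5000)))))))))))) →
    ∀ u : ℝ, u = (((r * PT) ^ 2) * (r * PT)) →
    ∀ P1 : ℝ, P1 = ((12 : ℝ) + (s * (s * (((86231 : ℝ) / 2000) + (s * (((-294389 : ℝ) / 10000) + (s * (((28979 : ℝ) / 2500) + (s * ((-2693 : ℝ) / 1250)))))))))) →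
    ∀ a : ℝ, ((((9991 : ℝ) / 10000) * (P1)⁻¹) - (((1 : ℝ) / 25000000) * u)) ≤ a → a ≤ ((((10009 : ℝ) / 10000) * (P1)⁻¹) + (((1 : ℝ) / 25000000) * u)) →
    ∀ P2 : ℝ, P2 = ((4 : ℝ) + (s * (s * (((282977 : ℝ) / 100000) + (s * (((360421 : ℝ) / 100000) + (s * (((-919431 : ℝ) / 100000) + (s * (((327437 : ℝ) / 50000) + (s * ((-161173 : ℝ) / 100000)))))))))))) →
    ∀ b : ℝ, (0 : ℝ) ≤ b → b ≤ ((((5003 : ℝ) / 5000) * (P2)⁻¹) + (((1 : ℝ) / 500000000) * (r * u))) →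
    ∀ y : ℝ, y = (((31 : ℝ) / 10) * (r)⁻¹) →
    (((1 : ℝ) - (y ^ 2)) - (((((50213 : ℝ) / 50000) + (y * (((-3901 : ℝ) / 100000) + (y * (((-48079 : ℝ) / 100000) + (y * ((6701 : ℝ) / 100000))))))) + ((2 : ℝ) * ((y * (((-3901 : ℝ) / 100000) + (y * (((-48079 : ℝ) / 50000) + (y * ((20103 : ℝ) / 100000)))))) * b))) + ((y * (((-3901 : ℝ) / 50000) + (y * (((-144237 : ℝ) / 50000) + (y * ((20103 : ℝ) / 25000)))))) * a))) < 0 := by
  have h := top_ok kO1 r (le_trans (by norm_num) h1) (le_trans h2 (by norm_num))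
  simp only [gO1, Gl.holds, Tm.ev, List.getD_cons_zero, List.getD_cons_succ, Int.cast_ofNat,
    Nat.cast_ofNat, Int.cast_one, Nat.cast_one, div_one, Int.cast_neg, Int.cast_zero] at h
  exact h

def gO1F : Gl :=
  (.btw (.c 0 1) (.sm 593 24000 (.v 0))
    (.btw (.c 0 1) (.inv (.sub (.c 47 5) (.sm 33 10 (.v 1))))
    (.lt (.sm 31 120 (.v 2))
    (.neg (.sub (.sub (.c 1 1) (.sq (.v 0))) (.add (.add (.add (.c 50213 50000) (.mul (.v 0) (.add (.c (-3901) 100000) (.mul (.v 0) (.add (.c (-48079) 100000) (.mul (.v 0) (.c 6701 100000))))))) (.sm 2 1 (.mul (.mul (.v 0) (.add (.c (-3901) 100000) (.mul (.v 0) (.add (.c (-48079) 50000) (.mul (.v 0) (.c 20103 100000)))))) (.v 1)))) (.mul (.mul (.v 0) (.add (.c (-3901) 50000) (.mul (.v 0) (.add (.c (-144237) 50000) (.mul (.v 0) (.c 20103 25000)))))) (.v 2))))))))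

def cO1F : List (ℕ × ℕ) :=
  [(13, 0), (12, 0), (12, 0), (11, 0), (11, 0), (11, 0),
   (11, 0), (11, 0), (11, 0), (11, 0), (10, 0), (10, 0)]

theorem kO1F : top 0 1 1 gO1F cO1F 0 = true := by
  decide +kernel

theorem rO1F (x : ℝ) (h1 : (0 : ℝ) ≤ x) (h2 : x ≤ (1 : ℝ)) :
    ∀ a : ℝ, (0 : ℝ) ≤ a → a ≤ (((593 : ℝ) / 24000) * x) →
    ∀ b : ℝ, (0 : ℝ) ≤ b → b ≤ ((((47 : ℝ) / 5) - (((33 : ℝ) / 10) * x)))⁻¹ →
    ∀ y : ℝ, y = (((31 : ℝ) / 120) * x) →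
    (((1 : ℝ) - (y ^ 2)) - (((((50213 : ℝ) / 50000) + (y * (((-3901 : ℝ) / 100000) + (y * (((-48079 : ℝ) / 100000) + (y * ((6701 : ℝ) / 100000))))))) + ((2 : ℝ) * ((y * (((-3901 : ℝ) / 100000) + (y * (((-48079 : ℝ) / 50000) + (y * ((20103 : ℝ) / 100000)))))) * b))) + ((y * (((-3901 : ℝ) / 50000) + (y * (((-144237 : ℝ) / 50000) + (y * ((20103 : ℝ) / 25000)))))) * a))) < 0 := by
  have h := top_ok kO1F x (le_trans (by norm_num) h1) (le_trans h2 (by norm_num))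
  simp only [gO1F, Gl.holds, Tm.ev, List.getD_cons_zero, List.getD_cons_succ, Int.cast_ofNat,
    Nat.cast_ofNat, Int.cast_one, Nat.cast_one, div_one, Int.cast_neg, Int.cast_zero] at h
  exact h

def gO2 : Gl :=
  (.lt (.sm 1 10 (.v 0))
    (.lt (.add (.c 1 1) (.mul (.v 0) (.mul (.v 0) (.add (.c 479 2000) (.mul (.v 0) (.add (.c 8091 100000) (.mul (.v 0) (.add (.c 4627 20000) (.mul (.v 0) (.add (.c (-28087) 100000) (.mul (.v 0) (.c 451 5000))))))))))))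
    (.lt (.add (.c 2 1) (.mul (.v 1) (.mul (.v 1) (.add (.c 26927 50000) (.mul (.v 1) (.add (.c 269 160) (.mul (.v 1) (.add (.c (-195439) 100000) (.mul (.v 1) (.c 30037 50000))))))))))
    (.lt (.mul (.sq (.mul (.v 3) (.v 1))) (.mul (.v 3) (.v 1)))
    (.lt (.add (.c 12 1) (.mul (.v 3) (.mul (.v 3) (.add (.c 86231 2000) (.mul (.v 3) (.add (.c (-294389) 10000) (.mul (.v 3) (.add (.c 28979 2500) (.mul (.v 3) (.c (-2693) 1250))))))))))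
    (.btw (.sub (.sm 9991 10000 (.inv (.v 0))) (.sm 1 25000000 (.v 1))) (.add (.sm 10009 10000 (.inv (.v 0))) (.sm 1 25000000 (.v 1)))
    (.btw (.sm 11997 1000 (.inv (.v 4))) (.sm 12003 1000 (.inv (.v 4)))
    (.btw (.sub (.v 4) (.c 3 1000)) (.add (.v 4) (.c 3 1000))
    (.lt (.sm 31 10 (.inv (.v 8)))
    (.lt (.sub (.c 1 1) (.sq (.v 0)))
    (.lt (.mul (.sq (.v 1)) (.inv (.v 0)))
    (.lt (.sq (.mul (.v 11) (.inv (.v 4))))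
    (.lt (.add (.c 144 1) (.mul (.sm 131 100 (.mul (.sq (.v 12)) (.v 12))) (.inv (.add (.c 1 1) (.sq (.sq (.sm 5 47 (.v 12))))))))
    (.lt (.mul (.v 7) (.v 6))
    (.lt (.mul (.mul (.add (.c 50213 50000) (.mul (.v 5) (.add (.c (-3901) 100000) (.mul (.v 5) (.add (.c (-48079) 100000) (.mul (.v 5) (.c 6701 100000))))))) (.inv (.v 4))) (.v 0))
    (.lt (.sub (.mul (.v 2) (.inv (.sq (.v 8)))) (.v 1))
    (.lt (.mul (.mul (.add (.sm 2 1 (.v 8)) (.c 3 1)) (.v 5)) (.v 4))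
    (.lt (.mul (.sq (.v 6)) (.v 5))
    (.sy (.c 1 1) (.c 4 1)
    (.lt (.add (.add (.sq (.v 0)) (.v 0)) (.c 1 1))
    (.lt (.mul (.v 0) (.inv (.mul (.sq (.v 1)) (.v 1))))
    (.lt (.add (.add (.v 2) (.c 1 1)) (.mul (.v 0) (.add (.v 4) (.mul (.mul (.v 0) (.sub (.v 2) (.c 1 1))) (.v 3)))))
    (.or (.neg (.sub (.mul (.v 2) (.v 7)) (.v 0)))
    (.neg (.sub (.v 6) (.mul (.sub (.v 3) (.c 1 1)) (.v 0)))))))))))))))))))))))))))

def cO2 : List (ℕ × ℕ) :=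
  [(8, 15910297998288586888), (9, 7828167305934699275708297), (9, 10642338331290), (10, 39368893136406682), (10, 2422008775874715), (10, 10638060136875),
   (10, 673736010171), (10, 46403467963), (10, 3453794988), (10, 669441042876), (10, 10642337209020), (10, 42375817676),
   (10, 170135947745996), (10, 737892084684), (10, 232569804), (11, 1909939952674859887820), (11, 170272814185676), (11, 199015644),
   (11, 843228), (12, 46116027868), (12, 843228), (11, 843228), (9, 843228), (8, 843228)]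

theorem kO2 : top 80 220 25 gO2 cO2 0 = true := by
  decide +kernel

theorem rO2 (r : ℝ) (h1 : (16 : ℝ) / 5 ≤ r) (h2 : r ≤ (12 : ℝ)) :
    ∀ s : ℝ, s = (((1 : ℝ) / 10) * r) →
    ∀ PT : ℝ, PT = ((1 : ℝ) + (s * (s * (((479 : ℝ) / 2000) + (s * (((8091 : ℝ) / 100000) + (s * (((4627 : ℝ) / 20000) + (s * (((-28087 : ℝ) / 100000) + (s * ((451 : ℝ) / 5000)))))))))))) →
    ∀ PG : ℝ, PG = ((2 : ℝ) + (s * (s * (((26927 : ℝ) / 50000) + (s * (((269 : ℝ) / 160) + (s * (((-195439 : ℝ) / 100000) + (s * ((30037 : ℝ) / 50000)))))))))) →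
    ∀ u : ℝ, u = (((r * PT) ^ 2) * (r * PT)) →
    ∀ P1 : ℝ, P1 = ((12 : ℝ) + (s * (s * (((86231 : ℝ) / 2000) + (s * (((-294389 : ℝ) / 10000) + (s * (((28979 : ℝ) / 2500) + (s * ((-2693 : ℝ) / 1250)))))))))) →
    ∀ a : ℝ, ((((9991 : ℝ) / 10000) * (P1)⁻¹) - (((1 : ℝ) / 25000000) * u)) ≤ a → a ≤ ((((10009 : ℝ) / 10000) * (P1)⁻¹) + (((1 : ℝ) / 25000000) * u)) →
    ∀ T : ℝ, (((11997 : ℝ) / 1000) * (PT)⁻¹) ≤ T → T ≤ (((12003 : ℝ) / 1000) * (PT)⁻¹) →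
    ∀ G : ℝ, (PG - ((3 : ℝ) / 1000)) ≤ G → G ≤ (PG + ((3 : ℝ) / 1000)) →
    ∀ y : ℝ, y = (((31 : ℝ) / 10) * (r)⁻¹) →
    ∀ c : ℝ, c = ((1 : ℝ) - (y ^ 2)) →
    ∀ k1 : ℝ, k1 = ((y ^ 2) * (c)⁻¹) →
    ∀ z : ℝ, z = ((r * (T)⁻¹) ^ 2) →
    ∀ n : ℝ, n = ((144 : ℝ) + ((((131 : ℝ) / 100) * ((r ^ 2) * r)) * (((1 : ℝ) + (((((5 : ℝ) / 47) * r) ^ 2) ^ 2)))⁻¹)) →
    ∀ aT : ℝ, aT = (a * T) →
    ∀ A : ℝ, A = (((((50213 : ℝ) / 50000) + (y * (((-3901 : ℝ) / 100000) + (y * (((-48079 : ℝ) / 100000) + (y * ((6701 : ℝ) / 100000))))))) * (c)⁻¹) * aT) →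
    ∀ n2 : ℝ, n2 = ((n * ((T ^ 2))⁻¹) - aT) →
    ∀ k3 : ℝ, k3 = (((((2 : ℝ) * G) + (3 : ℝ)) * k1) * z) →
    ∀ k4 : ℝ, k4 = ((k1 ^ 2) * z) →
    ∀ th : ℝ, (1 : ℝ) ≤ th → th ≤ (4 : ℝ) →
    ∀ w : ℝ, w = (((th ^ 2) + th) + (1 : ℝ)) →
    ∀ u1 : ℝ, u1 = (w * (((th ^ 2) * th))⁻¹) →
    ∀ K : ℝ, K = ((th + (1 : ℝ)) + (u1 * (k3 + ((u1 * (th - (1 : ℝ))) * k4)))) →
    ((((w * A) - K) < 0) ∨
    ((n2 - ((th - (1 : ℝ)) * K)) < 0)) := by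
  have h := top_ok kO2 r (le_trans (by norm_num) h1) (le_trans h2 (by norm_num))
  simp only [gO2, Gl.holds, Tm.ev, List.getD_cons_zero, List.getD_cons_succ, Int.cast_ofNat,
    Nat.cast_ofNat, Int.cast_one, Nat.cast_one, div_one, Int.cast_neg, Int.cast_zero] at h
  exact h

def gO3 : Gl :=
  (.lt (.sm 1 10 (.v 0))
    (.lt (.add (.c 1 1) (.mul (.v 0) (.mul (.v 0) (.add (.c 479 2000) (.mul (.v 0) (.add (.c 8091 100000) (.mul (.v 0) (.add (.c 4627 20000) (.mul (.v 0) (.add (.c (-28087) 100000) (.mul (.v 0) (.c 451 5000))))))))))))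
    (.btw (.sm 11997 1000 (.inv (.v 0))) (.sm 12003 1000 (.inv (.v 0)))
    (.lt (.add (.c 144 1) (.mul (.sm 131 100 (.mul (.sq (.v 3)) (.v 3))) (.inv (.add (.c 1 1) (.sq (.sq (.sm 5 47 (.v 3))))))))
    (.neg (.sub (.v 0) (.sm 15 1 (.sq (.v 1)))))))))

def cO3 : List (ℕ × ℕ) :=
  [(14, 0), (13, 0), (12, 0), (12, 0)]

theorem kO3 : top 80 220 25 gO3 cO3 0 = true := by
  decide +kernel

theorem rO3 (r : ℝ) (h1 : (16 : ℝ) / 5 ≤ r) (h2 : r ≤ (12 : ℝ)) :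
    ∀ s : ℝ, s = (((1 : ℝ) / 10) * r) →
    ∀ PT : ℝ, PT = ((1 : ℝ) + (s * (s * (((479 : ℝ) / 2000) + (s * (((8091 : ℝ) / 100000) + (s * (((4627 : ℝ) / 20000) + (s * (((-28087 : ℝ) / 100000) + (s * ((451 : ℝ) / 5000)))))))))))) →
    ∀ T : ℝ, (((11997 : ℝ) / 1000) * (PT)⁻¹) ≤ T → T ≤ (((12003 : ℝ) / 1000) * (PT)⁻¹) →
    ∀ n : ℝ, n = ((144 : ℝ) + ((((131 : ℝ) / 100) * ((r ^ 2) * r)) * (((1 : ℝ) + (((((5 : ℝ) / 47) * r) ^ 2) ^ 2)))⁻¹)) →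
    (n - ((15 : ℝ) * (T ^ 2))) < 0 := by
  have h := top_ok kO3 r (le_trans (by norm_num) h1) (le_trans h2 (by norm_num))
  simp only [gO3, Gl.holds, Tm.ev, List.getD_cons_zero, List.getD_cons_succ, Int.cast_ofNat,
    Nat.cast_ofNat, Int.cast_one, Nat.cast_one, div_one, Int.cast_neg, Int.cast_zero] at h
  exact h

end Pool.Agent.P.MP_97b9bc_mp.S
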