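import Pool.Agent.P.MP_97b9bc_mp.S.IfaceB
import Pool.Agent.P.MP_97b9bc_mp.S.KA
import Pool.Agent.P.MP_97b9bc_mp.S.IfaceA

/-! Steps NB NZ1 NO1 NZ2 NZ3 NO2 NO3 ORD FAR LINK. -/

set_option autoImplicit false

namespace Pool.Agent.P.MP_97b9bc_mp.S

open Set Filter Topology Pool.Agent.P.MP_97b9bc_mp.T

theorem p_NB :
    S_NB := by
  refine ⟨fun r h0 h13 => ?_, fun e h0 h1 => ?_, ?_, ?_⟩
  · obtain ⟨a1, a2, a3, a4, a5, a6, a7, a8, a9⟩ := rB r h0 h13 _ rfl
      (PT r) (by simp only [PT, pT, ev]; push_cast; ring)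
      (PG r) (by simp only [PG, pG, ev]; push_cast; ring)
      (PA r) (by simp only [PA, pA, ev]; push_cast; ring)
      (PB r) (by simp only [PB, pB, ev]; push_cast; ring)
    refine ⟨by linarith, by linarith, by linarith, by linarith, by linarith, by linarith,
      by linarith, by linarith, by linarith, ?_⟩
    have b1 : 9991 / 10000 / 46 ≤ 9991 / 10000 / PA r :=
      div_le_div_of_nonneg_left (by norm_num) (by linarith) (by linarith)
    have b2 : r * PT r ≤ 13 * (41 / 25) :=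
      mul_le_mul h13 (by linarith) (by linarith) (by norm_num)
    have b3 : (r * PT r) ^ 3 ≤ (13 * (41 / 25)) ^ 3 :=
      pow_le_pow_left₀ (mul_nonneg h0 (by linarith)) b2 3
    unfold aLo
    linarith
  · obtain ⟨a1, a2, a3, a4⟩ := rZ0 e h0 h1
    simp only [cZ, cO, ev]
    push_cast
    refine ⟨by linarith, by linarith, by linarith, by linarith⟩
  · norm_num [tHi, PT, pT, ev]
  · norm_num [aHi, PT, PA, pT, pA, ev]

end Pool.Agent.P.MP_97b9bc_mp.S

namespace Pool.Agent.P.MP_97b9bc_mp.S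

open Set Filter Topology Pool.Agent.P.MP_97b9bc_mp.T

theorem p_NZ1 :
    S_NZ1 := by
  intro r a b hr hb h
  have h4 : r + 4 ≠ 0 := by positivity
  have e1 : r * E1 cZ 4 4 r = -((1 - 4 / (r + 4)) * ev (derA 0 cZ) (4 / (r + 4))) := by
    unfold E1; field_simp; ring
  have e2 : r ^ 2 * E2 cZ 4 4 r =
      (1 - 4 / (r + 4)) ^ 2 * ev (derA 1 (derA 0 cZ)) (4 / (r + 4)) := by
    unfold E2; field_simp; ring
  rw [e1, e2, E0, chi]
  rcases h with ⟨h1, h2, h3, h5⟩ | ⟨h1, h2, h3, h5⟩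
  · have h := rZ1 r hr.le h1 _ rfl (PT r) (by simp only [PT, pT, ev]; push_cast; ring) _ rfl
      (PA r) (by simp only [PA, pA, ev]; push_cast; ring) a
      (by unfold aLo at h2; convert h2 using 1; ring) (by unfold aHi at h3; convert h3 using 1; ring)
      (PB r) (by simp only [PB, pB, ev]; push_cast; ring) b hb
      (by unfold bHi at h5; convert h5 using 1; ring) (4 / (r + 4)) (div_eq_mul_inv _ _) _ rfl
    generalize 4 / (r + 4) = e at h ⊢
    refine le_of_sub_nonpos (le_of_eq_of_le ?_ h.le)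
    simp only [ev, derA, cZ]
    push_cast
    ring
  · have h0 : 0 < 47 / 5 - 33 / 10 * (12 / r) := by
      have : 12 / r ≤ 1 := (div_le_one hr).2 h1
      linarith
    have h := rZ1F (12 / r) (by positivity) ((div_le_one hr).2 h1) a h2
      (by rw [← mul_div_assoc, le_div_iff₀ hr]; linarith) b hb
      (by rw [← one_div, le_div_iff₀ h0]; exact le_of_eq_of_le (by ring) h5) (4 / (r + 4))
      (by field_simp; ring) _ rfl
    generalize 4 / (r + 4) = e at h ⊢
    refine le_of_sub_nonpos (le_of_eq_of_le ?_ h.le)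
    simp only [ev, derA, cZ]
    push_cast
    ring

end Pool.Agent.P.MP_97b9bc_mp.S

namespace Pool.Agent.P.MP_97b9bc_mp.S

open Set Filter Topology Pool.Agent.P.MP_97b9bc_mp.T

theorem p_NO1 :
    S_NO1 := by
  intro r a b hr' hb h
  have hr : 0 < r := by linarith
  have e1 : r * E1 cO (31 / 10) 0 r = -ev (derA 0 cO) (31 / 10 / r) := by
    unfold E1; rw [add_zero]; field_simp
  have e2 : r ^ 2 * E2 cO (31 / 10) 0 r = ev (derA 1 (derA 0 cO)) (31 / 10 / r) := by
    unfold E2; rw [add_zero]; field_simp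
  rw [e1, e2, E0, chO, add_zero]
  rcases h with ⟨h1, h2, h3, h5⟩ | ⟨h1, h2, h3, h5⟩
  · have h := rO1 r hr' h1 _ rfl (PT r) (by simp only [PT, pT, ev]; push_cast; ring) _ rfl
      (PA r) (by simp only [PA, pA, ev]; push_cast; ring) a
      (by unfold aLo at h2; convert h2 using 1; ring) (by unfold aHi at h3; convert h3 using 1; ring)
      (PB r) (by simp only [PB, pB, ev]; push_cast; ring) b hb
      (by unfold bHi at h5; convert h5 using 1; ring) (31 / 10 / r) (div_eq_mul_inv _ _)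
    generalize 31 / 10 / r = e at h ⊢
    refine le_of_sub_nonpos (le_of_eq_of_le ?_ h.le)
    simp only [ev, derA, cO]
    push_cast
    ring
  · have h0 : 0 < 47 / 5 - 33 / 10 * (12 / r) := by
      have : 12 / r ≤ 1 := (div_le_one hr).2 h1
      linarith
    have h := rO1F (12 / r) (by positivity) ((div_le_one hr).2 h1) a h2
      (by rw [← mul_div_assoc, le_div_iff₀ hr]; linarith) b hb
      (by rw [← one_div, le_div_iff₀ h0]; exact le_of_eq_of_le (by ring) h5) (31 / 10 / r) (by ring)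
    generalize 31 / 10 / r = e at h ⊢
    refine le_of_sub_nonpos (le_of_eq_of_le ?_ h.le)
    simp only [ev, derA, cO]
    push_cast
    ring

end Pool.Agent.P.MP_97b9bc_mp.S

namespace Pool.Agent.P.MP_97b9bc_mp.S

open Set Filter Topology Pool.Agent.P.MP_97b9bc_mp.T

theorem p_NZ2 (hNB : S_NB) :
    S_NZ2 := by
  intro r T G a s θ hr h12 t1 t2 g1 g2 a1 a2 hs hs1 hθ hw
  have h4 : r + 4 ≠ 0 := by positivity
  have hP := (hNB.1 r hr.le (by linarith)).1
  have hT : 0 < T := lt_of_lt_of_le (by unfold tLo; exact div_pos (by norm_num) (by linarith)) t1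
  have he : (4 / (r + 4)) ^ 2 ≤ 1 :=
    pow_le_one₀ (by positivity) ((div_le_one (by positivity)).2 (by linarith))
  have c0 : 0 < chi r := by unfold chi; positivity
  have c1 : chi r ≤ 93 / 100 := by unfold chi; linarith
  have c2 : s * chi r ≤ chi r := mul_le_of_le_one_left c0.le hs1
  have c3 : 0 < s * chi r := mul_pos hs c0
  have th1 : θ ≤ 1 := le_of_not_gt fun h => by
    have := one_lt_pow₀ h (n := 3) (by norm_num)
    linarith
  have th2 : 41 / 100 ≤ θ := le_of_not_gt fun h => by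
    have := pow_lt_pow_left₀ h hθ.le (n := 3) (by norm_num)
    linarith
  have h := rZ2 r hr.le h12 _ rfl (PT r) (by simp only [PT, pT, ev]; push_cast; ring)
    (PG r) (by simp only [PG, pG, ev]; push_cast; ring) _ rfl
    (PA r) (by simp only [PA, pA, ev]; push_cast; ring) a
    (by unfold aLo at a1; convert a1 using 1; ring) (by unfold aHi at a2; convert a2 using 1; ring)
    T t1 t2 G g1 g2 (4 / (r + 4)) (div_eq_mul_inv _ _) _ rfl (chi r) rfl
    (-(r * chi1 r) * (chi r)⁻¹) (by congr 1; unfold chi1; field_simp; ring)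
    (r ^ 2 * chi2 r * (chi r)⁻¹) (by congr 1; unfold chi2; field_simp; ring) _ rfl
    (E0 cZ 4 4 r * (chi r)⁻¹ * (a * T))
    (by congr 2; simp only [E0, cZ, ev]; push_cast; ring) _ rfl _ rfl θ th2 th1 (θ ^ 3) (by ring)
  have h := (h.resolve_left (by linarith)) _ rfl
  have h5 := mul_nonpos_of_nonneg_of_nonpos
    (mul_nonneg c3.le (sq_nonneg (T / r ^ 2))) h.le
  refine le_of_sub_nonpos (le_of_eq_of_le ?_ h5)
  have hs' : s = (1 - θ ^ 3) / chi r := by rw [eq_div_iff c0.ne']; linarith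
  have h6 : 1 + θ + θ ^ 2 ≠ 0 := by positivity
  rw [hs', kin]
  generalize chi r = c at c0
  field_simp
  ring

end Pool.Agent.P.MP_97b9bc_mp.S

namespace Pool.Agent.P.MP_97b9bc_mp.S

open Set Filter Topology Pool.Agent.P.MP_97b9bc_mp.T

theorem p_NZ3 :
    S_NZ3 := by
  intro r T G s θ h12 hT hT1 hG hs hs1 hθ hw
  have hr : 0 < r := by linarith
  have h4 : 0 < r + 4 := by linarith
  have he : (4 / (r + 4)) ^ 2 ≤ (1 / 4) ^ 2 :=
    pow_le_pow_left₀ (by positivity) ((div_le_iff₀ h4).2 (by linarith)) 2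
  have c0 : 0 < chi r := by unfold chi; positivity
  have c1 : chi r ≤ 33 / 100 := by unfold chi; linarith
  have c3 : 0 < s * chi r := mul_pos hs c0
  have w0 : 0 < θ ^ 3 := by positivity
  have w1 : θ ^ 3 ≤ 1 := by linarith
  have th1 : θ ≤ 1 := le_of_not_gt fun h => by
    have := one_lt_pow₀ h (n := 3) (by norm_num)
    linarith
  have th2 : 1 - θ ^ 2 ≤ s * (33 / 100) := by
    have := pow_le_pow_of_le_one hθ.le th1 (show 2 ≤ 3 by norm_num)
    have := mul_le_mul_of_nonneg_left c1 hs.le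
    linarith
  have hx : (3 / 4) ^ 3 ≤ (r / (r + 4)) ^ 3 :=
    pow_le_pow_left₀ (by norm_num) ((le_div_iff₀ h4).2 (by linarith)) 3
  have k1 : -G / r * -(s * chi1 r) / θ ^ 3 =
      -(s / r ^ 4 * (G * (104 / 5 * (r / (r + 4)) ^ 3)) / θ ^ 3) := by
    unfold chi1; field_simp; ring
  have k2 : -(s * chi2 r) / (2 * θ ^ 3) ≤ 0 := by
    rw [neg_div, neg_nonpos]; unfold chi2; positivity
  have k3 : s / r ^ 4 * 26 ≤ s / r ^ 4 * (G * (104 / 5 * (r / (r + 4)) ^ 3)) / θ ^ 3 := by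
    rw [mul_div_assoc]
    refine mul_le_mul_of_nonneg_left ((le_div_iff₀ w0).2 ?_) (by positivity)
    have := mul_le_mul hG hx (by norm_num) (by linarith)
    linarith
  have k4 : (1 - θ ^ 2) * (T / r ^ 2) ^ 2 ≤ s / r ^ 4 * 26 := by
    have h1 : T ^ 2 ≤ (783 / 100) ^ 2 := pow_le_pow_left₀ hT.le hT1 2
    calc _ ≤ s * (33 / 100) * (T / r ^ 2) ^ 2 := by gcongr
      _ = s / r ^ 4 * (33 / 100 * T ^ 2) := by field_simp
      _ ≤ _ := mul_le_mul_of_nonneg_left (by linarith) (by positivity)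
  have k5 := sq_nonneg (-(s * chi1 r) / (2 * θ ^ 3))
  rw [kin, k1]
  linarith

end Pool.Agent.P.MP_97b9bc_mp.S

namespace Pool.Agent.P.MP_97b9bc_mp.S

open Set Filter Topology Pool.Agent.P.MP_97b9bc_mp.T

theorem p_NO2 (hNB : S_NB) :
    S_NO2 := by
  intro r T G a τ θ h1 h2 t1 t2 g1 g2 a1 a2 hτ hθ e
  have r0 : 0 < r := by linarith
  obtain ⟨p1, -, -, -, -, -, q1, -, -, a0⟩ := hNB.1 r r0.le (by linarith)
  have T0 : 0 < T := (div_pos (by norm_num) (by linarith)).trans_le t1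
  have G0 : 0 < G := by unfold gLo at g1; linarith
  have y1 : 31 / 10 / r < 1 := (div_lt_one r0).2 (by linarith)
  have c0 : 0 < chO r := sub_pos.2 (pow_lt_one₀ (by positivity) y1 two_ne_zero)
  have θ0 : 0 < θ := by linarith
  have hPT : PT r = 1 + 1 / 10 * r * (1 / 10 * r * (479 / 2000 + 1 / 10 * r * (8091 / 100000 +
      1 / 10 * r * (4627 / 20000 + 1 / 10 * r * (-28087 / 100000 + 1 / 10 * r * (451 / 5000)))))) := by
    simp only [PT, pT, ev]; push_cast; ring
  have ht : 11997 / 1000 * (PT r)⁻¹ ≤ T := by rw [← div_eq_mul_inv]; exact t1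
  have hn : r ^ 3 * nW r = 144 + 131 / 100 * (r ^ 2 * r) * (1 + ((5 / 47 * r) ^ 2) ^ 2)⁻¹ := by
    unfold nW jW; field_simp
  have s0 : 0 < (T / r ^ 2) ^ 2 := by positivity
  rcases le_total θ 4 with h4 | h4
  · have h := rO2 r h1 h2 _ rfl (PT r) hPT (PG r) (by simp only [PG, pG, ev]; push_cast; ring) _ rfl
      (PA r) (by simp only [PA, pA, ev]; push_cast; ring) a
      (by unfold aLo at a1; convert a1 using 1; ring) (by unfold aHi at a2; convert a2 using 1; ring)
      T ht (by rw [← div_eq_mul_inv]; exact t2) G g1 g2 (31 / 10 / r) (div_eq_mul_inv _ _) (chO r)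
      rfl _ rfl _ rfl _ hn _ rfl (E0 cO (31 / 10) 0 r * (chO r)⁻¹ * (a * T))
      (by simp only [E0, cO, ev, add_zero]; push_cast; ring) _ rfl _ rfl _ rfl θ hθ.le h4 _ rfl _ rfl
      _ rfl
    obtain rfl : τ = (θ ^ 3 - 1) / chO r := by rw [e]; field_simp; ring
    unfold kin chO1 chO2
    generalize chO r = c at *
    generalize 31 / 10 / r = y at *
    generalize E0 cO (31 / 10) 0 r = E at *
    generalize nW r = n at *
    refine h.imp (fun h => ?_) fun h => ?_
    · have := mul_neg_of_pos_of_neg (mul_pos (sub_pos.2 hθ) s0) h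
      refine sub_nonpos.1 (le_of_eq_of_le ?_ this.le)
      field_simp
      ring
    · have := mul_neg_of_pos_of_neg s0 h
      refine sub_neg.1 (lt_of_eq_of_lt ?_ this)
      field_simp
      ring
  · have h := rO3 r h1 h2 _ rfl (PT r) hPT T ht (by rw [← div_eq_mul_inv]; exact t2) _ hn
    have k : 0 ≤ -kin (-G / r) (θ ^ 3) (τ * chO1 r) (τ * chO2 r) := by
      unfold kin chO1 chO2
      generalize 31 / 10 / r = y
      rw [show -(-G / r * (τ * (2 * y ^ 2 / r)) / θ ^ 3 + τ * (-(6 * y ^ 2) / r ^ 2) / (2 * θ ^ 3) -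
        (τ * (2 * y ^ 2 / r) / (2 * θ ^ 3)) ^ 2) = (2 * G + 3) * τ * y ^ 2 / (r ^ 2 * θ ^ 3) +
        (τ * (2 * y ^ 2 / r) / (2 * θ ^ 3)) ^ 2 by field_simp; ring]
      positivity
    have k1 : 0 < a * T ^ 3 / r ^ 4 := by have := a0.trans_le a1; positivity
    have k2 : nW r / r < 15 * (T / r ^ 2) ^ 2 := by
      rw [show nW r / r = r ^ 3 * nW r / r ^ 4 by field_simp,
        show 15 * (T / r ^ 2) ^ 2 = 15 * T ^ 2 / r ^ 4 by ring]
      exact div_lt_div_of_pos_right (by linarith) (by positivity)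
    have k3 : 15 * (T / r ^ 2) ^ 2 ≤ (θ ^ 2 - 1) * (T / r ^ 2) ^ 2 :=
      mul_le_mul_of_nonneg_right (by nlinarith) s0.le
    exact .inr (by linarith)

end Pool.Agent.P.MP_97b9bc_mp.S

namespace Pool.Agent.P.MP_97b9bc_mp.S

open Set Filter Topology Pool.Agent.P.MP_97b9bc_mp.T

theorem p_NO3 (hNB : S_NB) :
    S_NO3 := by
  intro r T G a τ θ h1 T0 t2 G0 a0 a2 hτ hθ e
  have r0 : 0 < r := by linarith
  have y0 : 0 < 31 / 10 / r := by positivity
  have y1 : 31 / 10 / r ≤ 31 / 120 := (div_le_iff₀ r0).2 (by linarith)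
  have c0 : 933 / 1000 ≤ chO r := by unfold chO; nlinarith
  have θ0 : 0 < θ := by linarith
  obtain ⟨-, -, e0, e1⟩ := hNB.2.1 _ y0.le (by linarith)
  have eE : E0 cO (31 / 10) 0 r = ev cO (31 / 10 / r) := by rw [E0, add_zero]
  have k : 0 ≤ -kin (-G / r) (θ ^ 3) (τ * chO1 r) (τ * chO2 r) := by
    unfold kin chO1 chO2
    generalize 31 / 10 / r = y
    rw [show -(-G / r * (τ * (2 * y ^ 2 / r)) / θ ^ 3 + τ * (-(6 * y ^ 2) / r ^ 2) / (2 * θ ^ 3) -
      (τ * (2 * y ^ 2 / r) / (2 * θ ^ 3)) ^ 2) = (2 * G + 3) * τ * y ^ 2 / (r ^ 2 * θ ^ 3) +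
      (τ * (2 * y ^ 2 / r) / (2 * θ ^ 3)) ^ 2 by field_simp; ring]
    positivity
  have s0 : 0 < (T / r ^ 2) ^ 2 := by positivity
  have a3 : a ≤ 593 / 24000 := by nlinarith
  rcases le_or_gt (T * (θ + 1)) (75 / 2) with h | h
  · left
    have b1 : τ ≤ (θ - 1) * (θ + 1) ^ 2 * (1000 / 933) := by nlinarith
    have b2 : ev cO (31 / 10 / r) * a ≤ 201 / 200 * (593 / 24000) :=
      mul_le_mul e1.le a3 a0 (by norm_num)
    have b3 : τ * (ev cO (31 / 10 / r) * a) * T ≤ θ ^ 2 - 1 :=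
      calc _ ≤ (θ - 1) * (θ + 1) ^ 2 * (1000 / 933) * (201 / 200 * (593 / 24000)) * T := by
            have := sub_pos.2 hθ
            gcongr
        _ = (θ ^ 2 - 1) * (T * (θ + 1) * (1000 / 933 * (201 / 200 * (593 / 24000)))) := by ring
        _ ≤ (θ ^ 2 - 1) * 1 := mul_le_mul_of_nonneg_left (by linarith) (by nlinarith)
        _ = _ := mul_one _
    have := mul_le_mul_of_nonneg_right b3 s0.le
    rw [eE, show τ * ev cO (31 / 10 / r) * (a * T ^ 3 / r ^ 4) =
      τ * (ev cO (31 / 10 / r) * a) * T * (T / r ^ 2) ^ 2 by ring]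
    linarith
  · right
    have k1 : 0 ≤ a * T ^ 3 / r ^ 4 := by positivity
    have b1 : r ^ 3 * jW r ≤ 500 := by
      rw [jW, mul_one_div, div_le_iff₀ (by positivity)]
      obtain ⟨u, rfl⟩ : ∃ u, r = 47 / 5 * u := ⟨5 / 47 * r, by ring⟩
      rw [show 5 / 47 * (47 / 5 * u) = u by ring]
      nlinarith [sq_nonneg (u ^ 2 - 5 / 6 * u - 1 / 3), sq_nonneg (u - 4 / 3), sq_nonneg (u ^ 2 - 7 / 4),
        sq_nonneg (u ^ 2 - 4 / 3 * u)]
    have b2 : 815 < (θ ^ 2 - 1) * T ^ 2 := by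
      rw [show (θ ^ 2 - 1) * T ^ 2 = T * (θ + 1) * (T * (θ + 1) - 2 * T) by ring]
      nlinarith
    have k2 : nW r / r < (θ ^ 2 - 1) * (T / r ^ 2) ^ 2 := by
      rw [show nW r / r = (144 + 131 / 100 * (r ^ 3 * jW r)) / r ^ 4 by unfold nW; field_simp,
        show (θ ^ 2 - 1) * (T / r ^ 2) ^ 2 = (θ ^ 2 - 1) * T ^ 2 / r ^ 4 by ring]
      exact div_lt_div_of_pos_right (by linarith) (by positivity)
    linarith

end Pool.Agent.P.MP_97b9bc_mp.S

namespace Pool.Agent.P.MP_97b9bc_mp.S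

open Set Filter Topology Pool.Agent.P.MP_97b9bc_mp.T

theorem p_ORD :
    S_ORD := by
  intro r hr
  have hd := Pd_pos hr.le
  have hn := Pn_pos hr.le
  have hT : 0 < Tt r := (lj_Tt r hr).1
  have hT1 : Tt r ≤ 6003 / 500 := by
    have : Pd r / Pn r ≤ 1 := by
      rw [div_le_one hn]
      unfold Pd Pn
      have : 0 ≤ 23 / 10 ^ 4 * r ^ 2 + 363 / 10 ^ 7 * r ^ 5 := by positivity
      linarith
    unfold Tt
    linarith
  have hT2 : 12 / (1 + r) ^ 2 ≤ Tt r := by
    have h1 : 1 / (1 + r) ^ 2 ≤ Pd r / Pn r := by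
      rw [div_le_div_iff₀ (by positivity) hn]
      unfold Pd Pn
      have : 0 ≤ 2 * r + 9977 / 10000 * r ^ 2 + r ^ 4 / 50 + 99637 / 10 ^ 7 * r ^ 5 := by positivity
      nlinarith
    have h2 : 0 ≤ 1 / (1 + r) ^ 2 := by positivity
    have h3 : 12 / (1 + r) ^ 2 = 12 * (1 / (1 + r) ^ 2) := by ring
    unfold Tt
    linarith
  have hq : 0 < Tt r ^ 3 / r ^ 4 := by positivity
  have e3 : M3 r = Tt r ^ 3 * ((18 / 25) ^ 3 / (r * (r + 8) ^ 3)) := by
    unfold M3; field_simp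
  have k0 : (0 : ℝ) ≤ (18 / 25) ^ 3 / (r * (r + 8) ^ 3) := by positivity
  have c0 : 0 < 4 / (r + 4) := by positivity
  have c1 : 4 / (r + 4) ≤ 1 := by rw [div_le_one (by positivity)]; linarith
  refine ⟨?_, ?_, ?_, ?_, hT, hT1, by unfold chi; positivity, ?_⟩
  · refine mul_lt_mul_of_pos_left ?_ hq
    have e1 : (4 / 5 * (r / (r + 2))) ^ 3 = 64 / 125 * r ^ 3 / (r + 2) ^ 3 := by
      field_simp; ring
    have e2 : 1 - chi r = (18 / 25 * r ^ 2 + 144 / 25 * r + 28 / 25) / (r + 4) ^ 2 := by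
      unfold chi; field_simp; ring
    rw [e1, e2, div_lt_div_iff₀ (by positivity) (by positivity), ← sub_pos]
    ring_nf
    positivity
  · refine mul_lt_mul_of_pos_left ?_ hq
    refine pow_lt_pow_left₀ ?_ (by positivity) (by norm_num)
    have h1 : r / (r + 8) ≤ r / (r + 2) :=
      div_le_div_of_nonneg_left hr.le (by positivity) (by linarith)
    have h2 : 0 < r / (r + 8) := by positivity
    linarith
  · rw [e3]
    refine le_trans ?_ (mul_le_mul_of_nonneg_right
      (pow_le_pow_left₀ (by positivity) hT2 3) k0)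
    have e4 : (12 / (1 + r) ^ 2) ^ 3 * ((18 / 25) ^ 3 / (r * (r + 8) ^ 3)) =
        (12 * (18 / 25)) ^ 3 * (1 + r) ^ 4 / (r * (r + 8) ^ 3) / (1 + r) ^ 10 := by
      field_simp
    rw [e4]
    refine div_le_div_of_nonneg_right ?_ (by positivity)
    rw [le_div_iff₀ (by positivity), ← sub_nonneg]
    ring_nf
    positivity
  · rw [e3]
    refine le_trans (mul_le_mul_of_nonneg_right (pow_le_pow_left₀ hT.le hT1 3) k0) ?_
    rw [← mul_div_assoc, div_le_div_iff₀ (by positivity) (by positivity)]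
    have h1 : 646 * (r + 1) ^ 2 ≤ 13 / 10 * (2 * r + 1) * (r + 8) ^ 3 := by
      have h2 := mul_nonneg hr.le (sq_nonneg (r - 1))
      have h3 : 0 ≤ r ^ 4 := by positivity
      have h4 : 0 ≤ r ^ 2 := by positivity
      nlinarith
    have h5 := mul_le_mul_of_nonneg_left h1 hr.le
    have h6 : 0 ≤ r * (r + 1) ^ 2 := by positivity
    nlinarith
  · unfold chi
    nlinarith

end Pool.Agent.P.MP_97b9bc_mp.S

namespace Pool.Agent.P.MP_97b9bc_mp.S

open Set Filter Topology Pool.Agent.P.MP_97b9bc_mp.T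

theorem p_FAR (hFARG : S_FARG) (hNB : S_NB) :
    S_FAR := by
  intro z Q a U hU ha hE r hr
  have h12 := hE.2.2 12 ha le_rfl
  have t0 := hU.pos 12 (by norm_num)
  have t1 : 12 ^ 2 * U.t 12 ≤ 783 / 100 := h12.thi.trans hNB.2.2.1
  have t2 : U.t 12 ^ 3 ≤ (783 / 14400) ^ 3 := pow_le_pow_left₀ t0.le (by linarith) 3
  have m0 : 0 ≤ 12 * U.m 12 := by unfold Q4.m; positivity
  have m1 : U.w 12 + Q ≤ 1 / 40 * (12 * U.m 12) :=
    h12.ahi.trans (mul_le_mul_of_nonneg_right hNB.2.2.2 m0)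
  have w1 : U.w 12 ≤ -(91 / 100) := by
    have := hE.1
    unfold Q4.m at m1
    linarith
  obtain ⟨b1, b2, b3, b4, b5⟩ := hFARG z Q U hU w1 r hr
  refine ⟨b1, ?_, b3, b4, b5.trans t1⟩
  have : 99 / 5 / r ≤ 99 / 5 / 12 := div_le_div_of_nonneg_left (by norm_num) (by norm_num) hr
  linarith

end Pool.Agent.P.MP_97b9bc_mp.S

namespace Pool.Agent.P.MP_97b9bc_mp.S

open Set Filter Topology Pool.Agent.P.MP_97b9bc_mp.T

theorem p_LINK (hFAR : S_FAR) (hNL : S_NL) :
    S_LINK := by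
  intro z Q a U hU ha ha1 hE r hr
  have near : ∀ s, a ≤ s → s ≤ 12 → s ^ 2 * U.t s ≤ Tt s := fun s h1 h2 =>
    (hE.2.2 s h1 h2).thi.trans (hNL.1 s (by linarith) h2)
  rcases le_total r 12 with h | h
  · exact near r hr h
  have key := anti' (f := fun s => s ^ 2 * U.t s / Tt s)
    (f' := fun s => s * U.t s / Tt s * (4 / 3 + 2 / 3 * (s * U.L s) - lp s)) h
    (fun s h1 _ => by
      have s0 : 0 < s := by linarith
      have p := (lj_Tt s s0).1.ne'
      have q := s0.ne'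
      refine ((((hasDerivAt_id' s).fun_pow 2).fun_mul (hU.dt s s0)).fun_div (lj_Tt s s0).2.1
        p).congr_deriv ?_
      push_cast
      field_simp
      ring)
    (fun s h1 _ => by
      have s0 : 0 < s := by linarith
      have p := (lj_Tt s s0).1
      have q := hU.pos s s0
      have b1 := (hFAR z Q a U hU (by linarith) hE s h1).1
      have b2 := hNL.2 s h1
      exact mul_nonpos_of_nonneg_of_nonpos (by positivity) (by linarith))
  have p := (lj_Tt r (by linarith)).1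
  have p12 := (lj_Tt 12 (by norm_num)).1
  have h2 : 12 ^ 2 * U.t 12 / Tt 12 ≤ 1 := (div_le_one p12).2 (near 12 (by linarith) le_rfl)
  exact (div_le_one p).1 (key.trans h2)

end Pool.Agent.P.MP_97b9bc_mp.S
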