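import Pool.Agent.P.MP_97b9bc_mp.S.IAS

/-! Kernel checks. -/

set_option autoImplicit false

namespace Pool.Agent.P.MP_97b9bc_mp.S

def gW : Gl :=
  (.lt (.mul (.sq (.v 0)) (.v 0))
    (.lt (.inv (.add (.mul (.v 0) (.v 1)) (.c 65536 4879681)))
    (.lt (.mul (.mul (.v 1) (.v 2)) (.v 0))
    (.lt (.add (.c 1125 256) (.sm 131 100 (.mul (.v 3) (.v 1))))
    (.lt (.add (.c 3375 64) (.sm 131 100 (.mul (.mul (.mul (.v 4) (.v 2)) (.sub (.c 1 1) (.v 1))) (.sub (.c 20 1) (.sm 32 1 (.v 1))))))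
    (.lt (.mul (.v 4) (.v 1))
    (.lt (.mul (.sq (.mul (.v 5) (.v 1))) (.v 5))
    (.or (.lt (.sub (.sub (.v 1) (.c 367 400)) (.sm 5 16 (.v 7)))
    (.neg (.sub (.v 1) (.sm 4096 125 (.mul (.sq (.v 0)) (.v 0))))))
    (.and (.lt (.sub (.c 41 80) (.sm 5 16 (.v 7)))
    (.neg (.sub (.v 1) (.sm 4096 125 (.mul (.sq (.v 0)) (.v 0))))))
    (.and (.neg (.sub (.sm 5 16 (.mul (.v 7) (.v 2))) (.mul (.v 3) (.sub (.c 9173 5000) (.v 1)))))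
    (.neg (.sub (.sm 5 16 (.mul (.mul (.v 6) (.v 7)) (.v 2))) (.c 289289 500000)))))))))))))

def cW : List (ℕ × ℕ) :=
  [(12, 0), (11, 0), (11, 0), (10, 0), (10, 0), (10, 0),
   (10, 0), (10, 0), (10, 0), (9, 0), (7, 0), (7, 0),
   (8, 0), (9, 0), (9, 0), (9, 0), (9, 0), (10, 0),
   (10, 0), (10, 0), (10, 0), (10, 0), (10, 0), (10, 0),
   (10, 0), (10, 0), (10, 0), (10, 0), (10, 0), (10, 0),
   (10, 0), (10, 0)]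

theorem kW : top 0 1 1 gW cW 0 = true := by
  decide +kernel

theorem rW (x : ℝ) (h1 : (0 : ℝ) ≤ x) (h2 : x ≤ (1 : ℝ)) :
    ∀ x3 : ℝ, x3 = ((x ^ 2) * x) →
    ∀ i4 : ℝ, i4 = (((x3 * x) + ((65536 : ℝ) / 4879681)))⁻¹ →
    ∀ j : ℝ, j = ((x3 * x) * i4) →
    ∀ nh : ℝ, nh = (((1125 : ℝ) / 256) + (((131 : ℝ) / 100) * (x * i4))) →
    ∀ sh : ℝ, sh = (((3375 : ℝ) / 64) + (((131 : ℝ) / 100) * (((x * i4) * ((1 : ℝ) - j)) * ((20 : ℝ) - ((32 : ℝ) * j))))) →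
    ∀ N : ℝ, N = (x3 * nh) →
    ∀ z : ℝ, z = (((x3 * sh) ^ 2) * x3) →
    ((∀ A : ℝ, A = ((N - ((367 : ℝ) / 400)) - (((5 : ℝ) / 16) * x)) →
    (z - (((4096 : ℝ) / 125) * ((A ^ 2) * A))) < 0) ∨
    (((∀ A : ℝ, A = (((41 : ℝ) / 80) - (((5 : ℝ) / 16) * x)) →
    (z - (((4096 : ℝ) / 125) * ((A ^ 2) * A))) < 0) ∧
    (((((((5 : ℝ) / 16) * (x * sh)) - (nh * (((9173 : ℝ) / 5000) - N))) < 0) ∧
    (((((5 : ℝ) / 16) * ((x3 * x) * sh)) - ((289289 : ℝ) / 500000)) < 0)))))) := by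
  have h := top_ok kW x (le_trans (by norm_num) h1) (le_trans h2 (by norm_num))
  simp only [gW, Gl.holds, Tm.ev, List.getD_cons_zero, List.getD_cons_succ, Int.cast_ofNat,
    Nat.cast_ofNat, Int.cast_one, Nat.cast_one, div_one, Int.cast_neg, Int.cast_zero] at h
  exact h

def gI : Gl :=
  (.lt (.sm 1 10 (.v 0))
    (.lt (.add (.c 1 1) (.mul (.v 0) (.mul (.v 0) (.add (.c 479 2000) (.mul (.v 0) (.add (.c 8091 100000) (.mul (.v 0) (.add (.c 4627 20000) (.mul (.v 0) (.add (.c (-28087) 100000) (.mul (.v 0) (.c 451 5000))))))))))))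
    (.lt (.add (.c 2 1) (.mul (.v 1) (.mul (.v 1) (.add (.c 26927 50000) (.mul (.v 1) (.add (.c 269 160) (.mul (.v 1) (.add (.c (-195439) 100000) (.mul (.v 1) (.c 30037 50000))))))))))
    (.btw (.sm 11997 1000 (.inv (.v 1))) (.sm 12003 1000 (.inv (.v 1)))
    (.btw (.sub (.v 1) (.c 3 1000)) (.add (.v 1) (.c 3 1000))
    (.lt (.sm 4 13 (.v 5))
    (.lt (.sq (.sq (.v 0)))
    (.lt (.sq (.v 0))
    (.lt (.sm 5190 1 (.add (.sub (.c 1 20) (.sm 1 12 (.v 0))) (.mul (.v 1) (.sub (.sm 8 15 (.v 2)) (.c 1 2)))))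
    (.lt (.sm 5190 1 (.add (.add (.sub (.c 1 30) (.sm 1 3 (.v 1))) (.sm 1 110 (.sq (.v 1)))) (.mul (.mul (.v 2) (.v 3)) (.sub (.sm 16 15 (.v 3)) (.c 128 165)))))
    (.lt (.sm 1730 1 (.add (.sub (.add (.sub (.c 1 42) (.sm 3 2 (.v 2))) (.sm 1 30 (.sq (.v 2)))) (.sm 1 306 (.mul (.sq (.v 2)) (.v 2)))) (.mul (.mul (.v 3) (.sq (.v 4))) (.sub (.sm 1024 357 (.v 4)) (.c 64 45)))))
    (.lt (.sq (.v 11))
    (.lt (.mul (.sub (.c 1 1) (.v 4)) (.sq (.v 8)))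
    (.lt (.add (.c 1 1) (.sm 7 1 (.v 5)))
    (.lt (.sub (.add (.sm 3 1 (.mul (.v 9) (.v 0))) (.c 3 1)) (.sm 63 1 (.v 6)))
    (.lt (.sub (.c 1 1) (.v 7))
    (.sy (.c 0 1) (.c 7 10)
    (.lt (.sub (.c 1 1) (.mul (.v 0) (.v 1)))
    (.lt (.inv (.v 0))
    (.lt (.mul (.mul (.v 2) (.v 5)) (.v 0))
    (.or (.neg (.sub (.add (.c 1 1) (.v 15)) (.sm 3 2 (.v 0))))
    (.neg (.add (.sub (.sub (.v 11) (.mul (.v 3) (.sub (.v 10) (.mul (.v 3) (.v 9))))) (.mul (.add (.c 1 1) (.v 2)) (.v 7))) (.mul (.v 8) (.mul (.v 1) (.sub (.v 5) (.sm 3 4 (.mul (.v 0) (.v 6)))))))))))))))))))))))))))))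

def cI : List (ℕ × ℕ) :=
  [(13, 15), (12, 238), (12, 36935679198), (11, 52446), (11, 52446), (11, 52446),
   (11, 3550), (11, 3550), (11, 52446), (11, 52446), (11, 56797)]

theorem kI : top 0 16 5 gI cI 0 = true := by
  decide +kernel

theorem rI (r : ℝ) (h1 : (0 : ℝ) ≤ r) (h2 : r ≤ (16 : ℝ) / 5) :
    ∀ s : ℝ, s = (((1 : ℝ) / 10) * r) →
    ∀ PT : ℝ, PT = ((1 : ℝ) + (s * (s * (((479 : ℝ) / 2000) + (s * (((8091 : ℝ) / 100000) + (s * (((4627 : ℝ) / 20000) + (s * (((-28087 : ℝ) / 100000) + (s * ((451 : ℝ) / 5000)))))))))))) →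
    ∀ PG : ℝ, PG = ((2 : ℝ) + (s * (s * (((26927 : ℝ) / 50000) + (s * (((269 : ℝ) / 160) + (s * (((-195439 : ℝ) / 100000) + (s * ((30037 : ℝ) / 50000)))))))))) →
    ∀ T : ℝ, (((11997 : ℝ) / 1000) * (PT)⁻¹) ≤ T → T ≤ (((12003 : ℝ) / 1000) * (PT)⁻¹) →
    ∀ G : ℝ, (PG - ((3 : ℝ) / 1000)) ≤ G → G ≤ (PG + ((3 : ℝ) / 1000)) →
    ∀ ro : ℝ, ro = (((4 : ℝ) / 13) * r) →
    ∀ q4 : ℝ, q4 = ((ro ^ 2) ^ 2) →
    ∀ p : ℝ, p = (q4 ^ 2) →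
    ∀ D1 : ℝ, D1 = ((5190 : ℝ) * ((((1 : ℝ) / 20) - (((1 : ℝ) / 12) * p)) + (q4 * ((((8 : ℝ) / 15) * ro) - ((1 : ℝ) / 2))))) →
    ∀ D2 : ℝ, D2 = ((5190 : ℝ) * (((((1 : ℝ) / 30) - (((1 : ℝ) / 3) * p)) + (((1 : ℝ) / 110) * (p ^ 2))) + ((q4 * ro) * ((((16 : ℝ) / 15) * ro) - ((128 : ℝ) / 165))))) →
    ∀ D3 : ℝ, D3 = ((1730 : ℝ) * ((((((1 : ℝ) / 42) - (((3 : ℝ) / 2) * p)) + (((1 : ℝ) / 30) * (p ^ 2))) - (((1 : ℝ) / 306) * ((p ^ 2) * p))) + ((q4 * (ro ^ 2)) * ((((1024 : ℝ) / 357) * ro) - ((64 : ℝ) / 45))))) →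
    ∀ z : ℝ, z = (r ^ 2) →
    ∀ A : ℝ, A = (((1 : ℝ) - p) * (T ^ 2)) →
    ∀ k1 : ℝ, k1 = ((1 : ℝ) + ((7 : ℝ) * p)) →
    ∀ k2 : ℝ, k2 = ((((3 : ℝ) * (G * k1)) + (3 : ℝ)) - ((63 : ℝ) * p)) →
    ∀ g : ℝ, g = ((1 : ℝ) - p) →
    ∀ sg : ℝ, (0 : ℝ) ≤ sg → sg ≤ ((7 : ℝ) / 10) →
    ∀ th : ℝ, th = ((1 : ℝ) - (sg * g)) →
    ∀ it : ℝ, it = (th)⁻¹ →
    ∀ l : ℝ, l = ((sg * k1) * it) →
    (((((1 : ℝ) + G) - (((3 : ℝ) / 2) * l)) < 0) ∨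
    ((((D1 - (sg * (D2 - (sg * D3)))) - (((1 : ℝ) + th) * A)) + (z * (it * (k2 - (((3 : ℝ) / 4) * (l * k1)))))) < 0)) := by
  have h := top_ok kI r (le_trans (by norm_num) h1) (le_trans h2 (by norm_num))
  simp only [gI, Gl.holds, Tm.ev, List.getD_cons_zero, List.getD_cons_succ, Int.cast_ofNat,
    Nat.cast_ofNat, Int.cast_one, Nat.cast_one, div_one, Int.cast_neg, Int.cast_zero] at h
  exact h

def gLN : Gl :=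
  (.lt (.sm 1 10 (.v 0))
    (.lt (.add (.c 1 1) (.mul (.v 0) (.mul (.v 0) (.add (.c 479 2000) (.mul (.v 0) (.add (.c 8091 100000) (.mul (.v 0) (.add (.c 4627 20000) (.mul (.v 0) (.add (.c (-28087) 100000) (.mul (.v 0) (.c 451 5000))))))))))))
    (.lt (.sq (.v 2))
    (.lt (.mul (.v 0) (.v 3))
    (.neg (.sub (.sm 12003 1000 (.add (.c 1 1) (.mul (.mul (.v 1) (.add (.c 23 10000) (.sm 363 10000000 (.v 0)))) (.inv (.add (.c 1 1) (.sm 1 100 (.v 0))))))) (.sm 6003 500 (.v 2))))))))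

def cLN : List (ℕ × ℕ) :=
  [(10, 0), (10, 0), (10, 0), (10, 0), (10, 0), (10, 0),
   (10, 0), (10, 0), (10, 0), (10, 0), (10, 0), (10, 0),
   (9, 0), (9, 0), (9, 0), (9, 0), (9, 0), (9, 0),
   (9, 0), (9, 0), (9, 0), (9, 0), (9, 0), (9, 0),
   (9, 0), (9, 0), (9, 0), (9, 0), (9, 0), (9, 0),
   (9, 0), (9, 0), (9, 0), (10, 0), (10, 0), (10, 0),
   (10, 0), (10, 0), (10, 0), (10, 0), (10, 0), (10, 0),
   (9, 0)]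

theorem kLN : top 0 12 1 gLN cLN 0 = true := by
  decide +kernel

theorem rLN (r : ℝ) (h1 : (0 : ℝ) ≤ r) (h2 : r ≤ (12 : ℝ)) :
    ∀ s : ℝ, s = (((1 : ℝ) / 10) * r) →
    ∀ PT : ℝ, PT = ((1 : ℝ) + (s * (s * (((479 : ℝ) / 2000) + (s * (((8091 : ℝ) / 100000) + (s * (((4627 : ℝ) / 20000) + (s * (((-28087 : ℝ) / 100000) + (s * ((451 : ℝ) / 5000)))))))))))) →
    ∀ z : ℝ, z = (r ^ 2) →
    ∀ w : ℝ, w = (z * r) →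
    ((((12003 : ℝ) / 1000) * ((1 : ℝ) + ((z * (((23 : ℝ) / 10000) + (((363 : ℝ) / 10000000) * w))) * (((1 : ℝ) + (((1 : ℝ) / 100) * w)))⁻¹))) - (((6003 : ℝ) / 500) * PT)) < 0 := by
  have h := top_ok kLN r (le_trans (by norm_num) h1) (le_trans h2 (by norm_num))
  simp only [gLN, Gl.holds, Tm.ev, List.getD_cons_zero, List.getD_cons_succ, Int.cast_ofNat,
    Nat.cast_ofNat, Int.cast_one, Nat.cast_one, div_one, Int.cast_neg, Int.cast_zero] at h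
  exact h

def gLF : Gl :=
  (.lt (.sub (.c 1 1) (.v 0))
    (.lt (.sq (.v 1))
    (.lt (.mul (.v 0) (.v 2))
    (.lt (.sq (.v 2))
    (.lt (.mul (.v 0) (.v 3))
    (.lt (.sm 23 2500 (.mul (.v 3) (.v 0)))
    (.lt (.sm 2 25 (.mul (.v 3) (.v 2)))
    (.lt (.sm 363 312500 (.mul (.v 4) (.v 5)))
    (.lt (.inv (.add (.v 3) (.sm 2 25 (.v 5))))
    (.lt (.inv (.add (.add (.add (.mul (.v 4) (.v 5)) (.v 3)) (.v 2)) (.v 1)))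
    (.lt (.sm 6 25 (.mul (.v 7) (.v 1)))
    (.lt (.mul (.add (.add (.sm 2 1 (.v 5)) (.sm 3 1 (.v 4))) (.sm 5 1 (.v 3))) (.v 1))
    (.lt (.sub (.v 1) (.v 0))
    (.neg (.sub (.mul (.sq (.sub (.c 9 4) (.sm 3 2 (.v 0)))) (.v 12)) (.sm 91 50 (.v 13)))))))))))))))))

def cLF : List (ℕ × ℕ) :=
  [(10, 0), (10, 0), (11, 0), (11, 0), (11, 0), (12, 0),
   (12, 0), (12, 0), (13, 0), (12, 0)]

theorem kLF : top 42 7 49 gLF cLF 0 = true := by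
  decide +kernel

theorem rLF (x : ℝ) (h1 : (6 : ℝ) / 7 ≤ x) (h2 : x ≤ (1 : ℝ)) :
    ∀ e : ℝ, e = ((1 : ℝ) - x) →
    ∀ x2 : ℝ, x2 = (x ^ 2) →
    ∀ x3 : ℝ, x3 = (x2 * x) →
    ∀ e2 : ℝ, e2 = (e ^ 2) →
    ∀ e3 : ℝ, e3 = (e2 * e) →
    ∀ t2 : ℝ, t2 = (((23 : ℝ) / 2500) * (x2 * e3)) →
    ∀ t3 : ℝ, t3 = (((2 : ℝ) / 25) * (x3 * e2)) →
    ∀ t5 : ℝ, t5 = (((363 : ℝ) / 312500) * (x3 * x2)) →
    ∀ iD : ℝ, iD = ((e3 + (((2 : ℝ) / 25) * x3)))⁻¹ →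
    ∀ iN : ℝ, iN = (((((e3 * e2) + t2) + t3) + t5))⁻¹ →
    ∀ da : ℝ, da = (((6 : ℝ) / 25) * (x3 * iD)) →
    ∀ na : ℝ, na = (((((2 : ℝ) * t2) + ((3 : ℝ) * t3)) + ((5 : ℝ) * t5)) * iN) →
    ∀ lp : ℝ, lp = (da - na) →
    ((((((9 : ℝ) / 4) - (((3 : ℝ) / 2) * lp)) ^ 2) * e) - (((91 : ℝ) / 50) * x)) < 0 := by
  have h := top_ok kLF x (le_trans (by norm_num) h1) (le_trans h2 (by norm_num))
  simp only [gLF, Gl.holds, Tm.ev, List.getD_cons_zero, List.getD_cons_succ, Int.cast_ofNat,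
    Nat.cast_ofNat, Int.cast_one, Nat.cast_one, div_one, Int.cast_neg, Int.cast_zero] at h
  exact h

def gE1 : Gl :=
  (.lt (.sub (.c 1 1) (.v 0))
    (.lt (.sq (.v 1))
    (.lt (.mul (.v 0) (.v 2))
    (.lt (.sq (.v 2))
    (.lt (.mul (.v 0) (.v 3))
    (.lt (.sm 23 2500 (.mul (.v 3) (.v 0)))
    (.lt (.sm 2 25 (.mul (.v 3) (.v 2)))
    (.lt (.sm 363 312500 (.mul (.v 4) (.v 5)))
    (.lt (.inv (.add (.v 3) (.sm 2 25 (.v 5))))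
    (.lt (.inv (.add (.add (.add (.mul (.v 4) (.v 5)) (.v 3)) (.v 2)) (.v 1)))
    (.lt (.sm 6 25 (.mul (.v 7) (.v 1)))
    (.lt (.mul (.add (.add (.sm 2 1 (.v 5)) (.sm 3 1 (.v 4))) (.sm 5 1 (.v 3))) (.v 1))
    (.lt (.sub (.v 1) (.v 0))
    (.lt (.sub (.sub (.sm 3 1 (.v 2)) (.sq (.v 2))) (.sub (.mul (.add (.add (.sm 4 1 (.v 7)) (.sm 9 1 (.v 6))) (.sm 25 1 (.v 5))) (.v 3)) (.sq (.v 1))))
    (.lt (.mul (.sm 2 1 (.v 13)) (.inv (.add (.c 1 1) (.v 13))))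
    (.lt (.sub (.c 18 25) (.sm 13 20 (.sq (.v 0))))
    (.lt (.mul (.sm 13 10 (.mul (.sq (.v 1)) (.sub (.c 1 1) (.v 1)))) (.inv (.v 0)))
    (.lt (.add (.sub (.sm 3 1 (.v 4)) (.c 4 1)) (.v 0))
    (.lt (.sub (.sub (.add (.sub (.sq (.v 0)) (.v 0)) (.sm 3 1 (.v 4))) (.mul (.v 1) (.sub (.c 2 1) (.sm 3 1 (.v 3))))) (.sq (.v 1)))
    (.lt (.add (.c 11447 1000000) (.mul (.v 18) (.add (.c (-4731) 200000) (.mul (.v 18) (.add (.c 669227 500000) (.mul (.v 18) (.add (.c (-3497613) 1000000) (.mul (.v 18) (.add (.c 3940899 1000000) (.mul (.v 18) (.c (-420139) 250000)))))))))))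
    (.lt (.mul (.v 20) (.mul (.v 19) (.add (.c (-4731) 200000) (.mul (.v 19) (.add (.c 669227 250000) (.mul (.v 19) (.add (.c (-10492839) 1000000) (.mul (.v 19) (.add (.c 3940899 250000) (.mul (.v 19) (.c (-420139) 50000)))))))))))
    (.lt (.mul (.v 19) (.mul (.v 20) (.add (.c (-4731) 100000) (.mul (.v 20) (.add (.c 2007681 250000) (.mul (.v 20) (.add (.c (-10492839) 250000) (.mul (.v 20) (.add (.c 3940899 50000) (.mul (.v 20) (.c (-1260417) 25000)))))))))))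
    (.and (.neg (.sm (-1) 1 (.v 2)))
    (.neg (.sub (.c 1 1) (.add (.sub (.mul (.v 2) (.add (.v 3) (.sm 2 1 (.v 4)))) (.sm 2 1 (.mul (.add (.c 1 1) (.v 4)) (.v 1)))) (.v 0)))))))))))))))))))))))))))

def cE1 : List (ℕ × ℕ) :=
  [(9, 0), (9, 0), (9, 0), (8, 0), (8, 0), (8, 0),
   (8, 0), (8, 0), (8, 0), (8, 0), (8, 0), (8, 0),
   (9, 0), (9, 0), (9, 0), (10, 0), (10, 0), (10, 0),
   (10, 0), (10, 0), (10, 0), (10, 0), (10, 0), (10, 0),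
   (9, 0), (9, 0), (9, 0), (9, 0), (9, 0), (9, 0),
   (8, 0), (8, 0), (8, 0), (8, 0), (8, 0), (8, 0),
   (8, 0), (7, 0), (7, 0), (7, 0), (7, 0), (7, 0),
   (7, 0), (7, 0), (7, 0), (7, 0), (7, 0), (7, 0),
   (7, 0), (7, 0), (7, 0), (7, 0), (7, 0), (6, 0),
   (6, 0), (6, 0), (6, 0), (6, 0), (6, 0), (6, 0),
   (6, 0), (6, 0), (6, 0), (6, 0), (6, 0), (6, 0),
   (6, 0), (6, 0), (6, 0), (6, 0), (6, 0), (6, 0),
   (6, 0), (7, 0), (7, 0), (7, 0), (7, 0), (7, 0),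
   (7, 0), (7, 0), (7, 0), (7, 0), (7, 0), (7, 0),
   (7, 0), (7, 0), (7, 0), (7, 0), (7, 0), (7, 0),
   (7, 0), (7, 0), (7, 0), (7, 0), (7, 0), (7, 0),
   (7, 0), (7, 0), (7, 0), (7, 0), (6, 0), (6, 0),
   (6, 0), (6, 0), (6, 0), (6, 0), (6, 0), (6, 0),
   (6, 0), (6, 0), (6, 0), (6, 0), (6, 0), (6, 0),
   (6, 0), (6, 0), (6, 0), (6, 0), (6, 0), (6, 0),
   (6, 0), (6, 0), (6, 0), (6, 0), (6, 0), (6, 0),
   (6, 0), (6, 0), (6, 0), (6, 0), (6, 0), (6, 0),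
   (6, 0), (6, 0), (7, 0), (7, 0), (7, 0), (7, 0),
   (7, 0), (7, 0), (7, 0), (7, 0), (7, 0), (7, 0),
   (7, 0), (7, 0), (7, 0), (7, 0), (7, 0), (7, 0),
   (7, 0), (7, 0), (7, 0), (7, 0), (7, 0), (7, 0),
   (7, 0), (7, 0), (7, 0), (7, 0), (6, 0), (6, 0),
   (6, 0), (6, 0), (6, 0), (6, 0), (7, 0), (7, 0),
   (7, 0), (7, 0), (7, 0)]

theorem kE1 : top 0 1 1 gE1 cE1 0 = true := by
  decide +kernel

theorem rE1 (x : ℝ) (h1 : (0 : ℝ) ≤ x) (h2 : x ≤ (1 : ℝ)) :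
    ∀ e : ℝ, e = ((1 : ℝ) - x) →
    ∀ x2 : ℝ, x2 = (x ^ 2) →
    ∀ x3 : ℝ, x3 = (x2 * x) →
    ∀ e2 : ℝ, e2 = (e ^ 2) →
    ∀ e3 : ℝ, e3 = (e2 * e) →
    ∀ t2 : ℝ, t2 = (((23 : ℝ) / 2500) * (x2 * e3)) →
    ∀ t3 : ℝ, t3 = (((2 : ℝ) / 25) * (x3 * e2)) →
    ∀ t5 : ℝ, t5 = (((363 : ℝ) / 312500) * (x3 * x2)) →
    ∀ iD : ℝ, iD = ((e3 + (((2 : ℝ) / 25) * x3)))⁻¹ →
    ∀ iN : ℝ, iN = (((((e3 * e2) + t2) + t3) + t5))⁻¹ →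
    ∀ da : ℝ, da = (((6 : ℝ) / 25) * (x3 * iD)) →
    ∀ na : ℝ, na = (((((2 : ℝ) * t2) + ((3 : ℝ) * t3)) + ((5 : ℝ) * t5)) * iN) →
    ∀ lp : ℝ, lp = (da - na) →
    ∀ mp : ℝ, mp = ((((3 : ℝ) * da) - (da ^ 2)) - ((((((4 : ℝ) * t2) + ((9 : ℝ) * t3)) + ((25 : ℝ) * t5)) * iN) - (na ^ 2))) →
    ∀ f : ℝ, f = (((2 : ℝ) * e) * (((1 : ℝ) + e))⁻¹) →
    ∀ E1 : ℝ, E1 = (((18 : ℝ) / 25) - (((13 : ℝ) / 20) * (f ^ 2))) →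
    ∀ le : ℝ, le = ((((13 : ℝ) / 10) * ((f ^ 2) * ((1 : ℝ) - f))) * (E1)⁻¹) →
    ∀ l1 : ℝ, l1 = ((((3 : ℝ) * lp) - (4 : ℝ)) + le) →
    ∀ l2 : ℝ, l2 = (((((l1 ^ 2) - l1) + ((3 : ℝ) * mp)) - (le * ((2 : ℝ) - ((3 : ℝ) * f)))) - (le ^ 2)) →
    ∀ pp : ℝ, pp = (((11447 : ℝ) / 1000000) + (e * (((-4731 : ℝ) / 200000) + (e * (((669227 : ℝ) / 500000) + (e * (((-3497613 : ℝ) / 1000000) + (e * (((3940899 : ℝ) / 1000000) + (e * ((-420139 : ℝ) / 250000))))))))))) →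
    ∀ q1 : ℝ, q1 = (x * (e * (((-4731 : ℝ) / 200000) + (e * (((669227 : ℝ) / 250000) + (e * (((-10492839 : ℝ) / 1000000) + (e * (((3940899 : ℝ) / 250000) + (e * ((-420139 : ℝ) / 50000))))))))))) →
    ∀ q2 : ℝ, q2 = (x2 * (e * (((-4731 : ℝ) / 100000) + (e * (((2007681 : ℝ) / 250000) + (e * (((-10492839 : ℝ) / 250000) + (e * (((3940899 : ℝ) / 50000) + (e * ((-1260417 : ℝ) / 25000))))))))))) →
    ((((-1 : ℝ) * pp) < 0) ∧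
    (((1 : ℝ) - (((pp * (l2 + ((2 : ℝ) * l1))) - ((2 : ℝ) * (((1 : ℝ) + l1) * q1))) + q2)) < 0)) := by
  have h := top_ok kE1 x (le_trans (by norm_num) h1) (le_trans h2 (by norm_num))
  simp only [gE1, Gl.holds, Tm.ev, List.getD_cons_zero, List.getD_cons_succ, Int.cast_ofNat,
    Nat.cast_ofNat, Int.cast_one, Nat.cast_one, div_one, Int.cast_neg, Int.cast_zero] at h
  exact h

def gE2 : Gl :=
  (.lt (.sub (.c 1 1) (.v 0))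
    (.lt (.sq (.v 1))
    (.lt (.mul (.v 0) (.v 2))
    (.lt (.sq (.v 2))
    (.lt (.mul (.v 0) (.v 3))
    (.lt (.sm 23 2500 (.mul (.v 3) (.v 0)))
    (.lt (.sm 2 25 (.mul (.v 3) (.v 2)))
    (.lt (.sm 363 312500 (.mul (.v 4) (.v 5)))
    (.lt (.inv (.add (.v 3) (.sm 2 25 (.v 5))))
    (.lt (.inv (.add (.add (.add (.mul (.v 4) (.v 5)) (.v 3)) (.v 2)) (.v 1)))
    (.lt (.sm 6 25 (.mul (.v 7) (.v 1)))
    (.lt (.mul (.add (.add (.sm 2 1 (.v 5)) (.sm 3 1 (.v 4))) (.sm 5 1 (.v 3))) (.v 1))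
    (.lt (.sub (.v 1) (.v 0))
    (.lt (.sub (.sub (.sm 3 1 (.v 2)) (.sq (.v 2))) (.sub (.mul (.add (.add (.sm 4 1 (.v 7)) (.sm 9 1 (.v 6))) (.sm 25 1 (.v 5))) (.v 3)) (.sq (.v 1))))
    (.lt (.add (.sub (.sm 3 1 (.v 1)) (.c 4 1)) (.sm 3 1 (.v 13)))
    (.lt (.sub (.add (.sub (.sq (.v 0)) (.v 0)) (.sm 3 1 (.v 1))) (.sm 3 1 (.mul (.v 15) (.v 14))))
    (.lt (.add (.c 11173 1000000) (.mul (.v 15) (.add (.c (-3993) 500000) (.mul (.v 15) (.add (.c 1096481 1000000) (.mul (.v 15) (.add (.c (-2855919) 1000000) (.mul (.v 15) (.add (.c 3032251 1000000) (.mul (.v 15) (.c (-1232681) 1000000)))))))))))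
    (.lt (.mul (.v 17) (.mul (.v 16) (.add (.c (-3993) 500000) (.mul (.v 16) (.add (.c 1096481 500000) (.mul (.v 16) (.add (.c (-8567757) 1000000) (.mul (.v 16) (.add (.c 3032251 250000) (.mul (.v 16) (.c (-1232681) 200000)))))))))))
    (.lt (.mul (.v 16) (.mul (.v 17) (.add (.c (-3993) 250000) (.mul (.v 17) (.add (.c 3289443 500000) (.mul (.v 17) (.add (.c (-8567757) 250000) (.mul (.v 17) (.add (.c 3032251 50000) (.mul (.v 17) (.c (-3698043) 100000)))))))))))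
    (.and (.neg (.sm (-1) 1 (.v 2)))
    (.neg (.sub (.v 19) (.add (.add (.sub (.mul (.v 2) (.add (.v 3) (.sm 2 1 (.v 4)))) (.sm 2 1 (.mul (.add (.c 1 1) (.v 4)) (.add (.v 1) (.mul (.v 18) (.v 2)))))) (.v 0)) (.sm 2 1 (.mul (.v 18) (.add (.v 1) (.v 2)))))))))))))))))))))))))))

def cE2 : List (ℕ × ℕ) :=
  [(11, 0), (10, 0), (10, 0), (10, 0), (9, 0), (9, 0),
   (9, 0), (9, 0), (9, 0), (9, 0), (9, 0), (9, 0),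
   (9, 0), (9, 0), (9, 0), (9, 0), (9, 0), (9, 0),
   (9, 0), (9, 0), (9, 0), (8, 0), (8, 0), (8, 0),
   (8, 0), (8, 0), (8, 0), (8, 0), (8, 0), (8, 0),
   (8, 0), (8, 0), (8, 0), (8, 0), (8, 0), (8, 0),
   (7, 0), (7, 0), (7, 0), (7, 0), (7, 0), (7, 0),
   (7, 0), (7, 0), (7, 0), (7, 0), (7, 0), (7, 0),
   (7, 0), (7, 0), (7, 0), (7, 0), (7, 0), (7, 0),
   (7, 0), (7, 0), (7, 0), (7, 0), (7, 0), (7, 0),
   (7, 0), (7, 0), (7, 0), (7, 0), (7, 0), (7, 0),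
   (7, 0), (7, 0), (7, 0), (7, 0), (7, 0), (7, 0),
   (7, 0), (7, 0), (7, 0), (7, 0), (7, 0), (7, 0),
   (7, 0), (7, 0), (7, 0), (7, 0), (7, 0), (7, 0),
   (7, 0), (7, 0), (7, 0), (7, 0), (7, 0), (7, 0),
   (7, 0), (7, 0), (7, 0), (7, 0), (7, 0), (7, 0),
   (7, 0), (7, 0), (7, 0), (7, 0), (7, 0), (7, 0),
   (7, 0), (7, 0), (7, 0), (7, 0), (7, 0), (7, 0),
   (6, 0), (6, 0), (6, 0), (6, 0), (6, 0), (6, 0),
   (6, 0), (6, 0), (6, 0), (6, 0), (6, 0), (6, 0),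
   (6, 0), (6, 0), (7, 0), (7, 0), (7, 0), (7, 0),
   (7, 0), (7, 0), (7, 0), (7, 0), (7, 0), (7, 0),
   (7, 0), (7, 0), (8, 0), (8, 0), (8, 0), (8, 0),
   (8, 0), (8, 0), (8, 0), (8, 0), (8, 0), (8, 0),
   (7, 0), (7, 0), (7, 0), (7, 0), (7, 0), (7, 0),
   (7, 0)]

theorem kE2 : top 0 1 1 gE2 cE2 0 = true := by
  decide +kernel

theorem rE2 (x : ℝ) (h1 : (0 : ℝ) ≤ x) (h2 : x ≤ (1 : ℝ)) :
    ∀ e : ℝ, e = ((1 : ℝ) - x) →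
    ∀ x2 : ℝ, x2 = (x ^ 2) →
    ∀ x3 : ℝ, x3 = (x2 * x) →
    ∀ e2 : ℝ, e2 = (e ^ 2) →
    ∀ e3 : ℝ, e3 = (e2 * e) →
    ∀ t2 : ℝ, t2 = (((23 : ℝ) / 2500) * (x2 * e3)) →
    ∀ t3 : ℝ, t3 = (((2 : ℝ) / 25) * (x3 * e2)) →
    ∀ t5 : ℝ, t5 = (((363 : ℝ) / 312500) * (x3 * x2)) →
    ∀ iD : ℝ, iD = ((e3 + (((2 : ℝ) / 25) * x3)))⁻¹ →
    ∀ iN : ℝ, iN = (((((e3 * e2) + t2) + t3) + t5))⁻¹ →
    ∀ da : ℝ, da = (((6 : ℝ) / 25) * (x3 * iD)) →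
    ∀ na : ℝ, na = (((((2 : ℝ) * t2) + ((3 : ℝ) * t3)) + ((5 : ℝ) * t5)) * iN) →
    ∀ lp : ℝ, lp = (da - na) →
    ∀ mp : ℝ, mp = ((((3 : ℝ) * da) - (da ^ 2)) - ((((((4 : ℝ) * t2) + ((9 : ℝ) * t3)) + ((25 : ℝ) * t5)) * iN) - (na ^ 2))) →
    ∀ l1 : ℝ, l1 = ((((3 : ℝ) * lp) - (4 : ℝ)) + ((3 : ℝ) * e)) →
    ∀ l2 : ℝ, l2 = ((((l1 ^ 2) - l1) + ((3 : ℝ) * mp)) - ((3 : ℝ) * (x * e))) →
    ∀ pp : ℝ, pp = (((11173 : ℝ) / 1000000) + (e * (((-3993 : ℝ) / 500000) + (e * (((1096481 : ℝ) / 1000000) + (e * (((-2855919 : ℝ) / 1000000) + (e * (((3032251 : ℝ) / 1000000) + (e * ((-1232681 : ℝ) / 1000000))))))))))) →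
    ∀ q1 : ℝ, q1 = (x * (e * (((-3993 : ℝ) / 500000) + (e * (((1096481 : ℝ) / 500000) + (e * (((-8567757 : ℝ) / 1000000) + (e * (((3032251 : ℝ) / 250000) + (e * ((-1232681 : ℝ) / 200000))))))))))) →
    ∀ q2 : ℝ, q2 = (x2 * (e * (((-3993 : ℝ) / 250000) + (e * (((3289443 : ℝ) / 500000) + (e * (((-8567757 : ℝ) / 250000) + (e * (((3032251 : ℝ) / 50000) + (e * ((-3698043 : ℝ) / 100000))))))))))) →
    ((((-1 : ℝ) * pp) < 0) ∧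
    ((x - ((((pp * (l2 + ((2 : ℝ) * l1))) - ((2 : ℝ) * (((1 : ℝ) + l1) * (q1 + (e * pp))))) + q2) + ((2 : ℝ) * (e * (q1 + pp))))) < 0)) := by
  have h := top_ok kE2 x (le_trans (by norm_num) h1) (le_trans h2 (by norm_num))
  simp only [gE2, Gl.holds, Tm.ev, List.getD_cons_zero, List.getD_cons_succ, Int.cast_ofNat,
    Nat.cast_ofNat, Int.cast_one, Nat.cast_one, div_one, Int.cast_neg, Int.cast_zero] at h
  exact h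

def gE3 : Gl :=
  (.lt (.sub (.c 1 1) (.v 0))
    (.lt (.sq (.v 1))
    (.lt (.mul (.v 0) (.v 2))
    (.lt (.sq (.v 2))
    (.lt (.mul (.v 0) (.v 3))
    (.lt (.sm 23 2500 (.mul (.v 3) (.v 0)))
    (.lt (.sm 2 25 (.mul (.v 3) (.v 2)))
    (.lt (.sm 363 312500 (.mul (.v 4) (.v 5)))
    (.lt (.inv (.add (.v 3) (.sm 2 25 (.v 5))))
    (.lt (.inv (.add (.add (.add (.mul (.v 4) (.v 5)) (.v 3)) (.v 2)) (.v 1)))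
    (.lt (.sm 6 25 (.mul (.v 7) (.v 1)))
    (.lt (.mul (.add (.add (.sm 2 1 (.v 5)) (.sm 3 1 (.v 4))) (.sm 5 1 (.v 3))) (.v 1))
    (.lt (.sub (.v 1) (.v 0))
    (.lt (.sub (.sub (.sm 3 1 (.v 2)) (.sq (.v 2))) (.sub (.mul (.add (.add (.sm 4 1 (.v 7)) (.sm 9 1 (.v 6))) (.sm 25 1 (.v 5))) (.v 3)) (.sq (.v 1))))
    (.lt (.mul (.sm 4 1 (.v 13)) (.inv (.add (.c 1 1) (.sm 3 1 (.v 13)))))
    (.lt (.add (.sub (.sm 3 1 (.v 2)) (.c 4 1)) (.sm 3 1 (.v 0)))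
    (.lt (.sub (.add (.sub (.sq (.v 0)) (.v 0)) (.sm 3 1 (.v 2))) (.sm 3 1 (.mul (.v 1) (.sub (.c 1 1) (.v 1)))))
    (.lt (.add (.c 2329 200000) (.mul (.v 16) (.add (.c (-959) 40000) (.mul (.v 16) (.add (.c 4892 3125) (.mul (.v 16) (.add (.c (-2918807) 1000000) (.mul (.v 16) (.add (.c 1300499 500000) (.mul (.v 16) (.c (-1168897) 1000000)))))))))))
    (.lt (.mul (.v 18) (.mul (.v 17) (.add (.c (-959) 40000) (.mul (.v 17) (.add (.c 9784 3125) (.mul (.v 17) (.add (.c (-8756421) 1000000) (.mul (.v 17) (.add (.c 1300499 125000) (.mul (.v 17) (.c (-1168897) 200000)))))))))))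
    (.lt (.mul (.v 17) (.mul (.v 18) (.add (.c (-959) 20000) (.mul (.v 18) (.add (.c 29352 3125) (.mul (.v 18) (.add (.c (-8756421) 250000) (.mul (.v 18) (.add (.c 1300499 25000) (.mul (.v 18) (.c (-3506691) 100000)))))))))))
    (.and (.neg (.sm (-1) 1 (.v 2)))
    (.neg (.sub (.v 20) (.add (.add (.sub (.mul (.v 2) (.add (.v 3) (.sm 2 1 (.v 4)))) (.sm 2 1 (.mul (.add (.c 1 1) (.v 4)) (.add (.v 1) (.mul (.v 19) (.v 2)))))) (.v 0)) (.sm 2 1 (.mul (.v 19) (.add (.v 1) (.v 2))))))))))))))))))))))))))))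

def cE3 : List (ℕ × ℕ) :=
  [(11, 0), (10, 0), (10, 0), (10, 0), (9, 0), (9, 0),
   (9, 0), (9, 0), (9, 0), (8, 0), (8, 0), (8, 0),
   (8, 0), (8, 0), (9, 0), (9, 0), (9, 0), (9, 0),
   (9, 0), (9, 0), (9, 0), (9, 0), (9, 0), (9, 0),
   (9, 0), (9, 0), (9, 0), (9, 0), (9, 0), (8, 0),
   (8, 0), (8, 0), (8, 0), (8, 0), (8, 0), (8, 0),
   (8, 0), (8, 0), (8, 0), (7, 0), (7, 0), (7, 0),
   (7, 0), (7, 0), (7, 0), (7, 0), (7, 0), (7, 0),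
   (7, 0), (7, 0), (7, 0), (7, 0), (7, 0), (7, 0),
   (7, 0), (7, 0), (7, 0), (6, 0), (6, 0), (6, 0),
   (6, 0), (6, 0), (6, 0), (6, 0), (6, 0), (6, 0),
   (6, 0), (6, 0), (6, 0), (6, 0), (6, 0), (7, 0),
   (7, 0), (7, 0), (7, 0), (7, 0), (7, 0), (7, 0),
   (7, 0), (7, 0), (7, 0), (7, 0), (7, 0), (7, 0),
   (7, 0), (7, 0), (7, 0), (7, 0), (7, 0), (7, 0),
   (7, 0), (7, 0), (7, 0), (7, 0), (7, 0), (7, 0),
   (7, 0), (7, 0), (7, 0), (8, 0), (8, 0), (8, 0),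
   (8, 0), (8, 0), (8, 0), (8, 0), (8, 0), (8, 0),
   (8, 0), (8, 0), (8, 0), (8, 0), (8, 0), (8, 0),
   (8, 0), (8, 0), (8, 0), (8, 0), (8, 0), (8, 0),
   (7, 0), (7, 0), (7, 0), (7, 0), (7, 0), (7, 0),
   (7, 0), (7, 0), (7, 0), (8, 0)]

theorem kE3 : top 0 1 1 gE3 cE3 0 = true := by
  decide +kernel

theorem rE3 (x : ℝ) (h1 : (0 : ℝ) ≤ x) (h2 : x ≤ (1 : ℝ)) :
    ∀ e : ℝ, e = ((1 : ℝ) - x) →
    ∀ x2 : ℝ, x2 = (x ^ 2) →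
    ∀ x3 : ℝ, x3 = (x2 * x) →
    ∀ e2 : ℝ, e2 = (e ^ 2) →
    ∀ e3 : ℝ, e3 = (e2 * e) →
    ∀ t2 : ℝ, t2 = (((23 : ℝ) / 2500) * (x2 * e3)) →
    ∀ t3 : ℝ, t3 = (((2 : ℝ) / 25) * (x3 * e2)) →
    ∀ t5 : ℝ, t5 = (((363 : ℝ) / 312500) * (x3 * x2)) →
    ∀ iD : ℝ, iD = ((e3 + (((2 : ℝ) / 25) * x3)))⁻¹ →
    ∀ iN : ℝ, iN = (((((e3 * e2) + t2) + t3) + t5))⁻¹ →
    ∀ da : ℝ, da = (((6 : ℝ) / 25) * (x3 * iD)) →
    ∀ na : ℝ, na = (((((2 : ℝ) * t2) + ((3 : ℝ) * t3)) + ((5 : ℝ) * t5)) * iN) →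
    ∀ lp : ℝ, lp = (da - na) →
    ∀ mp : ℝ, mp = ((((3 : ℝ) * da) - (da ^ 2)) - ((((((4 : ℝ) * t2) + ((9 : ℝ) * t3)) + ((25 : ℝ) * t5)) * iN) - (na ^ 2))) →
    ∀ f : ℝ, f = (((4 : ℝ) * e) * (((1 : ℝ) + ((3 : ℝ) * e)))⁻¹) →
    ∀ l1 : ℝ, l1 = ((((3 : ℝ) * lp) - (4 : ℝ)) + ((3 : ℝ) * f)) →
    ∀ l2 : ℝ, l2 = ((((l1 ^ 2) - l1) + ((3 : ℝ) * mp)) - ((3 : ℝ) * (f * ((1 : ℝ) - f)))) →
    ∀ pp : ℝ, pp = (((2329 : ℝ) / 200000) + (e * (((-959 : ℝ) / 40000) + (e * (((4892 : ℝ) / 3125) + (e * (((-2918807 : ℝ) / 1000000) + (e * (((1300499 : ℝ) / 500000) + (e * ((-1168897 : ℝ) / 1000000))))))))))) →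
    ∀ q1 : ℝ, q1 = (x * (e * (((-959 : ℝ) / 40000) + (e * (((9784 : ℝ) / 3125) + (e * (((-8756421 : ℝ) / 1000000) + (e * (((1300499 : ℝ) / 125000) + (e * ((-1168897 : ℝ) / 200000))))))))))) →
    ∀ q2 : ℝ, q2 = (x2 * (e * (((-959 : ℝ) / 20000) + (e * (((29352 : ℝ) / 3125) + (e * (((-8756421 : ℝ) / 250000) + (e * (((1300499 : ℝ) / 25000) + (e * ((-3506691 : ℝ) / 100000))))))))))) →
    ((((-1 : ℝ) * pp) < 0) ∧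
    ((x - ((((pp * (l2 + ((2 : ℝ) * l1))) - ((2 : ℝ) * (((1 : ℝ) + l1) * (q1 + (e * pp))))) + q2) + ((2 : ℝ) * (e * (q1 + pp))))) < 0)) := by
  have h := top_ok kE3 x (le_trans (by norm_num) h1) (le_trans h2 (by norm_num))
  simp only [gE3, Gl.holds, Tm.ev, List.getD_cons_zero, List.getD_cons_succ, Int.cast_ofNat,
    Nat.cast_ofNat, Int.cast_one, Nat.cast_one, div_one, Int.cast_neg, Int.cast_zero] at h
  exact h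

end Pool.Agent.P.MP_97b9bc_mp.S
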