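import Pool.Agent.P.MP_97b9bc_mp.S.IfaceB
import Pool.Agent.P.MP_97b9bc_mp.S.KB

/-! Steps NW NI NL V1 V2 V3. -/

set_option autoImplicit false

namespace Pool.Agent.P.MP_97b9bc_mp.S

open Set Filter Topology Pool.Agent.P.MP_97b9bc_mp.T

lemma key_nw {u x S A : ℝ} (hu : 0 < u) (hx : 0 < x) (h1 : u ^ 3 ≤ S) (h2 : 16 / 5 * A ≤ u ^ 2 * x)
    (h3 : S ^ 2 * (x ^ 2 * x) - 4096 / 125 * (A ^ 2 * A) < 0) : False := by
  have hx3 : 0 < x ^ 2 * x := by positivity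
  have h4 : (u ^ 3) ^ 2 ≤ S ^ 2 := pow_le_pow_left₀ (by positivity) h1 2
  have h5 : (u ^ 3) ^ 2 * (x ^ 2 * x) ≤ S ^ 2 * (x ^ 2 * x) := mul_le_mul_of_nonneg_right h4 hx3.le
  have h6 : (16 / 5 * A) ^ 3 ≤ (u ^ 2 * x) ^ 3 := (Odd.pow_le_pow (by decide)).2 h2
  have e1 : (u ^ 2 * x) ^ 3 = (u ^ 3) ^ 2 * (x ^ 2 * x) := by ring
  have e2 : (16 / 5 * A) ^ 3 = 4096 / 125 * (A ^ 2 * A) := by ring
  linarith

theorem p_NW :
    S_NW := by
  intro Q r n t hQ1 hQ2 hr hn ht h1 h2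
  have hr0 : 0 < r := by linarith
  obtain ⟨x, hx⟩ : ∃ x : ℝ, x = 16 / 5 / r := ⟨_, rfl⟩
  have hx0 : 0 < x := by rw [hx]; positivity
  have hx1 : x ≤ 1 := by rw [hx, div_le_one hr0]; exact hr
  have hrx : r = 16 / 5 / x := by rw [hx]; field_simp
  have hrx' : r * x = 16 / 5 := by rw [hx]; field_simp
  obtain ⟨i4, hi⟩ : ∃ i : ℝ, i = (x ^ 2 * x * x + 65536 / 4879681)⁻¹ := ⟨_, rfl⟩
  have hi0 : 0 < i4 := by rw [hi]; positivity
  have hj : jW r = x ^ 2 * x * x * i4 := by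
    rw [hi, hrx]; unfold jW; field_simp; ring
  obtain ⟨nh, hnh⟩ : ∃ a : ℝ, a = 1125 / 256 + 131 / 100 * (x * i4) := ⟨_, rfl⟩
  obtain ⟨sh, hsh⟩ : ∃ a : ℝ,
    a = 3375 / 64 + 131 / 100 * (x * i4 * (1 - jW r) * (20 - 32 * jW r)) := ⟨_, rfl⟩
  have e3 : 1 / r ^ 3 = 125 / 4096 * (x ^ 2 * x) := by rw [hrx]; field_simp; ring
  have hN : nW r = x ^ 2 * x * nh := by
    unfold nW
    rw [hnh, hj, div_eq_mul_one_div 144, e3]; ring
  have hS : r ^ 2 * nW2 r = x ^ 2 * x * sh := by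
    have : r ^ 2 * nW2 r =
        1728 * (1 / r ^ 3) + 131 / 100 * (jW r * (1 - jW r) * (20 - 32 * jW r)) := by
      unfold nW2; field_simp
    rw [this, hsh, e3]
    have e : jW r * (1 - jW r) = x ^ 2 * x * x * i4 * (1 - jW r) := by rw [← hj]
    rw [e]; ring
  have h := rW x hx0.le hx1 _ rfl i4 hi (jW r) hj nh hnh sh hsh (nW r) hN _ rfl
  by_contra hc
  rw [not_lt] at hc
  have hu : 0 < r * t := mul_pos hr0 ht
  have hu3 : (r * t) ^ 3 ≤ x ^ 2 * x * sh := by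
    rw [← hS]
    have := mul_le_mul_of_nonneg_left hc (sq_nonneg r)
    linarith [show (r * t) ^ 3 = r ^ 2 * (r * t ^ 3) by ring]
  have hu2 : 16 / 5 * (n - Q - 5 / 16 * x) ≤ (r * t) ^ 2 * x := by
    have a1 := mul_le_mul_of_nonneg_left h1 (show 0 ≤ r ^ 2 * x by positivity)
    have a2 : r ^ 2 * x * ((n - Q) / r - 1 / r ^ 2) = r * x * (n - Q) - x := by field_simp
    rw [a2, hrx'] at a1
    linarith [show (r * t) ^ 2 * x = r ^ 2 * x * t ^ 2 by ring]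
  rcases h with h | ⟨h3, h4, h5⟩
  · exact key_nw hu hx0 hu3 (by linarith) (h _ rfl)
  · rcases le_total (143 / 100) n with hb | hb
    · exact key_nw hu hx0 hu3 (by linarith) (h3 _ rfl)
    · have hx3 : 0 < x ^ 2 * x := by positivity
      have hN0 : 0 < nW r := by rw [hN, hnh]; positivity
      have a1 : r ^ 2 * t ^ 3 ≤ 5 / 16 * (x ^ 2 * x * x * sh) := by
        have b1 := mul_le_mul_of_nonneg_left hu3 hx0.le
        have b2 : x * (r * t) ^ 3 = r * x * (r ^ 2 * t ^ 3) := by ring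
        rw [b2, hrx'] at b1
        linarith [show x * (x ^ 2 * x * sh) = x ^ 2 * x * x * sh by ring]
      have a2 : 5 / 16 * (x ^ 2 * x * x * sh) < nW r * (9173 / 5000 - nW r) := by
        have b1 := mul_neg_of_pos_of_neg hx3 h4
        have b2 : x ^ 2 * x * (5 / 16 * (x * sh) - nh * (9173 / 5000 - nW r)) =
            5 / 16 * (x ^ 2 * x * x * sh) - x ^ 2 * x * nh * (9173 / 5000 - nW r) := by ring
        rw [b2, ← hN] at b1
        linarith
      have a3 : n * (9173 / 5000 - n) ≤ n * (2 * Q - n) :=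
        mul_le_mul_of_nonneg_left (by linarith) (by linarith)
      rcases le_total (nW r + n) (9173 / 5000) with hd | hd
      · nlinarith [mul_nonneg (sub_nonneg.2 hn.le) (sub_nonneg.2 hd)]
      · nlinarith [mul_nonneg (sub_nonneg.2 hb)
          (show (0 : ℝ) ≤ n + 143 / 100 - 9173 / 5000 by linarith)]

end Pool.Agent.P.MP_97b9bc_mp.S

namespace Pool.Agent.P.MP_97b9bc_mp.S

open Set Filter Topology Pool.Agent.P.MP_97b9bc_mp.T

theorem p_NI (hNB : S_NB) :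
    S_NI := by
  intro r T G τ θ hr0 hr hT1 hT2 hG1 hG2 hτ hθ hθ0 hl
  obtain ⟨-, -, -, -, -, -, -, -, hPG, -⟩ := hNB.1 r hr0.le (by linarith)
  obtain ⟨sg, hsg⟩ : ∃ s : ℝ, s = τ / r := ⟨_, rfl⟩
  have hs0 : 0 < sg := by rw [hsg]; positivity
  have hτs : τ = sg * r := by rw [hsg]; field_simp
  subst hτs
  obtain ⟨p, hp⟩ : ∃ p : ℝ, p = (((4 / 13 * r) ^ 2) ^ 2) ^ 2 := ⟨_, rfl⟩
  have hp8 : (4 / 13 * r) ^ 8 = p := by rw [hp]; ring
  have hp0 : 0 ≤ p := by rw [hp]; positivity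
  have hp1 : p ≤ 1 := by rw [← hp8]; exact pow_le_one₀ (by positivity) (by linarith)
  have hth : θ = 1 - sg * (1 - p) := by rw [hθ]; unfold ph; rw [hp8]; field_simp
  have e1 : sg * r * ph1 r = -(sg * (1 + 7 * p)) / r := by unfold ph1; rw [hp8]; field_simp
  have e2 : sg * r * ph2 r = sg * (2 - 42 * p) / r ^ 2 := by unfold ph2; rw [hp8]; field_simp
  have el : r * -(sg * r * ph1 r) / θ = sg * (1 + 7 * p) * θ⁻¹ := by rw [e1]; field_simp
  rw [el] at hl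
  have hs7 : sg < 7 / 10 := by
    by_contra hc
    rw [not_lt] at hc
    have a1 : 7 / 3 * θ ≤ sg * (1 + 7 * p) := by
      rw [hth]
      nlinarith [mul_nonneg (sub_nonneg.2 hc) hp0, mul_nonneg (sub_nonneg.2 hc) (sub_nonneg.2 hp1)]
    have a2 : 7 / 3 ≤ sg * (1 + 7 * p) * θ⁻¹ := by
      rw [← div_eq_mul_inv, le_div_iff₀ hθ0]; exact a1
    unfold gHi at hG2
    linarith
  refine ⟨mul_lt_mul_of_pos_right hs7 hr0, ?_⟩
  have h := rI r hr0.le hr _ rfl (PT r) (by simp only [PT, pT, ev]; push_cast; ring)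
    (PG r) (by simp only [PG, pG, ev]; push_cast; ring) T
    (by unfold tLo at hT1; rwa [div_eq_mul_inv] at hT1)
    (by unfold tHi at hT2; rwa [div_eq_mul_inv] at hT2) G hG1 hG2 _ rfl _ rfl p hp
    (5190 * dI1 (4 / 13 * r)) (by unfold dI1; rw [hp]; ring)
    (5190 * dI2 (4 / 13 * r)) (by unfold dI2; rw [hp]; ring)
    (1730 * dI3 (4 / 13 * r)) (by unfold dI3; rw [hp]; ring)
    _ rfl _ rfl _ rfl _ rfl _ rfl sg hs0.le hs7.le θ hth _ rfl _ rfl
  rcases h with h | h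
  · linarith
  · have hw : 0 < sg / r ^ 4 := by positivity
    have b := mul_neg_of_pos_of_neg hw h
    have f1 : Dbar (sg * r) r / r = sg / r ^ 4 * (5190 * dI1 (4 / 13 * r) -
        sg * (5190 * dI2 (4 / 13 * r) - sg * (1730 * dI3 (4 / 13 * r)))) := by
      unfold Dbar
      generalize dI1 (4 / 13 * r) = a
      generalize dI2 (4 / 13 * r) = b
      generalize dI3 (4 / 13 * r) = c
      field_simp
      ring
    have f2 : (1 - θ ^ 2) * (T / r ^ 2) ^ 2 = sg / r ^ 4 * ((1 + θ) * ((1 - p) * T ^ 2)) := by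
      have : 1 - θ ^ 2 = sg * (1 - p) * (1 + θ) := by rw [hth]; ring
      rw [this]; field_simp
    have f3 : kin (-G / r) (θ ^ 3) (3 * θ ^ 2 * -(sg * r * ph1 r))
        (6 * θ * (sg * r * ph1 r) ^ 2 - 3 * θ ^ 2 * (sg * r * ph2 r)) =
        -(sg / r ^ 4 * (r ^ 2 * (θ⁻¹ * (3 * (G * (1 + 7 * p)) + 3 - 63 * p -
          3 / 4 * (sg * (1 + 7 * p) * θ⁻¹ * (1 + 7 * p)))))) := by
      rw [e1, e2]; unfold kin; field_simp; ring
    rw [f1, f2, f3]
    linarith [b]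

end Pool.Agent.P.MP_97b9bc_mp.S

namespace Pool.Agent.P.MP_97b9bc_mp.S

open Set Filter Topology Pool.Agent.P.MP_97b9bc_mp.T

theorem p_NL (hNB : S_NB) :
    S_NL := by
  refine ⟨fun r h0 h12 => ?_, fun r h12 => ?_⟩
  · have hT : 0 < PT r := by linarith [(hNB.1 r h0 (by linarith)).1]
    have h := rLN r h0 h12 _ rfl (PT r) (by simp only [PT, pT, ev]; push_cast; ring) _ rfl _ rfl
    have hd := Pd_pos h0
    have hn := Pn_pos h0
    have e1 : (1 : ℝ) + 1 / 100 * (r ^ 2 * r) = Pd r := by unfold Pd; ring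
    have e2 : r ^ 2 * (23 / 10000 + 363 / 10000000 * (r ^ 2 * r)) = Pn r - Pd r := by
      unfold Pn Pd; ring
    rw [e1, e2] at h
    have e3 : 1 + (Pn r - Pd r) * (Pd r)⁻¹ = Pn r / Pd r := by field_simp; ring
    rw [e3] at h
    unfold tHi Tt
    rw [div_le_iff₀ hT]
    have h2 := mul_le_mul_of_nonneg_right (sub_neg.1 h).le (div_pos hd hn).le
    have e4 : 12003 / 1000 * (Pn r / Pd r) * (Pd r / Pn r) = 12003 / 1000 := by field_simp
    rw [e4] at h2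
    linarith
  · have hr : 0 < r := by linarith
    obtain ⟨x0, e0, -, c4, -, -, c7, c8, -⟩ :=
      chart (x := r / (r + 2)) (e := 1 - r / (r + 2)) hr rfl rfl
    have x1 : 6 / 7 ≤ r / (r + 2) := by
      rw [le_div_iff₀ (by linarith)]; linarith
    generalize r / (r + 2) = x at x0 e0 c4 c7 c8 x1
    have h := rLF x x1 (by linarith) _ rfl _ rfl (x ^ 3) (by ring) _ rfl ((1 - x) ^ 3) (by ring)
      _ rfl _ rfl (363 / 312500 * x ^ 5) (by ring) _ rfl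
      (((1 - x) ^ 5 + 23 / 2500 * (x ^ 2 * (1 - x) ^ 3) +
          2 / 25 * (x ^ 3 * (1 - x) ^ 2) + 363 / 312500 * x ^ 5)⁻¹) (by congr 1; ring)
      (ld r) c7 (ln r) (c8 2 3 5) (lp r) rfl
    have h1 : (9 / 4 - 3 / 2 * lp r) ^ 2 * (1 - x) < 91 / 100 * r * (1 - x) := by
      have : 91 / 100 * r * (1 - x) = 91 / 50 * x := by linarith
      linarith
    have h2 := (lt_of_mul_lt_mul_right h1 e0.le).le
    have h3 := Real.le_sqrt_of_sq_le h2
    linarith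

end Pool.Agent.P.MP_97b9bc_mp.S

namespace Pool.Agent.P.MP_97b9bc_mp.S

open Set Filter Topology Pool.Agent.P.MP_97b9bc_mp.T

lemma V1_lim (hORD : S_ORD) {g a : ℝ → ℝ} {B : ℝ} (hg : ∀ r, 1 ≤ r → |g r| ≤ 1)
    (ha : ∀ r, 1 ≤ r → |a r| ≤ B) :
    Tendsto (fun r => r * (Tt r ^ 3 / r ^ 4 * g r) * a r) atTop (𝓝 0) := by
  have h0 : Tendsto (fun r : ℝ => (6003 / 500) ^ 3 * B / r) atTop (𝓝 0) :=
    tendsto_const_nhds.div_atTop tendsto_id
  refine squeeze_zero_norm' ?_ h0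
  filter_upwards [eventually_ge_atTop (1 : ℝ)] with r hr
  have hr0 : 0 < r := by linarith
  obtain ⟨-, -, -, -, t0, t1, -, -⟩ := hORD r hr0
  have e1 : r * (Tt r ^ 3 / r ^ 4 * g r) * a r = Tt r ^ 3 / r ^ 3 * g r * a r := by
    field_simp
  have hB : 0 ≤ B := (abs_nonneg _).trans (ha r hr)
  have h3 : r ≤ r ^ 3 := by nlinarith [mul_nonneg hr0.le (sub_nonneg.2 hr), sq_nonneg r]
  have h4 : Tt r ^ 3 / r ^ 3 ≤ (6003 / 500) ^ 3 / r := by gcongr
  have h5 : 0 ≤ Tt r ^ 3 / r ^ 3 := by positivity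
  rw [e1, Real.norm_eq_abs, abs_mul, abs_mul, abs_of_nonneg h5]
  calc Tt r ^ 3 / r ^ 3 * |g r| * |a r| ≤ (6003 / 500) ^ 3 / r * 1 * B := by
        gcongr
        · exact hg r hr
        · exact ha r hr
    _ = (6003 / 500) ^ 3 * B / r := by ring

lemma V1_E (p : List ℚ) {r x e : ℝ} (hr : 0 < r) (hx : x = r / (r + 2)) (he : e = 2 / (r + 2)) :
    E0 p 2 2 r = ev p e ∧ -(r * E1 p 2 2 r) = x * ev (derA 0 p) e ∧
      r ^ 2 * E2 p 2 2 r = x ^ 2 * ev (derA 1 (derA 0 p)) e := by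
  have h2 : r + 2 ≠ 0 := by positivity
  unfold E0 E1 E2
  rw [← he, hx]
  refine ⟨rfl, ?_, ?_⟩ <;> field_simp

lemma V1_bd (p : List ℚ) {r : ℝ} (hr : 1 ≤ r) : |E0 p 2 2 r| ≤ absb p 1 := by
  unfold E0
  refine abs_ev_le p ?_
  have h2 : 0 < r + 2 := by linarith
  rw [abs_of_nonneg (by positivity), Rat.cast_one, div_le_one h2]
  linarith

lemma V1_hc (r : ℝ) (hr : 0 < r) :
    1 ≤ E0 cA1 2 2 r * (l12 r + 2 * l11 r) + 2 * (1 + l11 r) * (r * E1 cA1 2 2 r) +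
      r ^ 2 * E2 cA1 2 2 r := by
  have hr2 : 0 < r + 2 := by linarith
  obtain ⟨x, hx⟩ : ∃ x, x = r / (r + 2) := ⟨_, rfl⟩
  obtain ⟨e, he⟩ : ∃ e, e = 1 - x := ⟨_, rfl⟩
  obtain ⟨x0, e0, e1, -, -, -, c1, c2, -⟩ := chart hr hx he
  obtain ⟨q0, q1, q2⟩ := V1_E cA1 hr hx e1
  have hr4 : r + 4 ≠ 0 := by positivity
  have h := (rE1 x x0.le (by linarith) e he (x ^ 2) rfl (x ^ 3) (by ring) (e ^ 2) rfl
    (e ^ 3) (by ring) _ rfl _ rfl (363 / 312500 * x ^ 5) (by ring) _ rfl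
    (e ^ 5 + 23 / 2500 * (x ^ 2 * e ^ 3) + 2 / 25 * (x ^ 3 * e ^ 2) + 363 / 312500 * x ^ 5)⁻¹
    (by rw [show e ^ 3 * e ^ 2 = e ^ 5 by ring]) (ld r) c1 (ln r) (c2 2 3 5) (lp r) rfl
    (mp r) (by rw [← c2 4 9 25]; rfl)
    (4 / (r + 4)) (by rw [e1]; field_simp; ring) (1 - chi r) (by unfold chi; ring)
    (le r) (by unfold le chi1; rw [div_eq_mul_inv _ (1 - chi r)]; congr 1; field_simp; ring)
    (l11 r) rfl (l12 r) rfl
    (E0 cA1 2 2 r) (by rw [q0]; simp only [cA1, ev]; push_cast; ring)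
    (-(r * E1 cA1 2 2 r)) (by rw [q1]; simp only [cA1, ev, derA]; push_cast; ring)
    (r ^ 2 * E2 cA1 2 2 r) (by rw [q2]; simp only [cA1, ev, derA]; push_cast; ring)).2
  linarith

theorem p_V1 (hORD : S_ORD) :
    S_V1 := by
  have hp : ∀ r, 0 < r → 0 < 1 - chi r := fun r hr => by
    have := (hORD r hr).2.2.2.2.2.2.2
    linarith
  have hM : LJ M1 l11 (fun r => 3 * mp r - le r * (2 - 3 * (4 / (r + 4))) - le r ^ 2) := by
    refine (((lj_Tt.pow 2).div (LJ.id'.pow 3)).mul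
      (LJ.of_j2 ((J2.const 1).sub j2_chi) hp)).congr (fun r _ => rfl) (fun r _ => ?_)
      (fun r hr => ?_)
    · unfold l11 le
      push_cast
      ring
    · have hr4 : r + 4 ≠ 0 := by positivity
      have h1 : r * (0 - chi1 r) + r ^ 2 * (0 - chi2 r) =
          r * chi1 r * (2 - 3 * (4 / (r + 4))) := by
        unfold chi1 chi2
        field_simp
        ring
      rw [h1]
      unfold le
      push_cast
      ring
  refine good_of hM (j2_E cA1 2 (d := 2) (by norm_num)) (fun r _ => by unfold l12; ring)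
    V1_hc ?_
  refine V1_lim hORD (g := fun r => 1 - chi r) (fun r hr => ?_) (fun r hr => V1_bd cA1 hr)
  have h1 := hORD r (by linarith)
  rw [abs_of_pos (hp r (by linarith))]
  linarith [h1.2.2.2.2.2.2.1]

end Pool.Agent.P.MP_97b9bc_mp.S

namespace Pool.Agent.P.MP_97b9bc_mp.S

open Set Filter Topology Pool.Agent.P.MP_97b9bc_mp.T

lemma V2_lim (hORD : S_ORD) {g a : ℝ → ℝ} {B : ℝ} (hg : ∀ r, 1 ≤ r → |g r| ≤ 1)
    (ha : ∀ r, 1 ≤ r → |a r| ≤ B) :
    Tendsto (fun r => r * (Tt r ^ 3 / r ^ 4 * g r) * a r) atTop (𝓝 0) := by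
  have h0 : Tendsto (fun r : ℝ => (6003 / 500) ^ 3 * B / r) atTop (𝓝 0) :=
    tendsto_const_nhds.div_atTop tendsto_id
  refine squeeze_zero_norm' ?_ h0
  filter_upwards [eventually_ge_atTop (1 : ℝ)] with r hr
  have hr0 : 0 < r := by linarith
  obtain ⟨-, -, -, -, t0, t1, -, -⟩ := hORD r hr0
  have e1 : r * (Tt r ^ 3 / r ^ 4 * g r) * a r = Tt r ^ 3 / r ^ 3 * g r * a r := by
    field_simp
  have hB : 0 ≤ B := (abs_nonneg _).trans (ha r hr)
  have h3 : r ≤ r ^ 3 := by nlinarith [mul_nonneg hr0.le (sub_nonneg.2 hr), sq_nonneg r]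
  have h4 : Tt r ^ 3 / r ^ 3 ≤ (6003 / 500) ^ 3 / r := by gcongr
  have h5 : 0 ≤ Tt r ^ 3 / r ^ 3 := by positivity
  rw [e1, Real.norm_eq_abs, abs_mul, abs_mul, abs_of_nonneg h5]
  calc Tt r ^ 3 / r ^ 3 * |g r| * |a r| ≤ (6003 / 500) ^ 3 / r * 1 * B := by
        gcongr
        · exact hg r hr
        · exact ha r hr
    _ = (6003 / 500) ^ 3 * B / r := by ring

lemma V2_E (p : List ℚ) {r x e : ℝ} (hr : 0 < r) (hx : x = r / (r + 2)) (he : e = 2 / (r + 2)) :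
    E0 p 2 2 r = ev p e ∧ -(r * E1 p 2 2 r) = x * ev (derA 0 p) e ∧
      r ^ 2 * E2 p 2 2 r = x ^ 2 * ev (derA 1 (derA 0 p)) e := by
  have h2 : r + 2 ≠ 0 := by positivity
  unfold E0 E1 E2
  rw [← he, hx]
  refine ⟨rfl, ?_, ?_⟩ <;> field_simp

lemma V2_bd (p : List ℚ) {r : ℝ} (hr : 1 ≤ r) : |E0 p 2 2 r| ≤ absb p 1 := by
  unfold E0
  refine abs_ev_le p ?_
  have h2 : 0 < r + 2 := by linarith
  rw [abs_of_nonneg (by positivity), Rat.cast_one, div_le_one h2]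
  linarith

lemma V2_inv : J2 (fun r : ℝ => 1 + 2 / r) (fun r => -2 / r ^ 2) (fun r => 4 / r ^ 3) :=
  (j2_E [1, 1] 2 (d := 0) le_rfl).congr
    (fun r _ => by simp only [E0, ev, add_zero]; push_cast; ring)
    (fun r _ => by simp only [E1, ev, derA, add_zero]; push_cast; ring)
    (fun r _ => by simp only [E2, ev, derA, add_zero]; push_cast; ring)

lemma V2_hc (r : ℝ) (hr : 0 < r) :
    1 ≤ (1 + 2 / r) * E0 cA2 2 2 r * (l22 r + 2 * l21 r) +
      2 * (1 + l21 r) * (r * (-2 / r ^ 2 * E0 cA2 2 2 r + (1 + 2 / r) * E1 cA2 2 2 r)) +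
      r ^ 2 * (4 / r ^ 3 * E0 cA2 2 2 r + 2 * (-2 / r ^ 2 * E1 cA2 2 2 r) +
        (1 + 2 / r) * E2 cA2 2 2 r) := by
  have hr2 : 0 < r + 2 := by linarith
  obtain ⟨x, hx⟩ : ∃ x, x = r / (r + 2) := ⟨_, rfl⟩
  obtain ⟨e, he⟩ : ∃ e, e = 1 - x := ⟨_, rfl⟩
  obtain ⟨x0, e0, e1, -, -, -, c1, c2, -⟩ := chart hr hx he
  obtain ⟨q0, q1, q2⟩ := V2_E cA2 hr hx e1
  have h := (rE2 x x0.le (by linarith) e he (x ^ 2) rfl (x ^ 3) (by ring) (e ^ 2) rfl
    (e ^ 3) (by ring) _ rfl _ rfl (363 / 312500 * x ^ 5) (by ring) _ rfl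
    (e ^ 5 + 23 / 2500 * (x ^ 2 * e ^ 3) + 2 / 25 * (x ^ 3 * e ^ 2) + 363 / 312500 * x ^ 5)⁻¹
    (by rw [show e ^ 3 * e ^ 2 = e ^ 5 by ring]) (ld r) c1 (ln r) (c2 2 3 5) (lp r) rfl
    (mp r) (by rw [← c2 4 9 25]; rfl)
    (l21 r) (by unfold l21; rw [← e1]) (l22 r) (by unfold l22; rw [← e1, ← hx])
    (E0 cA2 2 2 r) (by rw [q0]; simp only [cA2, ev]; push_cast; ring)
    (-(r * E1 cA2 2 2 r)) (by rw [q1]; simp only [cA2, ev, derA]; push_cast; ring)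
    (r ^ 2 * E2 cA2 2 2 r) (by rw [q2]; simp only [cA2, ev, derA]; push_cast; ring)).2
  refine le_of_mul_le_mul_left ?_ x0
  generalize E0 cA2 2 2 r = P at h ⊢
  generalize E1 cA2 2 2 r = A at h ⊢
  generalize E2 cA2 2 2 r = B at h ⊢
  generalize l21 r = u at h ⊢
  generalize l22 r = v at h ⊢
  have id1 : x * ((1 + 2 / r) * P * (v + 2 * u) +
      2 * (1 + u) * (r * (-2 / r ^ 2 * P + (1 + 2 / r) * A)) +
      r ^ 2 * (4 / r ^ 3 * P + 2 * (-2 / r ^ 2 * A) + (1 + 2 / r) * B)) =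
      P * (v + 2 * u) - 2 * ((1 + u) * (-(r * A) + e * P)) + r ^ 2 * B +
        2 * (e * (-(r * A) + P)) := by
    rw [e1, hx]
    field_simp
    ring
  rw [id1]
  linarith

theorem p_V2 (hORD : S_ORD) :
    S_V2 := by
  have hM : LJ M2 l21 (fun r => 3 * mp r - 3 * (2 / (r + 2) * (1 - 2 / (r + 2)))) := by
    refine (((lj_Tt.pow 2).div (LJ.id'.pow 3)).mul
      (((LJ.const (c := 4 / 5) (by norm_num)).mul
        (LJ.frac (d := 2) (by norm_num))).pow 2)).congr (fun r _ => rfl) (fun r _ => ?_)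
      (fun r _ => ?_)
    · unfold l21
      push_cast
      ring
    · push_cast
      ring
  refine good_of hM (V2_inv.mul (j2_E cA2 2 (d := 2) (by norm_num))) (fun r hr => ?_)
    V2_hc ?_
  · have h2 : r + 2 ≠ 0 := by positivity
    have h3 : 1 - 2 / (r + 2) = r / (r + 2) := by field_simp; ring
    rw [h3]
    unfold l22
    ring
  · refine V2_lim hORD (g := fun r => (4 / 5 * (r / (r + 2))) ^ 3)
      (a := fun r => (1 + 2 / r) * E0 cA2 2 2 r) (B := 3 * (absb cA2 1 : ℝ))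
      (fun r hr => ?_) (fun r hr => ?_)
    · have h0 : 0 < r := by linarith
      have h1 : r / (r + 2) ≤ 1 := by
        rw [div_le_one (by linarith)]
        linarith
      have h2 : 0 ≤ r / (r + 2) := by positivity
      rw [abs_of_nonneg (by positivity)]
      exact pow_le_one₀ (by positivity) (by linarith)
    · have h0 : 0 < r := by linarith
      have h1 : 2 / r ≤ 2 := by
        rw [div_le_iff₀ h0]
        linarith
      rw [abs_mul, abs_of_nonneg (by positivity)]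
      exact mul_le_mul (by linarith) (V2_bd cA2 hr) (abs_nonneg _) (by norm_num)

end Pool.Agent.P.MP_97b9bc_mp.S

namespace Pool.Agent.P.MP_97b9bc_mp.S

open Set Filter Topology Pool.Agent.P.MP_97b9bc_mp.T

lemma V3_lim (hORD : S_ORD) {g a : ℝ → ℝ} {B : ℝ} (hg : ∀ r, 1 ≤ r → |g r| ≤ 1)
    (ha : ∀ r, 1 ≤ r → |a r| ≤ B) :
    Tendsto (fun r => r * (Tt r ^ 3 / r ^ 4 * g r) * a r) atTop (𝓝 0) := by
  have h0 : Tendsto (fun r : ℝ => (6003 / 500) ^ 3 * B / r) atTop (𝓝 0) :=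
    tendsto_const_nhds.div_atTop tendsto_id
  refine squeeze_zero_norm' ?_ h0
  filter_upwards [eventually_ge_atTop (1 : ℝ)] with r hr
  have hr0 : 0 < r := by linarith
  obtain ⟨-, -, -, -, t0, t1, -, -⟩ := hORD r hr0
  have e1 : r * (Tt r ^ 3 / r ^ 4 * g r) * a r = Tt r ^ 3 / r ^ 3 * g r * a r := by
    field_simp
  have hB : 0 ≤ B := (abs_nonneg _).trans (ha r hr)
  have h3 : r ≤ r ^ 3 := by nlinarith [mul_nonneg hr0.le (sub_nonneg.2 hr), sq_nonneg r]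
  have h4 : Tt r ^ 3 / r ^ 3 ≤ (6003 / 500) ^ 3 / r := by gcongr
  have h5 : 0 ≤ Tt r ^ 3 / r ^ 3 := by positivity
  rw [e1, Real.norm_eq_abs, abs_mul, abs_mul, abs_of_nonneg h5]
  calc Tt r ^ 3 / r ^ 3 * |g r| * |a r| ≤ (6003 / 500) ^ 3 / r * 1 * B := by
        gcongr
        · exact hg r hr
        · exact ha r hr
    _ = (6003 / 500) ^ 3 * B / r := by ring

lemma V3_E (p : List ℚ) {r x e : ℝ} (hr : 0 < r) (hx : x = r / (r + 2)) (he : e = 2 / (r + 2)) :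
    E0 p 2 2 r = ev p e ∧ -(r * E1 p 2 2 r) = x * ev (derA 0 p) e ∧
      r ^ 2 * E2 p 2 2 r = x ^ 2 * ev (derA 1 (derA 0 p)) e := by
  have h2 : r + 2 ≠ 0 := by positivity
  unfold E0 E1 E2
  rw [← he, hx]
  refine ⟨rfl, ?_, ?_⟩ <;> field_simp

lemma V3_bd (p : List ℚ) {r : ℝ} (hr : 1 ≤ r) : |E0 p 2 2 r| ≤ absb p 1 := by
  unfold E0
  refine abs_ev_le p ?_
  have h2 : 0 < r + 2 := by linarith
  rw [abs_of_nonneg (by positivity), Rat.cast_one, div_le_one h2]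
  linarith

lemma V3_inv : J2 (fun r : ℝ => 1 + 2 / r) (fun r => -2 / r ^ 2) (fun r => 4 / r ^ 3) :=
  (j2_E [1, 1] 2 (d := 0) le_rfl).congr
    (fun r _ => by simp only [E0, ev, add_zero]; push_cast; ring)
    (fun r _ => by simp only [E1, ev, derA, add_zero]; push_cast; ring)
    (fun r _ => by simp only [E2, ev, derA, add_zero]; push_cast; ring)

lemma V3_hc (r : ℝ) (hr : 0 < r) :
    1 ≤ (1 + 2 / r) * E0 cA3 2 2 r * (l32 r + 2 * l31 r) +
      2 * (1 + l31 r) * (r * (-2 / r ^ 2 * E0 cA3 2 2 r + (1 + 2 / r) * E1 cA3 2 2 r)) +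
      r ^ 2 * (4 / r ^ 3 * E0 cA3 2 2 r + 2 * (-2 / r ^ 2 * E1 cA3 2 2 r) +
        (1 + 2 / r) * E2 cA3 2 2 r) := by
  have hr2 : 0 < r + 2 := by linarith
  obtain ⟨x, hx⟩ : ∃ x, x = r / (r + 2) := ⟨_, rfl⟩
  obtain ⟨e, he⟩ : ∃ e, e = 1 - x := ⟨_, rfl⟩
  obtain ⟨x0, e0, e1, -, -, -, c1, c2, -⟩ := chart hr hx he
  obtain ⟨q0, q1, q2⟩ := V3_E cA3 hr hx e1
  have h := (rE3 x x0.le (by linarith) e he (x ^ 2) rfl (x ^ 3) (by ring) (e ^ 2) rfl
    (e ^ 3) (by ring) _ rfl _ rfl (363 / 312500 * x ^ 5) (by ring) _ rfl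
    (e ^ 5 + 23 / 2500 * (x ^ 2 * e ^ 3) + 2 / 25 * (x ^ 3 * e ^ 2) + 363 / 312500 * x ^ 5)⁻¹
    (by rw [show e ^ 3 * e ^ 2 = e ^ 5 by ring]) (ld r) c1 (ln r) (c2 2 3 5) (lp r) rfl
    (mp r) (by rw [← c2 4 9 25]; rfl)
    (8 / (r + 8)) (by rw [e1]; field_simp; ring) (l31 r) rfl (l32 r) rfl
    (E0 cA3 2 2 r) (by rw [q0]; simp only [cA3, ev]; push_cast; ring)
    (-(r * E1 cA3 2 2 r)) (by rw [q1]; simp only [cA3, ev, derA]; push_cast; ring)
    (r ^ 2 * E2 cA3 2 2 r) (by rw [q2]; simp only [cA3, ev, derA]; push_cast; ring)).2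
  refine le_of_mul_le_mul_left ?_ x0
  generalize E0 cA3 2 2 r = P at h ⊢
  generalize E1 cA3 2 2 r = A at h ⊢
  generalize E2 cA3 2 2 r = B at h ⊢
  generalize l31 r = u at h ⊢
  generalize l32 r = v at h ⊢
  have id1 : x * ((1 + 2 / r) * P * (v + 2 * u) +
      2 * (1 + u) * (r * (-2 / r ^ 2 * P + (1 + 2 / r) * A)) +
      r ^ 2 * (4 / r ^ 3 * P + 2 * (-2 / r ^ 2 * A) + (1 + 2 / r) * B)) =
      P * (v + 2 * u) - 2 * ((1 + u) * (-(r * A) + e * P)) + r ^ 2 * B +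
        2 * (e * (-(r * A) + P)) := by
    rw [e1, hx]
    field_simp
    ring
  rw [id1]
  linarith

theorem p_V3 (hORD : S_ORD) :
    S_V3 := by
  have hM : LJ M3 l31 (fun r => 3 * mp r - 3 * (8 / (r + 8) * (1 - 8 / (r + 8)))) := by
    refine (((lj_Tt.pow 2).div (LJ.id'.pow 3)).mul
      (((LJ.const (c := 18 / 25) (by norm_num)).mul
        (LJ.frac (d := 8) (by norm_num))).pow 2)).congr (fun r _ => rfl) (fun r _ => ?_)
      (fun r _ => ?_)
    · unfold l31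
      push_cast
      ring
    · push_cast
      ring
  refine good_of hM (V3_inv.mul (j2_E cA3 2 (d := 2) (by norm_num))) (fun r hr => ?_)
    V3_hc ?_
  · unfold l32
    ring
  · refine V3_lim hORD (g := fun r => (18 / 25 * (r / (r + 8))) ^ 3)
      (a := fun r => (1 + 2 / r) * E0 cA3 2 2 r) (B := 3 * (absb cA3 1 : ℝ))
      (fun r hr => ?_) (fun r hr => ?_)
    · have h0 : 0 < r := by linarith
      have h1 : r / (r + 8) ≤ 1 := by
        rw [div_le_one (by linarith)]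
        linarith
      have h2 : 0 ≤ r / (r + 8) := by positivity
      rw [abs_of_nonneg (by positivity)]
      exact pow_le_one₀ (by positivity) (by linarith)
    · have h0 : 0 < r := by linarith
      have h1 : 2 / r ≤ 2 := by
        rw [div_le_iff₀ h0]
        linarith
      rw [abs_mul, abs_of_nonneg (by positivity)]
      exact mul_le_mul (by linarith) (V3_bd cA3 hr) (abs_nonneg _) (by norm_num)

end Pool.Agent.P.MP_97b9bc_mp.S
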