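import Pool.Agent.P.MP_97b9bc_mp.S.IAS

/-! Kernel checks. -/

set_option autoImplicit false

namespace Pool.Agent.P.MP_97b9bc_mp.S

def gE12 : Gl :=
  (.lt (.sub (.c 1 1) (.v 0))
    (.lt (.sq (.v 1))
    (.lt (.mul (.v 0) (.v 2))
    (.lt (.sq (.v 2))
    (.lt (.mul (.v 0) (.v 3))
    (.lt (.sm 23 2500 (.mul (.v 3) (.v 0)))
    (.lt (.sm 2 25 (.mul (.v 3) (.v 2)))
    (.lt (.sm 363 312500 (.mul (.v 4) (.v 5)))
    (.lt (.inv (.add (.v 3) (.sm 2 25 (.v 5))))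
    (.lt (.inv (.add (.add (.add (.mul (.v 4) (.v 5)) (.v 3)) (.v 2)) (.v 1)))
    (.lt (.sm 6 25 (.mul (.v 7) (.v 1)))
    (.lt (.mul (.add (.add (.sm 2 1 (.v 5)) (.sm 3 1 (.v 4))) (.sm 5 1 (.v 3))) (.v 1))
    (.lt (.sub (.v 1) (.v 0))
    (.lt (.sub (.sub (.sm 3 1 (.v 2)) (.sq (.v 2))) (.sub (.mul (.add (.add (.sm 4 1 (.v 7)) (.sm 9 1 (.v 6))) (.sm 25 1 (.v 5))) (.v 3)) (.sq (.v 1))))
    (.lt (.sm 6003 500 (.mul (.mul (.add (.v 9) (.sm 2 25 (.v 11))) (.v 10)) (.v 4)))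
    (.lt (.mul (.sm 2 1 (.v 14)) (.inv (.add (.c 1 1) (.v 14))))
    (.lt (.sub (.c 18 25) (.sm 13 20 (.sq (.v 0))))
    (.lt (.mul (.sm 13 10 (.mul (.sq (.v 1)) (.sub (.c 1 1) (.v 1)))) (.inv (.v 0)))
    (.lt (.add (.sub (.sm 3 1 (.v 5)) (.c 4 1)) (.v 0))
    (.lt (.sub (.sub (.add (.sub (.sq (.v 0)) (.v 0)) (.sm 3 1 (.v 5))) (.mul (.v 1) (.sub (.c 2 1) (.sm 3 1 (.v 3))))) (.sq (.v 1)))
    (.lt (.add (.sub (.sm 3 1 (.v 7)) (.c 4 1)) (.sm 3 1 (.v 19)))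
    (.lt (.sub (.add (.sub (.sq (.v 0)) (.v 0)) (.sm 3 1 (.v 7))) (.sm 3 1 (.mul (.v 21) (.v 20))))
    (.lt (.sm 2 5 (.mul (.v 21) (.v 7)))
    (.lt (.sm 2 1 (.mul (.sq (.v 0)) (.v 0)))
    (.lt (.mul (.v 0) (.add (.c 11447 1000000) (.mul (.v 23) (.add (.c (-4731) 200000) (.mul (.v 23) (.add (.c 669227 500000) (.mul (.v 23) (.add (.c (-3497613) 1000000) (.mul (.v 23) (.add (.c 3940899 1000000) (.mul (.v 23) (.c (-420139) 250000))))))))))))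
    (.lt (.mul (.v 25) (.v 0))
    (.lt (.mul (.v 2) (.add (.c 11173 1000000) (.mul (.v 25) (.add (.c (-3993) 500000) (.mul (.v 25) (.add (.c 1096481 1000000) (.mul (.v 25) (.add (.c (-2855919) 1000000) (.mul (.v 25) (.add (.c 3032251 1000000) (.mul (.v 25) (.c (-1232681) 1000000))))))))))))
    (.lt (.mul (.sm 64 125 (.v 24)) (.inv (.v 10)))
    (.lt (.inv (.sub (.c 1 1) (.v 0)))
    (.lt (.sub (.v 10) (.v 8))
    (.lt (.sm 1 2 (.mul (.v 29) (.sub (.v 10) (.v 8))))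
    (.lt (.sub (.sm 1 2 (.mul (.v 30) (.v 9))) (.sm 9173 5000 (.v 31)))
    (.lt (.mul (.v 31) (.sq (.v 9)))
    (.lt (.sm 1 4 (.v 32))
    (.sy (.sm 8 9 (.v 34)) (.c 1 1)
    (.lt (.mul (.sq (.v 0)) (.v 0))
    (.or (.neg (.sub (.v 0) (.v 8)))
    (.lt (.mul (.sub (.c 1 1) (.v 0)) (.v 7))
    (.lt (.sub (.mul (.sq (.v 2)) (.sub (.add (.v 5) (.mul (.v 0) (.v 6))) (.mul (.v 3) (.sq (.add (.v 16) (.mul (.v 0) (.v 7))))))) (.v 4))
    (.or (.neg (.add (.v 0) (.mul (.add (.v 11) (.mul (.v 1) (.sub (.v 12) (.v 11)))) (.inv (.v 3)))))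
    (.and (.neg (.sub (.v 21) (.c 2744 15625)))
    (.neg (.add (.add (.v 0) (.sm 7 10 (.v 13))) (.mul (.sq (.v 3)) (.mul (.v 11) (.v 9))))))))))))))))))))))))))))))))))))))))))))))

def cE12 : List (ℕ × ℕ) :=
  [(10, 56797), (10, 56797), (10, 839133), (9, 56797), (9, 56797), (9, 56797),
   (9, 56797), (8, 46118325163), (8, 46118325163), (8, 46118325163), (8, 46118325163), (8, 46118325163),
   (8, 46118325163), (8, 46118325163), (8, 46118325163), (8, 10638060136875), (8, 10638060136875), (8, 10638060136875),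
   (8, 10638060136875), (8, 14539963), (8, 908748), (8, 908748), (8, 198040764), (8, 198040764),
   (8, 2900216748), (8, 605016533388), (8, 605016533388), (8, 605016533388), (8, 543154199167862668), (8, 42108500636),
   (8, 42108500636), (8, 475901466362017436), (8, 34247441274996636), (7, 908748), (7, 908748), (7, 908748),
   (7, 908748), (7, 198040764), (7, 198040764), (7, 198040764), (7, 198040764), (7, 198040764),
   (7, 198040764), (7, 198040764), (7, 198040764), (7, 198040764), (7, 198040764), (7, 198040764),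
   (7, 198040764), (7, 198040764), (7, 198040764), (7, 198040764), (7, 198040764), (7, 198040764),
   (7, 908748), (7, 908748), (7, 908748), (7, 908748), (7, 908748), (7, 908748),
   (7, 908748), (7, 908748), (7, 908748), (7, 908748), (7, 908748), (7, 908748),
   (7, 908748), (7, 908748), (7, 908748), (7, 908748), (7, 908748), (7, 908748),
   (7, 908748), (7, 908748), (7, 908748), (7, 908748), (7, 908748), (7, 908748),
   (7, 908748), (7, 908748), (7, 908748), (7, 908748), (7, 908748), (7, 908748),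
   (7, 908748), (7, 908748), (7, 908748), (7, 908748), (7, 908748), (7, 908748),
   (7, 13491404), (7, 14535884), (7, 14535884), (7, 14535884), (7, 14535884), (7, 14535884),
   (7, 14535884), (7, 14535884), (7, 14535884), (7, 14535884), (7, 14535884), (7, 14535884),
   (7, 14535884), (7, 14535884), (7, 14535884), (7, 14535884), (7, 14535884), (7, 14535884),
   (7, 14535884), (7, 14535884), (7, 14535884), (7, 14535884), (7, 13491404), (7, 13491404),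
   (7, 13491404), (7, 13491404), (7, 13491404), (7, 13491404), (7, 13491404), (7, 13491404),
   (7, 13491404), (7, 13491404), (7, 13491404), (7, 13491404), (7, 13491404), (7, 13491404),
   (7, 13491404), (7, 13491404), (7, 13491404), (7, 13491404), (7, 198040779), (7, 198040779),
   (7, 198040779), (7, 215862459), (7, 215862459), (7, 14539963), (7, 14539963), (7, 14539963),
   (7, 14539963), (7, 14539963), (7, 14539963), (7, 12443083), (7, 12443083), (7, 12443083),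
   (7, 12443083), (7, 781771), (7, 781771), (7, 781771), (7, 843228), (7, 52956),
   (7, 52956), (7, 52956), (7, 52956), (7, 52956), (7, 3565), (7, 3565),
   (7, 3565), (7, 3565), (7, 3565), (7, 3565), (7, 3565), (7, 3565),
   (7, 3565), (7, 238), (7, 238), (7, 238), (7, 238), (7, 238),
   (7, 238), (7, 238), (7, 238), (7, 238), (7, 15), (7, 15),
   (8, 781771), (8, 238), (8, 238), (8, 15), (8, 15), (9, 3565),
   (9, 15), (9, 15), (7, 15)]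

theorem kE12 : top 0 1 1 gE12 cE12 0 = true := by
  decide +kernel

theorem rE12 (x : ℝ) (h1 : (0 : ℝ) ≤ x) (h2 : x ≤ (1 : ℝ)) :
    ∀ e : ℝ, e = ((1 : ℝ) - x) →
    ∀ x2 : ℝ, x2 = (x ^ 2) →
    ∀ x3 : ℝ, x3 = (x2 * x) →
    ∀ e2 : ℝ, e2 = (e ^ 2) →
    ∀ e3 : ℝ, e3 = (e2 * e) →
    ∀ t2 : ℝ, t2 = (((23 : ℝ) / 2500) * (x2 * e3)) →
    ∀ t3 : ℝ, t3 = (((2 : ℝ) / 25) * (x3 * e2)) →
    ∀ t5 : ℝ, t5 = (((363 : ℝ) / 312500) * (x3 * x2)) →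
    ∀ iD : ℝ, iD = ((e3 + (((2 : ℝ) / 25) * x3)))⁻¹ →
    ∀ iN : ℝ, iN = (((((e3 * e2) + t2) + t3) + t5))⁻¹ →
    ∀ da : ℝ, da = (((6 : ℝ) / 25) * (x3 * iD)) →
    ∀ na : ℝ, na = (((((2 : ℝ) * t2) + ((3 : ℝ) * t3)) + ((5 : ℝ) * t5)) * iN) →
    ∀ lp : ℝ, lp = (da - na) →
    ∀ mp : ℝ, mp = ((((3 : ℝ) * da) - (da ^ 2)) - ((((((4 : ℝ) * t2) + ((9 : ℝ) * t3)) + ((25 : ℝ) * t5)) * iN) - (na ^ 2))) →
    ∀ Tt : ℝ, Tt = (((6003 : ℝ) / 500) * (((e3 + (((2 : ℝ) / 25) * x3)) * e2) * iN)) →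
    ∀ f : ℝ, f = (((2 : ℝ) * e) * (((1 : ℝ) + e))⁻¹) →
    ∀ E1 : ℝ, E1 = (((18 : ℝ) / 25) - (((13 : ℝ) / 20) * (f ^ 2))) →
    ∀ le : ℝ, le = ((((13 : ℝ) / 10) * ((f ^ 2) * ((1 : ℝ) - f))) * (E1)⁻¹) →
    ∀ a1 : ℝ, a1 = ((((3 : ℝ) * lp) - (4 : ℝ)) + le) →
    ∀ a2 : ℝ, a2 = (((((a1 ^ 2) - a1) + ((3 : ℝ) * mp)) - (le * ((2 : ℝ) - ((3 : ℝ) * f)))) - (le ^ 2)) →
    ∀ b1 : ℝ, b1 = ((((3 : ℝ) * lp) - (4 : ℝ)) + ((3 : ℝ) * e)) →
    ∀ b2 : ℝ, b2 = ((((b1 ^ 2) - b1) + ((3 : ℝ) * mp)) - ((3 : ℝ) * (x * e))) →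
    ∀ k : ℝ, k = (((2 : ℝ) / 5) * (e * Tt)) →
    ∀ K : ℝ, K = ((2 : ℝ) * ((k ^ 2) * k)) →
    ∀ A : ℝ, A = (K * (((11447 : ℝ) / 1000000) + (e * (((-4731 : ℝ) / 200000) + (e * (((669227 : ℝ) / 500000) + (e * (((-3497613 : ℝ) / 1000000) + (e * (((3940899 : ℝ) / 1000000) + (e * ((-420139 : ℝ) / 250000)))))))))))) →
    ∀ Aa : ℝ, Aa = (x * A) →
    ∀ Ab : ℝ, Ab = (K * (((11173 : ℝ) / 1000000) + (e * (((-3993 : ℝ) / 500000) + (e * (((1096481 : ℝ) / 1000000) + (e * (((-2855919 : ℝ) / 1000000) + (e * (((3032251 : ℝ) / 1000000) + (e * ((-1232681 : ℝ) / 1000000)))))))))))) →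
    ∀ p : ℝ, p = ((((64 : ℝ) / 125) * x3) * (E1)⁻¹) →
    ∀ ip : ℝ, ip = (((1 : ℝ) - p))⁻¹ →
    ∀ d1 : ℝ, d1 = (a1 - b1) →
    ∀ d2 : ℝ, d2 = (((1 : ℝ) / 2) * (e * (a2 - b2))) →
    ∀ c0 : ℝ, c0 = ((((1 : ℝ) / 2) * (e * b2)) - (((9173 : ℝ) / 5000) * x)) →
    ∀ z : ℝ, z = (e * (k ^ 2)) →
    ∀ g : ℝ, g = (((1 : ℝ) / 4) * e) →
    ∀ om : ℝ, (((8 : ℝ) / 9) * x) ≤ om → om ≤ (1 : ℝ) →
    ∀ w : ℝ, w = ((om ^ 2) * om) →
    (((w - p) < 0) ∨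
    (∀ al : ℝ, al = (((1 : ℝ) - w) * ip) →
    ∀ H : ℝ, H = (((om ^ 2) * ((c0 + (al * d2)) - (g * ((b1 + (al * d1)) ^ 2)))) - z) →
    (((H + ((Ab + (al * (Aa - Ab))) * (om)⁻¹)) < 0) ∨
    ((((E1 - ((2744 : ℝ) / 15625)) < 0) ∧
    (((H + (((7 : ℝ) / 10) * A)) + ((om ^ 2) * (Ab * ip))) < 0)))))) := by
  have h := top_ok kE12 x (le_trans (by norm_num) h1) (le_trans h2 (by norm_num))
  simp only [gE12, Gl.holds, Tm.ev, List.getD_cons_zero, List.getD_cons_succ, Int.cast_ofNat,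
    Nat.cast_ofNat, Int.cast_one, Nat.cast_one, div_one, Int.cast_neg, Int.cast_zero] at h
  exact h

end Pool.Agent.P.MP_97b9bc_mp.S
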