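import Pool.Agent.P.MP_97b9bc_mp.S.IAS

/-! Kernel checks. -/

set_option autoImplicit false

namespace Pool.Agent.P.MP_97b9bc_mp.S

def gE23 : Gl :=
  (.lt (.sub (.c 1 1) (.v 0))
    (.lt (.sq (.v 1))
    (.lt (.mul (.v 0) (.v 2))
    (.lt (.sq (.v 2))
    (.lt (.mul (.v 0) (.v 3))
    (.lt (.sm 23 2500 (.mul (.v 3) (.v 0)))
    (.lt (.sm 2 25 (.mul (.v 3) (.v 2)))
    (.lt (.sm 363 312500 (.mul (.v 4) (.v 5)))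
    (.lt (.inv (.add (.v 3) (.sm 2 25 (.v 5))))
    (.lt (.inv (.add (.add (.add (.mul (.v 4) (.v 5)) (.v 3)) (.v 2)) (.v 1)))
    (.lt (.sm 6 25 (.mul (.v 7) (.v 1)))
    (.lt (.mul (.add (.add (.sm 2 1 (.v 5)) (.sm 3 1 (.v 4))) (.sm 5 1 (.v 3))) (.v 1))
    (.lt (.sub (.v 1) (.v 0))
    (.lt (.sub (.sub (.sm 3 1 (.v 2)) (.sq (.v 2))) (.sub (.mul (.add (.add (.sm 4 1 (.v 7)) (.sm 9 1 (.v 6))) (.sm 25 1 (.v 5))) (.v 3)) (.sq (.v 1))))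
    (.lt (.sm 6003 500 (.mul (.mul (.add (.v 9) (.sm 2 25 (.v 11))) (.v 10)) (.v 4)))
    (.lt (.add (.sub (.sm 3 1 (.v 2)) (.c 4 1)) (.sm 3 1 (.v 14)))
    (.lt (.sub (.add (.sub (.sq (.v 0)) (.v 0)) (.sm 3 1 (.v 2))) (.sm 3 1 (.mul (.v 16) (.v 15))))
    (.lt (.mul (.sm 4 1 (.v 16)) (.inv (.add (.c 1 1) (.sm 3 1 (.v 16)))))
    (.lt (.add (.sub (.sm 3 1 (.v 5)) (.c 4 1)) (.sm 3 1 (.v 0)))
    (.lt (.sub (.add (.sub (.sq (.v 0)) (.v 0)) (.sm 3 1 (.v 5))) (.sm 3 1 (.mul (.v 1) (.sub (.c 1 1) (.v 1)))))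
    (.lt (.sm 9 10 (.inv (.add (.c 1 1) (.sm 3 1 (.v 19)))))
    (.lt (.sm 2 5 (.mul (.mul (.v 20) (.v 6)) (.v 0)))
    (.lt (.sm 2 1 (.mul (.sq (.v 0)) (.v 0)))
    (.lt (.mul (.v 0) (.add (.c 11173 1000000) (.mul (.v 22) (.add (.c (-3993) 500000) (.mul (.v 22) (.add (.c 1096481 1000000) (.mul (.v 22) (.add (.c (-2855919) 1000000) (.mul (.v 22) (.add (.c 3032251 1000000) (.mul (.v 22) (.c (-1232681) 1000000))))))))))))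
    (.lt (.mul (.v 1) (.add (.c 2329 200000) (.mul (.v 23) (.add (.c (-959) 40000) (.mul (.v 23) (.add (.c 4892 3125) (.mul (.v 23) (.add (.c (-2918807) 1000000) (.mul (.v 23) (.add (.c 1300499 500000) (.mul (.v 23) (.c (-1168897) 1000000))))))))))))
    (.lt (.inv (.sub (.c 1 1) (.mul (.sq (.v 4)) (.v 4))))
    (.lt (.sub (.v 10) (.v 7))
    (.lt (.sm 1 2 (.mul (.v 26) (.sub (.v 10) (.v 7))))
    (.lt (.sub (.sm 1 2 (.mul (.v 27) (.v 8))) (.sm 9173 5000 (.v 28)))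
    (.lt (.mul (.v 28) (.sq (.v 7)))
    (.lt (.sm 1 4 (.v 29))
    (.sy (.v 10) (.c 1 1)
    (.lt (.mul (.sub (.c 1 1) (.mul (.sq (.v 0)) (.v 0))) (.v 6))
    (.lt (.sub (.mul (.sq (.v 1)) (.sub (.add (.v 4) (.mul (.v 0) (.v 5))) (.mul (.v 2) (.sq (.add (.v 14) (.mul (.v 0) (.v 6))))))) (.v 3))
    (.neg (.add (.v 0) (.mul (.add (.v 9) (.mul (.v 1) (.sub (.v 10) (.v 9)))) (.inv (.v 2)))))))))))))))))))))))))))))))))))))))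

def cE23 : List (ℕ × ℕ) :=
  [(10, 3550), (10, 3550), (10, 12443083), (9, 3550), (9, 3550), (9, 3550),
   (9, 3550), (9, 56797), (9, 56797), (9, 56797), (9, 56797), (9, 56797),
   (9, 843228), (9, 843228), (9, 12443083), (9, 182312122), (8, 56797), (8, 56797),
   (8, 56797), (8, 56797), (8, 56797), (8, 56797), (8, 56797), (8, 56797),
   (8, 56797), (8, 56797), (8, 56797), (8, 56797), (8, 56797), (8, 56797),
   (8, 56797), (8, 56797), (8, 56797), (8, 56797), (8, 56797), (8, 56797),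
   (8, 56797), (8, 56797), (8, 56797), (8, 56797), (8, 56797), (8, 56797),
   (8, 56797), (8, 56797), (8, 56797), (8, 56797), (8, 56797), (8, 56797),
   (8, 56797), (8, 56797), (8, 56797), (8, 56797), (8, 56797), (8, 56797),
   (8, 56797), (8, 56797), (8, 56797), (8, 56797), (8, 56797), (8, 56797),
   (8, 56797), (8, 56797), (8, 56797), (8, 56797), (8, 56797), (8, 56797),
   (8, 56797), (8, 56797), (8, 56797), (8, 56797), (8, 56797), (8, 56797),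
   (8, 56797), (8, 56797), (8, 56797), (8, 56797), (8, 56797), (8, 56797),
   (8, 56797), (8, 56797), (8, 843228), (8, 843228), (8, 843228), (8, 843228),
   (8, 843228), (8, 843228), (8, 843228), (8, 843228), (8, 843228), (8, 843228),
   (8, 843228), (8, 52956), (8, 3805), (8, 3565), (8, 3565), (8, 3565),
   (8, 238), (8, 238), (8, 15), (9, 781771), (9, 238), (9, 15),
   (8, 15)]

theorem kE23 : top 0 1 1 gE23 cE23 0 = true := by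
  decide +kernel

theorem rE23 (x : ℝ) (h1 : (0 : ℝ) ≤ x) (h2 : x ≤ (1 : ℝ)) :
    ∀ e : ℝ, e = ((1 : ℝ) - x) →
    ∀ x2 : ℝ, x2 = (x ^ 2) →
    ∀ x3 : ℝ, x3 = (x2 * x) →
    ∀ e2 : ℝ, e2 = (e ^ 2) →
    ∀ e3 : ℝ, e3 = (e2 * e) →
    ∀ t2 : ℝ, t2 = (((23 : ℝ) / 2500) * (x2 * e3)) →
    ∀ t3 : ℝ, t3 = (((2 : ℝ) / 25) * (x3 * e2)) →
    ∀ t5 : ℝ, t5 = (((363 : ℝ) / 312500) * (x3 * x2)) →
    ∀ iD : ℝ, iD = ((e3 + (((2 : ℝ) / 25) * x3)))⁻¹ →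
    ∀ iN : ℝ, iN = (((((e3 * e2) + t2) + t3) + t5))⁻¹ →
    ∀ da : ℝ, da = (((6 : ℝ) / 25) * (x3 * iD)) →
    ∀ na : ℝ, na = (((((2 : ℝ) * t2) + ((3 : ℝ) * t3)) + ((5 : ℝ) * t5)) * iN) →
    ∀ lp : ℝ, lp = (da - na) →
    ∀ mp : ℝ, mp = ((((3 : ℝ) * da) - (da ^ 2)) - ((((((4 : ℝ) * t2) + ((9 : ℝ) * t3)) + ((25 : ℝ) * t5)) * iN) - (na ^ 2))) →
    ∀ Tt : ℝ, Tt = (((6003 : ℝ) / 500) * (((e3 + (((2 : ℝ) / 25) * x3)) * e2) * iN)) →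
    ∀ a1 : ℝ, a1 = ((((3 : ℝ) * lp) - (4 : ℝ)) + ((3 : ℝ) * e)) →
    ∀ a2 : ℝ, a2 = ((((a1 ^ 2) - a1) + ((3 : ℝ) * mp)) - ((3 : ℝ) * (x * e))) →
    ∀ f : ℝ, f = (((4 : ℝ) * e) * (((1 : ℝ) + ((3 : ℝ) * e)))⁻¹) →
    ∀ b1 : ℝ, b1 = ((((3 : ℝ) * lp) - (4 : ℝ)) + ((3 : ℝ) * f)) →
    ∀ b2 : ℝ, b2 = ((((b1 ^ 2) - b1) + ((3 : ℝ) * mp)) - ((3 : ℝ) * (f * ((1 : ℝ) - f)))) →
    ∀ ro : ℝ, ro = (((9 : ℝ) / 10) * (((1 : ℝ) + ((3 : ℝ) * e)))⁻¹) →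
    ∀ k : ℝ, k = (((2 : ℝ) / 5) * ((e * Tt) * ro)) →
    ∀ K : ℝ, K = ((2 : ℝ) * ((k ^ 2) * k)) →
    ∀ Aa : ℝ, Aa = (K * (((11173 : ℝ) / 1000000) + (e * (((-3993 : ℝ) / 500000) + (e * (((1096481 : ℝ) / 1000000) + (e * (((-2855919 : ℝ) / 1000000) + (e * (((3032251 : ℝ) / 1000000) + (e * ((-1232681 : ℝ) / 1000000)))))))))))) →
    ∀ Ab : ℝ, Ab = (K * (((2329 : ℝ) / 200000) + (e * (((-959 : ℝ) / 40000) + (e * (((4892 : ℝ) / 3125) + (e * (((-2918807 : ℝ) / 1000000) + (e * (((1300499 : ℝ) / 500000) + (e * ((-1168897 : ℝ) / 1000000)))))))))))) →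
    ∀ ip : ℝ, ip = (((1 : ℝ) - ((ro ^ 2) * ro)))⁻¹ →
    ∀ d1 : ℝ, d1 = (a1 - b1) →
    ∀ d2 : ℝ, d2 = (((1 : ℝ) / 2) * (e * (a2 - b2))) →
    ∀ c0 : ℝ, c0 = ((((1 : ℝ) / 2) * (e * b2)) - (((9173 : ℝ) / 5000) * x)) →
    ∀ z : ℝ, z = (e * (k ^ 2)) →
    ∀ g : ℝ, g = (((1 : ℝ) / 4) * e) →
    ∀ om : ℝ, ro ≤ om → om ≤ (1 : ℝ) →
    ∀ al : ℝ, al = (((1 : ℝ) - ((om ^ 2) * om)) * ip) →
    ∀ H : ℝ, H = (((om ^ 2) * ((c0 + (al * d2)) - (g * ((b1 + (al * d1)) ^ 2)))) - z) →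
    (H + ((Ab + (al * (Aa - Ab))) * (om)⁻¹)) < 0 := by
  have h := top_ok kE23 x (le_trans (by norm_num) h1) (le_trans h2 (by norm_num))
  simp only [gE23, Gl.holds, Tm.ev, List.getD_cons_zero, List.getD_cons_succ, Int.cast_ofNat,
    Nat.cast_ofNat, Int.cast_one, Nat.cast_one, div_one, Int.cast_neg, Int.cast_zero] at h
  exact h

end Pool.Agent.P.MP_97b9bc_mp.S
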