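import Pool.Agent.P.MP_97b9bc_mp.S.IfaceB
import Pool.Agent.P.MP_97b9bc_mp.S.KB
import Pool.Agent.P.MP_97b9bc_mp.S.KC
import Pool.Agent.P.MP_97b9bc_mp.S.KD
import Pool.Agent.P.MP_97b9bc_mp.S.IfaceA

/-! Steps E12 E23 ICAP WB2. -/

set_option autoImplicit false

namespace Pool.Agent.P.MP_97b9bc_mp.S

open Set Filter Topology Pool.Agent.P.MP_97b9bc_mp.T

lemma e12_core {r e x α τ om p k a1 a2 b1 b2 Aa Ab Na Nb : ℝ} (he : 0 < e) (ho : 0 < om)
    (hx : r * e = 2 * x) (h3 : om ^ 2 * om = α * p + (1 - α)) (hk : k = r * τ * om)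
    (ha : Aa = e * (r * (p * Na))) (hb : Ab = e * (r * Nb))
    (h : om ^ 2 * (1 / 2 * (e * b2) - 9173 / 5000 * x + α * (1 / 2 * (e * (a2 - b2))) -
      1 / 4 * e * (b1 + α * (a1 - b1)) ^ 2) - e * k ^ 2 + (Ab + α * (Aa - Ab)) * om⁻¹ < 0) :
    (α * a2 + (1 - α) * b2) / 2 - (α * a1 + (1 - α) * b1) ^ 2 / 4 +
      r * (α * p * Na + (1 - α) * Nb) / (α * p + (1 - α)) - 9173 / 10000 * r < r ^ 2 * τ ^ 2 := by
  have h1 : x = r * e / 2 := by linarith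
  rw [← sub_neg, ← h3]
  refine neg_of_mul_neg_left (b := e * om ^ 2) (lt_of_eq_of_lt ?_ h) (by positivity)
  rw [ha, hb, hk, h1]
  field_simp
  ring

lemma e12_cap {r e u m P : ℝ} (h : e * (r * u) = 2) : e * (r * (m * (u * P))) = 2 * m * P := by
  linear_combination m * P * h

lemma e12_corner {α x om p E K A B H : ℝ} (h1 : α ≤ 1) (ho : 0 < om) (p0 : 0 ≤ p)
    (p1 : p < 1) (x0 : 0 ≤ x) (p2 : p * E = 64 / 125 * x ^ 3) (o4 : p ≤ om ^ 2 * om) (hK : 0 < K)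
    (hA : -1 * A < 0) (hB : -1 * B < 0) (h3 : om ^ 2 * om = α * p + (1 - α))
    (h : E - 2744 / 15625 < 0 ∧ H + 7 / 10 * (K * A) + om ^ 2 * (K * B * (1 - p)⁻¹) < 0) :
    H + (K * B + α * (x * (K * A) - K * B)) * om⁻¹ < 0 := by
  have hx : x ≤ 7 / 10 * om := by
    refine (pow_le_pow_iff_left₀ x0 (by positivity) three_ne_zero).1 ?_
    rw [mul_pow, pow_succ om]
    nlinarith [mul_le_mul_of_nonneg_left (sub_neg.1 h.1).le p0]
  have h4 : 0 < 1 - p := sub_pos.2 p1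
  have h5 : 1 - α ≤ om ^ 2 * om * (1 - p)⁻¹ := by
    rw [← div_eq_mul_inv, le_div_iff₀ h4, h3]; nlinarith
  have h6 : α * x ≤ 7 / 10 * om := (mul_le_of_le_one_left x0 h1).trans hx
  have h7 := mul_le_mul_of_nonneg_right h5 (mul_nonneg hK.le (by linarith : 0 ≤ B))
  have h8 := mul_le_mul_of_nonneg_right h6 (mul_nonneg hK.le (by linarith : 0 ≤ A))
  refine lt_of_le_of_lt ?_ h.2
  rw [add_assoc, add_le_add_iff_left, ← div_eq_mul_inv, div_le_iff₀ ho]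
  linarith

lemma e12_om {α x om p E : ℝ} (h0 : 0 ≤ α) (h1 : α ≤ 1) (ho : 0 < om) (p0 : 0 ≤ p) (p1 : p < 1)
    (x0 : 0 < x) (p2 : p * E = 64 / 125 * x ^ 3) (hE : E ≤ 18 / 25)
    (h3 : om ^ 2 * om = α * p + (1 - α)) : p ≤ om ^ 2 * om ∧ 8 / 9 * x ≤ om ∧ om ≤ 1 := by
  have o4 : p ≤ om ^ 2 * om := by rw [h3]; nlinarith
  have x3 := pow_pos x0 3
  refine ⟨o4, (pow_le_pow_iff_left₀ (by positivity) ho.le three_ne_zero).1 ?_,
    (pow_le_pow_iff_left₀ ho.le zero_le_one three_ne_zero).1 ?_⟩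
  · rw [pow_succ om]
    nlinarith [mul_le_mul_of_nonneg_left hE p0]
  · rw [pow_succ om, h3]; nlinarith

theorem p_E12 (hORD : S_ORD) :
    S_E12 := by
  intro r α τ hr h0 h1 hτ hd
  obtain ⟨x, hx⟩ : ∃ x, x = r / (r + 2) := ⟨_, rfl⟩
  obtain ⟨e, he⟩ : ∃ e, e = 1 - x := ⟨_, rfl⟩
  obtain ⟨x0, e0, e1, e2, -, -, c1, c2, c3⟩ := chart hr hx he
  obtain ⟨m1, -, -, -, hT, -, -, hc⟩ := hORD r hr
  have x1 : x ≤ 1 := by linarith
  have r2 : 0 < r + 2 := by linarith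
  have r4 : 0 < r + 4 := by linarith
  have E0' : 0 < 1 - chi r := by linarith
  have E1' : 1 - chi r = 18 / 25 - 13 / 20 * (4 / (r + 4)) ^ 2 := by rw [chi]; ring
  have E2' : 1 - chi r ≤ 18 / 25 := by rw [E1']; exact sub_le_self _ (by positivity)
  obtain ⟨k, hk⟩ : ∃ k, k = 2 / 5 * (e * Tt r) := ⟨_, rfl⟩
  have k0 : 0 < k := by rw [hk]; positivity
  have k3 : M2 r = k ^ 2 * k / r := by rw [hk, e1, M2]; field_simp; ring
  have m2 : 0 < M2 r := by rw [k3]; positivity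
  have hM := m2.trans m1
  have hp : M2 r / M1 r = 64 / 125 * x ^ 3 * (1 - chi r)⁻¹ := by
    rw [M2, M1, ← hx]; field_simp; ring
  have p0 : 0 ≤ M2 r / M1 r := by positivity
  have p1 : M2 r / M1 r < 1 := (div_lt_one hM).2 m1
  have p2 : M2 r / M1 r * (1 - chi r) = 64 / 125 * x ^ 3 := by rw [hp]; field_simp
  obtain ⟨om, ho⟩ : ∃ om, om = k / (r * τ) := ⟨_, rfl⟩
  have o0 : 0 < om := by rw [ho]; positivity
  have o3 : om ^ 2 * om = α * (M2 r / M1 r) + (1 - α) := by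
    refine mul_left_cancel₀ (a := r ^ 2 * τ ^ 3) (by positivity) ?_
    rw [hd, k3, ho]; field_simp
  obtain ⟨o4, o1, o2⟩ := e12_om h0 h1 o0 p0 p1 x0 p2 E2' o3
  have h4 : k ^ 2 * k = r * M2 r := by rw [k3]; field_simp
  have h5 : e * (r * (1 + 2 / r)) = 2 := by rw [e1]; field_simp
  have q1 := (rE1 x x0.le x1 e he _ rfl _ rfl _ rfl _ rfl _ rfl _ rfl _ rfl _ rfl _ rfl _ rfl _ rfl _ rfl
    _ rfl _ rfl _ rfl _ rfl _ rfl _ rfl _ rfl _ rfl _ rfl).1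
  have q2 := (rE2 x x0.le x1 e he _ rfl _ rfl _ rfl _ rfl _ rfl _ rfl _ rfl _ rfl _ rfl _ rfl _ rfl _ rfl
    _ rfl _ rfl _ rfl _ rfl _ rfl _ rfl).1
  have hK : 0 < 2 * (k ^ 2 * k) := by positivity
  have h := (rE12 x x0.le x1 e he _ rfl (x ^ 3) (by ring) _ rfl (e ^ 3) (by ring) _ rfl _ rfl
    (363 / 312500 * x ^ 5) (by ring) _ rfl _ (by ring) (ld r) c1 (ln r) (c2 2 3 5) (lp r) rfl
    (mp r) (by rw [← c2 4 9 25]; rfl) (Tt r) c3 (4 / (r + 4)) (by rw [e1]; field_simp; ring)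
    (1 - chi r) E1' (le r) (by rw [le, chi1]; field_simp; ring) (l11 r) rfl (l12 r) rfl
    (l21 r) (by rw [e1]; rfl) (l22 r) (by rw [l22, ← hx, ← e1]) k hk _ rfl _ rfl _ rfl _ rfl
    (M2 r / M1 r) hp _ rfl _ rfl _ rfl _ rfl _ rfl _ rfl om o1 o2 _ rfl).resolve_left
    (not_lt.2 (sub_nonneg.2 o4)) α (by rw [o3, eq_mul_inv_iff_mul_eq₀ (sub_pos.2 p1).ne']; ring) _ rfl
  refine e12_core e0 o0 e2 o3 (by rw [ho]; field_simp) ?_ ?_
    (h.elim id (e12_corner h1 o0 p0 p1 x0.le p2 o4 hK q1 q2 o3))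
  · rw [N1, E0, ← e1, h4, ← mul_assoc (M2 r / M1 r), mul_left_comm (M2 r / M1 r),
      div_mul_cancel₀ _ hM.ne', ← mul_assoc e, mul_comm e r, e2]
    simp only [cA1, ev]
    push_cast
    ring
  · rw [N2, E0, ← e1, h4]
    simp only [cA2, ev]
    push_cast
    rw [e12_cap h5]
    ring

end Pool.Agent.P.MP_97b9bc_mp.S

namespace Pool.Agent.P.MP_97b9bc_mp.S

open Set Filter Topology Pool.Agent.P.MP_97b9bc_mp.T

lemma e23_core {r e x α τ om p k a1 a2 b1 b2 Aa Ab Na Nb : ℝ} (he : 0 < e) (ho : 0 < om)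
    (hx : r * e = 2 * x) (h3 : om ^ 2 * om = α * p + (1 - α)) (hk : k = r * τ * om)
    (ha : Aa = e * (r * (p * Na))) (hb : Ab = e * (r * Nb))
    (h : om ^ 2 * (1 / 2 * (e * b2) - 9173 / 5000 * x + α * (1 / 2 * (e * (a2 - b2))) -
      1 / 4 * e * (b1 + α * (a1 - b1)) ^ 2) - e * k ^ 2 + (Ab + α * (Aa - Ab)) * om⁻¹ < 0) :
    (α * a2 + (1 - α) * b2) / 2 - (α * a1 + (1 - α) * b1) ^ 2 / 4 +
      r * (α * p * Na + (1 - α) * Nb) / (α * p + (1 - α)) - 9173 / 10000 * r < r ^ 2 * τ ^ 2 := by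
  have h1 : x = r * e / 2 := by linarith
  rw [← sub_neg, ← h3]
  refine neg_of_mul_neg_left (b := e * om ^ 2) (lt_of_eq_of_lt ?_ h) (by positivity)
  rw [ha, hb, hk, h1]
  field_simp
  ring

lemma e23_cap {r e u m P : ℝ} (h : e * (r * u) = 2) : e * (r * (m * (u * P))) = 2 * m * P := by
  linear_combination m * P * h

theorem p_E23 (hORD : S_ORD) :
    S_E23 := by
  intro r α τ hr h0 h1 hτ hd
  obtain ⟨x, hx⟩ : ∃ x, x = r / (r + 2) := ⟨_, rfl⟩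
  obtain ⟨e, he⟩ : ∃ e, e = 1 - x := ⟨_, rfl⟩
  obtain ⟨x0, e0, e1, e2, -, -, c1, c2, c3⟩ := chart hr hx he
  have hT := (hORD r hr).2.2.2.2.1
  have r2 : 0 < r + 2 := by linarith
  have r8 : 0 < r + 8 := by linarith
  obtain ⟨ro, hro⟩ : ∃ ro, ro = 9 / 10 * (1 + 3 * e)⁻¹ := ⟨_, rfl⟩
  have ro0 : 0 < ro := by rw [hro]; positivity
  have ro1 : ro < 1 := by
    rw [hro, ← div_eq_mul_inv, div_lt_one (by positivity)]; linarith
  have ro2 : ro = 9 / 10 * ((r + 2) / (r + 8)) := by rw [hro, e1]; field_simp; ring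
  have hp : M3 r / M2 r = ro ^ 2 * ro := by rw [ro2, M3, M2]; field_simp; ring
  have p1 : ro ^ 2 * ro < 1 := by nlinarith [pow_lt_one₀ ro0.le ro1 (three_ne_zero)]
  obtain ⟨k, hk⟩ : ∃ k, k = 2 / 5 * (e * Tt r * ro) := ⟨_, rfl⟩
  have k0 : 0 < k := by rw [hk]; positivity
  have k3 : M3 r = k ^ 2 * k / r := by rw [hk, ro2, e1, M3]; field_simp; ring
  obtain ⟨om, ho⟩ : ∃ om, om = k / (r * τ) := ⟨_, rfl⟩
  have o0 : 0 < om := by rw [ho]; positivity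
  have o3 : om ^ 2 * om = α * (M3 r / M2 r) + (1 - α) := by
    refine mul_left_cancel₀ (a := r ^ 2 * τ ^ 3) (by positivity) ?_
    rw [hd, k3, ho]; field_simp
  have o1 : ro ≤ om := by
    refine (pow_le_pow_iff_left₀ ro0.le o0.le three_ne_zero).1 ?_
    rw [pow_succ om, o3, hp]; nlinarith
  have o2 : om ≤ 1 := by
    refine (pow_le_pow_iff_left₀ o0.le zero_le_one three_ne_zero).1 ?_
    rw [pow_succ om, o3, hp]; nlinarith
  have h4 : k ^ 2 * k = r * M3 r := by rw [k3]; field_simp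
  have h5 : e * (r * (1 + 2 / r)) = 2 := by rw [e1]; field_simp
  refine e23_core e0 o0 e2 o3 (by rw [ho]; field_simp) ?_ ?_
    (rE23 x x0.le (by linarith) e he _ rfl (x ^ 3) (by ring) _ rfl (e ^ 3) (by ring) _ rfl _ rfl
    (363 / 312500 * x ^ 5) (by ring) _ rfl _ (by ring) (ld r) c1 (ln r) (c2 2 3 5) (lp r) rfl
    (mp r) (by rw [← c2 4 9 25]; rfl) (Tt r) c3 (l21 r) (by rw [e1]; rfl) (l22 r)
    (by rw [l22, ← hx, ← e1]) (8 / (r + 8)) (by rw [e1]; field_simp; ring) (l31 r) rfl (l32 r) rfl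
    ro hro k hk _ rfl _ rfl _ rfl _ rfl _ rfl _ rfl _ rfl _ rfl _ rfl om o1 o2 α ?_ _ rfl)
  · have hM := ((hORD r hr).2.1.trans' (k3 ▸ by positivity : 0 < M3 r)).ne'
    rw [N2, E0, ← e1, h4, ← mul_assoc (M3 r / M2 r), mul_left_comm (M3 r / M2 r),
      div_mul_cancel₀ _ hM]
    simp only [cA2, ev]
    push_cast
    rw [e23_cap h5]
    ring
  · rw [N3, E0, ← e1, h4]
    simp only [cA3, ev]
    push_cast
    rw [e23_cap h5]
    ring
  · rw [o3, hp, eq_mul_inv_iff_mul_eq₀ (sub_pos.2 p1).ne']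
    ring

end Pool.Agent.P.MP_97b9bc_mp.S

namespace Pool.Agent.P.MP_97b9bc_mp.S

open Set Filter Topology Pool.Agent.P.MP_97b9bc_mp.T

lemma zp_icap (c : ℝ) (m : ℤ) : J2 (fun r => c * r ^ m) (fun r => c * (m * r ^ (m - 1)))
    (fun r => c * (m * (((m - 1 : ℤ) : ℝ) * r ^ (m - 1 - 1)))) :=
  J2.smul c fun r hr => ⟨hasDerivAt_zpow m r (Or.inl hr.ne'),
    (hasDerivAt_zpow (m - 1) r (Or.inl hr.ne')).const_mul _⟩

lemma d1_icap : ∃ D : ℝ → ℝ, J2 (fun r => dI1 (4 / 13 * r) / r ^ 4) D (fun r => ph r / r ^ 5) ∧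
    D (13 / 4) = 0 := by
  refine ⟨_, (((zp_icap (1 / 20) (-4)).add (zp_icap (-((4 / 13) ^ 8 / 12)) 4)).add
    (zp_icap (8 / 15 * (4 / 13) ^ 5) 1)).add (J2.const (-(1 / 2 * (4 / 13) ^ 4))) |>.congr
    (fun r hr => ?_) (fun _ _ => rfl) (fun r hr => ?_), by norm_num⟩
  · have := hr.ne'
    simp only [dI1, zpow_neg, zpow_ofNat]
    field_simp
    ring
  · have := hr.ne'
    norm_num [ph, zpow_neg, zpow_ofNat]
    field_simp
    ring

lemma d2_icap : ∃ D : ℝ → ℝ, J2 (fun r => dI2 (4 / 13 * r) / r ^ 5) D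
    (fun r => ph r ^ 2 / r ^ 5) ∧ D (13 / 4) = 0 := by
  refine ⟨_, ((((zp_icap (1 / 30) (-5)).add (zp_icap (-((4 / 13) ^ 8 / 3)) 3)).add
    (zp_icap ((4 / 13) ^ 16 / 110) 11)).add (zp_icap (16 / 15 * (4 / 13) ^ 6) 1)).add
    (J2.const (-(128 / 165 * (4 / 13) ^ 5))) |>.congr
    (fun r hr => ?_) (fun _ _ => rfl) (fun r hr => ?_), by norm_num⟩
  · have := hr.ne'
    simp only [dI2, zpow_neg, zpow_ofNat]
    field_simp
    ring
  · have := hr.ne'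
    norm_num [ph, zpow_neg, zpow_ofNat]
    field_simp
    ring

lemma d3_icap : ∃ D : ℝ → ℝ, J2 (fun r => dI3 (4 / 13 * r) / r ^ 6) D
    (fun r => ph r ^ 3 / r ^ 5) ∧ D (13 / 4) = 0 := by
  refine ⟨_, (((((zp_icap (1 / 42) (-6)).add (zp_icap (-(3 / 2 * (4 / 13) ^ 8)) 2)).add
    (zp_icap ((4 / 13) ^ 16 / 30) 10)).add (zp_icap (-((4 / 13) ^ 24 / 306)) 18)).add
    (zp_icap (1024 / 357 * (4 / 13) ^ 7) 1)).add
    (J2.const (-(64 / 45 * (4 / 13) ^ 6))) |>.congr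
    (fun r hr => ?_) (fun _ _ => rfl) (fun r hr => ?_), by norm_num⟩
  · have := hr.ne'
    simp only [dI3, zpow_neg, zpow_ofNat]
    field_simp
    ring
  · have := hr.ne'
    norm_num [ph, zpow_neg, zpow_ofNat]
    field_simp
    ring

theorem p_ICAP (hCVX : S_CVX) :
    S_ICAP := by
  intro z Q z' Q' τ b c X U h hU hτ hb hbc hc H hw hv
  obtain ⟨D1, j1, e1⟩ := d1_icap
  obtain ⟨D2, j2, e2⟩ := d2_icap
  obtain ⟨D3, j3, e3⟩ := d3_icap
  have jD : J2 (Dbar τ) (fun r => 1730 * (3 * τ * D1 r - 3 * τ ^ 2 * D2 r + τ ^ 3 * D3 r))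
      (fun r => 1730 * (1 - (1 - τ * ph r) ^ 3) / r ^ 5) :=
    ((((j1.smul (3 * τ)).sub (j2.smul (3 * τ ^ 2))).add (j3.smul (τ ^ 3))).smul 1730).congr
      (fun r _ => by unfold Dbar; ring) (fun _ _ => rfl) (fun r _ => by ring)
  have nn : ∀ r, 0 < r → r ≤ 13 / 4 → 0 ≤ 1 - (1 - τ * ph r) ^ 3 := fun r hr h1 => by
    have a1 : (4 / 13 * r) ^ 8 ≤ 1 := pow_le_one₀ (by positivity) (by linarith)
    have a2 : 0 ≤ τ * ph r := mul_nonneg hτ (div_nonneg (by linarith) hr.le)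
    nlinarith [mul_nonneg a2 (sq_nonneg (τ * ph r - 3 / 2))]
  have hc0 : 0 < c := hb.trans_le hbc
  obtain ⟨a1, a2⟩ := (hCVX _ _ _ c hc0 jD).2 (13 / 4) hc
    (fun r h1 h2 => div_nonneg (mul_nonneg (by norm_num) (nn r (hc0.trans_le h1) h2))
      (pow_pos (hc0.trans_le h1) 5).le)
    (by norm_num [Dbar, dI1, dI2, dI3]) (by simp only [e1, e2, e3]; norm_num)
  have := ((hCVX _ _ _ b hb ((jD.add (j2_n h 0)).sub (j2_n hU 0))).2 c hbc (fun r h1 h2 => ?_)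
    (by linarith) (by linarith)).1
  · linarith
  have hr := hb.trans_le h1
  obtain ⟨b1, b2⟩ := H r h1 h2
  have b3 := (Odd.strictMono_pow (R := ℝ) (by decide : Odd 3)).monotone b1
  have b4 := mul_le_mul_of_nonneg_right b2 (nn r hr (h2.trans hc))
  have b5 := mul_le_mul_of_nonneg_left b3 (pow_pos hr 6).le
  have e : 1730 * (1 - (1 - τ * ph r) ^ 3) / r ^ 5 + X.m r / r - U.m r / r =
      (1730 * (1 - (1 - τ * ph r) ^ 3) + r ^ 6 * X.t r ^ 3 - r ^ 6 * U.t r ^ 3) / r ^ 5 := by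
    have := hr.ne'
    unfold Q4.m
    field_simp
  rw [e]
  exact div_nonneg (by nlinarith) (pow_pos hr 5).le

end Pool.Agent.P.MP_97b9bc_mp.S

namespace Pool.Agent.P.MP_97b9bc_mp.S

open Set Filter Topology Pool.Agent.P.MP_97b9bc_mp.T

lemma j2_wb2 : J2 nW (fun r => -(432 / r ^ 4) - 131 / 25 * (jW r * (1 - jW r)) / r) nW2 := by
  intro r hr
  have h0 := hr.ne'
  have hp : 0 < 1 + (5 / 47 * r) ^ 4 := by positivity
  have dj : HasDerivAt jW (-(4 * (jW r * (1 - jW r)) / r)) r := by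
    refine ((hasDerivAt_const r (1 : ℝ)).fun_div
      ((((hasDerivAt_id' r).const_mul (5 / 47)).fun_pow 4).const_add 1) hp.ne').congr_deriv ?_
    unfold jW
    have := hp.ne'
    push_cast
    field_simp
    ring
  have dp : ∀ (c : ℝ) (n : ℕ), HasDerivAt (fun s : ℝ => c / s ^ (n + 1))
      (-(c * (n + 1) / r ^ (n + 2))) r := fun c n =>
    ((hasDerivAt_const r c).fun_div ((hasDerivAt_id' r).fun_pow (n + 1))
      (pow_ne_zero _ h0)).congr_deriv (by simp only [Nat.add_sub_cancel]; push_cast; field_simp; ring)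
  constructor
  · exact ((dp 144 2).fun_add (dj.const_mul (131 / 100))).congr_deriv (by push_cast; ring)
  · refine ((dp 432 3).fun_neg.fun_sub (((dj.fun_mul (dj.const_sub 1)).const_mul
      (131 / 25)).fun_div (hasDerivAt_id' r) h0)).congr_deriv ?_
    unfold nW2
    push_cast
    field_simp
    ring

theorem p_WB2 (hWB1 : S_WB1) (hWBG : S_WBG) (hNW : S_NW) :
    S_WB2 := by
  intro z Q Q' X h q1 q2 hQ
  refine hWBG z Q Q' (16 / 5) X nW _ nW2 h (by linarith) hQ (by norm_num) j2_wb2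
    (fun r hr => ?_) ?_ fun r n t h1 h2 h3 h4 h5 => hNW Q' r n t q1 q2 h1 h2 h3 h4 h5
  · have : 0 < r := by linarith
    unfold nW jW
    positivity
  · have := hWB1 z Q X h (by linarith) (16 / 5) (by norm_num)
    norm_num [nW, jW] at this ⊢
    linarith

end Pool.Agent.P.MP_97b9bc_mp.S
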