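import Pool.Agent.P.MP_97b9bc_mp.S.IfaceB
import Pool.Agent.P.MP_97b9bc_mp.S.IfaceA
import Pool.Agent.P.MP_3d36e1_mp.Lc.Ode

/-! Steps ISTEP OSTEP ZSTEP CMP. -/

set_option autoImplicit false

namespace Pool.Agent.P.MP_97b9bc_mp.S

open Set Filter Topology Pool.Agent.P.MP_97b9bc_mp.T

lemma right_istep {f : ℝ → ℝ} {f' c b : ℝ} (hcb : c < b) (hd : HasDerivAt f f' c)
    (h : ∀ s, c < s → s ≤ b → f c ≤ f s) : 0 ≤ f' := by
  refine ge_of_tendsto (hasDerivAt_iff_tendsto_slope_left_right.1 hd).2 ?_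
  filter_upwards [Ioc_mem_nhdsGT hcb] with s hs
  rw [slope_def_field]
  exact div_nonneg (sub_nonneg.2 (h s hs.1 hs.2)) (sub_nonneg.2 hs.1.le)

open MP_3d36e1_mp.Lc (first left_nonneg) in
theorem p_ISTEP (hLOGC : S_LOGC) (hTOUCH : S_TOUCH) (hGSIGN : S_GSIGN) (hICAP : S_ICAP) (hNI : S_NI) (hNB : S_NB) :
    S_ISTEP := by
  intro z Q z' Q' a X U h hU a0 a1 hE h0 r0 hr0 hr1
  by_contra hn
  have cX : ∀ r, 0 < r → ContinuousAt X.t r := fun r hr => (h.dt r hr).continuousAt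
  have cU : ∀ r, 0 < r → ContinuousAt U.t r := fun r hr => (hU.dt r hr).continuousAt
  obtain ⟨c, c1, c2, c3⟩ := first (f := fun r => U.t r - X.t r) a0
    (fun r hr => (cU r hr).sub (cX r hr)) hr0 (by simpa using hn)
  have ua := hU.pos a a0
  have ac : a < c := c1.lt_of_ne fun e => by subst e; linarith
  have c4 : c ≤ 16 / 5 := le_trans (not_lt.1 fun k => hn (sub_pos.1 (c3 r0 hr0 k))) hr1
  have c0 := a0.trans ac
  have ce : X.t c = U.t c := by
    refine le_antisymm (sub_nonneg.1 (ge_of_tendsto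
      (((cU c c0).sub (cX c c0)).tendsto.mono_left (nhdsWithin_le_nhds (s := Iio c))) ?_))
      (sub_nonpos.1 c2)
    filter_upwards [Ico_mem_nhdsLT ac] with s hs using (c3 s hs.1 hs.2).le
  have cl : U.L c ≤ X.L c := by
    have := left_nonneg ac ((h.dt c c0).fun_sub (hU.dt c c0)) fun s h1 h2 => by
      have := c3 s h1 h2
      linarith
    rw [ce] at this
    have uc := hU.pos c c0
    by_contra k
    nlinarith [mul_pos uc (sub_pos.2 (not_le.1 k))]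
  obtain ⟨g1, g2⟩ := hGSIGN z Q z' Q' X U h hU c c0 ce cl
  have pp : ∀ r, a ≤ r → r ≤ c → 0 < ph r := fun r h1 h2 => by
    have := a0.trans_le h1
    exact div_pos (sub_pos.2 (pow_lt_one₀ (by positivity) (by linarith) (by norm_num))) this
  obtain ⟨r, ⟨r1, r2⟩, hm⟩ := (isCompact_Icc (a := a) (b := c)).exists_isMaxOn
    (nonempty_Icc.2 c1) (f := fun s => (1 - X.t s / U.t s) / ph s) fun s hs =>
      have s0 := a0.trans_le hs.1
      ((continuousAt_const.sub ((cX s s0).div (cU s s0) (hU.pos s s0).ne')).div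
        (j2_ph.cont s0) (pp s hs.1 hs.2).ne').continuousWithinAt
  obtain ⟨τ, hτ⟩ : ∃ τ, τ = (1 - X.t r / U.t r) / ph r := ⟨_, rfl⟩
  have lo : ∀ s, a ≤ s → s ≤ c → (1 - τ * ph s) * U.t s ≤ X.t s := fun s h1 h2 => by
    have k : (1 - X.t s / U.t s) / ph s ≤ τ := hτ ▸ hm ⟨h1, h2⟩
    rw [div_le_iff₀ (pp s h1 h2)] at k
    exact (le_div_iff₀ (hU.pos s (a0.trans_le h1))).1 (by linarith)
  have p0 := a0.trans_le r1
  have ur := hU.pos r p0
  have xr := h.pos r p0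
  have eq : (1 - τ * ph r) * U.t r = X.t r := by
    have := (pp r r1 r2).ne'
    rw [hτ]
    field_simp
    ring
  have ta : 7 / 10 * a ≤ τ := by
    have k := lo a le_rfl c1
    have k1 : 7 / 10 ≤ τ * ph a := by
      by_contra k2
      nlinarith [mul_pos ua (sub_pos.2 (not_le.1 k2))]
    have k2 := pp a le_rfl c1
    have k3 : 0 < τ := (mul_pos_iff_of_pos_right k2).1 (by linarith)
    have k4 : ph a * a ≤ 1 := by
      unfold ph
      rw [div_mul_cancel₀ _ a0.ne']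
      have : 0 ≤ (4 / 13 * a) ^ 8 := by positivity
      linarith
    nlinarith [mul_le_mul_of_nonneg_right k1 a0.le, mul_le_mul_of_nonneg_left k4 k3.le]
  have t0 : 0 < τ := by linarith
  have rc : r < c := r2.lt_of_ne fun e => by
    subst e
    rw [ce] at eq
    nlinarith [mul_pos (mul_pos t0 (pp r r1 r2)) ur]
  obtain ⟨θ, hθ⟩ : ∃ θ, θ = 1 - τ * ph r := ⟨_, rfl⟩
  have θ0 : 0 < θ := (mul_pos_iff_of_pos_right ur).1 (by rw [hθ, eq]; exact xr)
  have dd := right_istep rc ((h.dt r p0).fun_sub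
    ((((j2_ph r p0).1.const_mul τ).const_sub 1).fun_mul (hU.dt r p0))) fun s h1 h2 => by
      have := lo s (r1.trans h1.le) h2
      linarith
  rw [← eq, ← hθ] at dd
  have d2 : 3 / 2 * (r * -(τ * ph1 r) / θ) ≤ 1 + -(r * U.L r) := by
    have k := ((hLOGC z Q X h).1 r p0).1
    have k1 : 0 ≤ 2 / 3 * θ * (X.L r - U.L r) + τ * ph1 r :=
      nonneg_of_mul_nonneg_left (b := U.t r) (dd.trans_eq (by ring)) ur
    rw [← mul_div_assoc, div_le_iff₀ θ0]
    nlinarith [mul_nonneg p0.le k1, mul_le_mul_of_nonneg_left k θ0.le]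
  have e := hE.2.2 r r1 (by linarith)
  obtain ⟨n1, n2⟩ := hNI r _ _ τ θ p0 (r2.trans c4) e.tlo e.thi e.glo e.ghi t0 hθ θ0 d2
  have ar : a < r := r1.lt_of_ne fun e => by subst e; linarith
  have e1 : -(-(r * U.L r)) / r = U.L r := by field_simp
  have e2 : r ^ 2 * U.t r / r ^ 2 = U.t r := by field_simp
  rw [e1, e2] at n2
  have jθ := (J2.const 1).sub (j2_ph.smul τ)
  have jE : J2 (fun s => (1 - τ * ph s) ^ 3) (fun s => 3 * (1 - τ * ph s) ^ 2 * -(τ * ph1 s))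
      (fun s => 6 * (1 - τ * ph s) * (τ * ph1 s) ^ 2 - 3 * (1 - τ * ph s) ^ 2 * (τ * ph2 s)) :=
    ((jθ.mul jθ).mul jθ).congr (fun _ _ => by ring) (fun _ _ => by ring) (fun _ _ => by ring)
  have tc := (hTOUCH z Q X h _ _ _ r ((j2_m hU).mul jE) p0
    (by unfold Q4.m; rw [← eq]; ring)).2 (by
      filter_upwards [Ioo_mem_nhds ar rc] with s hs
      have := mul_le_mul_of_nonneg_left ((Odd.strictMono_pow (R := ℝ) (by decide : Odd 3)).monotone
        (lo s hs.1.le hs.2.le)) (sq_nonneg s)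
      unfold Q4.m
      linarith)
  rw [← hθ, hb_mul (hU.mpos p0).ne' (pow_pos θ0 3).ne'] at tc
  have cap := hICAP z Q z' Q' τ r c X U h hU t0.le p0 r2 (by linarith) (fun s h1 h2 =>
    ⟨lo s (r1.trans h1) h2, by
      have s0 := p0.trans_le h1
      have us := hU.pos s s0
      have k := (hNB.1 s s0.le (by linarith)).1
      have k1 : s ^ 2 * U.t s ≤ 120043 / 10000 := (hE.2.2 s (r1.trans h1) (by linarith)).thi.trans
        (by unfold tHi; rw [div_le_iff₀ (by linarith)]; linarith)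
      exact (pow_le_pow_left₀ (by positivity) k1 3).trans (by norm_num)⟩) g1 g2
  have := div_le_div_of_nonneg_right cap p0.le
  unfold hh at tc
  rw [← eq, ← hθ] at tc
  rw [sub_div] at this
  nlinarith

end Pool.Agent.P.MP_97b9bc_mp.S

namespace Pool.Agent.P.MP_97b9bc_mp.S

open Set Filter Topology Pool.Agent.P.MP_97b9bc_mp.T

lemma ab_ostep (hFAR : S_FAR) {z Q a r : ℝ} {U : Q4} (h : Sol z 0 Q U) (ha : a ≤ 12)
    (hE : Env a Q U) (hr : 0 < r) (har : a ≤ r) :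
    0 ≤ -U.v r / U.m r ∧
    ((r ≤ 12 ∧ aLo r ≤ (U.w r + Q) / (r * U.m r) ∧ (U.w r + Q) / (r * U.m r) ≤ aHi r ∧
        -U.v r / U.m r ≤ bHi r) ∨
      (12 ≤ r ∧ 0 ≤ (U.w r + Q) / (r * U.m r) ∧ (U.w r + Q) / (r * U.m r) * r ≤ 593 / 2000 ∧
        -U.v r / U.m r * (2 * (47 / 10 - 99 / 5 / r)) ≤ 1)) := by
  have hm := h.mpos hr
  have hrm := mul_pos hr hm
  refine ⟨div_nonneg (neg_nonneg.2 (h.vneg r hr)) hm.le, (le_total r 12).imp (fun h1 => ?_)
    fun h1 => ?_⟩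
  · have e := hE.2.2 r har h1
    exact ⟨h1, (le_div_iff₀ hrm).2 e.alo, (div_le_iff₀ hrm).2 e.ahi, (div_le_iff₀ hm).2 e.bhi⟩
  · obtain ⟨-, -, f1, f2, -⟩ := hFAR z Q a U h ha hE r h1
    refine ⟨h1, div_nonneg (n_nonneg h hr) hrm.le, ?_, ?_⟩
    · rw [div_mul_eq_mul_div, div_le_iff₀ hrm]
      nlinarith [mul_le_mul_of_nonneg_left f1 hr.le]
    · rw [div_mul_eq_mul_div, div_le_one hm]
      exact f2

theorem p_OSTEP (hUPG : S_UPG) (hWB2 : S_WB2) (hFAR : S_FAR) (hNB : S_NB) (hNO1 : S_NO1) (hNO2 : S_NO2) (hNO3 : S_NO3) :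
    S_OSTEP := by
  intro z Q z' Q' a X U h hU hQ ha hE h0
  refine (hUPG z Q z' Q' (16 / 5) X U chO chO1 chO2 _ _ _ h hU hQ (by norm_num) j2_chO
    (j2_E cO (31 / 10) (d := 0) le_rfl) (fun r hr => ?_) (fun r hr => ?_) h0).resolve_right ?_
  · have r0 : 0 < r := by linarith
    have e1 : 31 / 10 / r < 1 := (div_lt_one r0).2 (by linarith)
    have e0 : 0 < 31 / 10 / r := by positivity
    obtain ⟨-, -, b1, b2⟩ := hNB.2.1 (31 / 10 / (r + 0)) (by rw [add_zero]; exact e0.le)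
      (by rw [add_zero]; exact e1.le)
    exact ⟨by unfold chO; nlinarith, abs_le.2 ⟨by unfold E0; linarith, by unfold E0; linarith⟩⟩
  · have r0 : 0 < r := by linarith
    obtain ⟨b1, b2⟩ := ab_ostep hFAR hU (by linarith) hE r0 (by linarith)
    have hm := hU.mpos r0
    have := mul_le_mul_of_nonneg_right (hNO1 r _ _ hr b1 b2) (div_pos hm r0).le
    rw [mul_div_assoc]
    refine this.trans_eq ?_
    have := hm.ne'
    have := r0.ne'
    field_simp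
    ring
  rintro ⟨r, τ, θ, hr, hτ, hθ, h3, -, c1, c2⟩
  have r0 : 0 < r := by linarith
  have hm := hU.mpos r0
  have ht := hU.pos r r0
  have e1 : -(-(r * U.L r)) / r = U.L r := by field_simp
  have e2 : r ^ 2 * U.t r / r ^ 2 = U.t r := by field_simp
  have e3 : (U.w r + Q') / (r * U.m r) * (r ^ 2 * U.t r) ^ 3 / r ^ 4 = (U.w r + Q') / r := by
    unfold Q4.m
    field_simp
  have key : τ * E0 cO (31 / 10) 0 r * ((U.w r + Q') / r) ≤ (θ ^ 2 - 1) * U.t r ^ 2 -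
      kin (U.L r) (θ ^ 3) (τ * chO1 r) (τ * chO2 r) ∨ nW r / r - (U.w r + Q') / r <
      (θ ^ 2 - 1) * U.t r ^ 2 - kin (U.L r) (θ ^ 3) (τ * chO1 r) (τ * chO2 r) := by
    rcases (ab_ostep hFAR hU (by linarith) hE r0 (by linarith)).2 with ⟨b1, b2, b3, -⟩ |
      ⟨b1, b2, b3, -⟩
    · have e := hE.2.2 r (by linarith) b1
      have := hNO2 r _ _ _ τ θ hr.le b1 e.tlo e.thi e.glo e.ghi b2 b3 hτ hθ h3
      rwa [e1, e2, e3] at this
    · obtain ⟨-, f1, -, -, f2⟩ := hFAR z' Q' a U hU (by linarith) hE r b1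
      have := hNO3 r _ (-(r * U.L r)) _ τ θ b1 (by positivity) f2 (by linarith) b2 b3 hτ hθ h3
      rwa [e1, e2, e3] at this
  have w2 := hWB2 z Q Q' X h hE.1 hE.2.1 hQ r hr.le
  rcases key with k | k
  · have := k.trans c2
    rw [← mul_div_assoc, div_le_div_iff_of_pos_right r0] at this
    linarith
  · have := k.trans_le c2
    rw [← sub_div, div_lt_div_iff_of_pos_right r0] at this
    linarith

end Pool.Agent.P.MP_97b9bc_mp.S

namespace Pool.Agent.P.MP_97b9bc_mp.S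

open Set Filter Topology Pool.Agent.P.MP_97b9bc_mp.T

lemma ab_zstep (hFAR : S_FAR) {z Q a r : ℝ} {U : Q4} (h : Sol z 0 Q U) (ha : a ≤ 12)
    (hE : Env a Q U) (hr : 0 < r) (har : a ≤ r) :
    0 ≤ -U.v r / U.m r ∧
    ((r ≤ 12 ∧ aLo r ≤ (U.w r + Q) / (r * U.m r) ∧ (U.w r + Q) / (r * U.m r) ≤ aHi r ∧
        -U.v r / U.m r ≤ bHi r) ∨
      (12 ≤ r ∧ 0 ≤ (U.w r + Q) / (r * U.m r) ∧ (U.w r + Q) / (r * U.m r) * r ≤ 593 / 2000 ∧
        -U.v r / U.m r * (2 * (47 / 10 - 99 / 5 / r)) ≤ 1)) := by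
  have hm := h.mpos hr
  have hrm := mul_pos hr hm
  refine ⟨div_nonneg (neg_nonneg.2 (h.vneg r hr)) hm.le, (le_total r 12).imp (fun h1 => ?_)
    fun h1 => ?_⟩
  · have e := hE.2.2 r har h1
    exact ⟨h1, (le_div_iff₀ hrm).2 e.alo, (div_le_iff₀ hrm).2 e.ahi, (div_le_iff₀ hm).2 e.bhi⟩
  · obtain ⟨-, -, f1, f2, -⟩ := hFAR z Q a U h ha hE r h1
    refine ⟨h1, div_nonneg (n_nonneg h hr) hrm.le, ?_, ?_⟩
    · rw [div_mul_eq_mul_div, div_le_iff₀ hrm]
      nlinarith [mul_le_mul_of_nonneg_left f1 hr.le]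
    · rw [div_mul_eq_mul_div, div_le_one hm]
      exact f2

theorem p_ZSTEP (hDNG : S_DNG) (hFAR : S_FAR) (hNB : S_NB) (hORD : S_ORD) (hNZ1 : S_NZ1) (hNZ2 : S_NZ2) (hNZ3 : S_NZ3) :
    S_ZSTEP := by
  intro z Q z' Q' a X U h hU hQ a0 ha hE h0 h1
  have pp : ∀ r : ℝ, 0 < r → 0 < E0 cZ 4 4 r ∧ E0 cZ 4 4 r < 1 := fun r r0 => by
    obtain ⟨b1, b2, -⟩ := hNB.2.1 (4 / (r + 4)) (by positivity)
      ((div_le_one (by linarith)).2 (by linarith))
    exact ⟨b1, b2⟩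
  refine hDNG z Q z' Q' a X U chi chi1 chi2 _ _ _ h hU hQ a0 j2_chi
    (j2_E cZ 4 (d := 4) (by norm_num)) (fun r hr => ?_) (fun r hr => ?_) h0 h1
    fun r s θ hr s0 s1 hθ h3 => ?_
  · have r0 := a0.trans_le hr
    obtain ⟨-, -, -, -, -, -, b1, b2⟩ := hORD r r0
    obtain ⟨b3, b4⟩ := pp r r0
    exact ⟨b1, b2, abs_le.2 ⟨by linarith, by linarith⟩⟩
  · have r0 := a0.trans_le hr
    obtain ⟨b1, b2⟩ := ab_zstep hFAR hU (by linarith) hE r0 hr
    have hm := hU.mpos r0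
    have := mul_le_mul_of_nonneg_right (hNZ1 r _ _ r0 b1 b2) (div_pos hm r0).le
    rw [mul_div_assoc (chi r)]
    refine le_of_eq_of_le ?_ this
    have := hm.ne'
    have := r0.ne'
    field_simp
    ring
  have r0 := a0.trans hr
  have hm := hU.mpos r0
  have ht := hU.pos r r0
  have e1 : -(-(r * U.L r)) / r = U.L r := by field_simp
  have e2 : r ^ 2 * U.t r / r ^ 2 = U.t r := by field_simp
  have e3 : (U.w r + Q') / (r * U.m r) * (r ^ 2 * U.t r) ^ 3 / r ^ 4 = (U.w r + Q') / r := by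
    unfold Q4.m
    field_simp
  rcases (ab_zstep hFAR hU (by linarith) hE r0 hr.le).2 with ⟨b1, b2, b3, -⟩ | ⟨b1, -⟩
  · have e := hE.2.2 r hr.le b1
    have := hNZ2 r _ _ _ s θ r0 b1 e.tlo e.thi e.glo e.ghi b2 b3 s0 s1 hθ h3
    rwa [e1, e2, e3, ← mul_div_assoc] at this
  · obtain ⟨-, f1, -, -, f2⟩ := hFAR z' Q' a U hU (by linarith) hE r b1
    have := hNZ3 r _ _ s θ b1 (by positivity) f2 f1 s0 s1 hθ h3
    rw [e1, e2] at this
    exact this.trans (div_nonneg (mul_nonneg (mul_pos s0 (pp r r0).1).le (n_nonneg hU r0)) r0.le)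

end Pool.Agent.P.MP_97b9bc_mp.S

namespace Pool.Agent.P.MP_97b9bc_mp.S

open Set Filter Topology Pool.Agent.P.MP_97b9bc_mp.T

theorem p_CMP (hLOGC : S_LOGC) (hDECAY : S_DECAY) (hZS : S_ZS) (hFINAL : S_FINAL) (hNB : S_NB) (hORD : S_ORD) (hV1 : S_V1) (hV2 : S_V2) (hV3 : S_V3) (hE12 : S_E12) (hE23 : S_E23) (hISTEP : S_ISTEP) (hOSTEP : S_OSTEP) (hZSTEP : S_ZSTEP) (hLINK : S_LINK) :
    S_CMP := by
  intro z Q X hX
  obtain ⟨δ, hδ, h0⟩ := (hLOGC z Q X hX).2 (1 / 1024) (by norm_num)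
  have ha : 0 < min δ 1 := lt_min hδ one_pos
  have ha1 : min δ 1 ≤ 1 := min_le_right _ _
  obtain ⟨h1, h2⟩ := h0 _ ha (min_le_left _ _)
  refine ⟨min δ 1, ha, fun z' Q' U hU hE => le_of_not_gt fun hQ => ?_⟩
  generalize min δ 1 = a at *
  have hQ1 : 9173 / 10000 ≤ Q := hE.1.trans hQ.le
  have em : ∀ r, 0 < r → U.m r = (r ^ 2 * U.t r) ^ 3 / r ^ 4 := fun r hr => by
    have := hr.ne'
    unfold Q4.m
    field_simp
  have hm : 343 ≤ U.m a := by
    obtain ⟨n1, n2, -⟩ := hNB.1 a ha.le (by linarith)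
    have h3 : 7 ≤ a ^ 2 * U.t a := le_trans ((le_div_iff₀ (by linarith)).2 (by linarith))
      (hE.2.2 a le_rfl (by linarith)).tlo
    rw [em a ha, le_div_iff₀ (by positivity)]
    have h4 := pow_le_pow_left₀ (by norm_num) h3 3
    have h5 := pow_le_one₀ (n := 4) ha.le ha1
    linarith
  have ht : X.t a ≤ 3 / 10 * U.t a := by
    refine le_of_not_gt fun h => ?_
    have h3 := pow_le_pow_left₀ (by have := hU.pos a ha; positivity) h.le 3
    have h4 := mul_le_mul_of_nonneg_left h3 (sq_nonneg a)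
    unfold Q4.m at hm h2
    nlinarith
  have hI : ∀ r, a ≤ r → r ≤ 16 / 5 → X.m r ≤ U.m r := fun r b1 b2 =>
    mul_le_mul_of_nonneg_left (pow_le_pow_left₀ (hX.pos r (ha.trans_le b1)).le
      (hISTEP z Q z' Q' a X U hX hU ha ha1 hE ht r b1 b2).le 3) (sq_nonneg r)
  have hO : ∀ r, a ≤ r → X.m r ≤ U.m r := fun r b1 => (le_total r (16 / 5)).elim (hI r b1)
    (hOSTEP z Q z' Q' a X U hX hU hQ ha1 hE (hI _ (by linarith) le_rfl) r)
  have hZ := hZSTEP z Q z' Q' a X U hX hU hQ ha ha1 hE hO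
    (by nlinarith [(hORD a ha).2.2.2.2.2.2.2])
  have hM1 : ∀ r, a ≤ r → X.m r ≤ M1 r := fun r b1 => by
    have hr := ha.trans_le b1
    have h3 := (hORD r hr).2.2.2.2.2.2.2
    refine (hZ r b1).trans ?_
    rw [em r hr, M1, mul_comm]
    have := hU.pos r hr
    gcongr
    · linarith
    · exact hLINK z' Q' a U hU ha ha1 hE r b1
  have hs : X.m a ≤ M3 a := by
    refine h2.trans (le_trans ?_ (hORD a ha).2.2.1)
    rw [show (1024 : ℝ) = (1 + 1) ^ 10 by norm_num]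
    gcongr
  have hf : ∀ᶠ r in atTop, X.m r ≤ M3 r ∧ 0 < r :=
    ((hDECAY z Q X hX (by linarith)).and (eventually_gt_atTop 0)).mono fun r h =>
      ⟨h.1.trans (hORD r h.2).2.2.1, h.2⟩
  have hM2 := hZS z Q a X _ _ _ _ _ _ _ _ hX hQ1 ha hV1 hV2 (fun r hr => (hORD r hr).1) hE12 hM1
    (hs.trans (hORD a ha).2.1.le) (hf.mono fun r h => h.1.trans (hORD r h.2).2.1.le)
  have hM3 := hZS z Q a X _ _ _ _ _ _ _ _ hX hQ1 ha hV2 hV3 (fun r hr => (hORD r hr).2.1) hE23 hM2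
    hs (hf.mono fun r h => h.1)
  exact hFINAL z Q a X hX hQ1 ha ha1 (by linarith)
    fun r b1 => (hM3 r b1).trans (hORD r (ha.trans_le b1)).2.2.2.1

end Pool.Agent.P.MP_97b9bc_mp.S
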