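import Pool.Agent.P.MP_97b9bc_mp.S.IfaceB
import Pool.Agent.P.MP_97b9bc_mp.S.IfaceA
import Pool.Agent.P.MP_97b9bc_mp.T.NSound

/-! Steps NUMY. -/

set_option autoImplicit false

namespace Pool.Agent.P.MP_97b9bc_mp.S

open Set Filter Topology Pool.Agent.P.MP_97b9bc_mp.T

namespace Numy

/-- `a + (x + c) q` -/
def mlin (c : ℚ) : ℚ → List ℚ → List ℚ
  | a, [] => [a]
  | a, b :: q => (a + c * b) :: mlin c b q

/-- `p (x + c)` -/
def shf (c : ℚ) : List ℚ → List ℚ
  | [] => []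
  | a :: p => mlin c a (shf c p)

/-- `p ((x + c) / 10)` -/
def sc (c : ℚ) : List ℚ → List ℚ
  | [] => []
  | a :: p => mlin c a (psm (1 / 10) (sc c p))

/-- a short lower bound of `p` -/
def tr (g : ℚ) (p : List ℚ) : List ℚ := padd [-(g ^ 8 * absb (p.drop 8) g)] (p.take 8)

/-- `q` is nonnegative on `n + 1` adjacent intervals of radius `h`, the first with centre `m` -/
def nn (q : List ℚ) (h : ℚ) : ℚ → ℕ → Bool
  | m, 0 => decide (0 ≤ (shf m q).headD 0 - dev (shf m q) h)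
  | m, n + 1 => decide (0 ≤ (shf m q).headD 0 - dev (shf m q) h) && nn q h (m + 2 * h) n

def envL (t t3 A B C D V : List ℚ) : List (List ℚ) :=
  [padd [24 / 10 ^ 4] A, padd [24 / 10 ^ 4] (psm (-1) A), padd (psm (17 / 10 ^ 4) t) B,
    padd (psm (17 / 10 ^ 4) t) (psm (-1) B), padd (psm (75 / 10 ^ 5) t3) C,
    padd (psm (75 / 10 ^ 5) t3) (psm (-1) C), D, psm (-1) V]

def envP (c : ℚ) (t t3 D W V : List ℚ) : List (List ℚ) :=
  envL t t3 (padd (pmul t (sc c pT)) [-12])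
    (padd (psm (3 / 2) D) (pmul (padd (sc c pG) [-2]) t))
    (padd (pmul (padd W (mlin c 0 (mlin c 0 (mlin c 0 [917437 / 10 ^ 6])))) (sc c pA))
      (psm (-1) t3))
    (padd (psm (1 + 3 / 10 ^ 4) t3) (pmul V (sc c pB))) V

def okE (c g h m : ℚ) (n : ℕ) (t D W V : List ℚ) : Bool :=
  (envP c t (pmul t (pmul t t)) D W V).all fun p => nn (tr g p) h m n

def nsub (a : ℚ) : ℕ := if a < 3 then 0 else if a < 8 then 1 else if a < 10 then 3 else 5

def okP (a b c g : ℚ) (T W V : List ℚ) : Bool :=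
  decide (13 < a) ||
    okE c g ((min b 13 - a) / (2 * (nsub a + 1))) (-g + (min b 13 - a) / (2 * (nsub a + 1)))
      (nsub a) (mlin c 0 (mlin c 0 T))
      (padd (psm 2 (mlin c 0 (mlin c 0 T))) (mlin c 0 (mlin c 0 (mlin c 0 (pder T)))))
      (mlin c 0 (mlin c 0 (mlin c 0 W))) (mlin c 0 (mlin c 0 (mlin c 0 (mlin c 0 V))))

def chk2 : List Pc → ℚ → ℚ → ℚ → Bool
  | [], a, _, _ => decide (13 < a)
  | P :: ps, a, w0, v0 =>
    decide (P.E ≤ 1 / 10 ^ 6) &&
      okP a P.b ((a + P.b) / 2) ((P.b - a) / 2) P.T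
        (pint (-((P.b - a) / 2)) w0 (pV ((a + P.b) / 2) ((P.b - a) / 2) v0 P.T))
        (pV ((a + P.b) / 2) ((P.b - a) / 2) v0 P.T) &&
      chk2 ps P.b
        (evQ (pint (-((P.b - a) / 2)) w0 (pV ((a + P.b) / 2) ((P.b - a) / 2) v0 P.T))
          ((P.b - a) / 2))
        (evQ (pV ((a + P.b) / 2) ((P.b - a) / 2) v0 P.T) ((P.b - a) / 2))

def chkIn2 (P W : List ℚ) (E : ℚ) (ps : List Pc) : Bool :=
  decide (E ≤ 1 / 10 ^ 6) && okE 0 (1 / 2) (1 / 4) (1 / 4) 0 P (0 :: pder P) W (inV W) &&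
    chk2 ps (1 / 2) (8 * evQ W (1 / 2)) (16 * evQ (inV W) (1 / 2))

theorem chk_data2 : chkIn2 dP (inW dβ 0 (pmul dP (pmul dP dP))) dE pcs = true := by
  decide +kernel

lemma ev_mlin (c a : ℚ) (q : List ℚ) (x : ℝ) : ev (mlin c a q) x = a + (x + c) * ev q x := by
  induction q generalizing a with
  | nil => simp [mlin, ev]
  | cons b q ih => simp only [mlin, ev, ih]; push_cast; ring

lemma ev_shf (c : ℚ) (p : List ℚ) (x : ℝ) : ev (shf c p) x = ev p (x + c) := by
  induction p with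
  | nil => rfl
  | cons a p ih => simp only [shf, ev, ev_mlin, ih]

lemma ev_sc (c : ℚ) (p : List ℚ) (x : ℝ) : ev (sc c p) x = ev p ((x + c) / 10) := by
  induction p with
  | nil => rfl
  | cons a p ih => simp only [sc, ev, ev_mlin, ev_psm, ih]; push_cast; ring

lemma ev_take (k : ℕ) (p : List ℚ) (x : ℝ) :
    ev p x = ev (p.take k) x + x ^ k * ev (p.drop k) x := by
  induction k generalizing p with
  | zero => simp [ev]
  | succ k ih =>
    cases p with
    | nil => simp [ev]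
    | cons a p => simp only [List.take_succ_cons, List.drop_succ_cons, ev]; rw [ih p]; ring

lemma ev_tr {g : ℚ} (p : List ℚ) {x : ℝ} (hx : |x| ≤ g) : ev (tr g p) x ≤ ev p x := by
  have h1 : |x ^ 8 * ev (p.drop 8) x| ≤ g ^ 8 * absb (p.drop 8) g := by
    rw [abs_mul, abs_pow]
    exact mul_le_mul (pow_le_pow_left₀ (abs_nonneg x) hx 8) (abs_ev_le _ hx) (abs_nonneg _)
      (by positivity)
  rw [ev_take 8 p x]
  simp only [tr, ev_padd, ev]
  push_cast
  linarith [(abs_le.1 h1).1]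

lemma one_sound {q : List ℚ} {h m : ℚ} (H : 0 ≤ (shf m q).headD 0 - dev (shf m q) h) {x : ℝ}
    (h1 : m - h ≤ x) (h2 : x ≤ m + h) : 0 ≤ ev q x := by
  have := (ev_dev (shf m q) (x := x - m) (g := h) (abs_le.2 ⟨by linarith, by linarith⟩)).1
  rw [ev_shf, sub_add_cancel] at this
  exact le_trans (by exact_mod_cast H) this

lemma nn_sound {q : List ℚ} {h : ℚ} {x : ℝ} (n : ℕ) : ∀ m : ℚ, nn q h m n = true → m - h ≤ x →
    x ≤ m + h + 2 * h * n → 0 ≤ ev q x := by
  induction n with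
  | zero =>
    intro m H h1 h2
    simp only [nn, decide_eq_true_eq] at H
    exact one_sound H h1 (by simpa using h2)
  | succ n ih =>
    intro m H h1 h2
    simp only [nn, Bool.and_eq_true, decide_eq_true_eq] at H
    rcases le_total x (m + h) with h3 | h3
    · exact one_sound H.1 h1 h3
    · refine ih _ H.2 ?_ ?_ <;> push_cast at h2 ⊢ <;> linarith

lemma okE_sound {c g h m : ℚ} {n : ℕ} {t D W V : List ℚ} (H : okE c g h m n t D W V = true)
    {r : ℝ} (hx : |r - c| ≤ g) (h1 : m - h ≤ r - c) (h2 : r - c ≤ m + h + 2 * h * n) (hr : 0 < r)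
    (ht : 0 < ev t (r - c)) :
    EY r (ev t (r - c) / r ^ 2) ((3 / 2 * ev D (r - c) / ev t (r - c) - 2) / r)
      (ev W (r - c) / r ^ 3) (ev V (r - c) / r ^ 4) := by
  have H1 : ∀ p ∈ envP c t (pmul t (pmul t t)) D W V, 0 ≤ ev p (r - c) := fun p hp =>
    (nn_sound n m (List.all_eq_true.1 H p hp) h1 h2).trans (ev_tr p hx)
  simp only [envP, envL, List.forall_mem_cons, ev_padd, ev_psm, ev_pmul, ev_sc, ev_mlin, ev,
    sub_add_cancel] at H1
  push_cast at H1
  obtain ⟨a1, a2, a3, a4, a5, a6, a7, a8, -⟩ := H1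
  unfold EY PT PG PA PB
  generalize ev t (r - c) = τ at *
  generalize ev D (r - c) = d at *
  generalize ev W (r - c) = w at *
  generalize ev V (r - c) = v at *
  have h0 := hr.ne'
  have h3 := ht.ne'
  refine ⟨?_, ?_, ?_, ?_, div_nonpos_of_nonpos_of_nonneg (by linarith) (by positivity)⟩
  · rw [mul_div_cancel₀ _ (by positivity)]
    exact abs_le.2 ⟨by linarith, by linarith⟩
  · rw [show r * ((3 / 2 * d / τ - 2) / r) + ev pG (r / 10) =
      (3 / 2 * d + (ev pG (r / 10) - 2) * τ) / τ by field_simp; ring, abs_div, abs_of_pos ht,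
      div_le_iff₀ ht]
    exact abs_le.2 ⟨by linarith, by linarith⟩
  · rw [show (w / r ^ 3 + 917437 / 10 ^ 6) * ev pA (r / 10) - r ^ 3 * (τ / r ^ 2) ^ 3 =
      ((w + 917437 / 10 ^ 6 * r ^ 3) * ev pA (r / 10) - τ ^ 3) / r ^ 3 by field_simp,
      show 75 / 10 ^ 5 * (r ^ 3 * (τ / r ^ 2) ^ 3) = 75 / 10 ^ 5 * τ ^ 3 / r ^ 3 by field_simp,
      abs_div, abs_of_pos (pow_pos hr 3)]
    exact div_le_div_of_nonneg_right (abs_le.2 ⟨by linarith, by linarith⟩) (by positivity)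
  · rw [show -(v / r ^ 4) * ev pB (r / 10) = -v * ev pB (r / 10) / r ^ 4 by ring,
      show (1 + 3 / 10 ^ 4) * (r ^ 2 * (τ / r ^ 2) ^ 3) = (1 + 3 / 10 ^ 4) * τ ^ 3 / r ^ 4 by
        field_simp]
    exact div_le_div_of_nonneg_right (by linarith) (by positivity)

lemma okP_sound {a b c g : ℚ} {T W V : List ℚ} (hc : c = (a + b) / 2) (hg : g = (b - a) / 2)
    (H : okP a b c g T W V = true) {r : ℝ} (hr : 0 < r) (h1 : a ≤ r) (h2 : r ≤ b) (h3 : r ≤ 13)
    (ht : 0 < ev T (r - c)) :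
    EY r (ev T (r - c)) (3 / 2 * ev (pder T) (r - c) / ev T (r - c) + 1 / r) (ev W (r - c))
      (ev V (r - c)) := by
  simp only [okP, Bool.or_eq_true, decide_eq_true_eq] at H
  rcases H with H | H
  · have := (Rat.cast_lt (K := ℝ)).2 H
    push_cast at this
    linarith
  have ea : (a : ℝ) - c = -g := by rw [hc, hg]; push_cast; ring
  have eb : (b : ℝ) - c = g := by rw [hc, hg]; push_cast; ring
  have h0 := hr.ne'
  have h4 := ht.ne'
  have key := okE_sound H (r := r) (abs_le.2 ⟨by linarith, by linarith⟩)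
    (by push_cast; linarith) ?_ hr (by simp only [ev_mlin, sub_add_cancel]; push_cast; positivity)
  · simp only [ev_mlin, ev_padd, ev_psm, sub_add_cancel] at key
    push_cast at key
    convert key using 1 <;> field_simp <;> ring
  · push_cast
    have h5 : r ≤ min (b : ℝ) 13 := le_min h2 h3
    generalize min (b : ℝ) 13 = u at *
    have : (u - a) / (2 * (nsub a + 1)) * (2 * (nsub a + 1)) = u - a :=
      div_mul_cancel₀ _ (by positivity)
    linarith

lemma mono2 {a t0 l0 w0 v0 s s' : ℝ} (h : From2 EY a t0 l0 w0 v0 s) (hs : s ≤ s') :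
    From2 EY a t0 l0 w0 v0 s' := by
  obtain ⟨X, e, P, p, h1, h2, h3, h4, h5, h6⟩ := h
  exact ⟨X, e, P, p, h1, h2, h3, h4, fun r hr =>
    ⟨(h5 r hr).1, (h5 r hr).2.1, (h5 r hr).2.2.1.trans hs, (h5 r hr).2.2.2⟩, h6⟩

lemma okPc_sound2 (hP : S_PIECE2) {a b c g E t0 t1 w0 v0 : ℚ} {s : ℝ} {T : List ℚ}
    (hc : c = (a + b) / 2) (hg : g = (b - a) / 2)
    (h : okPc a b c g E t0 t1 T (pint (-g) w0 (pV c g v0 T)) = true) (hE : E ≤ 1 / 10 ^ 6)
    (H : okP a b c g T (pint (-g) w0 (pV c g v0 T)) (pV c g v0 T) = true)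
    (hF : From2 EY b (evQ T g) (3 / 2 * (evQ (pder T) g : ℚ) / (evQ T g : ℚ) + 1 / b)
      (evQ (pint (-g) w0 (pV c g v0 T)) g) (evQ (pV c g v0 T) g) s) :
    From2 EY a t0 (3 / 2 * t1 / t0 + 1 / a) w0 v0 (s + (cost b g E T : ℚ) * (b - a)) := by
  set V := pV c g v0 T with hV
  set W := pint (-g) w0 V with hW
  simp only [okPc, Bool.and_eq_true, Bool.or_eq_true, decide_eq_true_eq] at h
  obtain ⟨⟨⟨⟨⟨⟨⟨⟨h1, h2⟩, h3⟩, h4⟩, -⟩, h6⟩, h7⟩, h8⟩, h9⟩ := h
  have ea : (a : ℝ) - c = ((-g : ℚ) : ℝ) := by rw [hc, hg]; push_cast; ring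
  have eb : (b : ℝ) - c = ((g : ℚ) : ℝ) := by rw [hc, hg]; push_cast; ring
  have ha : (0 : ℝ) < a := by exact_mod_cast h1
  have hm : (0 : ℝ) < ((T.headD 0 - dev T g : ℚ) : ℝ) := by exact_mod_cast h3
  have key := hP EY a b E ((T.headD 0 - dev T g : ℚ) : ℝ) ((T.headD 0 + dev T g : ℚ) : ℝ)
    (cost b g E T : ℚ) s (fun r => ev T (r - c)) (fun r => ev (pder T) (r - c))
    (fun r => ev (pder (pder T)) (r - c)) (fun r => ev W (r - c)) (fun r => ev V (r - c))
    ha (by exact_mod_cast h2) hm (by exact_mod_cast h4)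
    (by have := (Rat.cast_le (K := ℝ)).2 hE; push_cast at this; exact this)
    (by unfold cost; push_cast; exact le_rfl) ?_
    (by simp only [eb, ev_cast]; exact hF)
  · simp only [ea, ev_cast, h6, h7] at key
    rwa [hW, evQ_pint, hV, pV, evQ_pint] at key
  intro r hr1 hr2
  have hx : |r - c| ≤ g := by
    rw [abs_le]
    push_cast at ea
    constructor <;> linarith
  refine ⟨hasDerivAt_shift _ (hasDerivAt_ev _) r, hasDerivAt_shift _ (hasDerivAt_ev _) r,
    hasDerivAt_shift _ (hasDerivAt_pint _ _ _) r, ?_, (ev_dev T hx).1, (ev_dev T hx).2, ?_, ?_,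
    fun h13 => okP_sound hc hg H (ha.trans_le hr1) hr1 hr2 h13 (hm.trans_le (ev_dev T hx).1)⟩
  · refine (hasDerivAt_shift _ (hasDerivAt_pint _ _ _) r).congr_deriv ?_
    simp only [ev_pmul, ev]
    push_cast
    ring
  · have h10 := (abs_ev_le (resid c T W) hx).trans ((Rat.cast_le (K := ℝ)).2 h8)
    simp only [resid, ev_padd, ev_pmul, ev_psm, ev] at h10
    push_cast at h10 ⊢
    refine le_trans (le_of_eq ?_) h10
    congr 1
    ring
  · intro h31 hb
    rcases h9 with h9 | ⟨⟨h9, h10⟩, h11⟩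
    · have := (Rat.cast_le (K := ℝ)).2 h9
      push_cast at this
      linarith
    · have h9' := (Rat.cast_le (K := ℝ)).2 h9
      have h10' := (Rat.cast_le (K := ℝ)).2 h10
      have h11' := (Rat.cast_le (K := ℝ)).2 h11
      have a1 := (ev_dev T hx).2
      have a2 := ev_dev W hx
      unfold lo hi
      push_cast at h9' h10' h11' a1 a2
      refine ⟨by linarith, by linarith [a2.2], by linarith [a2.1]⟩

lemma chk_sound2 (hT : S_TLN) (hP : S_PIECE2) (ps : List Pc) :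
    ∀ a t0 t1 w0 v0 s : ℚ, chk ps a t0 t1 w0 v0 s = true → chk2 ps a w0 v0 = true →
      From2 EY a t0 (3 / 2 * t1 / t0 + 1 / a) w0 v0 s := by
  induction ps with
  | nil =>
    intro a t0 t1 w0 v0 s h H
    have ha := (Rat.cast_lt (K := ℝ)).2 (of_decide_eq_true H)
    push_cast at ha
    obtain ⟨X, e, P, p, h1, h2, h3, h4, h5, h6⟩ := okTail_sound hT h
    exact ⟨X, e, P, p, h1, h2, h3, h4, h5, fun r a b => by linarith, h6⟩
  | cons P ps ih =>
    intro a t0 t1 w0 v0 s h H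
    rw [chk, Bool.and_eq_true] at h
    rw [chk2, Bool.and_eq_true, Bool.and_eq_true] at H
    refine mono2 (okPc_sound2 hP rfl rfl h.1 (of_decide_eq_true H.1.1) H.1.2
      (ih _ _ _ _ _ _ h.2 H.2)) (le_of_eq ?_)
    push_cast
    ring

lemma chkIn_sound2 (hT : S_TLN) (hP : S_PIECE2) (hI : S_INNER2) {P W : List ℚ} {E S : ℚ}
    {ps : List Pc} (h : chkIn P W E ps S = true) (H : chkIn2 P W E ps = true) : NumC2 EY S := by
  simp only [chkIn, Bool.and_eq_true, decide_eq_true_eq] at h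
  simp only [chkIn2, Bool.and_eq_true, decide_eq_true_eq] at H
  obtain ⟨⟨⟨⟨⟨⟨⟨⟨⟨⟨h1, -⟩, h3⟩, h4⟩, h5⟩, h6⟩, h7⟩, h8⟩, h9⟩, h10⟩, h11⟩ := h
  have hF := chk_sound2 hT hP ps _ _ _ _ _ _ h11 H.2
  have hb : ∀ {p : List ℚ} {k : ℚ} {r : ℝ}, 0 < r → r ≤ 1 / 2 → absb p (1 / 2) ≤ k →
      |ev p r| ≤ k := fun {p k r} h1 h2 h3 =>
    (abs_ev_le p (h := 1 / 2) (by rw [abs_of_pos h1]; push_cast; exact h2)).trans
      (Rat.cast_le.2 h3)
  have hP12 : ∀ r : ℝ, 0 < r → r ≤ 1 / 2 → |ev P r - 12| ≤ r := fun r h1 h2 => by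
    have := hb h1 h2 h5
    rw [ev_head_tail, h4]
    push_cast at this ⊢
    rw [add_sub_cancel_left, abs_mul, abs_of_pos h1]
    exact mul_le_of_le_one_right h1.le this
  have hp : ∀ r : ℝ, 0 < r → r ≤ 1 / 2 → 0 < ev P r := fun r h1 h2 => by
    linarith [(abs_le.1 (hP12 r h1 h2)).1]
  have key := hI EY E ((S - 13 / 2 * E ^ 2 : ℚ) : ℝ) (ev P) (ev (pder P)) (ev (pder (pder P)))
    (ev W) (ev (pder W)) (ev (inV W)) (ev (pder (inV W))) (by exact_mod_cast h1)
    (by have := (Rat.cast_le (K := ℝ)).2 H.1.1; push_cast at this; exact this) ?_ ?_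
  · convert key using 1
    push_cast
    ring
  · intro r hr1 hr2
    refine ⟨hasDerivAt_ev _ _, hasDerivAt_ev _ _, hasDerivAt_ev _ _, hasDerivAt_ev _ _, ?_, ?_,
      hP12 r hr1 hr2, by exact_mod_cast hb hr1 hr2 h6, by exact_mod_cast hb hr1 hr2 h7,
      by exact_mod_cast hb hr1 hr2 h8, ?_, ?_⟩
    · simp only [inV, ev_padd, ev_psm, ev]
      push_cast
      ring
    · have := ev_allz h3 r
      simp only [ev_padd, ev_psm, ev_pmul, ev] at this
      push_cast at this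
      linarith
    · have a1 := hb hr1 hr2 h10
      have a2 := ev_drop4 h9 r
      have a3 : |ev (inN P W) r| ≤ E * (132 * r ^ 4) := by
        rw [a2, abs_mul, abs_of_pos (by positivity : 0 < r ^ 4)]
        push_cast at a1
        nlinarith [pow_pos hr1 4]
      simp only [inN, ev_padd, ev_psm, ev_pmul, ev] at a3
      push_cast at a3
      refine le_trans (le_of_eq ?_) a3
      congr 1
      ring
    · have a0 := hp r hr1 hr2
      have a1 := okE_sound H.1.2 (r := r) (by push_cast; rw [sub_zero, abs_of_pos hr1]; exact hr2)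
        (by push_cast; linarith) (by push_cast; linarith) hr1 (by simpa using a0)
      simp only [ev, Rat.cast_zero, sub_zero] at a1
      convert a1 using 1
      have := hr1.ne'
      have := a0.ne'
      field_simp
      ring
  · have e2 : ((1 / 2 : ℚ) : ℝ) = 1 / 2 := by norm_num
    have hp := hp (1 / 2) (by norm_num) le_rfl
    push_cast at hF
    simp only [← ev_cast, e2] at hF
    convert hF using 1
    · field_simp
      ring
    · push_cast
      ring

end Numy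

theorem p_NUMY (hTLN : S_TLN) (hPIECE2 : S_PIECE2) (hINNER2 : S_INNER2) :
    S_NUMY := by
  have := Numy.chkIn_sound2 hTLN hPIECE2 hINNER2 chk_data Numy.chk_data2
  push_cast at this
  exact this

end Pool.Agent.P.MP_97b9bc_mp.S
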