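import Pool.Agent.P.MP_97b9bc_mp.T.All
import Pool.Agent.P.MP_97b9bc_mp.S.PA
import Pool.Agent.P.MP_97b9bc_mp.S.PB
import Pool.Agent.P.MP_97b9bc_mp.S.PC
import Pool.Agent.P.MP_97b9bc_mp.S.PD
import Pool.Agent.P.MP_97b9bc_mp.S.PE
import Pool.Agent.P.MP_97b9bc_mp.S.PF
import Pool.Agent.P.MP_97b9bc_mp.S.PG
import Pool.Agent.P.MP_97b9bc_mp.S.PH
import Pool.Agent.P.MP_97b9bc_mp.S.PI

/-! All steps together. -/

set_option autoImplicit false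

namespace Pool.Agent.P.MP_97b9bc_mp.S

open Pool.Agent.P.MP_97b9bc_mp.T

theorem all_LOGC : S_LOGC :=
  p_LOGC
theorem all_PQP : S_PQP :=
  p_PQP all_END
theorem all_CVX : S_CVX :=
  p_CVX
theorem all_TOUCH : S_TOUCH :=
  p_TOUCH
theorem all_SLIDE : S_SLIDE :=
  p_SLIDE all_TOUCH
theorem all_RATIO : S_RATIO :=
  p_RATIO all_END
theorem all_DECAY : S_DECAY :=
  p_DECAY all_TAIL
theorem all_GSIGN : S_GSIGN :=
  p_GSIGN all_GD all_OUTB all_END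
theorem all_WB1 : S_WB1 :=
  p_WB1 all_LOGC
theorem all_WBG : S_WBG :=
  p_WBG all_LOGC all_PQP
theorem all_FARG : S_FARG :=
  p_FARG all_END all_CVX
theorem all_ZS : S_ZS :=
  p_ZS all_SLIDE all_CVX
theorem all_FINAL : S_FINAL :=
  p_FINAL all_LOGC all_CVX all_END
theorem all_UPG : S_UPG :=
  p_UPG all_SLIDE all_CVX all_RATIO
theorem all_DNG : S_DNG :=
  p_DNG all_SLIDE all_CVX all_RATIO
theorem all_ENCA : S_ENCA :=
  p_ENCA all_GD all_WINE all_END all_WIN all_OUTB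
theorem all_ENCW : S_ENCW :=
  p_ENCW
theorem all_ENCT : S_ENCT :=
  p_ENCT all_ENCW
theorem all_ENCL : S_ENCL :=
  p_ENCL all_ENCW
theorem all_ENCV : S_ENCV :=
  p_ENCV all_ENCW
theorem all_PIECE2 : S_PIECE2 :=
  p_PIECE2 all_GLUE
theorem all_INNER2 : S_INNER2 :=
  p_INNER2 all_GLUE
theorem all_NB : S_NB :=
  p_NB
theorem all_NZ1 : S_NZ1 :=
  p_NZ1
theorem all_NO1 : S_NO1 :=
  p_NO1
theorem all_NZ2 : S_NZ2 :=
  p_NZ2 all_NB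
theorem all_NZ3 : S_NZ3 :=
  p_NZ3
theorem all_NO2 : S_NO2 :=
  p_NO2 all_NB
theorem all_NO3 : S_NO3 :=
  p_NO3 all_NB
theorem all_NW : S_NW :=
  p_NW
theorem all_NI : S_NI :=
  p_NI all_NB
theorem all_NL : S_NL :=
  p_NL all_NB
theorem all_ORD : S_ORD :=
  p_ORD
theorem all_V1 : S_V1 :=
  p_V1 all_ORD
theorem all_V2 : S_V2 :=
  p_V2 all_ORD
theorem all_V3 : S_V3 :=
  p_V3 all_ORD
theorem all_E12 : S_E12 :=
  p_E12 all_ORD
theorem all_E23 : S_E23 :=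
  p_E23 all_ORD
theorem all_FAR : S_FAR :=
  p_FAR all_FARG all_NB
theorem all_ICAP : S_ICAP :=
  p_ICAP all_CVX
theorem all_ISTEP : S_ISTEP :=
  p_ISTEP all_LOGC all_TOUCH all_GSIGN all_ICAP all_NI all_NB
theorem all_WB2 : S_WB2 :=
  p_WB2 all_WB1 all_WBG all_NW
theorem all_OSTEP : S_OSTEP :=
  p_OSTEP all_UPG all_WB2 all_FAR all_NB all_NO1 all_NO2 all_NO3
theorem all_ZSTEP : S_ZSTEP :=
  p_ZSTEP all_DNG all_FAR all_NB all_ORD all_NZ1 all_NZ2 all_NZ3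
theorem all_LINK : S_LINK :=
  p_LINK all_FAR all_NL
theorem all_CMP : S_CMP :=
  p_CMP all_LOGC all_DECAY all_ZS all_FINAL all_NB all_ORD all_V1 all_V2 all_V3 all_E12 all_E23 all_ISTEP all_OSTEP all_ZSTEP all_LINK
theorem all_ENVA : S_ENVA :=
  p_ENVA all_NB
theorem all_NUMY : S_NUMY :=
  p_NUMY all_TLN all_PIECE2 all_INNER2
theorem all_ENC : S_ENC :=
  p_ENC all_VAL all_NUMY all_ENCA all_ENCW all_ENCT all_ENCL all_ENCV all_ENVA all_NB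

end Pool.Agent.P.MP_97b9bc_mp.S

namespace Pool.Agent.P.MP_97b9bc_mp.S

open MeasureTheory Set Filter Topology Pool.Agent.P.MP_97b9bc_mp.T

theorem fin {q κ : ℝ} (hκ : 0 < κ) (hG : S_GLOB) (hC : S_CMP) (hE : S_ENC) {A γ C : ℝ}
    (hA : 0 < A) (hγ : 0 < γ)
    (h : ∀ z : ℝ, 0 < z → ∀ ρ, IsGround A γ z ρ → |(∫ x, ρ x) - z - q| ≤ C * z ^ (-κ))
    {z : ℝ} (hz : 0 < z) {ρ : R3 → ℝ} (hρ : IsGround A γ z ρ) : (∫ x, ρ x) - z ≤ q := by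
  have hc := cc_pos hA hγ
  obtain ⟨X, hX⟩ := (hG A γ z hA hγ hz).2 ρ hρ
  obtain ⟨a, ha, h1⟩ := hC _ _ X hX
  obtain ⟨z0, h2⟩ := hE a ha
  have hl : Tendsto (fun y : ℝ => q + C * y ^ (-κ)) atTop (𝓝 q) := by
    simpa using ((tendsto_rpow_neg_atTop hκ).const_mul C).const_add q
  refine ge_of_tendsto hl ?_
  filter_upwards [eventually_gt_atTop 0, eventually_ge_atTop (z0 * cc A γ)] with y hy hy'
  obtain ⟨⟨σ, hσ⟩, h3⟩ := hG A γ y hA hγ hy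
  obtain ⟨U, hU⟩ := h3 σ hσ
  have h4 := h1 _ _ U hU (h2 _ _ U ((le_div_iff₀ hc).2 hy') hU)
  rw [div_le_div_iff_of_pos_right hc] at h4
  linarith [(abs_le.1 (h y hy σ hσ)).2]

end Pool.Agent.P.MP_97b9bc_mp.S
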