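import Pool.Agent.P.MP_97b9bc_mp.T.IfaceA
import Pool.Agent.P.MP_97b9bc_mp.T.IfaceB
import Pool.Agent.P.MP_97b9bc_mp.T.IfaceN

/-! Working definitions for the sharp bound. -/

set_option autoImplicit false

namespace Pool.Agent.P.MP_97b9bc_mp.S

open Set Filter Topology Pool.Agent.P.MP_97b9bc_mp.T

/-- twice differentiable on the half line -/
def J2 (f f1 f2 : ℝ → ℝ) : Prop :=
  ∀ r, 0 < r → HasDerivAt f (f1 r) r ∧ HasDerivAt f1 (f2 r) r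

/-- the coefficient `u''/u` of a solution -/
noncomputable def hh (X : Q4) (r : ℝ) : ℝ := X.t r ^ 2 - X.w r / r

/-- the quotient `u''/u` for `u` the square root of `M` -/
noncomputable def hb (M M1 M2 : ℝ) : ℝ := M2 / (2 * M) - (M1 / (2 * M)) ^ 2

/-- the change of `u''/u` when the density is multiplied by `E` -/
noncomputable def kin (L E E1 E2 : ℝ) : ℝ := L * E1 / E + E2 / (2 * E) - (E1 / (2 * E)) ^ 2

/-- a barrier `M` with `r M' = l1 M`, `r ^ 2 M'' = l2 M`, and a cap `N` for its potential -/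
structure Good (M l1 l2 N : ℝ → ℝ) : Prop where
  pos : ∀ r, 0 < r → 0 < M r
  j2 : J2 M (fun r => l1 r * M r / r) (fun r => l2 r * M r / r ^ 2)
  cap : ∃ N1 N2, J2 N N1 N2 ∧ ∀ r, 0 < r → M r / r ≤ N2 r
  lim : Tendsto N atTop (𝓝 0)

/-- every barrier between `Ma` and `Mb` is a strict supersolution -/
def Seg (Ma a1 a2 Na Mb b1 b2 Nb : ℝ → ℝ) : Prop :=
  ∀ r α τ : ℝ, 0 < r → 0 ≤ α → α ≤ 1 → 0 < τ →
    r ^ 2 * τ ^ 3 * (α * (Mb r / Ma r) + (1 - α)) = Mb r →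
    (α * a2 r + (1 - α) * b2 r) / 2 - (α * a1 r + (1 - α) * b1 r) ^ 2 / 4 +
      r * (α * (Mb r / Ma r) * Na r + (1 - α) * Nb r) / (α * (Mb r / Ma r) + (1 - α)) -
      9173 / 10000 * r < r ^ 2 * τ ^ 2

/-- the total dissipation between `X` and `Y` beyond `r0` is at most `D` -/
def Dis (r0 D : ℝ) (X Y : Q4) : Prop :=
  ∃ F F' : ℝ → ℝ, ContinuousOn F (Ioi 0) ∧
    (∀ r, 0 < r → HasDerivWithinAt F (F' r) (Ici r) r ∧
      F' r ≤ -((X.m r + Y.m r) * (X.L r - Y.L r) ^ 2) - (X.v r - Y.v r) ^ 2 -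
        mu X Y r * (X.t r ^ 2 - Y.t r ^ 2) ^ 2 / 2) ∧
    ∀ a b, r0 ≤ a → a ≤ b → F a - F b ≤ D

/-- `From` with an extra pointwise property up to radius 13 -/
def From2 (Ep : ℝ → ℝ → ℝ → ℝ → ℝ → Prop) (a t0 l0 w0 v0 s : ℝ) : Prop :=
  ∃ (X : Q4) (e P p : ℝ → ℝ), GoodOn (Ici a) X e P p ∧
    Tendsto X.m atTop (𝓝 0) ∧ Tendsto X.v atTop (𝓝 0) ∧
    (∃ K, ∀ r, a ≤ r → |X.L r| ≤ K ∧ |X.w r| ≤ K) ∧
    (∀ r, a ≤ r → Ex X r ∧ 0 ≤ P r ∧ P r ≤ s ∧ |e r| ≤ 1) ∧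
    (∀ r, a ≤ r → r ≤ 13 → Ep r (X.t r) (X.L r) (X.w r) (X.v r) ∧ |e r| ≤ 1 / 10 ^ 6) ∧
    X.t a = t0 ∧ X.L a = l0 ∧ X.w a = w0 ∧ X.v a = v0

/-- `NumC` with an extra pointwise property up to radius 13 -/
def NumC2 (Ep : ℝ → ℝ → ℝ → ℝ → ℝ → Prop) (S : ℝ) : Prop :=
  ∃ (e : ℝ → ℝ) (Y : Q4), App e Y ∧ Win 1000 0 Y ∧ Far Y ∧ Src S e Y.t ∧
    (∀ r, 0 < r → r ≤ 1 / 2 → |e r| ≤ 1) ∧ (∀ r, Ex Y r) ∧
    ∀ r, 0 < r → r ≤ 13 → Ep r (Y.t r) (Y.L r) (Y.w r) (Y.v r) ∧ |e r| ≤ 1 / 10 ^ 6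

namespace J2

variable {f f1 f2 g g1 g2 : ℝ → ℝ}

lemma const (c : ℝ) : J2 (fun _ => c) (fun _ => 0) (fun _ => 0) :=
  fun r _ => ⟨hasDerivAt_const r c, hasDerivAt_const r 0⟩

lemma id' : J2 (fun r => r) (fun _ => 1) (fun _ => 0) :=
  fun r _ => ⟨hasDerivAt_id' r, hasDerivAt_const r 1⟩

lemma add (hf : J2 f f1 f2) (hg : J2 g g1 g2) :
    J2 (fun r => f r + g r) (fun r => f1 r + g1 r) (fun r => f2 r + g2 r) :=
  fun r hr => ⟨(hf r hr).1.fun_add (hg r hr).1, (hf r hr).2.fun_add (hg r hr).2⟩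

lemma sub (hf : J2 f f1 f2) (hg : J2 g g1 g2) :
    J2 (fun r => f r - g r) (fun r => f1 r - g1 r) (fun r => f2 r - g2 r) :=
  fun r hr => ⟨(hf r hr).1.fun_sub (hg r hr).1, (hf r hr).2.fun_sub (hg r hr).2⟩

lemma smul (c : ℝ) (hf : J2 f f1 f2) :
    J2 (fun r => c * f r) (fun r => c * f1 r) (fun r => c * f2 r) :=
  fun r hr => ⟨(hf r hr).1.const_mul c, (hf r hr).2.const_mul c⟩

lemma mul (hf : J2 f f1 f2) (hg : J2 g g1 g2) :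
    J2 (fun r => f r * g r) (fun r => f1 r * g r + f r * g1 r)
      (fun r => f2 r * g r + 2 * (f1 r * g1 r) + f r * g2 r) :=
  fun r hr => ⟨(hf r hr).1.fun_mul (hg r hr).1,
    (((hf r hr).2.fun_mul (hg r hr).1).fun_add ((hf r hr).1.fun_mul (hg r hr).2)).congr_deriv
      (by ring)⟩

lemma congr (hf : J2 f f1 f2) (h0 : ∀ r, 0 < r → g r = f r) (h1 : ∀ r, 0 < r → g1 r = f1 r)
    (h2 : ∀ r, 0 < r → g2 r = f2 r) : J2 g g1 g2 := fun r hr => by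
  have hn : ∀ᶠ s in 𝓝 r, 0 < s := Ioi_mem_nhds hr
  rw [h1 r hr, h2 r hr]
  exact ⟨(hf r hr).1.congr_of_eventuallyEq (hn.mono h0),
    (hf r hr).2.congr_of_eventuallyEq (hn.mono h1)⟩

lemma cont (hf : J2 f f1 f2) {r : ℝ} (hr : 0 < r) : ContinuousAt f r := (hf r hr).1.continuousAt

end J2

lemma j2_m {z Q : ℝ} {X : Q4} (h : Sol z 0 Q X) :
    J2 X.m (fun r => 2 * X.L r * X.m r) (fun r => 2 * (hh X r + X.L r ^ 2) * X.m r) :=
  fun r hr => ⟨h.dm hr, (((h.dL r hr).const_mul 2).fun_mul (h.dm hr)).congr_deriv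
    (by unfold hh; ring)⟩

lemma j2_n {z Q : ℝ} {X : Q4} (h : Sol z 0 Q X) (c : ℝ) :
    J2 (fun r => X.w r + c) X.v (fun r => X.m r / r) :=
  fun r hr => ⟨(h.dw r hr).add_const c, (h.dv r hr).congr_deriv
    (by have := hr.ne'; unfold Q4.m; field_simp)⟩

lemma n_lim {z Q : ℝ} {X : Q4} (h : Sol z 0 Q X) :
    Tendsto (fun r => X.w r + Q) atTop (𝓝 0) := by
  simpa using h.winf.add_const Q

lemma n_nonneg {z Q : ℝ} {X : Q4} (h : Sol z 0 Q X) {r : ℝ} (hr : 0 < r) : 0 ≤ X.w r + Q := by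
  linarith [h.le_w hr]

/-- `hb` for the product of a density and a factor -/
lemma hb_mul {m h L E E1 E2 : ℝ} (hm : m ≠ 0) (hE : E ≠ 0) :
    hb (m * E) (2 * L * m * E + m * E1)
      (2 * (h + L ^ 2) * m * E + 2 * (2 * L * m * E1) + m * E2) = h + kin L E E1 E2 := by
  unfold hb kin
  field_simp
  ring

end Pool.Agent.P.MP_97b9bc_mp.S
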