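import Mathlib

/-! A checker for inequalities in two variables, by affine forms with integer coefficients. -/

set_option autoImplicit false

namespace Pool.Agent.P.MP_97b9bc_mp.S

/-- the unit -/
def SC : ℕ := 1099511627791

/-- an affine form `c + a x + b y` with error `e` -/
structure AF where
  c : ℤ
  a : ℤ
  b : ℤ
  e : ℕ

inductive Tm : Type
  | v : ℕ → Tm
  | c : ℤ → ℕ → Tm
  | add : Tm → Tm → Tm
  | sub : Tm → Tm → Tm
  | mul : Tm → Tm → Tm
  | sm : ℤ → ℕ → Tm → Tm
  | sq : Tm → Tm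
  | inv : Tm → Tm

inductive Gl : Type
  | neg : Tm → Gl
  | or : Gl → Gl → Gl
  | and : Gl → Gl → Gl
  | lt : Tm → Gl → Gl
  | btw : Tm → Tm → Gl → Gl
  | sy : Tm → Tm → Gl → Gl

noncomputable def fN (n : ℕ) (k : ℕ → Bool) : Bool :=
  Nat.rec (k 0) (fun p _ => k (Nat.succ p)) n

noncomputable def fI (n : ℤ) (k : ℤ → Bool) : Bool :=
  Int.rec (fun m => fN m fun m => k (Int.ofNat m)) (fun m => fN m fun m => k (Int.negSucc m)) n

noncomputable def frc (c a b : ℤ) (e : ℕ) (k : AF → Bool) : Bool :=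
  fI c fun c => fI a fun a => fI b fun b => fN e fun e => k ⟨c, a, b, e⟩

/-- floor division -/
noncomputable def dv (x : ℤ) (n : ℕ) : ℤ :=
  Int.rec (fun m => Int.ofNat (Nat.div m n)) (fun m => Int.negSucc (Nat.div m n)) x

noncomputable def ab (x : ℤ) : ℕ := Int.rec (fun m => m) (fun m => Nat.succ m) x

/-- `x < 0` -/
noncomputable def ng (x : ℤ) : Bool := Int.rec (fun _ => false) (fun _ => true) x

noncomputable def AF.rad (F : AF) : ℕ := Nat.add (Nat.add (ab F.a) (ab F.b)) F.e

noncomputable def AF.add (F G : AF) (k : AF → Bool) : Bool :=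
  frc (Int.add F.c G.c) (Int.add F.a G.a) (Int.add F.b G.b) (Nat.add F.e G.e) k

noncomputable def AF.sub (F G : AF) (k : AF → Bool) : Bool :=
  frc (Int.sub F.c G.c) (Int.sub F.a G.a) (Int.sub F.b G.b) (Nat.add F.e G.e) k

noncomputable def AF.mul (F G : AF) (k : AF → Bool) : Bool :=
  frc (dv (Int.mul F.c G.c) SC) (dv (Int.add (Int.mul F.c G.a) (Int.mul G.c F.a)) SC)
    (dv (Int.add (Int.mul F.c G.b) (Int.mul G.c F.b)) SC)
    (Nat.add (Nat.div (Nat.add (Nat.add (Nat.mul (ab F.c) G.e) (Nat.mul (ab G.c) F.e))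
      (Nat.mul F.rad G.rad)) SC) 4) k

noncomputable def AF.sm (n : ℤ) (d : ℕ) (F : AF) (k : AF → Bool) : Bool :=
  frc (dv (Int.mul n F.c) d) (dv (Int.mul n F.a) d)
    (dv (Int.mul n F.b) d) (Nat.add (Nat.div (Nat.mul (ab n) F.e) d) 4) k

noncomputable def AF.sq (F : AF) (k : AF → Bool) : Bool :=
  fN F.rad fun R => fN (Nat.succ (Nat.div (Nat.mul R R) 2)) fun H => fI (Int.add F.c F.c) fun D =>
  frc (dv (Int.add (Int.mul F.c F.c) (Int.ofNat H)) SC) (dv (Int.mul D F.a) SC)
    (dv (Int.mul D F.b) SC) (Nat.add (Nat.div (Nat.add (Nat.mul (ab D) F.e) H) SC) 4) k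

noncomputable def AF.inv (F : AF) (k : AF → Bool) : Bool :=
  fN F.rad fun R => Int.rec (fun c => Bool.rec false
    (fN (Nat.mul SC SC) fun S2 => fN (Nat.mul c c) fun c2 =>
      fN (Nat.succ (Nat.div (Nat.mul S2 (Nat.mul R R)) (Nat.mul (Nat.mul 2 c2) (Nat.sub c R))))
        fun H =>
      frc (Int.ofNat (Nat.add (Nat.div S2 c) H)) (dv (Int.mul (Int.neg F.a) (Int.ofNat S2)) c2)
        (dv (Int.mul (Int.neg F.b) (Int.ofNat S2)) c2)
        (Nat.add (Nat.add (Nat.div (Nat.mul F.e S2) c2) H) 4) k)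
    (Nat.blt R c)) (fun _ => false) F.c

/-- everything between two forms -/
noncomputable def AF.hull (F G : AF) (k : AF → Bool) : Bool :=
  F.sub G fun D => fN (Nat.succ (Nat.div (Nat.add (ab D.c) D.rad) 2)) fun H =>
    frc (Int.add F.c (Int.ofNat H)) F.a F.b (Nat.add F.e H) k

noncomputable def look (l : List AF) : ℕ → AF :=
  List.rec (fun _ => ⟨0, 0, 0, 0⟩) (fun F _ ih n => Nat.rec F (fun p _ => ih p) n) l

noncomputable def Tm.run (l : List AF) (t : Tm) : (AF → Bool) → Bool :=
  Tm.rec (fun i k => k (look l i))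
    (fun n d k => frc (dv (Int.mul n (Int.ofNat SC)) d) 0 0 1 k)
    (fun _ _ p q k => p fun F => q fun G => F.add G k)
    (fun _ _ p q k => p fun F => q fun G => F.sub G k)
    (fun _ _ p q k => p fun F => q fun G => F.mul G k)
    (fun n d _ p k => p fun F => AF.sm n d F k)
    (fun _ p k => p fun F => F.sq k)
    (fun _ p k => p fun F => F.inv k) t

/-- number of elementary steps of a sweep -/
def TP : ℕ := 32768

noncomputable def sweep (chk : ℕ → ℕ → Bool) (fuel : ℕ) : ℕ → ℕ → Bool :=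
  Nat.rec (fun _ _ => false) (fun _ ih pos code => Bool.rec
    (fN (Nat.add pos (Nat.pow 2 (Nat.mod code 16))) fun nx =>
      Bool.rec false (fN (Nat.div code 16) fun cd => ih nx cd) (chk pos nx))
    true (Nat.ble TP pos)) fuel

/-- move the dependence on the second variable into the error -/
noncomputable def AF.flat (F : AF) (k : AF → Bool) : Bool :=
  fN (Nat.add (ab F.b) F.e) fun e => k ⟨F.c, F.a, 0, e⟩

noncomputable def flats (l : List AF) : (List AF → Bool) → Bool :=
  List.rec (fun k => k []) (fun F _ ih k => ih fun l' => F.flat fun G => k (G :: l')) l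

noncomputable def Gl.run (code : ℕ) (g : Gl) : List AF → Bool :=
  Gl.rec (fun t l => t.run l fun F => ng (Int.add F.c (Int.ofNat F.rad)))
    (fun _ _ p q l => Bool.rec (q l) true (p l))
    (fun _ _ p q l => Bool.rec false (q l) (p l))
    (fun t _ p l => t.run l fun F => p (F :: l))
    (fun s t _ p l => s.run l fun F => t.run l fun G => F.hull G fun H => p (H :: l))
    (fun s t _ p l => s.run l fun F => t.run l fun G => G.sub F fun D =>
      F.flat fun F => D.flat fun D => flats l fun l => sweep (fun x y => frc (Int.ofNat (Nat.div (Nat.mul SC (Nat.add x y)) (Nat.mul 2 TP))) 0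
        (Int.ofNat (Nat.div (Nat.mul SC (Nat.sub y x)) (Nat.mul 2 TP))) 2 fun W =>
          D.mul W fun V => F.add V fun Z => p (Z :: l)) 40000 0 code) g

/-- the outer sweep over `[lo, lo + len]`, both given over the denominator `d` -/
noncomputable def top (lo len : ℤ) (d : ℕ) (g : Gl) (cert : List (ℕ × ℕ)) : ℕ → Bool :=
  List.rec (fun pos => Nat.ble TP pos) (fun c _ ih pos =>
    fN (Nat.add pos (Nat.pow 2 c.1)) fun nx => Bool.rec false (ih nx)
      (frc (Int.ofNat (Nat.div (Nat.mul SC (Nat.add pos nx)) (Nat.mul 2 TP)))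
        (Int.ofNat (Nat.div (Nat.mul SC (Nat.sub nx pos)) (Nat.mul 2 TP))) 0 2 fun W =>
          Tm.run [W] (.add (.c lo d) (.sm len d (.v 0))) fun Z => g.run c.2 [Z])) cert

end Pool.Agent.P.MP_97b9bc_mp.S
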