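import Pool.Agent.P.MP_97b9bc_mp.S.IA

/-! Soundness of the checker. -/

set_option autoImplicit false

namespace Pool.Agent.P.MP_97b9bc_mp.S

noncomputable def Tm.ev (l : List ℝ) : Tm → ℝ
  | .v i => l.getD i 0
  | .c n d => (n : ℝ) / (d : ℝ)
  | .add s t => s.ev l + t.ev l
  | .sub s t => s.ev l - t.ev l
  | .mul s t => s.ev l * t.ev l
  | .sm n d t => (n : ℝ) / (d : ℝ) * t.ev l
  | .sq t => t.ev l ^ 2
  | .inv t => (t.ev l)⁻¹

def Gl.holds : Gl → List ℝ → Prop
  | .neg t, l => t.ev l < 0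
  | .or g h, l => g.holds l ∨ h.holds l
  | .and g h, l => g.holds l ∧ h.holds l
  | .lt t g, l => ∀ v : ℝ, v = t.ev l → g.holds (v :: l)
  | .btw s t g, l => ∀ v : ℝ, s.ev l ≤ v → v ≤ t.ev l → g.holds (v :: l)
  | .sy s t g, l => ∀ v : ℝ, s.ev l ≤ v → v ≤ t.ev l → g.holds (v :: l)

def Mem (x y : ℝ) (F : AF) (v : ℝ) : Prop :=
  |v * SC - (F.c + F.a * x + F.b * y)| ≤ F.e

lemma fN_eq (n : ℕ) (k : ℕ → Bool) : fN n k = k n := by cases n <;> rfl

lemma fI_eq (n : ℤ) (k : ℤ → Bool) : fI n k = k n := by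
  cases n with
  | ofNat m => exact fN_eq m fun m => k (Int.ofNat m)
  | negSucc m => exact fN_eq m fun m => k (Int.negSucc m)

lemma frc_eq (c a b : ℤ) (e : ℕ) (k : AF → Bool) : frc c a b e k = k ⟨c, a, b, e⟩ := by
  simp only [frc, fI_eq, fN_eq]

lemma SC_pos : (0 : ℝ) < SC := by unfold SC; norm_num

lemma ndiv (m n : ℕ) : |(m : ℝ) / n - (Nat.div m n : ℕ)| ≤ 1 ∧ (m : ℝ) / n ≤ (Nat.div m n : ℕ) + 1 ∧
    ((Nat.div m n : ℕ) : ℝ) ≤ (m : ℝ) / n ∧ (0 < n → ((m : ℝ) + 1) / n ≤ (Nat.div m n : ℕ) + 1) := by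
  change |(m : ℝ) / n - (m / n : ℕ)| ≤ 1 ∧ (m : ℝ) / n ≤ (m / n : ℕ) + 1 ∧
    ((m / n : ℕ) : ℝ) ≤ (m : ℝ) / n ∧ (0 < n → ((m : ℝ) + 1) / n ≤ (m / n : ℕ) + 1)
  have h1 : ((m / n : ℕ) : ℝ) ≤ (m : ℝ) / n := Nat.cast_div_le
  have h3 : 0 < n → ((m : ℝ) + 1) / n ≤ (m / n : ℕ) + 1 := fun hn => by
    rw [div_le_iff₀ (by exact_mod_cast hn)]
    have := Nat.lt_div_mul_add (a := m) hn
    have h : m + 1 ≤ (m / n + 1) * n := by rw [add_mul, one_mul]; omega
    exact_mod_cast h
  have h2 : (m : ℝ) / n ≤ (m / n : ℕ) + 1 := by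
    rcases Nat.eq_zero_or_pos n with rfl | hn
    · simp
    · refine le_trans ?_ (h3 hn)
      gcongr
      linarith
  exact ⟨abs_le.2 ⟨by linarith, by linarith⟩, h2, h1, h3⟩

lemma dv_abs (x : ℤ) (n : ℕ) : |(x : ℝ) / n - dv x n| ≤ 1 := by
  cases x with
  | ofNat m => simpa [dv] using (ndiv m n).1
  | negSucc m =>
    obtain ⟨-, -, h1, h2⟩ := ndiv m n
    change |((Int.negSucc m : ℤ) : ℝ) / n - ((Int.negSucc (Nat.div m n) : ℤ) : ℝ)| ≤ 1
    rw [Int.cast_negSucc, Int.cast_negSucc]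
    push_cast
    rcases Nat.eq_zero_or_pos n with rfl | hn
    · have : Nat.div m 0 = 0 := Nat.div_zero m
      simp [this]
    · have h3 := h2 hn
      have h4 : (m : ℝ) / n ≤ ((m : ℝ) + 1) / n := by gcongr; linarith
      rw [neg_div, abs_le]
      constructor <;> linarith

lemma ab_eq (x : ℤ) : (ab x : ℝ) = |(x : ℝ)| := by
  cases x with
  | ofNat m => simp [ab]
  | negSucc m =>
    change ((m + 1 : ℕ) : ℝ) = _
    rw [Int.cast_negSucc, abs_neg, abs_of_nonneg (by positivity)]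

lemma ng_lt {x : ℤ} (h : ng x = true) : (x : ℝ) < 0 := by
  cases x with
  | ofNat m => exact absurd h Bool.false_ne_true
  | negSucc m => exact_mod_cast Int.negSucc_lt_zero m

lemma rad_eq (F : AF) : (F.rad : ℝ) = |(F.a : ℝ)| + |(F.b : ℝ)| + F.e := by
  simp only [AF.rad, Nat.add_eq]
  push_cast
  rw [ab_eq, ab_eq]

variable {x y : ℝ}

lemma lin_le (hx : |x| ≤ 1) (hy : |y| ≤ 1) {p q r : ℝ} (hp : |p| ≤ 1) (hq : |q| ≤ 1)
    (hr : |r| ≤ 1) : |p + q * x + r * y| ≤ 3 := by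
  have h1 : |q * x| ≤ 1 := by rw [abs_mul]; exact mul_le_one₀ hq (abs_nonneg _) hx
  have h2 : |r * y| ≤ 1 := by rw [abs_mul]; exact mul_le_one₀ hr (abs_nonneg _) hy
  rw [abs_le] at *
  constructor <;> linarith [hp.1, hp.2, h1.1, h1.2, h2.1, h2.2]

/-- rounding: an exact form with real coefficients, and the rounded form -/
lemma mem_of (hx : |x| ≤ 1) (hy : |y| ≤ 1) {v c a b e : ℝ} {C A B : ℤ} {E : ℕ}
    (h : |v * SC - (c + a * x + b * y)| ≤ e) (hc : |c - C| ≤ 1) (ha : |a - A| ≤ 1)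
    (hb : |b - B| ≤ 1) (he : e + 3 ≤ E) : Mem x y ⟨C, A, B, E⟩ v := by
  have h1 := lin_le hx hy hc ha hb
  unfold Mem
  rw [abs_le] at *
  constructor <;> linarith [h.1, h.2, h1.1, h1.2]

lemma Mem.dev (hx : |x| ≤ 1) (hy : |y| ≤ 1) {F : AF} {v : ℝ} (h : Mem x y F v) :
    |v * SC - F.c| ≤ F.rad := by
  have h1 : |(F.a : ℝ) * x| ≤ |(F.a : ℝ)| := by
    rw [abs_mul]; exact mul_le_of_le_one_right (abs_nonneg _) hx
  have h2 : |(F.b : ℝ) * y| ≤ |(F.b : ℝ)| := by
    rw [abs_mul]; exact mul_le_of_le_one_right (abs_nonneg _) hy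
  unfold Mem at h
  rw [rad_eq]
  rw [abs_le] at h h1 h2 ⊢
  constructor <;> linarith [h.1, h.2, h1.1, h1.2, h2.1, h2.2]

lemma add_ok {F G : AF} {u v : ℝ} {k : AF → Bool} (hF : Mem x y F u) (hG : Mem x y G v)
    (h : F.add G k = true) : ∃ H, Mem x y H (u + v) ∧ k H = true := by
  rw [AF.add, frc_eq] at h
  refine ⟨_, ?_, h⟩
  unfold Mem at *
  simp only [Int.add_def, Nat.add_eq]
  push_cast
  rw [abs_le] at *
  constructor <;> linarith [hF.1, hF.2, hG.1, hG.2]

lemma sub_ok {F G : AF} {u v : ℝ} {k : AF → Bool} (hF : Mem x y F u) (hG : Mem x y G v)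
    (h : F.sub G k = true) : ∃ H, Mem x y H (u - v) ∧ k H = true := by
  rw [AF.sub, frc_eq] at h
  refine ⟨_, ?_, h⟩
  unfold Mem at *
  have e : ∀ a b : ℤ, Int.sub a b = a - b := fun _ _ => rfl
  simp only [e, Nat.add_eq]
  push_cast
  rw [abs_le] at *
  constructor <;> linarith [hF.1, hF.2, hG.1, hG.2]

lemma mul_ok (hx : |x| ≤ 1) (hy : |y| ≤ 1) {F G : AF} {u v : ℝ} {k : AF → Bool}
    (hF : Mem x y F u) (hG : Mem x y G v) (h : F.mul G k = true) :
    ∃ H, Mem x y H (u * v) ∧ k H = true := by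
  rw [AF.mul, frc_eq] at h
  refine ⟨_, mem_of hx hy (e := (|(F.c : ℝ)| * G.e + |(G.c : ℝ)| * F.e + F.rad * G.rad) / SC) ?_
    (dv_abs _ _) (dv_abs _ _) (dv_abs _ _) ?_, h⟩
  · have hS := SC_pos
    have h1 := hF.dev hx hy
    have h2 := hG.dev hx hy
    unfold Mem at hF hG
    simp only [Int.add_def, Int.mul_def]
    push_cast
    have e : u * v * SC - ((F.c : ℝ) * G.c / SC + ((F.c : ℝ) * G.a + G.c * F.a) / SC * x +
        ((F.c : ℝ) * G.b + G.c * F.b) / SC * y) =
        (F.c * (v * SC - (G.c + G.a * x + G.b * y)) + G.c * (u * SC - (F.c + F.a * x + F.b * y)) +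
          (u * SC - F.c) * (v * SC - G.c)) / SC := by
      field_simp
      ring
    rw [e, abs_div, abs_of_pos hS]
    gcongr
    refine (abs_add_three _ _ _).trans ?_
    simp only [abs_mul]
    gcongr
  · have := (ndiv (Nat.add (Nat.add (Nat.mul (ab F.c) G.e) (Nat.mul (ab G.c) F.e))
      (Nat.mul F.rad G.rad)) SC).2.1
    simp only [Nat.add_eq, Nat.mul_eq] at this ⊢
    push_cast at this ⊢
    rw [ab_eq, ab_eq] at this
    linarith

lemma sm_ok (hx : |x| ≤ 1) (hy : |y| ≤ 1) {F : AF} {u : ℝ} {k : AF → Bool} {n : ℤ} {d : ℕ}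
    (hF : Mem x y F u) (h : AF.sm n d F k = true) :
    ∃ H, Mem x y H ((n : ℝ) / d * u) ∧ k H = true := by
  rw [AF.sm, frc_eq] at h
  refine ⟨_, mem_of hx hy (e := |(n : ℝ)| * F.e / d) ?_
    (dv_abs _ _) (dv_abs _ _) (dv_abs _ _) ?_, h⟩
  · unfold Mem at hF
    simp only [Int.mul_def]
    push_cast
    have e : (n : ℝ) / d * u * SC - ((n : ℝ) * F.c / d + (n : ℝ) * F.a / d * x +
        (n : ℝ) * F.b / d * y) = n * (u * SC - (F.c + F.a * x + F.b * y)) / d := by ring
    rw [e, abs_div, abs_mul, Nat.abs_cast]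
    gcongr
  · have := (ndiv (Nat.mul (ab n) F.e) d).2.1
    simp only [Nat.add_eq, Nat.mul_eq] at this ⊢
    push_cast at this ⊢
    rw [ab_eq] at this
    linarith

lemma sq_ok (hx : |x| ≤ 1) (hy : |y| ≤ 1) {F : AF} {u : ℝ} {k : AF → Bool}
    (hF : Mem x y F u) (h : F.sq k = true) : ∃ H, Mem x y H (u ^ 2) ∧ k H = true := by
  rw [AF.sq, fN_eq, fN_eq, fI_eq, frc_eq] at h
  set H := Nat.succ (Nat.div (Nat.mul F.rad F.rad) 2) with hH
  have hH' : (F.rad : ℝ) ^ 2 ≤ 2 * H := by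
    have := (ndiv (Nat.mul F.rad F.rad) 2).2.1
    rw [hH]
    simp only [Nat.mul_eq, Nat.succ_eq_add_one] at this ⊢
    push_cast at this ⊢
    linarith
  refine ⟨_, mem_of hx hy (e := (|(F.c : ℝ) + F.c| * F.e + H) / SC) ?_
    (dv_abs _ _) (dv_abs _ _) (dv_abs _ _) ?_, h⟩
  · have hS := SC_pos
    have h1 := hF.dev hx hy
    unfold Mem at hF
    simp only [Int.add_def, Int.mul_def, Int.ofNat_eq_natCast]
    push_cast
    have e : u ^ 2 * SC - (((F.c : ℝ) * F.c + H) / SC + ((F.c : ℝ) + F.c) * F.a / SC * x +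
        ((F.c : ℝ) + F.c) * F.b / SC * y) =
        ((F.c + F.c) * (u * SC - (F.c + F.a * x + F.b * y)) + ((u * SC - F.c) ^ 2 - H)) / SC := by
      field_simp
      ring
    rw [e, abs_div, abs_of_pos hS]
    gcongr
    refine (abs_add_le _ _).trans (add_le_add ?_ ?_)
    · rw [abs_mul]
      gcongr
    · have h2 : (u * SC - F.c) ^ 2 ≤ (F.rad : ℝ) ^ 2 := sq_le_sq' (abs_le.1 h1).1 (abs_le.1 h1).2
      rw [abs_le]
      constructor <;> nlinarith [sq_nonneg (u * SC - F.c)]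
  · have := (ndiv (Nat.add (Nat.mul (ab (Int.add F.c F.c)) F.e) H) SC).2.1
    simp only [Nat.add_eq, Nat.mul_eq] at this ⊢
    push_cast at this ⊢
    have e := ab_eq (Int.add F.c F.c)
    rw [e] at this
    have e2 : ((Int.add F.c F.c : ℤ) : ℝ) = F.c + F.c := Int.cast_add _ _
    rw [e2] at this
    linarith

lemma inv_ok (hx : |x| ≤ 1) (hy : |y| ≤ 1) {F : AF} {u : ℝ} {k : AF → Bool}
    (hF : Mem x y F u) (h : F.inv k = true) : ∃ H, Mem x y H u⁻¹ ∧ k H = true := by
  have h1 := hF.dev hx hy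
  rw [AF.inv, fN_eq] at h
  obtain ⟨c, a, b, e⟩ := F
  generalize AF.rad ⟨c, a, b, e⟩ = R at h h1
  cases c with
  | negSucc m => exact absurd h Bool.false_ne_true
  | ofNat c =>
    dsimp only at h h1
    cases hb : Nat.blt R c with
    | false => rw [hb] at h; exact absurd h Bool.false_ne_true
    | true =>
      rw [hb] at h
      dsimp only at h
      rw [fN_eq, fN_eq, fN_eq, frc_eq] at h
      have hRc : R < c := by simpa using hb
      have hRc' : (R : ℝ) < c := by exact_mod_cast hRc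
      have hR : (0 : ℝ) ≤ R := Nat.cast_nonneg _
      have hc : (0 : ℝ) < c := by linarith
      have hS := SC_pos
      set H := Nat.succ (Nat.div (Nat.mul (Nat.mul SC SC) (Nat.mul R R))
        (Nat.mul (Nat.mul 2 (Nat.mul c c)) (Nat.sub c R))) with hH
      have hH' : (SC : ℝ) * SC * (R * R) / (2 * (c * c) * (c - R)) ≤ H := by
        have := (ndiv (Nat.mul (Nat.mul SC SC) (Nat.mul R R))
          (Nat.mul (Nat.mul 2 (Nat.mul c c)) (Nat.sub c R))).2.1
        rw [hH]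
        simp only [Nat.mul_eq, Nat.succ_eq_add_one, Nat.sub_eq] at this ⊢
        push_cast [Nat.cast_sub hRc.le] at this ⊢
        exact this
      simp only [Int.ofNat_eq_natCast, Int.cast_natCast] at h1
      have hu : (c : ℝ) - R ≤ u * SC := by linarith [(abs_le.1 h1).1]
      have hu0 : 0 < u * SC := by linarith
      have hu1 : 0 < u := (mul_pos_iff_of_pos_right hS).1 hu0
      refine ⟨_, mem_of hx hy (c := (SC : ℝ) * SC / c + H) (e := e * (SC * SC) / (c * c) + H) ?_ ?_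
        (dv_abs _ _) (dv_abs _ _) ?_, h⟩
      · unfold Mem at hF
        have en : ∀ a : ℤ, Int.neg a = -a := fun _ => rfl
        simp only [Int.mul_def, Int.ofNat_eq_natCast, Nat.mul_eq, en] at hF ⊢
        push_cast at hF ⊢
        have e1 : u⁻¹ * SC - ((SC : ℝ) * SC / c + H + -(a : ℝ) * (SC * SC) / (c * c) * x +
            -(b : ℝ) * (SC * SC) / (c * c) * y) =
            -((u * SC - (c + a * x + b * y)) * (SC * SC) / (c * c)) +
              ((SC : ℝ) * SC * (u * SC - c) ^ 2 / (c * c * (u * SC)) - H) := by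
          field_simp
          ring
        rw [e1]
        refine (abs_add_le _ _).trans (add_le_add ?_ ?_)
        · rw [abs_neg, abs_div, abs_mul, abs_of_pos (mul_pos hS hS), abs_of_pos (mul_pos hc hc)]
          gcongr
        · have h2 : (u * SC - c) ^ 2 ≤ (R : ℝ) ^ 2 := sq_le_sq' (abs_le.1 h1).1 (abs_le.1 h1).2
          have h3 : (SC : ℝ) * SC * (u * SC - c) ^ 2 / (c * c * (u * SC)) ≤
              (SC : ℝ) * SC * R ^ 2 / (c * c * (c - R)) := by
            have : (0 : ℝ) < c - R := by linarith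
            gcongr
          have h4 : (SC : ℝ) * SC * R ^ 2 / (c * c * (c - R)) =
              2 * ((SC : ℝ) * SC * (R * R) / (2 * (c * c) * (c - R))) := by
            have : (c : ℝ) - R ≠ 0 := by linarith
            field_simp
          have h5 : 0 ≤ (SC : ℝ) * SC * (u * SC - c) ^ 2 / (c * c * (u * SC)) := by positivity
          rw [abs_le]
          constructor <;> linarith
      · have := (ndiv (Nat.mul SC SC) c).1
        simp only [Nat.add_eq, Nat.mul_eq, Int.ofNat_eq_natCast] at this ⊢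
        push_cast at this ⊢
        rwa [add_sub_add_right_eq_sub]
      · have := (ndiv (Nat.mul e (Nat.mul SC SC)) (Nat.mul c c)).2.1
        simp only [Nat.add_eq, Nat.mul_eq] at this ⊢
        push_cast at this ⊢
        linarith

lemma hull_ok (hx : |x| ≤ 1) (hy : |y| ≤ 1) {F G : AF} {u v w : ℝ} {k : AF → Bool}
    (hF : Mem x y F u) (hG : Mem x y G v) (h1 : u ≤ w) (h2 : w ≤ v) (h : F.hull G k = true) :
    ∃ H, Mem x y H w ∧ k H = true := by
  obtain ⟨D, hD, h⟩ := sub_ok hF hG h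
  rw [fN_eq, frc_eq] at h
  refine ⟨_, ?_, h⟩
  have h3 := hD.dev hx hy
  have h4 := (ndiv (Nat.add (ab D.c) D.rad) 2).2.1
  have hS := SC_pos
  have h5 := mul_le_mul_of_nonneg_right h1 hS.le
  have h6 := mul_le_mul_of_nonneg_right h2 hS.le
  unfold Mem at *
  simp only [Nat.add_eq, Int.add_def, Int.ofNat_eq_natCast, Nat.succ_eq_add_one] at h4 ⊢
  push_cast at h4 ⊢
  rw [ab_eq] at h4
  rw [abs_le] at hF h3 ⊢
  constructor <;> linarith [hF.1, hF.2, h3.1, neg_abs_le (D.c : ℝ)]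

lemma look_ok {l : List AF} {m : List ℝ} (h : List.Forall₂ (Mem x y) l m) (i : ℕ) :
    Mem x y (look l i) (m.getD i 0) := by
  induction h generalizing i with
  | nil => simp [Mem, look]
  | cons h _ ih => cases i with
    | zero => exact h
    | succ i => exact ih i

lemma Tm.run_ok (hx : |x| ≤ 1) (hy : |y| ≤ 1) {l : List AF} {m : List ℝ}
    (hl : List.Forall₂ (Mem x y) l m) (t : Tm) :
    ∀ k : AF → Bool, t.run l k = true → ∃ H, Mem x y H (t.ev m) ∧ k H = true := by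
  induction t with
  | v i => exact fun k h => ⟨_, look_ok hl i, h⟩
  | c n d =>
    intro k h
    change frc _ _ _ _ _ = true at h
    rw [frc_eq] at h
    refine ⟨_, ?_, h⟩
    have := dv_abs (Int.mul n (Int.ofNat SC)) d
    simp only [Mem, Tm.ev, Int.mul_def, Int.ofNat_eq_natCast] at this ⊢
    push_cast at this ⊢
    convert this using 2
    ring
  | add s t p q =>
    intro k h
    obtain ⟨F, hF, h⟩ := p _ h
    obtain ⟨G, hG, h⟩ := q _ h
    exact add_ok hF hG h
  | sub s t p q =>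
    intro k h
    obtain ⟨F, hF, h⟩ := p _ h
    obtain ⟨G, hG, h⟩ := q _ h
    exact sub_ok hF hG h
  | mul s t p q =>
    intro k h
    obtain ⟨F, hF, h⟩ := p _ h
    obtain ⟨G, hG, h⟩ := q _ h
    exact mul_ok hx hy hF hG h
  | sm n d t p =>
    intro k h
    obtain ⟨F, hF, h⟩ := p _ h
    exact sm_ok hx hy hF h
  | sq t p =>
    intro k h
    obtain ⟨F, hF, h⟩ := p _ h
    exact sq_ok hx hy hF h
  | inv t p =>
    intro k h
    obtain ⟨F, hF, h⟩ := p _ h
    exact inv_ok hx hy hF h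

lemma TP_pos : (0 : ℝ) < TP := by unfold TP; norm_num

/-- a sweep covers the unit interval -/
lemma sweep_ok {chk : ℕ → ℕ → Bool} {u : ℝ} (hu : u ≤ 1) (fuel : ℕ) :
    ∀ pos code, sweep chk fuel pos code = true → (pos : ℝ) ≤ u * TP → pos < TP →
      ∃ p q : ℕ, p < q ∧ (p : ℝ) ≤ u * TP ∧ u * TP ≤ q ∧ chk p q = true := by
  induction fuel with
  | zero => exact fun _ _ h => absurd h Bool.false_ne_true
  | succ f ih =>
    intro pos code h h1 h2
    have hb : Nat.ble TP pos = false := by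
      rw [← Bool.not_eq_true, Nat.ble_eq]; omega
    change Bool.rec _ true (Nat.ble TP pos) = true at h
    rw [hb] at h
    dsimp only at h
    rw [fN_eq] at h
    set nx := Nat.add pos (Nat.pow 2 (Nat.mod code 16)) with hnx
    have h3 : pos < nx := Nat.lt_add_of_pos_right (Nat.pow_pos (by norm_num))
    cases hc : chk pos nx with
    | false => rw [hc] at h; exact absurd h Bool.false_ne_true
    | true =>
      rw [hc] at h
      dsimp only at h
      rw [fN_eq] at h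
      by_cases h4 : u * TP ≤ nx
      · exact ⟨pos, nx, h3, h1, h4, hc⟩
      · push Not at h4
        refine ih nx _ h h4.le ?_
        have : (nx : ℝ) < TP := h4.trans_le (mul_le_of_le_one_left TP_pos.le hu)
        exact_mod_cast this

lemma unit_ok {p q : ℕ} {u : ℝ} (hpq : p < q) (h1 : (p : ℝ) ≤ u * TP) (h2 : u * TP ≤ q) :
    ∃ z : ℝ, |z| ≤ 1 ∧ |u * SC - ((Nat.div (Nat.mul SC (Nat.add p q)) (Nat.mul 2 TP) : ℕ) +
      (Nat.div (Nat.mul SC (Nat.sub q p)) (Nat.mul 2 TP) : ℕ) * z)| ≤ 2 := by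
  have h0 : (0 : ℝ) < q - p := by
    have : (p : ℝ) < q := by exact_mod_cast hpq
    linarith
  have hT := TP_pos
  have hz : |(2 * (u * TP) - p - q) / (q - p)| ≤ 1 := by
    rw [abs_div, abs_of_pos h0, div_le_one h0, abs_le]
    constructor <;> linarith
  refine ⟨_, hz, ?_⟩
  have a1 := (ndiv (Nat.mul SC (Nat.add p q)) (Nat.mul 2 TP)).1
  have a2 := (ndiv (Nat.mul SC (Nat.sub q p)) (Nat.mul 2 TP)).1
  generalize Nat.div (Nat.mul SC (Nat.add p q)) (Nat.mul 2 TP) = A at a1 ⊢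
  generalize Nat.div (Nat.mul SC (Nat.sub q p)) (Nat.mul 2 TP) = B at a2 ⊢
  simp only [Nat.add_eq, Nat.mul_eq, Nat.sub_eq] at a1 a2
  push_cast [Nat.cast_sub hpq.le] at a1 a2
  have e : u * SC - (A + B * ((2 * (u * TP) - p - q) / (q - p))) =
      ((SC : ℝ) * (p + q) / (2 * TP) - A) +
        ((SC : ℝ) * (q - p) / (2 * TP) - B) * ((2 * (u * TP) - p - q) / (q - p)) := by
    field_simp
    ring
  rw [e]
  refine (abs_add_le _ _).trans ?_
  rw [abs_mul]
  linarith [mul_le_one₀ a2 (abs_nonneg _) hz]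

lemma flat_ok (hy : |y| ≤ 1) {F : AF} {v : ℝ} (h : Mem x y F v) {k : AF → Bool}
    (hk : F.flat k = true) : ∃ G, (∀ z, Mem x z G v) ∧ k G = true := by
  rw [AF.flat, fN_eq] at hk
  refine ⟨_, fun z => ?_, hk⟩
  have h3 : |(F.b : ℝ) * y| ≤ |(F.b : ℝ)| := by
    rw [abs_mul]; exact mul_le_of_le_one_right (abs_nonneg _) hy
  unfold Mem at *
  simp only [Nat.add_eq]
  push_cast
  rw [ab_eq]
  rw [abs_le] at h h3 ⊢
  constructor <;> linarith [h.1, h.2, h3.1, h3.2]

lemma flats_ok (hy : |y| ≤ 1) {l : List AF} {m : List ℝ} (h : List.Forall₂ (Mem x y) l m) :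
    ∀ k : List AF → Bool, flats l k = true →
      ∃ l', (∀ z, List.Forall₂ (Mem x z) l' m) ∧ k l' = true := by
  induction h with
  | nil => exact fun k h => ⟨[], fun _ => .nil, h⟩
  | cons h _ ih =>
    intro k hk
    obtain ⟨l', h1, h2⟩ := ih _ hk
    obtain ⟨G, h3, h4⟩ := flat_ok hy h h2
    exact ⟨_, fun z => .cons (h3 z) (h1 z), h4⟩

lemma exists_unit {a b v : ℝ} (h1 : a ≤ v) (h2 : v ≤ b) :
    ∃ u : ℝ, 0 ≤ u ∧ u ≤ 1 ∧ v = a + (b - a) * u := by
  rcases (h1.trans h2).eq_or_lt with rfl | h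
  · exact ⟨0, le_rfl, zero_le_one, by linarith⟩
  · have h0 := sub_pos.2 h
    exact ⟨(v - a) / (b - a), div_nonneg (by linarith) h0.le, (div_le_one h0).2 (by linarith),
      by field_simp; ring⟩

lemma Gl.run_ok (code : ℕ) (hx : |x| ≤ 1) (g : Gl) :
    ∀ (y : ℝ) (l : List AF) (m : List ℝ), |y| ≤ 1 → List.Forall₂ (Mem x y) l m →
      g.run code l = true → g.holds m := by
  induction g with
  | neg t =>
    intro y l m hy hl h
    obtain ⟨F, hF, h⟩ := t.run_ok hx hy hl _ h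
    have h1 := ng_lt h
    have h2 := (abs_le.1 (hF.dev hx hy)).2
    simp only [Int.add_def, Int.ofNat_eq_natCast] at h1
    push_cast at h1
    exact neg_of_mul_neg_right (show SC * t.ev m < 0 by linarith) SC_pos.le
  | or g h p q =>
    intro y l m hy hl h1
    change Bool.rec (h.run code l) true (g.run code l) = true at h1
    cases hb : g.run code l with
    | false => rw [hb] at h1; exact Or.inr (q y l m hy hl h1)
    | true => exact Or.inl (p y l m hy hl hb)
  | and g h p q =>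
    intro y l m hy hl h1
    change Bool.rec false (h.run code l) (g.run code l) = true at h1
    cases hb : g.run code l with
    | false => rw [hb] at h1; exact absurd h1 Bool.false_ne_true
    | true => rw [hb] at h1; exact ⟨p y l m hy hl hb, q y l m hy hl h1⟩
  | lt t g p =>
    intro y l m hy hl h v hv
    obtain ⟨F, hF, h⟩ := t.run_ok hx hy hl _ h
    exact p y _ _ hy (.cons (hv ▸ hF) hl) h
  | btw s t g p =>
    intro y l m hy hl h v h1 h2
    obtain ⟨F, hF, h⟩ := s.run_ok hx hy hl _ h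
    obtain ⟨G, hG, h⟩ := t.run_ok hx hy hl _ h
    obtain ⟨H, hH, h⟩ := hull_ok hx hy hF hG h1 h2 h
    exact p y _ _ hy (.cons hH hl) h
  | sy s t g p =>
    intro y l m hy hl h v h1 h2
    obtain ⟨F0, hF0, h⟩ := s.run_ok hx hy hl _ h
    obtain ⟨G, hG, h⟩ := t.run_ok hx hy hl _ h
    obtain ⟨D0, hD0, h⟩ := sub_ok hG hF0 h
    obtain ⟨F, hF, h⟩ := flat_ok hy hF0 h
    obtain ⟨D, hD, h⟩ := flat_ok hy hD0 h
    obtain ⟨l', hl', h⟩ := flats_ok hy hl _ h
    obtain ⟨u, u0, u1, hu⟩ := exists_unit h1 h2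
    obtain ⟨a, b, hab, ha, hb, h⟩ := sweep_ok u1 _ _ _ h
      (by have := TP_pos; push_cast; positivity) (by unfold TP; norm_num)
    obtain ⟨z, hz, hz'⟩ := unit_ok hab ha hb
    rw [frc_eq] at h
    obtain ⟨V, hV, h⟩ := mul_ok (v := u) hx hz (hD z) (by simpa [Mem] using hz') h
    obtain ⟨Z, hZ, h⟩ := add_ok (hF z) hV h
    exact p z _ _ hz (.cons (hu ▸ hZ) (hl' z)) h

theorem top_ok {lo len : ℤ} {d : ℕ} {g : Gl} {cert : List (ℕ × ℕ)}
    (h : top lo len d g cert 0 = true) (v : ℝ) (h1 : (lo : ℝ) / d ≤ v)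
    (h2 : v ≤ (lo : ℝ) / d + (len : ℝ) / d) : g.holds [v] := by
  obtain ⟨u, u0, u1, hu⟩ := exists_unit h1 h2
  rw [add_sub_cancel_left] at hu
  have key : ∀ pos : ℕ, top lo len d g cert pos = true → (pos : ℝ) ≤ u * TP → pos < TP →
      g.holds [v] := by
    clear h
    induction cert with
    | nil =>
      intro pos h _ h2
      have : TP ≤ pos := by simpa [top] using h
      omega
    | cons c cs ih =>
      intro pos h h1 h2
      have e : top lo len d g (c :: cs) pos = fN (Nat.add pos (Nat.pow 2 c.1)) fun nx =>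
          Bool.rec false (top lo len d g cs nx) (frc
            (Int.ofNat (Nat.div (Nat.mul SC (Nat.add pos nx)) (Nat.mul 2 TP)))
            (Int.ofNat (Nat.div (Nat.mul SC (Nat.sub nx pos)) (Nat.mul 2 TP))) 0 2 fun W =>
            Tm.run [W] (.add (.c lo d) (.sm len d (.v 0))) fun Z => g.run c.2 [Z]) := rfl
      rw [e, fN_eq] at h
      set nx := Nat.add pos (Nat.pow 2 c.1) with hnx
      have h3 : pos < nx := Nat.lt_add_of_pos_right (Nat.pow_pos (by norm_num))
      rw [frc_eq] at h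
      generalize hb : Tm.run _ _ _ = b at h
      cases b with
      | false => exact absurd h Bool.false_ne_true
      | true =>
        by_cases h4 : u * TP ≤ nx
        · obtain ⟨z, hz, hz'⟩ := unit_ok h3 h1 h4
          obtain ⟨Z, hZ, hb⟩ := Tm.run_ok (x := z) (y := 0) (m := [u]) hz (by simp)
            (.cons (by simpa [Mem] using hz') .nil) _ _ hb
          refine g.run_ok c.2 hz 0 _ _ (by simp) (.cons ?_ .nil) hb
          rw [hu]
          exact hZ
        · push Not at h4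
          refine ih nx h h4.le ?_
          have : (nx : ℝ) < TP := h4.trans_le (mul_le_of_le_one_left TP_pos.le u1)
          exact_mod_cast this
  exact key 0 h (by have := TP_pos; push_cast; positivity) (by unfold TP; norm_num)

end Pool.Agent.P.MP_97b9bc_mp.S
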